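import Pool.Agent.Lib.MP_10f401_gt.LZ.SpecC

/-!
# ACV: the sets cover
-/

set_option autoImplicit false
set_option linter.unusedSectionVars false
set_option linter.unusedVariables false

open Set Cardinal

namespace Pool.Agent.LZ

open Classical Pool.Agent.SymExt

namespace AcvAux

variable {T : Type} [Big T]

theorem blk_mono {y : ℕ → RO (Cd T)} {n v : ℕ} {p q : Cd T} (h : Blk y n v p) (hq : q ≤ p) :
    Blk y n v q := by
  intro i hi
  exact ⟨fun h1 => (y (Nat.pair n i)).mono hq ((h i hi).1 h1),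
    fun h1 r hr => (h i hi).2 h1 r (hr.trans hq)⟩

/-- two blocks at the same condition agree -/
theorem blk_digit {y : ℕ → RO (Cd T)} {n v v' : ℕ} {p : Cd T} (h : Blk y n v p)
    (h' : Blk y n v' p) (i : ℕ) (hi : i ≤ n) : v.testBit i = v'.testBit i := by
  rcases hb : v.testBit i with _ | _ <;> rcases hb' : v'.testBit i with _ | _
  · rfl
  · exact absurd ((h' i hi).1 hb') ((h i hi).2 hb p le_rfl)
  · exact absurd ((h i hi).1 hb) ((h' i hi).2 hb' p le_rfl)
  · rfl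

theorem blk_unique {y : ℕ → RO (Cd T)} {n v v' : ℕ} {p : Cd T} (h : Blk y n v p)
    (h' : Blk y n v' p) (hv : v < bb n) (hv' : v' < bb n) : v = v' := by
  apply Nat.eq_of_testBit_eq
  intro i
  rcases le_or_gt i n with hi | hi
  · exact blk_digit h h' i hi
  · have h1 : bb n ≤ 2 ^ i := by
      unfold bb
      exact Nat.pow_le_pow_right (by norm_num) hi
    rw [Nat.testBit_lt_two_pow (hv.trans_le h1), Nat.testBit_lt_two_pow (hv'.trans_le h1)]

/-- deciding the first digits -/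
theorem decide_digits (y : ℕ → RO (Cd T)) (n N : ℕ) (z : Cd T) :
    ∃ z' ≤ z, ∃ v < 2 ^ N, ∀ i < N, (v.testBit i = true → y (Nat.pair n i) z') ∧
      (v.testBit i = false → ∀ q ≤ z', ¬ y (Nat.pair n i) q) := by
  induction N with
  | zero => exact ⟨z, le_rfl, 0, by norm_num, fun i hi => absurd hi (Nat.not_lt_zero i)⟩
  | succ N ih =>
    obtain ⟨z', hz', v, hv, hd⟩ := ih
    by_cases h : ∃ r ≤ z', y (Nat.pair n N) r
    · obtain ⟨r, hr, hyr⟩ := h
      refine ⟨r, hr.trans hz', 2 ^ N + v, ?_, ?_⟩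
      · rw [pow_succ]
        omega
      · intro i hi
        rcases Nat.lt_succ_iff_lt_or_eq.1 hi with hi' | rfl
        · have h2 : (2 ^ N + v).testBit i = v.testBit i := Nat.testBit_two_pow_add_gt hi' v
          rw [h2]
          exact ⟨fun h3 => (y (Nat.pair n i)).mono hr ((hd i hi').1 h3),
            fun h3 q hq => (hd i hi').2 h3 q (hq.trans hr)⟩
        · have h2 : (2 ^ i + v).testBit i = true := by
            rw [Nat.testBit_two_pow_add_eq, Nat.testBit_lt_two_pow hv]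
            rfl
          rw [h2]
          exact ⟨fun _ => hyr, fun h3 => absurd h3 (by decide)⟩
    · push Not at h
      refine ⟨z', hz', v, ?_, ?_⟩
      · rw [pow_succ]
        omega
      · intro i hi
        rcases Nat.lt_succ_iff_lt_or_eq.1 hi with hi' | rfl
        · exact hd i hi'
        · rw [Nat.testBit_lt_two_pow hv]
          exact ⟨fun h3 => absurd h3 (by decide), fun _ q hq => h q hq⟩

/-- the dense open sets -/
def QB (y : ℕ → RO (Cd T)) (n : ℕ) : Set (Cd T) := {z | ∃ v < bb n, Blk y n v z}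

theorem QB_open (y : ℕ → RO (Cd T)) (n : ℕ) : ∀ z ∈ QB y n, ∀ w ≤ z, w ∈ QB y n := by
  rintro z ⟨v, hv, h⟩ w hw
  exact ⟨v, hv, blk_mono h hw⟩

theorem QB_dense (y : ℕ → RO (Cd T)) (n : ℕ) (z : Cd T) : ∃ w ≤ z, w ∈ QB y n := by
  obtain ⟨z', hz', v, hv, h⟩ := decide_digits y n (n + 1) z
  exact ⟨z', hz', v, hv, fun i hi => h i (Nat.lt_succ_of_le hi)⟩

/-- the name of the real -/
def yy (y : ℕ → RO (Cd T)) (d : Cn T) (S : ℕ → Set (Face T)) : Name T := fun n v =>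
  {u | u ∈ S n ∧ v < bb n ∧ ∃ h : u ∈ d.K, Blk y n v ⟨d, u, h⟩}

theorem yy_nm (y : ℕ → RO (Cd T)) (d : Cn T) (S : ℕ → Set (Face T)) (hSD : ∀ n, S n ∈ d.D)
    (hS : ∀ n, ∀ q ∈ S n, ∃ h : q ∈ d.K, (⟨d, q, h⟩ : Cd T) ∈ QB y n) :
    Nm d.K (yy y d S) := by
  refine ⟨?_, ?_, ?_, ?_⟩
  · rintro n v u ⟨_, _, h, _⟩
    exact h
  · intro n v hv
    ext u
    constructor
    · rintro ⟨_, h, _⟩
      exact absurd h (not_lt.2 hv)
    · intro h
      exact absurd h (notMem_empty _)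
  · intro n
    refine ⟨?_, ?_⟩
    · rintro u ⟨v, _, _, h, _⟩
      exact h
    · intro s hs
      obtain ⟨q, hq, hsq⟩ := (d.Dp (S n) (hSD n)).2 s hs
      obtain ⟨hqK, v, hv, hb⟩ := hS n q hq
      exact ⟨q, ⟨v, hq, hv, hqK, hb⟩, hsq⟩
  · rintro n v v' u ⟨_, hv, h, hb⟩ u' ⟨_, hv', h', hb'⟩ huu
    refine blk_unique (y := y) (p := ⟨d, u ∪ u', huu⟩) (blk_mono hb ?_) (blk_mono hb' ?_) hv hv'
    · exact ⟨LeC.refl d, Finset.subset_union_left⟩
    · exact ⟨LeC.refl d, Finset.subset_union_right⟩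

end AcvAux

open AcvAux in
theorem tAcv (T : Type) [Big T] (h1 : S_Mk T) (h2 : S_Lev T) (h3 : S_Fus T) : S_Acv T := by
  intro y p
  obtain ⟨d, hd, hdS⟩ := h3 (QB y) (QB_open y) (QB_dense y) p.c
  choose S hSD hSQ using hdS
  have hnm : Nm d.K (yy y d S) := yy_nm y d S hSD hSQ
  set y' : Name T := yy y d S with hy'
  obtain ⟨d₁, hd₁, hd₁K, hd₁X, _, hd₁Y, _⟩ := h1 d d.K d.cx (Ext.refl d.K d.cx) d.Dp
    ∅ Set.countable_empty (fun S hS => absurd hS (notMem_empty _))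
    {y'} (Set.countable_singleton _) (by
      intro y'' hy''
      rw [mem_singleton_iff] at hy''
      rw [hy'']
      exact hnm)
    ∅ Set.countable_empty (fun o ho => absurd ho (notMem_empty _))
    (fun o ho => absurd ho (notMem_empty _)) ∅ Set.countable_empty
    (fun x m m' hm hm' => by
      rw [Set.union_empty] at hm hm'
      exact d.Xi x m m' hm hm')
    (fun x m hm => absurd hm (notMem_empty _)) (fun e he => absurd he (notMem_empty _))
    (fun e he => absurd he (notMem_empty _))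
  obtain ⟨d₂, hd₂, e, he, hnew⟩ := h2 d₁
  have heX : (e.1, e.2) ∈ d₂.X := he
  obtain ⟨E, hED, hAvd⟩ := hd₂.newY e he (hnew e.2) y' (hd₁Y rfl)
  have hK₂ : Ext d.K d₂.K := by
    have := hd₂.K
    rwa [hd₁K] at this
  have hp₂ : p.p ∈ d₂.K := hK₂.sub (hd.K.sub p.hp)
  obtain ⟨q, hq, hpq⟩ := (d₂.Dp E hED).2 p.p hp₂
  obtain ⟨k, hk⟩ := hAvd q hq
  set r : Cd T := ⟨d₂, p.p ∪ q, hpq⟩ with hr
  have hrp : r ≤ p := ⟨(hd₂.trans hd₁).trans hd, Finset.subset_union_left⟩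
  have hXR : ∀ w ≤ r, (e.1, e.2) ∈ w.c.X := fun w hw => hw.1.X heX
  refine ⟨r, hrp, e.1, k, fun w hw => ⟨w, le_rfl, e.2, hXR w hw⟩, fun w hw => ⟨w, le_rfl, e.2,
    hXR w hw, ?_⟩⟩
  intro n hn r' hr' hB
  have hr'r : r' ≤ r := hr'.trans hw
  have hr'd₁ : LeC r'.c d₁ := hr'r.1.trans hd₂
  have hr'd : LeC r'.c d := hr'd₁.trans hd₁
  obtain ⟨u, huS, hru⟩ := (r'.c.Dp _ (hr'd.D (hSD n))).2 r'.p r'.hp
  obtain ⟨huK, v, hv, hbv⟩ := hSQ n u huS
  have hv' : e.2 n < bb n := d₂.Xb e.1 e.2 heX n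
  have hve : v = e.2 n := by
    refine blk_unique (y := y) (p := ⟨r'.c, r'.p ∪ u, hru⟩) (blk_mono hbv ?_) (blk_mono hB ?_) hv
      hv'
    · exact ⟨hr'd, Finset.subset_union_right⟩
    · exact ⟨LeC.refl _, Finset.subset_union_left⟩
  have huy : u ∈ y' n (e.2 n) := by
    rw [← hve]
    exact ⟨huS, hv, huK, hbv⟩
  apply hk n hn u huy
  have hqr : q ⊆ r'.p := Finset.subset_union_right.trans hr'r.2
  refine hr'r.1.K.union d₂.cx (d₂.cx.down _ hpq _ Finset.subset_union_right) (hK₂.sub huK)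
    (r'.c.cx.down _ hru _ ?_)
  exact Finset.union_subset (hqr.trans Finset.subset_union_left) Finset.subset_union_right

end Pool.Agent.LZ
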