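import Pool.Agent.Lib.MP_10f401_gt.LZ.SpecB

/-!
# Module Amb: basic properties of the amalgam
-/

set_option autoImplicit false
set_option linter.unusedSectionVars false
set_option linter.unusedVariables false

open Set Cardinal

namespace Pool.Agent.LZ

open Classical

namespace AmbAux

variable {T : Type} [Big T] {K₁ K₂ : Set (Face T)} {l β ξ η : T} {f : Name T} {k : ℕ}
  {star : Atom T}

theorem rk_le (h : Am K₁ K₂ l β ξ η f star) {a : Atom T} (h1 : ({a} : Face T) ∈ K₁)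
    (h2 : ({a} : Face T) ∈ K₂) : rk a ≤ l := by
  rcases h.r₂ a h2 with h3 | h3
  · exact h3
  · exact absurd (h.r₁ a h1) (not_lt.2 h3)

theorem sep (h : Am K₁ K₂ l β ξ η f star) {p q : Face T} (hpq : SB K₁ K₂ l p q) :
    (∀ a ∈ q, ({a} : Face T) ∈ K₁ → a ∈ p) ∧ ∀ a ∈ p, ({a} : Face T) ∈ K₂ → a ∈ q := by
  obtain ⟨h1, h2, h3⟩ := hpq
  constructor
  · intro a ha haK
    have h4 : a ∈ cut q l := mem_cut.2 ⟨ha, rk_le h haK (h.cx₂.sing h2.1 ha)⟩
    rw [← h3] at h4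
    exact (mem_cut.1 h4).1
  · intro a ha haK
    have h4 : a ∈ cut p l := mem_cut.2 ⟨ha, rk_le h (h.cx₁.sing h1.1 ha) haK⟩
    rw [h3] at h4
    exact (mem_cut.1 h4).1

theorem down (t : Face T) (ht : t ∈ AK K₁ K₂ l ξ η f k star) (t' : Face T) (h : t' ⊆ t) :
    t' ∈ AK K₁ K₂ l ξ η f k star := by
  obtain ⟨p, q, h1, h2, h3⟩ := ht
  exact ⟨p, q, h1, fun h4 => h2 (h h4), h.trans h3⟩

theorem cnt (h1 : K₁.Countable) (h2 : K₂.Countable) : (AK K₁ K₂ l ξ η f k star).Countable := by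
  refine ((h1.prod h2).biUnion
    (t := fun x _ => (((insert star (x.1 ∪ x.2)).powerset : Finset (Face T)) : Set (Face T)))
    (fun x _ => Finset.countable_toSet _)).mono ?_
  rintro t ⟨p, q, h3, -, h4⟩
  refine mem_iUnion₂.2 ⟨(p, q), ⟨h3.1.1, h3.2.1.1⟩, ?_⟩
  exact Finset.mem_coe.2 (Finset.mem_powerset.2 h4)

theorem sub₁ (h : Am K₁ K₂ l β ξ η f star) : K₁ ⊆ AK K₁ K₂ l ξ η f k star := by
  intro p hp
  obtain ⟨p', h1, h2⟩ := h.cx₁.sr_ext l p hp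
  have h3 : cut p' l ∈ K₂ := (h.com _ (low_cut p' l)).1 (h.cx₁.cut h2.1 l)
  refine ⟨p', cut p' l, ⟨h2, h.cx₂.sr_low l _ h3 (low_cut p' l), (cut_cut le_rfl).symm⟩,
    fun h4 => absurd (h.cx₁.sing hp h4) h.s₁, ?_⟩
  intro a ha
  exact Finset.mem_insert_of_mem (Finset.mem_union_left _ (h1 ha))

theorem sub₂ (h : Am K₁ K₂ l β ξ η f star) : K₂ ⊆ AK K₁ K₂ l ξ η f k star := by
  intro p hp
  obtain ⟨p', h1, h2⟩ := h.cx₂.sr_ext l p hp
  have h3 : cut p' l ∈ K₁ := (h.com _ (low_cut p' l)).2 (h.cx₂.cut h2.1 l)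
  refine ⟨cut p' l, p', ⟨h.cx₁.sr_low l _ h3 (low_cut p' l), h2, cut_cut le_rfl⟩,
    fun h4 => absurd (h.cx₂.sing hp h4) h.s₂, ?_⟩
  intro a ha
  exact Finset.mem_insert_of_mem (Finset.mem_union_right _ (h1 ha))

theorem cases {p q t : Face T} (h : t ⊆ insert star (p ∪ q)) {a : Atom T} (ha : a ∈ t) :
    a = star ∨ a ∈ p ∨ a ∈ q := by
  rcases Finset.mem_insert.1 (h ha) with h1 | h1
  · exact Or.inl h1
  · exact Or.inr (Finset.mem_union.1 h1)

theorem not_star (h : Am K₁ K₂ l β ξ η f star) {α : T} {n v : ℕ} : Atom.st α n v ≠ star := by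
  obtain ⟨ρ, i, h1⟩ := h.spm
  rw [h1]
  intro h2
  injection h2

end AmbAux

open AmbAux

theorem tAmb (T : Type) [Big T] : S_Amb T := by
  intro K₁ K₂ l β ξ η f k star h
  refine ⟨sub₁ h h.cx₁.empty, down, cnt h.cx₁.cnt h.cx₂.cnt, sub₁ h, sub₂ h, ?_, ?_, ?_, ?_,
    fun p q hpq => sep h hpq⟩
  · rintro t ⟨p, q, h1, -, h3⟩ ht
    refine h.cx₁.down p h1.1.1 t fun a ha => ?_
    rcases cases h3 ha with h4 | h4 | h4
    · exact absurd (ht a ha) (by rw [h4]; exact h.s₁)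
    · exact h4
    · exact (sep h h1).1 a h4 (ht a ha)
  · rintro t ⟨p, q, h1, -, h3⟩ ht
    refine h.cx₂.down q h1.2.1.1 t fun a ha => ?_
    rcases cases h3 ha with h4 | h4 | h4
    · exact absurd (ht a ha) (by rw [h4]; exact h.s₂)
    · exact (sep h h1).2 a h4 (ht a ha)
    · exact h4
  · rintro t ⟨p, q, h1, -, h3⟩ α n v ha
    rcases cases h3 ha with h4 | h4 | h4
    · exact absurd h4 (not_star h)
    · exact Or.inl (h.cx₁.stem h1.1.1 h4)
    · exact Or.inr (h.cx₂.stem h1.2.1.1 h4)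
  · rintro t ⟨p, q, h1, -, h3⟩ α n v v' ha ha'
    rcases cases h3 ha with h4 | h4 | h4
    · exact absurd h4 (not_star h)
    · rcases cases h3 ha' with h5 | h5 | h5
      · exact absurd h5 (not_star h)
      · exact h.cx₁.st_fun p h1.1.1 α n v v' h4 h5
      · exact h.cx₁.st_fun p h1.1.1 α n v v' h4
          ((sep h h1).1 _ h5 (h.cx₁.st_all _ _ _ _ _ (h.cx₁.sing h1.1.1 h4)))
    · rcases cases h3 ha' with h5 | h5 | h5
      · exact absurd h5 (not_star h)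
      · exact h.cx₁.st_fun p h1.1.1 α n v v'
          ((sep h h1).1 _ h4 (h.cx₁.st_all _ _ _ _ _ (h.cx₁.sing h1.1.1 h5))) h5
      · exact h.cx₂.st_fun q h1.2.1.1 α n v v' h4 h5

end Pool.Agent.LZ
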