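import Pool.Agent.Lib.MP_10f401_gt.LZ.SpecB

/-!
# Low faces of the amalgam are strong reductions
-/

set_option autoImplicit false
set_option linter.unusedSectionVars false
set_option linter.unusedVariables false

open Set Cardinal

namespace Pool.Agent.LZ

open Classical

namespace AmlAux

variable {T : Type} [Big T] {K₁ K₂ : Set (Face T)} {l β ξ η : T} {f : Name T} {star : Atom T}

theorem ns₁ (ham : Am K₁ K₂ l β ξ η f star) {p : Face T} (hp : p ∈ K₁) : star ∉ p := fun h =>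
  ham.s₁ (ham.cx₁.sing hp h)

theorem ns₂ (ham : Am K₁ K₂ l β ξ η f star) {p : Face T} (hp : p ∈ K₂) : star ∉ p := fun h =>
  ham.s₂ (ham.cx₂.sing hp h)

theorem low_sing {α m : T} (h : α ≤ m) : Low m ({Atom.st α 0 0} : Face T) := by
  intro a ha
  rw [Finset.mem_singleton.1 ha]
  exact h

end AmlAux

open AmlAux in
theorem tAml (T : Type) [Big T] (h1 : S_Ed T) (h2 : S_Amb T) (h3 : S_Amq T) : S_Aml T := by
  intro K₁ K₂ l β ξ η f k star ham lam t ht htl
  obtain ⟨hb1, hb2, hb3, hb4, hb5, hb6, hb7, hb8, hb9, hb10⟩ := h2 K₁ K₂ l β ξ η f k star ham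
  refine ⟨ht, ?_⟩
  intro Q hQ hQl hcQ F hF N v₀
  rw [cut_of_low htl] at hcQ
  rcases lt_or_ge lam β with hlam | hlam
  · have hQ₁ : Q ∈ K₁ := (h3 K₁ K₂ l β ξ η f k star ham lam Q hQ hQl).1 hlam
    have hF₁ : Abv K₁ lam (F.filter fun α => Stem K₁ α) := fun α hα =>
      ⟨(hF α (Finset.mem_filter.1 hα).1).1, (Finset.mem_filter.1 hα).2⟩
    have hF₂ : Abv K₂ l (F.filter fun α => ¬ Stem K₁ α) := by
      intro α hα
      obtain ⟨h5, h6⟩ := Finset.mem_filter.1 hα
      refine ⟨?_, ?_⟩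
      · by_contra h7
        rcases hb8 _ (hF α h5).2 α 0 0 (Finset.mem_singleton_self _) with h8 | h8
        · exact h6 h8
        · exact h6 ((ham.com _ (low_sing (not_lt.1 h7))).2 h8)
      · rcases hb8 _ (hF α h5).2 α 0 0 (Finset.mem_singleton_self _) with h8 | h8
        · exact absurd h8 h6
        · exact h8
    obtain ⟨r, hr, hr1, -, hr3⟩ := (ham.cx₁.sr_low lam Q hQ₁ hQl).2 Q hQ₁ hQl
      (cut_sub Q lam) _ hF₁ N v₀
    obtain ⟨p₁, hp₁, hSR₁⟩ := ham.cx₁.sr_ext l r hr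
    have hs : cut p₁ l ∈ K₂ := (ham.com _ (low_cut p₁ l)).1 (ham.cx₁.cut hSR₁.1 l)
    have hSB : SB K₁ K₂ l p₁ (cut p₁ l) := ⟨hSR₁, ham.cx₂.sr_low l _ hs (low_cut p₁ l),
      (cut_of_low (low_cut p₁ l)).symm⟩
    obtain ⟨p'', q'', h5, h6, h7, -, h9⟩ := h1 K₁ K₂ l ξ η f k False ham.toTw p₁ (cut p₁ l) hSB
      (fun h => h.elim) (fun h => h.elim) p₁ hSR₁.1 (Finset.Subset.refl _) _ hF₂ N v₀
    refine ⟨p'' ∪ q'', ⟨p'', q'', h7, fun hs => ?_, Finset.subset_insert _ _⟩, ?_, ?_, ?_⟩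
    · rcases Finset.mem_union.1 hs with hs | hs
      · exact absurd hs (ns₁ ham h7.1.1)
      · exact absurd hs (ns₂ ham h7.2.1.1)
    · exact (((hcQ.trans hr1).trans hp₁).trans h5).trans Finset.subset_union_left
    · exact ((hr1.trans hp₁).trans h5).trans Finset.subset_union_left
    · intro α hα n hn
      by_cases h10 : Stem K₁ α
      · rcases hr3 α (Finset.mem_filter.2 ⟨hα, h10⟩) n hn with h11 | ⟨v, hv, h11⟩
        · exact absurd h11 (not_decSt_of_low hQl (hF α hα).1)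
        · exact Or.inr ⟨v, hv, Finset.mem_union_left _ (h5 (hp₁ h11))⟩
      · rcases h9 α (Finset.mem_filter.2 ⟨hα, h10⟩) n hn with h11 | ⟨v, hv, h11⟩
        · exact absurd h11 (not_decSt_of_low (low_cut p₁ l)
            (hF₂ α (Finset.mem_filter.2 ⟨hα, h10⟩)).1)
        · exact Or.inr ⟨v, hv, Finset.mem_union_right _ h11⟩
  · have hF₂ : Abv K₂ lam F := by
      intro α hα
      obtain ⟨h5, h6⟩ := hF α hα
      refine ⟨h5, ?_⟩
      rcases hb8 _ h6 α 0 0 (Finset.mem_singleton_self _) with h7 | h7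
      · have h8 : α < β := ham.r₁ _ h7
        exact absurd (h5.trans (h8.trans_le hlam)) (lt_irrefl _)
      · exact h7
    obtain ⟨p, q, hSB, hCC, hQs, hql, hext⟩ :=
      (h3 K₁ K₂ l β ξ η f k star ham lam Q hQ hQl).2 hlam
    obtain ⟨r, hr, hr1, -, hr3⟩ := (ham.cx₂.sr_low lam q hSB.2.1.1 hql).2 q hSB.2.1.1 hql
      (cut_sub q lam) F hF₂ N v₀
    obtain ⟨p'', q'', h5, h6, h7, h8⟩ := hext r hr hr1
    have e1 : insert star (p ∪ q) ⊆ insert star (p'' ∪ q'') :=
      Finset.insert_subset_insert _ (Finset.union_subset_union h5 (hr1.trans h6))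
    refine ⟨Q ∪ p'' ∪ q'', ⟨p'', q'', h7, fun hs => ?_, ?_⟩, ?_, ?_, ?_⟩
    · refine h8 ?_
      have h9 : star ∉ p'' := ns₁ ham h7.1.1
      have h10 : star ∉ q'' := ns₂ ham h7.2.1.1
      simpa only [Finset.mem_union, h9, h10, or_false] using hs
    · refine Finset.union_subset (Finset.union_subset (hQs.trans e1) ?_) ?_
      · exact Finset.subset_union_left.trans (Finset.subset_insert _ _)
      · exact Finset.subset_union_right.trans (Finset.subset_insert _ _)
    · exact hcQ.trans (Finset.subset_union_left.trans Finset.subset_union_left)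
    · exact Finset.subset_union_left.trans Finset.subset_union_left
    · intro α hα n hn
      rcases hr3 α hα n hn with h9 | ⟨v, hv, h9⟩
      · exact absurd h9 (not_decSt_of_low hql (hF α hα).1)
      · exact Or.inr ⟨v, hv, Finset.mem_union_right _ (h6 h9)⟩

end Pool.Agent.LZ
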