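import Pool.Agent.Lib.MP_10f401_gt.LZ.SpecB

/-!
# Module Amp: predense sets in the amalgam
-/

set_option autoImplicit false
set_option linter.unusedSectionVars false

open Set Cardinal

namespace Pool.Agent.LZ

open Classical

namespace AmpAux

variable {T : Type} [Big T]

theorem aux (h1 : S_Dl T) (h2 : S_Ed T) {K₁ K₂ : Set (Face T)} {l ξ η : T} {f : Name T} {k : ℕ}
    {e : Prop} (tw : Tw K₁ K₂ l ξ η f) {p q : Face T} (hsb : SB K₁ K₂ l p q)
    (hcc : e → CC l ξ η f k p q) {S : Set (Face T)} (hS : Pd K₁ S) :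
    ∃ d ∈ S, ∃ p'' q'', p ⊆ p'' ∧ q ⊆ q'' ∧ d ⊆ p'' ∧ SB K₁ K₂ l p'' q'' ∧
      (e → CC l ξ η f k p'' q'') := by
  obtain ⟨p', q', hp, hq, hsb', hcc', hdom⟩ := h1 K₁ K₂ l ξ η f k e tw p q hsb hcc
  obtain ⟨d, hd, hpd⟩ := hS.2 p' hsb'.1.1
  obtain ⟨p'', q'', hp'', hq'', hsb'', hcc'', _⟩ := h2 K₁ K₂ l ξ η f k e tw p' q' hsb' hcc'
    (fun _ => hdom) (p' ∪ d) hpd Finset.subset_union_left ∅
    (fun α hα => absurd hα (Finset.notMem_empty _)) 0 0
  exact ⟨d, hd, p'', q'', hp.trans (Finset.subset_union_left.trans hp''), hq.trans hq'',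
    Finset.subset_union_right.trans hp'', hsb'', hcc''⟩

theorem ins_sub {star : Atom T} {t d p q p'' q'' : Face T} (ht : t ⊆ insert star (p ∪ q))
    (hp : p ⊆ p'') (hq : q ⊆ q'') (hd : d ⊆ p'' ∪ q'') : t ∪ d ⊆ insert star (p'' ∪ q'') := by
  refine Finset.union_subset (ht.trans ?_) (hd.trans (Finset.subset_insert _ _))
  exact Finset.insert_subset_insert _ (Finset.union_subset_union hp hq)

end AmpAux

open AmpAux

theorem tAmp (T : Type) [Big T] (h1 : S_Dl T) (h2 : S_Ed T) (h3 : S_Amb T) : S_Amp T := by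
  intro K₁ K₂ l β ξ η f k star am S
  have tw : Tw K₁ K₂ l ξ η f := am.toTw
  obtain ⟨_, _, _, hK1, hK2, _⟩ := h3 K₁ K₂ l β ξ η f k star am
  refine ⟨fun hS => ⟨hS.1.trans hK1, ?_⟩, fun hS => ⟨hS.1.trans hK2, ?_⟩⟩
  · rintro t ⟨p, q, hsb, hcc, ht⟩
    obtain ⟨d, hd, p'', q'', hp, hq, hdp, hsb'', hcc''⟩ := aux h1 h2 tw hsb hcc hS
    refine ⟨d, hd, p'', q'', hsb'', fun h => hcc'' ?_,
      ins_sub ht hp hq (hdp.trans Finset.subset_union_left)⟩
    rcases Finset.mem_union.1 h with h | h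
    · exact h
    · exact absurd (tw.cx₁.sing (hS.1 hd) h) am.s₁
  · rintro t ⟨p, q, hsb, hcc, ht⟩
    obtain ⟨d, hd, q'', p'', hq, hp, hdq, hsb'', hcc''⟩ := aux h1 h2 tw.symm hsb.symm
      (e := star ∈ t) (k := k) (fun h => (hcc h).symm hsb.2.2) hS
    refine ⟨d, hd, p'', q'', hsb''.symm, fun h => (hcc'' ?_).symm hsb''.2.2,
      ins_sub ht hp hq (hdq.trans Finset.subset_union_right)⟩
    rcases Finset.mem_union.1 h with h | h
    · exact h
    · exact absurd (tw.cx₂.sing (hS.1 hd) h) am.s₂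

end Pool.Agent.LZ
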