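import Pool.Agent.Lib.MP_10f401_gt.LZ.SpecB

/-!
# Module AMQ: normal form of low faces of the amalgam (helper85)
-/

set_option autoImplicit false
set_option linter.unusedSectionVars false
set_option linter.unusedVariables false

open Set Cardinal

namespace Pool.Agent.LZ

open Classical

namespace AmqAux

variable {T : Type} [Big T]

/-- the first argument of an atom -/
def ar : Atom T → ℕ
  | .st _ n _ => n
  | .pm _ _ => 0

theorem fin_dec (p : Face T) (α : T) : ∃ M : Finset ℕ, ∀ n, DecSt p α n → n ∈ M := by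
  refine ⟨p.image ar, ?_⟩
  rintro n ⟨v, hv⟩
  exact Finset.mem_image.2 ⟨_, hv, rfl⟩

theorem abv_empty (K : Set (Face T)) (l : T) : Abv K l ∅ := fun _ h =>
  absurd h (Finset.notMem_empty _)

theorem mem_of_low {p s : Face T} {l ξ : T} {n a : ℕ} (hs : Low l s) (hl : l < ξ)
    (h : Atom.st ξ n a ∈ p ∪ s) : Atom.st ξ n a ∈ p := by
  rcases Finset.mem_union.1 h with h | h
  · exact h
  · exact absurd (hs _ h) (not_le.2 hl)

theorem low_sub_cut {s p : Face T} {l : T} (hs : Low l s) (h : s ⊆ p) : s ⊆ cut p l := fun a ha =>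
  mem_cut.2 ⟨h ha, hs a ha⟩

end AmqAux

open AmqAux in
theorem tAmq (T : Type) [Big T] (h1 : S_Dl T) (h2 : S_Ed T) (h3 : S_Amb T) : S_Amq T := by
  intro K₁ K₂ l β ξ η f k star hA lam Q hQ hQl
  obtain ⟨p, q, hSB, hCC, hQs⟩ := hQ
  have hT : Tw K₁ K₂ l ξ η f := hA.toTw
  have hT' : Tw K₂ K₁ l η ξ f := hT.symm
  have hlβ : l < β := hT.lt₁.trans (hA.r₁ _ hT.st₁)
  refine ⟨fun hlb => ?_, fun hβ => ?_⟩
  · refine hT.cx₁.down p hSB.1.1 Q ?_
    intro a ha
    have hra : rk a < β := (hQl a ha).trans_lt hlb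
    rcases Finset.mem_insert.1 (hQs ha) with h | h
    · rw [h, hA.srk] at hra
      exact absurd hra (not_lt.2 hA.ge)
    · rcases Finset.mem_union.1 h with h | h
      · exact h
      · rcases hA.r₂ a (hT.cx₂.sing hSB.2.1.1 h) with h6 | h6
        · have h7 : a ∈ cut q l := mem_cut.2 ⟨h, h6⟩
          rw [← hSB.2.2] at h7
          exact cut_sub _ _ h7
        · exact absurd hra (not_lt.2 h6)
  · have hll : l < lam := hlβ.trans_le hβ
    -- domination if `star ∈ Q`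
    obtain ⟨p₁, q₁, hpp, hqq, hSB1, hCC1, hdom1⟩ : ∃ p₁ q₁, p ⊆ p₁ ∧ q ⊆ q₁ ∧ SB K₁ K₂ l p₁ q₁ ∧
        (star ∈ Q → CC l ξ η f k p₁ q₁) ∧ (star ∈ Q → ∀ n, DecSt p₁ ξ n → DecSt q₁ η n) := by
      obtain ⟨q₁, p₁, h6, h7, h8, h9, h10⟩ := h1 K₂ K₁ l η ξ f k (star ∈ Q) hT' q p hSB.symm
        (fun he => (hCC he).symm hSB.2.2)
      exact ⟨p₁, q₁, h7, h6, h8.symm, fun he => (h9 he).symm h8.2.2, fun _ => h10⟩
    have hSRc : SR K₂ l (cut q₁ lam) := SR.cut hT.cx₂ hll.le hSB1.2.1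
    have hSB2 : SB K₁ K₂ l p₁ (cut q₁ lam) := ⟨hSB1.1, hSRc, by
      rw [cut_cut hll.le]; exact hSB1.2.2⟩
    have hCC2 : star ∈ Q → CC l ξ η f k p₁ (cut q₁ lam) := fun he n hn a b ha hb =>
      hCC1 he n hn a b ha (cut_sub _ _ hb)
    refine ⟨p₁, cut q₁ lam, hSB2, hCC2, ?_, low_cut _ _, ?_⟩
    · intro a ha
      rcases Finset.mem_insert.1 (hQs ha) with h | h
      · rw [h]; exact Finset.mem_insert_self _ _
      · rcases Finset.mem_union.1 h with h | h
        · exact Finset.mem_insert_of_mem (Finset.mem_union_left _ (hpp h))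
        · exact Finset.mem_insert_of_mem (Finset.mem_union_right _
            (mem_cut.2 ⟨hqq h, hQl a ha⟩))
    · intro q' hq' hqq'
      have hdom2 : star ∈ Q → ∀ n, DecSt p₁ ξ n → DecSt (cut q₁ lam) η n := by
        intro he n hd
        obtain ⟨b, hb⟩ := hdom1 he n hd
        refine ⟨b, mem_cut.2 ⟨hb, ?_⟩⟩
        have h6 := hQl _ he
        rw [hA.srk] at h6
        exact h6
      obtain ⟨q'', p'', h6, h7, h8, h9, -⟩ := h2 K₂ K₁ l η ξ f k (star ∈ Q) hT' (cut q₁ lam) p₁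
        hSB2.symm (fun he => (hCC2 he).symm hSB2.2.2) hdom2 q' hq' hqq' ∅ (abv_empty _ _) 0 0
      exact ⟨p'', q'', h7, h6, h8.symm, fun he => (h9 he).symm h8.2.2⟩

end Pool.Agent.LZ
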