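import Pool.Agent.Lib.MP_10f401_gt.LZ.SpecB

/-!
# AMS: strong reductions of the first complex stay strong reductions (helper50)
-/

set_option autoImplicit false
set_option linter.unusedSectionVars false
set_option linter.unusedVariables false

open Set Cardinal

namespace Pool.Agent.LZ

open Classical

theorem tAms (T : Type) [Big T] (h1 : S_Ed T) (h2 : S_Amb T) (h3 : S_Amq T) (h4 : S_Aml T) :
    S_Ams T := by
  intro K₁ K₂ l β ξ η f k star hAm lam p hp
  obtain ⟨-, -, -, b4, -, -, -, b8, -, -⟩ := h2 K₁ K₂ l β ξ η f k star hAm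
  rcases le_or_gt β lam with hl | hl
  · exact h4 K₁ K₂ l β ξ η f k star hAm lam p (b4 hp.1)
      fun a ha => ((hAm.r₁ a (hAm.cx₁.sing hp.1 ha)).trans_le hl).le
  · refine ⟨b4 hp.1, fun Q hQ hQl hQc F hF N v₀ => ?_⟩
    have hQ1 : Q ∈ K₁ := (h3 K₁ K₂ l β ξ η f k star hAm lam Q hQ hQl).1 hl
    obtain ⟨r, hr, hpr, hQr, hL⟩ := hp.2 Q hQ1 hQl hQc (F.filter fun α => Stem K₁ α)
      (fun α hα => ⟨(hF α (Finset.mem_filter.1 hα).1).1, (Finset.mem_filter.1 hα).2⟩) N v₀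
    obtain ⟨p₁, hrp, hsr⟩ := hAm.cx₁.sr_ext l r hr
    have hSB : SB K₁ K₂ l p₁ (cut p₁ l) :=
      ⟨hsr, hAm.cx₂.sr_low l _ ((hAm.com _ (low_cut p₁ l)).1 (hAm.cx₁.cut hsr.1 l))
        (low_cut p₁ l), (cut_cut le_rfl).symm⟩
    have hF2 : Abv K₂ l (F.filter fun α => ¬ Stem K₁ α) := by
      intro α hα
      obtain ⟨hα1, hα2⟩ := Finset.mem_filter.1 hα
      have hs : Stem K₂ α :=
        (b8 _ (hF α hα1).2 α 0 0 (Finset.mem_singleton_self _)).resolve_left hα2
      refine ⟨?_, hs⟩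
      by_contra hc
      refine hα2 ((hAm.com _ ?_).2 hs)
      intro a ha
      rw [Finset.mem_singleton.1 ha]
      exact not_lt.1 hc
    obtain ⟨p'', q'', h5, h6, h7, -, h8⟩ := h1 K₁ K₂ l ξ η f k False hAm.toTw p₁ (cut p₁ l) hSB
      (fun h => h.elim) (fun h => h.elim) p₁ hsr.1 (Finset.Subset.refl _)
      (F.filter fun α => ¬ Stem K₁ α) hF2 N v₀
    refine ⟨p'' ∪ q'', ⟨p'', q'', h7, fun h => ?_, Finset.subset_insert _ _⟩,
      (hpr.trans (hrp.trans h5)).trans Finset.subset_union_left,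
      (hQr.trans (hrp.trans h5)).trans Finset.subset_union_left, ?_⟩
    · rcases Finset.mem_union.1 h with h9 | h9
      · exact absurd (hAm.cx₁.sing h7.1.1 h9) hAm.s₁
      · exact absurd (hAm.cx₂.sing h7.2.1.1 h9) hAm.s₂
    · intro α hα n hn
      by_cases hs : Stem K₁ α
      · rcases hL α (Finset.mem_filter.2 ⟨hα, hs⟩) n hn with h9 | ⟨v, hv, h9⟩
        · exact Or.inl h9
        · exact Or.inr ⟨v, hv, Finset.mem_union_left _ (h5 (hrp h9))⟩
      · have hα' : α ∈ F.filter (fun α => ¬ Stem K₁ α) := Finset.mem_filter.2 ⟨hα, hs⟩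
        rcases h8 α hα' n hn with h9 | ⟨v, hv, h9⟩
        · exact absurd h9 (not_decSt_of_low (low_cut p₁ l) (hF2 α hα').1)
        · exact Or.inr ⟨v, hv, Finset.mem_union_right _ h9⟩

end Pool.Agent.LZ
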