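import Pool.Agent.Lib.MP_10f401_gt.LZ.SpecB

/-!
# Strong reductions of `K₂` stay strong reductions in the amalgam
-/

set_option autoImplicit false
set_option linter.unusedSectionVars false
set_option linter.unusedVariables false

open Set Cardinal

namespace Pool.Agent.LZ

open Classical

namespace AmtAux

variable {T : Type} [Big T] {K₁ K₂ : Set (Face T)} {l β ξ η : T} {f : Name T} {star : Atom T}

theorem ns₁ (ham : Am K₁ K₂ l β ξ η f star) {p : Face T} (hp : p ∈ K₁) : star ∉ p := fun h =>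
  ham.s₁ (ham.cx₁.sing hp h)

theorem ns₂ (ham : Am K₁ K₂ l β ξ η f star) {p : Face T} (hp : p ∈ K₂) : star ∉ p := fun h =>
  ham.s₂ (ham.cx₂.sing hp h)

theorem low_sing {α m : T} (h : α ≤ m) : Low m ({Atom.st α 0 0} : Face T) := by
  intro a ha
  rw [Finset.mem_singleton.1 ha]
  exact h

end AmtAux

open AmtAux in
theorem tAmt (T : Type) [Big T] (h1 : S_Ed T) (h2 : S_Amb T) (h3 : S_Amq T) : S_Amt T := by
  intro K₁ K₂ l β ξ η f k star ham lam q₀ hSR₀
  obtain ⟨hb1, hb2, hb3, hb4, hb5, hb6, hb7, hb8, hb9, hb10⟩ := h2 K₁ K₂ l β ξ η f k star ham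
  refine ⟨hb5 hSR₀.1, ?_⟩
  intro Q hQ hQl hcQ F hF N v₀
  rcases lt_or_ge lam β with hlam | hlam
  · have hQ₁ : Q ∈ K₁ := (h3 K₁ K₂ l β ξ η f k star ham lam Q hQ hQl).1 hlam
    rcases le_or_gt lam l with hll | hll
    · -- `lam ≤ l`
      have hQ₂ : Q ∈ K₂ := (ham.com Q (hQl.le hll)).1 hQ₁
      have hF₂ : Abv K₂ lam (F.filter fun α => Stem K₂ α) := fun α hα =>
        ⟨(hF α (Finset.mem_filter.1 hα).1).1, (Finset.mem_filter.1 hα).2⟩
      have hF₁ : Abv K₁ l (F.filter fun α => ¬ Stem K₂ α) := by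
        intro α hα
        obtain ⟨h5, h6⟩ := Finset.mem_filter.1 hα
        refine ⟨?_, ?_⟩
        · by_contra h7
          rcases hb8 _ (hF α h5).2 α 0 0 (Finset.mem_singleton_self _) with h8 | h8
          · exact h6 ((ham.com _ (low_sing (not_lt.1 h7))).1 h8)
          · exact h6 h8
        · rcases hb8 _ (hF α h5).2 α 0 0 (Finset.mem_singleton_self _) with h8 | h8
          · exact h8
          · exact absurd h8 h6
      obtain ⟨r, hr, hr1, hr2, hr3⟩ := hSR₀.2 Q hQ₂ hQl hcQ _ hF₂ N v₀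
      obtain ⟨q₁, hq₁, hSR₁⟩ := ham.cx₂.sr_ext l r hr
      have hs : cut q₁ l ∈ K₁ := (ham.com _ (low_cut q₁ l)).2 (ham.cx₂.cut hSR₁.1 l)
      have hSB : SB K₂ K₁ l q₁ (cut q₁ l) := ⟨hSR₁, ham.cx₁.sr_low l _ hs (low_cut q₁ l),
        (cut_of_low (low_cut q₁ l)).symm⟩
      obtain ⟨q'', p'', h5, h6, h7, -, h9⟩ := h1 K₂ K₁ l η ξ f k False ham.toTw.symm q₁
        (cut q₁ l) hSB (fun h => h.elim) (fun h => h.elim) q₁ hSR₁.1 (Finset.Subset.refl _) _
        hF₁ N v₀
      refine ⟨p'' ∪ q'', ⟨p'', q'', h7.symm, fun hs => ?_, Finset.subset_insert _ _⟩, ?_, ?_, ?_⟩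
      · rcases Finset.mem_union.1 hs with hs | hs
        · exact absurd hs (ns₁ ham h7.2.1.1)
        · exact absurd hs (ns₂ ham h7.1.1)
      · exact ((hr1.trans hq₁).trans h5).trans Finset.subset_union_right
      · exact ((hr2.trans hq₁).trans h5).trans Finset.subset_union_right
      · intro α hα n hn
        by_cases h10 : Stem K₂ α
        · rcases hr3 α (Finset.mem_filter.2 ⟨hα, h10⟩) n hn with h11 | ⟨v, hv, h11⟩
          · exact Or.inl h11
          · exact Or.inr ⟨v, hv, Finset.mem_union_right _ (h5 (hq₁ h11))⟩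
        · rcases h9 α (Finset.mem_filter.2 ⟨hα, h10⟩) n hn with h11 | ⟨v, hv, h11⟩
          · exact absurd h11 (not_decSt_of_low (low_cut q₁ l)
              (hF₁ α (Finset.mem_filter.2 ⟨hα, h10⟩)).1)
          · exact Or.inr ⟨v, hv, Finset.mem_union_left _ h11⟩
    · -- `l < lam < β`
      have hlow : ∀ a, ({a} : Face T) ∈ K₂ → rk a ≤ lam → rk a ≤ l := by
        intro a ha h5
        rcases ham.r₂ a ha with h6 | h6
        · exact h6
        · exact absurd (h6.trans h5) (not_le.2 hlam)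
      have hcut : cut q₀ lam = cut q₀ l := by
        ext a
        simp only [mem_cut]
        exact ⟨fun h5 => ⟨h5.1, hlow a (ham.cx₂.sing hSR₀.1 h5.1) h5.2⟩,
          fun h5 => ⟨h5.1, h5.2.trans hll.le⟩⟩
      have hSRl : SR K₂ l q₀ := by
        refine ⟨hSR₀.1, ?_⟩
        intro Q' hQ' hQl' hcQ' F' hF' N' v'
        refine hSR₀.2 Q' hQ' (hQl'.le hll.le) (by rw [hcut]; exact hcQ') F' ?_ N' v'
        intro α hα
        obtain ⟨h5, h6⟩ := hF' α hα
        refine ⟨?_, h6⟩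
        rcases ham.r₂ _ h6 with h7 | h7
        · exact absurd (h5.trans_le h7) (lt_irrefl _)
        · exact hlam.trans_le h7
      have hF₁ : Abv K₁ lam (F.filter fun α => Stem K₁ α) := fun α hα =>
        ⟨(hF α (Finset.mem_filter.1 hα).1).1, (Finset.mem_filter.1 hα).2⟩
      have hF₂ : Abv K₂ l (F.filter fun α => ¬ Stem K₁ α) := by
        intro α hα
        obtain ⟨h5, h6⟩ := Finset.mem_filter.1 hα
        refine ⟨hll.trans (hF α h5).1, ?_⟩
        rcases hb8 _ (hF α h5).2 α 0 0 (Finset.mem_singleton_self _) with h8 | h8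
        · exact absurd h8 h6
        · exact h8
      obtain ⟨r, hr, hr1, -, hr3⟩ := (ham.cx₁.sr_low lam Q hQ₁ hQl).2 Q hQ₁ hQl
        (cut_sub Q lam) _ hF₁ N v₀
      obtain ⟨p₁, hp₁, hSR₁⟩ := ham.cx₁.sr_ext l r hr
      have hs : cut p₁ l ∈ K₂ := (ham.com _ (low_cut p₁ l)).1 (ham.cx₁.cut hSR₁.1 l)
      have hqs : cut q₀ l ⊆ cut p₁ l := by
        intro a ha
        refine mem_cut.2 ⟨hp₁ (hr1 (hcQ ?_)), (mem_cut.1 ha).2⟩
        rw [hcut]
        exact ha
      obtain ⟨hSR₂, hc₂⟩ := hSRl.up ham.cx₂ hs (low_cut p₁ l) hqs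
      have hSB : SB K₁ K₂ l p₁ (q₀ ∪ cut p₁ l) := ⟨hSR₁, hSR₂, hc₂.symm⟩
      obtain ⟨p'', q'', h5, h6, h7, -, h9⟩ := h1 K₁ K₂ l ξ η f k False ham.toTw p₁ _ hSB
        (fun h => h.elim) (fun h => h.elim) p₁ hSR₁.1 (Finset.Subset.refl _) _ hF₂ N v₀
      refine ⟨p'' ∪ q'', ⟨p'', q'', h7, fun hs => ?_, Finset.subset_insert _ _⟩, ?_, ?_, ?_⟩
      · rcases Finset.mem_union.1 hs with hs | hs
        · exact absurd hs (ns₁ ham h7.1.1)
        · exact absurd hs (ns₂ ham h7.2.1.1)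
      · exact (Finset.subset_union_left.trans h6).trans Finset.subset_union_right
      · exact ((hr1.trans hp₁).trans h5).trans Finset.subset_union_left
      · intro α hα n hn
        by_cases h10 : Stem K₁ α
        · rcases hr3 α (Finset.mem_filter.2 ⟨hα, h10⟩) n hn with h11 | ⟨v, hv, h11⟩
          · exact absurd h11 (not_decSt_of_low hQl (hF α hα).1)
          · exact Or.inr ⟨v, hv, Finset.mem_union_left _ (h5 (hp₁ h11))⟩
        · have h12 := hF₂ α (Finset.mem_filter.2 ⟨hα, h10⟩)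
          rcases h9 α (Finset.mem_filter.2 ⟨hα, h10⟩) n hn with ⟨v, h11⟩ | ⟨v, hv, h11⟩
          · rcases Finset.mem_union.1 h11 with h11 | h11
            · exact Or.inl ⟨v, h11⟩
            · exact absurd ⟨v, h11⟩ (not_decSt_of_low (low_cut p₁ l) h12.1)
          · exact Or.inr ⟨v, hv, Finset.mem_union_right _ h11⟩
  · have hF₂ : Abv K₂ lam F := by
      intro α hα
      obtain ⟨h5, h6⟩ := hF α hα
      refine ⟨h5, ?_⟩
      rcases hb8 _ h6 α 0 0 (Finset.mem_singleton_self _) with h7 | h7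
      · have h8 : α < β := ham.r₁ _ h7
        exact absurd (h5.trans (h8.trans_le hlam)) (lt_irrefl _)
      · exact h7
    obtain ⟨p, q, hSB, hCC, hQs, hql, hext⟩ :=
      (h3 K₁ K₂ l β ξ η f k star ham lam Q hQ hQl).2 hlam
    have hb := hb10 p q hSB
    have hq₀ : cut q₀ lam ⊆ q := by
      intro a ha
      obtain ⟨ha0, hal⟩ := mem_cut.1 ha
      have ha1 : ({a} : Face T) ∈ K₂ := ham.cx₂.sing hSR₀.1 ha0
      rcases Finset.mem_insert.1 (hQs (hcQ ha)) with h5 | h5
      · exact absurd (h5 ▸ ha0) (ns₂ ham hSR₀.1)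
      · rcases Finset.mem_union.1 h5 with h5 | h5
        · exact hb.2 a h5 ha1
        · exact h5
    obtain ⟨r, hr, hr1, hr2, hr3⟩ := hSR₀.2 q hSB.2.1.1 hql hq₀ F hF₂ N v₀
    obtain ⟨p'', q'', h5, h6, h7, h8⟩ := hext r hr hr2
    have e1 : insert star (p ∪ q) ⊆ insert star (p'' ∪ q'') :=
      Finset.insert_subset_insert _ (Finset.union_subset_union h5 (hr2.trans h6))
    refine ⟨Q ∪ p'' ∪ q'', ⟨p'', q'', h7, fun hs => ?_, ?_⟩, ?_, ?_, ?_⟩
    · refine h8 ?_
      have h9 : star ∉ p'' := ns₁ ham h7.1.1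
      have h10 : star ∉ q'' := ns₂ ham h7.2.1.1
      simpa only [Finset.mem_union, h9, h10, or_false] using hs
    · refine Finset.union_subset (Finset.union_subset (hQs.trans e1) ?_) ?_
      · exact Finset.subset_union_left.trans (Finset.subset_insert _ _)
      · exact Finset.subset_union_right.trans (Finset.subset_insert _ _)
    · exact (hr1.trans h6).trans Finset.subset_union_right
    · exact Finset.subset_union_left.trans Finset.subset_union_left
    · intro α hα n hn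
      rcases hr3 α hα n hn with h9 | ⟨v, hv, h9⟩
      · exact Or.inl h9
      · exact Or.inr ⟨v, hv, Finset.mem_union_right _ (h6 h9)⟩

end Pool.Agent.LZ
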