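import Pool.Agent.Lib.MP_10f401_gt.LZ.SpecB

/-!
# Module AMU: strong reductions exist, case lam < beta (helper85)
-/

set_option autoImplicit false
set_option linter.unusedSectionVars false
set_option linter.unusedVariables false

open Set Cardinal

namespace Pool.Agent.LZ

open Classical

namespace AmuAux

variable {T : Type} [Big T]

/-- the first argument of an atom -/
def ar : Atom T → ℕ
  | .st _ n _ => n
  | .pm _ _ => 0

theorem fin_dec (p : Face T) (α : T) : ∃ M : Finset ℕ, ∀ n, DecSt p α n → n ∈ M := by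
  refine ⟨p.image ar, ?_⟩
  rintro n ⟨v, hv⟩
  exact Finset.mem_image.2 ⟨_, hv, rfl⟩

theorem abv_empty (K : Set (Face T)) (l : T) : Abv K l ∅ := fun _ h =>
  absurd h (Finset.notMem_empty _)

theorem mem_of_low {p s : Face T} {l ξ : T} {n a : ℕ} (hs : Low l s) (hl : l < ξ)
    (h : Atom.st ξ n a ∈ p ∪ s) : Atom.st ξ n a ∈ p := by
  rcases Finset.mem_union.1 h with h | h
  · exact h
  · exact absurd (hs _ h) (not_le.2 hl)

theorem low_sub_cut {s p : Face T} {l : T} (hs : Low l s) (h : s ⊆ p) : s ⊆ cut p l := fun a ha =>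
  mem_cut.2 ⟨h ha, hs a ha⟩

end AmuAux

open AmuAux in
theorem tAmu (T : Type) [Big T] (h1 : S_Dl T) (h2 : S_Ed T) (h3 : S_Amb T) (h4 : S_Amq T) :
    S_Amu T := by
  intro K₁ K₂ l β ξ η f k star hA lam hlb P hP
  obtain ⟨p0, q0, hSB0, hCC0, hPs⟩ := hP
  obtain ⟨-, -, -, -, -, -, -, hAst, -, hA10⟩ := h3 K₁ K₂ l β ξ η f k star hA
  have hT : Tw K₁ K₂ l ξ η f := hA.toTw
  obtain ⟨p, q, hp0, hq0, hSB, hCC, hdom⟩ := h1 K₁ K₂ l ξ η f k (star ∈ P) hT p0 q0 hSB0 hCC0
  have hPs' : P ⊆ insert star (p ∪ q) :=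
    hPs.trans (Finset.insert_subset_insert _ (Finset.union_subset_union hp0 hq0))
  obtain ⟨p₁, hp1, hSR1⟩ := hT.cx₁.sr_ext lam p hSB.1.1
  have hs1 : ∀ t ∈ K₁, star ∉ t := fun t ht h => hA.s₁ (hT.cx₁.sing ht h)
  have hs2 : ∀ t ∈ K₂, star ∉ t := fun t ht h => hA.s₂ (hT.cx₂.sing ht h)
  have hstar : star ∈ p₁ ∪ q ∪ P → star ∈ P := by
    intro h
    rcases Finset.mem_union.1 h with h | h
    · rcases Finset.mem_union.1 h with h | h
      · exact absurd h (hs1 _ hSR1.1)
      · exact absurd h (hs2 _ hSB.2.1.1)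
    · exact h
  refine ⟨p₁ ∪ q ∪ P, Finset.subset_union_right, ⟨?_, ?_⟩⟩
  · obtain ⟨p'', q'', h6, h7, h8, h9, -⟩ := h2 K₁ K₂ l ξ η f k (star ∈ P) hT p q hSB hCC
      (fun _ => hdom) p₁ hSR1.1 hp1 ∅ (abv_empty _ _) 0 0
    refine ⟨p'', q'', h8, fun h => h9 (hstar h), ?_⟩
    refine Finset.union_subset (Finset.union_subset ?_ ?_) ?_
    · exact (h6.trans Finset.subset_union_left).trans (Finset.subset_insert _ _)
    · exact (h7.trans Finset.subset_union_right).trans (Finset.subset_insert _ _)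
    · exact hPs'.trans (Finset.insert_subset_insert _ (Finset.union_subset_union (hp1.trans h6) h7))
  intro Q hQ hQl hcQ F hF N v₀
  have hQ1 : Q ∈ K₁ := (h4 K₁ K₂ l β ξ η f k star hA lam Q hQ hQl).1 hlb
  have hcp1 : cut p₁ lam ⊆ Q :=
    (cut_mono lam (Finset.subset_union_left.trans Finset.subset_union_left)).trans hcQ
  obtain ⟨r, hr, hp1r, hQr, hLr⟩ := hSR1.2 Q hQ1 hQl hcp1 (F.filter fun α => Stem K₁ α)
    (fun α hα => ⟨(hF α (Finset.mem_filter.1 hα).1).1, (Finset.mem_filter.1 hα).2⟩) N v₀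
  obtain ⟨p'', q'', h6, h7, h8, h9, h10⟩ := h2 K₁ K₂ l ξ η f k (star ∈ P) hT p q hSB hCC
    (fun _ => hdom) r hr (hp1.trans hp1r) (F.filter fun α => ¬ Stem K₁ α) (by
      intro α hα
      obtain ⟨hα1, hα2⟩ := Finset.mem_filter.1 hα
      obtain ⟨h11, h12⟩ := hF α hα1
      have h13 : Stem K₂ α := by
        rcases hAst _ h12 α 0 0 (Finset.mem_singleton_self _) with h | h
        · exact absurd h hα2
        · exact h
      refine ⟨?_, h13⟩
      by_contra h14
      rw [not_lt] at h14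
      exact hα2 ((hT.com _ (fun a ha => by
        rw [Finset.mem_singleton.1 ha]; exact h14)).2 h13)) N v₀
  refine ⟨p'' ∪ q'' ∪ (p₁ ∪ q ∪ P), ⟨p'', q'', h8, fun h => h9 ?_, ?_⟩, Finset.subset_union_right,
    ?_, ?_⟩
  · rcases Finset.mem_union.1 h with h | h
    · rcases Finset.mem_union.1 h with h | h
      · exact absurd h (hs1 _ h8.1.1)
      · exact absurd h (hs2 _ h8.2.1.1)
    · exact hstar h
  · refine Finset.union_subset (Finset.subset_insert _ _) (Finset.union_subset
      (Finset.union_subset ?_ ?_) ?_)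
    · exact ((hp1r.trans h6).trans Finset.subset_union_left).trans (Finset.subset_insert _ _)
    · exact (h7.trans Finset.subset_union_right).trans (Finset.subset_insert _ _)
    · exact hPs'.trans (Finset.insert_subset_insert _
        (Finset.union_subset_union ((hp1.trans hp1r).trans h6) h7))
  · exact ((hQr.trans h6).trans Finset.subset_union_left).trans Finset.subset_union_left
  · intro α hα n hn
    by_cases hs : Stem K₁ α
    · rcases hLr α (Finset.mem_filter.2 ⟨hα, hs⟩) n hn with h | ⟨v, hv, hv2⟩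
      · exact Or.inl (h.mono (Finset.subset_union_left.trans Finset.subset_union_left))
      · exact Or.inr ⟨v, hv, Finset.mem_union_left _ (Finset.mem_union_left _ (h6 hv2))⟩
    · rcases h10 α (Finset.mem_filter.2 ⟨hα, hs⟩) n hn with h | ⟨v, hv, hv2⟩
      · exact Or.inl (h.mono (Finset.subset_union_right.trans Finset.subset_union_left))
      · exact Or.inr ⟨v, hv, Finset.mem_union_left _ (Finset.mem_union_right _ hv2)⟩

end Pool.Agent.LZ
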