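import Pool.Agent.Lib.MP_10f401_gt.LZ.SpecB

/-!
# Strong reductions exist in the amalgam: case `β ≤ λ`, without star or `η ≤ λ`
-/

set_option autoImplicit false
set_option linter.unusedSectionVars false
set_option linter.unusedVariables false

open Set Cardinal

namespace Pool.Agent.LZ

open Classical

namespace AmvAux

variable {T : Type} [Big T] {K₁ K₂ : Set (Face T)} {l β ξ η : T} {f : Name T} {star : Atom T}

theorem lb (ham : Am K₁ K₂ l β ξ η f star) : l < β :=
  ham.lt₁.trans (ham.r₁ _ ham.st₁)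

theorem ns₁ (ham : Am K₁ K₂ l β ξ η f star) {p : Face T} (hp : p ∈ K₁) : star ∉ p := fun h =>
  ham.s₁ (ham.cx₁.sing hp h)

theorem ns₂ (ham : Am K₁ K₂ l β ξ η f star) {p : Face T} (hp : p ∈ K₂) : star ∉ p := fun h =>
  ham.s₂ (ham.cx₂.sing hp h)

end AmvAux

open AmvAux in
theorem tAmv (T : Type) [Big T] (h1 : S_Dl T) (h2 : S_Ed T) (h3 : S_Amb T) (h4 : S_Amq T) :
    S_Amv T := by
  intro K₁ K₂ l β ξ η f k star ham lam hlam P hP hPs
  obtain ⟨hb1, hb2, hb3, hb4, hb5, hb6, hb7, hb8, hb9, hb10⟩ := h3 K₁ K₂ l β ξ η f k star ham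
  obtain ⟨p₀, q₀, hSB₀, hCC₀, hP₀⟩ := hP
  obtain ⟨q, p, hqq, hpp, hSB', hCC', hdom⟩ := h1 K₂ K₁ l η ξ f k (star ∈ P) ham.toTw.symm
    q₀ p₀ hSB₀.symm (fun h => (hCC₀ h).symm hSB₀.2.2)
  obtain ⟨q₁, hq₁, hSR₁⟩ := ham.cx₂.sr_ext lam q hSB'.1.1
  have hpK : p ∈ K₁ := hSB'.2.1.1
  have hPsub : P ⊆ insert star (p ∪ q₁) := hP₀.trans
    (Finset.insert_subset_insert _ (Finset.union_subset_union hpp (hqq.trans hq₁)))
  have hP'A : P ∪ p ∪ q₁ ∈ AK K₁ K₂ l ξ η f k star := by
    obtain ⟨q'', p'', h5, h6, h7, h8, -⟩ := h2 K₂ K₁ l η ξ f k (star ∈ P) ham.toTw.symm q p hSB'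
      hCC' (fun _ => hdom) q₁ hSR₁.1 hq₁ ∅ (fun α hα => absurd hα (Finset.notMem_empty _)) 0 0
    refine ⟨p'', q'', h7.symm, fun hs => ?_, ?_⟩
    · have : star ∈ P := by
        rcases Finset.mem_union.1 hs with hs | hs
        · rcases Finset.mem_union.1 hs with hs | hs
          · exact hs
          · exact absurd hs (ns₁ ham hpK)
        · exact absurd hs (ns₂ ham hSR₁.1)
      exact (h8 this).symm h7.2.2
    · have e1 : insert star (p ∪ q₁) ⊆ insert star (p'' ∪ q'') :=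
        Finset.insert_subset_insert _ (Finset.union_subset_union h6 h5)
      refine Finset.union_subset (Finset.union_subset (hPsub.trans e1) ?_) ?_
      · exact (Finset.subset_union_left.trans (Finset.subset_insert _ _)).trans e1
      · exact (Finset.subset_union_right.trans (Finset.subset_insert _ _)).trans e1
  refine ⟨P ∪ p ∪ q₁, Finset.subset_union_left.trans Finset.subset_union_left, hP'A, ?_⟩
  intro Q hQ hQl hcQ F hF N v₀
  -- the elements of `F` are stems of `K₂`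
  have hF₂ : Abv K₂ lam F := by
    intro α hα
    obtain ⟨h5, h6⟩ := hF α hα
    refine ⟨h5, ?_⟩
    rcases hb8 _ h6 α 0 0 (Finset.mem_singleton_self _) with h7 | h7
    · have h8 : α < β := ham.r₁ _ h7
      exact absurd (h5.trans (h8.trans_le hlam)) (lt_irrefl _)
    · exact h7
  obtain ⟨p₄, q₄, hSB₄, hCC₄, hQ₄, hql₄, hext⟩ :=
    (h4 K₁ K₂ l β ξ η f k star ham lam Q hQ hQl).2 hlam
  have hb := hb10 p₄ q₄ hSB₄
  have hp₄ : p ⊆ p₄ := by
    intro a ha
    have ha1 : ({a} : Face T) ∈ K₁ := ham.cx₁.sing hpK ha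
    have ha2 : a ∈ Q := hcQ (mem_cut.2 ⟨by simp [ha], ((ham.r₁ a ha1).trans_le hlam).le⟩)
    rcases Finset.mem_insert.1 (hQ₄ ha2) with h5 | h5
    · exact absurd (h5 ▸ ha) (ns₁ ham hpK)
    · rcases Finset.mem_union.1 h5 with h5 | h5
      · exact h5
      · exact hb.1 a h5 ha1
  have hq₄ : cut q₁ lam ⊆ q₄ := by
    intro a ha
    obtain ⟨ha0, hal⟩ := mem_cut.1 ha
    have ha1 : ({a} : Face T) ∈ K₂ := ham.cx₂.sing hSR₁.1 ha0
    have ha2 : a ∈ Q := hcQ (mem_cut.2 ⟨by simp [ha0], hal⟩)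
    rcases Finset.mem_insert.1 (hQ₄ ha2) with h5 | h5
    · exact absurd (h5 ▸ ha0) (ns₂ ham hSR₁.1)
    · rcases Finset.mem_union.1 h5 with h5 | h5
      · exact hb.2 a h5 ha1
      · exact h5
  obtain ⟨r, hr, hr1, hr2, hr3⟩ := hSR₁.2 q₄ hSB₄.2.1.1 hql₄ hq₄ F hF₂ N v₀
  obtain ⟨p'', q'', h5, h6, h7, h8⟩ := hext r hr hr2
  have e1 : insert star (p₄ ∪ q₄) ⊆ insert star (p'' ∪ q'') :=
    Finset.insert_subset_insert _ (Finset.union_subset_union h5 (hr2.trans h6))
  have e2 : insert star (p ∪ q₁) ⊆ insert star (p'' ∪ q'') :=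
    Finset.insert_subset_insert _ (Finset.union_subset_union (hp₄.trans h5) (hr1.trans h6))
  refine ⟨Q ∪ (P ∪ p ∪ q₁) ∪ p'' ∪ q'', ⟨p'', q'', h7, fun hs => ?_, ?_⟩, ?_, ?_, ?_⟩
  · refine h8 ?_
    have h9 : star ∉ p'' := ns₁ ham h7.1.1
    have h10 : star ∉ q'' := ns₂ ham h7.2.1.1
    have h11 : star ∉ p := ns₁ ham hpK
    have h12 : star ∉ q₁ := ns₂ ham hSR₁.1
    simp only [Finset.mem_union, h9, h10, h11, h12, or_false] at hs
    rcases hs with hs | hs
    · exact hs
    · refine hcQ (mem_cut.2 ⟨by simp [hs], ?_⟩)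
      rw [ham.srk]
      exact hPs hs
  · refine Finset.union_subset (Finset.union_subset (Finset.union_subset (hQ₄.trans e1)
      (Finset.union_subset (Finset.union_subset (hPsub.trans e2) ?_) ?_)) ?_) ?_
    · exact (Finset.subset_union_left.trans (Finset.subset_insert _ _)).trans e2
    · exact (Finset.subset_union_right.trans (Finset.subset_insert _ _)).trans e2
    · exact Finset.subset_union_left.trans (Finset.subset_insert _ _)
    · exact Finset.subset_union_right.trans (Finset.subset_insert _ _)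
  · exact (Finset.subset_union_right.trans Finset.subset_union_left).trans
      Finset.subset_union_left
  · exact (Finset.subset_union_left.trans Finset.subset_union_left).trans
      Finset.subset_union_left
  · intro α hα n hn
    rcases hr3 α hα n hn with h9 | ⟨v, hv, h9⟩
    · exact Or.inl (h9.mono (Finset.subset_union_right))
    · exact Or.inr ⟨v, hv, Finset.mem_union_right _ (h6 h9)⟩

end Pool.Agent.LZ
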