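import Pool.Agent.Lib.MP_10f401_gt.LZ.SpecB

/-!
# Module AMW: strong reductions exist in the amalgam, case `β ≤ λ < η`, `star ∈ P` (helper85)
-/

set_option autoImplicit false
set_option linter.unusedSectionVars false
set_option linter.unusedVariables false

open Set Cardinal

namespace Pool.Agent.LZ

open Classical

namespace AmwAux

variable {T : Type} [Big T]

/-- the first argument of an atom -/
def ar : Atom T → ℕ
  | .st _ n _ => n
  | .pm _ _ => 0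

theorem fin_dec (p : Face T) (α : T) : ∃ M : Finset ℕ, ∀ n, DecSt p α n → n ∈ M := by
  refine ⟨p.image ar, ?_⟩
  rintro n ⟨v, hv⟩
  exact Finset.mem_image.2 ⟨_, hv, rfl⟩

theorem abv_empty (K : Set (Face T)) (l : T) : Abv K l ∅ := fun _ h =>
  absurd h (Finset.notMem_empty _)

theorem mem_of_low {p s : Face T} {l ξ : T} {n a : ℕ} (hs : Low l s) (hl : l < ξ)
    (h : Atom.st ξ n a ∈ p ∪ s) : Atom.st ξ n a ∈ p := by
  rcases Finset.mem_union.1 h with h | h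
  · exact h
  · exact absurd (hs _ h) (not_le.2 hl)

end AmwAux

open AmwAux in
theorem tAmw (T : Type) [Big T] (h1 : S_Fdc T) (h2 : S_Dl T) (h3 : S_Ed T) (h4 : S_Amb T)
    (h5 : S_Amq T) : S_Amw T := by
  intro K₁ K₂ l β ξ η f k star hA lam hβ hle P hP hst
  obtain ⟨p, q, hSB, hCC, hPs⟩ := hP
  have hCC := hCC hst
  obtain ⟨-, -, -, -, -, -, -, hAst, -, hA10⟩ := h4 K₁ K₂ l β ξ η f k star hA
  have hT : Tw K₁ K₂ l ξ η f := hA.toTw
  have hT' : Tw K₂ K₁ l η ξ f := hT.symm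
  have hlβ : l < β := hT.lt₁.trans (hA.r₁ _ hT.st₁)
  have hll : l < lam := hlβ.trans_le hβ
  -- step 1
  obtain ⟨q0, p0, hq0, hp0, hSB0, hCC0, hdom0⟩ := h2 K₂ K₁ l η ξ f k True hT' q p hSB.symm
    (fun _ => hCC.symm hSB.2.2)
  -- step 2
  obtain ⟨q₁, hq01, hSR1⟩ := hT.cx₂.sr_ext lam q0 hSB0.1.1
  -- step 3
  obtain ⟨q', p', hq1, hp1, hSB1, hCC1, -⟩ := h3 K₂ K₁ l η ξ f k True hT' q0 p0 hSB0 hCC0
    (fun _ => hdom0) q₁ hSR1.1 hq01 ∅ (abv_empty _ _) 0 0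
  -- step 4
  obtain ⟨p₂, q₂, hp2, hq2, hSB2, hCC2, hdom2⟩ := h2 K₁ K₂ l ξ η f k True hT p' q' hSB1.symm
    (fun _ => (hCC1 trivial).symm hSB1.2.2)
  have hCC2 := hCC2 trivial
  have hpp2 : p ⊆ p₂ := (hp0.trans hp1).trans hp2
  have hq12 : q₁ ⊆ q₂ := hq1.trans hq2
  refine ⟨insert star (p₂ ∪ q₁), ?_, ⟨?_, ?_⟩⟩
  · refine hPs.trans (Finset.insert_subset_insert _ ?_)
    exact Finset.union_subset_union hpp2 (hq0.trans hq01)
  · exact ⟨p₂, q₂, hSB2, fun _ => hCC2, Finset.insert_subset_insert _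
      (Finset.union_subset_union (Finset.Subset.refl _) hq12)⟩
  intro Q hQ hQl hcQ F hF N v₀
  have hF2 : ∀ α ∈ F, Stem K₂ α := by
    intro α hα
    obtain ⟨h6, h7⟩ := hF α hα
    rcases hAst _ h7 α 0 0 (Finset.mem_singleton_self _) with h8 | h8
    · exact absurd (hA.r₁ _ h8) (not_lt.2 (hβ.trans h6.le))
    · exact h8
  have hsQ : star ∉ Q := fun h => absurd (hQl _ h) (by rw [hA.srk]; exact not_le.2 hle)
  obtain ⟨p₃, q₃, hSB3, -, hQ3, hq3l, -⟩ := (h5 K₁ K₂ l β ξ η f k star hA lam Q hQ hQl).2 hβ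
  have hQ3' : Q ⊆ p₃ ∪ q₃ := by
    intro a ha
    rcases Finset.mem_insert.1 (hQ3 ha) with h | h
    · rw [h] at ha
      exact absurd ha hsQ
    · exact h
  have hp23 : p₂ ⊆ p₃ := by
    intro a ha
    have h6 : ({a} : Face T) ∈ K₁ := hT.cx₁.sing hSB2.1.1 ha
    have h7 : a ∈ Q := hcQ (mem_cut.2 ⟨Finset.mem_insert_of_mem (Finset.mem_union_left _ ha),
      (hA.r₁ a h6).le.trans hβ⟩)
    rcases Finset.mem_union.1 (hQ3' h7) with h | h
    · exact h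
    · exact (hA10 p₃ q₃ hSB3).1 a h h6
  have hcq1 : cut q₁ lam ⊆ q₃ := by
    intro a ha
    obtain ⟨ha1, ha2⟩ := mem_cut.1 ha
    have h7 : a ∈ Q := hcQ (mem_cut.2 ⟨Finset.mem_insert_of_mem (Finset.mem_union_right _ ha1), ha2⟩)
    rcases Finset.mem_union.1 (hQ3' h7) with h | h
    · exact (hA10 p₃ q₃ hSB3).2 a h (hT.cx₂.sing hSR1.1 ha1)
    · exact h
  obtain ⟨M, hM⟩ := fin_dec p₃ ξ
  obtain ⟨s', hs', hs'l, hcs', hdec⟩ := h1 K₁ f l hT.cx₁ hT.nf hT.flow (cut p₃ l)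
    (hT.cx₁.cut hSB3.1.1 l) (low_cut _ _) M
  choose! w hw using hdec
  obtain ⟨hp3', hcp3⟩ := SR.up hT.cx₁ hSB3.1 hs' hs'l hcs'
  have hs'2 : s' ∈ K₂ := (hT.com s' hs'l).1 hs'
  obtain ⟨hq3', hcq3⟩ := SR.up hT.cx₂ hSB3.2.1 hs'2 hs'l (by rw [← hSB3.2.2]; exact hcs')
  have hlow : Low lam (q₃ ∪ s') := low_union hq3l (hs'l.le hll.le)
  obtain ⟨r, hr, hq1r, hq3r, hLr⟩ := hSR1.2 (q₃ ∪ s') hq3'.1 hlow
    (hcq1.trans Finset.subset_union_left) (insert η F) (by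
      intro α hα
      rcases Finset.mem_insert.1 hα with rfl | h
      · exact ⟨hle, hT.st₂⟩
      · exact ⟨(hF α h).1, hF2 α h⟩) (max N (M.sup id + 1)) (max v₀ (M.sup w))
  obtain ⟨q₄, hrq4, hSR4⟩ := hT.cx₂.sr_ext l r hr
  have hs4 : s' ⊆ cut q₄ l := by
    rw [← hcq3]
    exact cut_mono l (hq3r.trans hrq4)
  have hs4K : cut q₄ l ∈ K₁ := (hT.com _ (low_cut q₄ l)).2 (hT.cx₂.cut hSR4.1 l)
  obtain ⟨hp4, hcp4⟩ := SR.up hT.cx₁ hp3' hs4K (low_cut q₄ l) (by rw [hcp3]; exact hs4)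
  obtain ⟨p₄, hp4d⟩ : ∃ p₄, p₄ = p₃ ∪ s' ∪ cut q₄ l := ⟨_, rfl⟩
  rw [← hp4d] at hp4 hcp4
  have hp34 : p₃ ⊆ p₄ := by
    rw [hp4d]
    exact Finset.subset_union_left.trans Finset.subset_union_left
  have hq14 : q₁ ⊆ q₄ := hq1r.trans hrq4
  have hq34 : q₃ ⊆ q₄ := (Finset.subset_union_left.trans hq3r).trans hrq4
  have hSB4 : SB K₁ K₂ l p₄ q₄ := ⟨hp4, hSR4, hcp4⟩
  have hCC4 : CC l ξ η f k p₄ q₄ := by
    intro n hn a b ha hb
    have ha3 : Atom.st ξ n a ∈ p₃ := by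
      rw [hp4d] at ha
      exact mem_of_low hs'l hT.lt₁ (mem_of_low (low_cut q₄ l) hT.lt₁ ha)
    have hnM : n ∈ M := hM n ⟨a, ha3⟩
    have hnN : n < max N (M.sup id + 1) := by
      have h6 : n ≤ M.sup id := Finset.le_sup (f := id) hnM
      exact lt_max_of_lt_right (Nat.lt_succ_of_le h6)
    by_cases hd : DecSt q₁ η n
    · obtain ⟨b', hb'⟩ := hd
      have hbb : b' = b := hT.cx₂.st_fun q₄ hSR4.1 η n b' b (hq14 hb') hb
      subst hbb
      obtain ⟨a', ha'⟩ := hdom2 n ⟨b', hq12 hb'⟩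
      have haa : a' = a := hT.cx₁.st_fun p₃ hSB3.1.1 ξ n a' a (hp23 ha') ha3
      subst haa
      obtain ⟨v, hv, hv2⟩ := hCC2 n hn a' b' ha' (hq12 hb')
      exact ⟨v, hv, hv2.mono (cut_mono l (hp23.trans hp34))⟩
    · rcases hLr η (Finset.mem_insert_self _ _) n hnN with h | ⟨v, hv, hv2⟩
      · exact absurd h hd
      · have hvb : v = b := hT.cx₂.st_fun q₄ hSR4.1 η n v b (hrq4 hv2) hb
        subst hvb
        have h7 : w n ≤ M.sup w := Finset.le_sup hnM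
        refine ⟨w n, ?_, (hw n hnM).mono (by rw [hcp4]; exact hs4)⟩
        exact (h7.trans ((le_max_right _ _).trans hv)).trans (le_max_right _ _)
  refine ⟨insert star (p₄ ∪ q₄), ⟨p₄, q₄, hSB4, fun _ => hCC4, Finset.Subset.refl _⟩, ?_, ?_, ?_⟩
  · exact Finset.insert_subset_insert _ (Finset.union_subset_union (hp23.trans hp34) hq14)
  · exact (hQ3'.trans (Finset.union_subset_union hp34 hq34)).trans (Finset.subset_insert _ _)
  · intro α hα n hn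
    rcases hLr α (Finset.mem_insert_of_mem hα) n (lt_max_of_lt_left hn) with h | ⟨v, hv, hv2⟩
    · exact Or.inl (h.mono (Finset.subset_union_right.trans (Finset.subset_insert _ _)))
    · exact Or.inr ⟨v, (le_max_left _ _).trans hv, Finset.mem_insert_of_mem
        (Finset.mem_union_right _ (hrq4 hv2))⟩

end Pool.Agent.LZ
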