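import Pool.Agent.Lib.MP_10f401_gt.LZ.SpecB

/-!
# Summary of the amalgamation
-/

set_option autoImplicit false

open Set Cardinal

namespace Pool.Agent.LZ

open Classical

theorem tAmx (T : Type) [Big T] (h1 : S_Amb T) (h2 : S_Amp T) (h3 : S_Aml T) (h4 : S_Ams T)
    (h5 : S_Amt T) (h6 : S_Amu T) (h7 : S_Amv T) (h8 : S_Amw T) : S_Amx T := by
  intro K₁ K₂ l β ξ η f k star hA
  obtain ⟨a1, a2, a3, a4, a5, a6, a7, a8, a9, a10⟩ := h1 K₁ K₂ l β ξ η f k star hA
  have hst : ∀ α n v, ({Atom.st α n v} : Face T) ∈ AK K₁ K₂ l ξ η f k star →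
      Stem K₁ α ∨ Stem K₂ α := fun α n v h => a8 _ h α n v (by simp)
  refine ⟨⟨a1, a2, a3, ?_, a9, ?_, ?_, ?_⟩, ⟨a4, a6, ?_⟩, ⟨a5, a7, ?_⟩, ?_, ?_⟩
  · intro α n v n' v' h
    rcases hst α n v h with h9 | h9
    · exact a4 (Stem.st hA.cx₁ h9 n' v')
    · exact a5 (Stem.st hA.cx₂ h9 n' v')
  · intro α h n
    rcases hst α 0 0 h with h9 | h9
    · exact (h2 K₁ K₂ l β ξ η f k star hA _).1 (hA.cx₁.st_pd α h9 n)
    · exact (h2 K₁ K₂ l β ξ η f k star hA _).2 (hA.cx₂.st_pd α h9 n)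
  · intro lam P hP
    rcases lt_or_ge lam β with hl | hl
    · exact h6 K₁ K₂ l β ξ η f k star hA lam hl P hP
    · by_cases hs : star ∈ P ∧ lam < η
      · exact h8 K₁ K₂ l β ξ η f k star hA lam hl hs.2 P hP hs.1
      · refine h7 K₁ K₂ l β ξ η f k star hA lam hl P hP fun h => ?_
        by_contra h9
        exact hs ⟨h, not_le.1 h9⟩
  · exact fun lam q hq hl => h3 K₁ K₂ l β ξ η f k star hA lam q hq hl
  · exact fun lam p hp => h4 K₁ K₂ l β ξ η f k star hA lam p hp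
  · exact fun lam p hp => h5 K₁ K₂ l β ξ η f k star hA lam p hp
  · exact fun S => h2 K₁ K₂ l β ξ η f k star hA S
  · rintro t ⟨p, q, hSB, hCC, ht⟩ hs n hn a b v u hu ha hb hut
    obtain ⟨ρ, i, hspm⟩ := hA.spm
    obtain ⟨b1, b2⟩ := a10 p q hSB
    have hns : ∀ α n v, Atom.st α n v ≠ star := by
      intro α n v h
      rw [hspm] at h
      cases h
    have hpq : ∀ α n v, Atom.st α n v ∈ t → Atom.st α n v ∈ p ∨ Atom.st α n v ∈ q := by
      intro α n v h
      rcases Finset.mem_insert.1 (ht h) with h9 | h9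
      · exact absurd h9 (hns α n v)
      · exact Finset.mem_union.1 h9
    have ha' : Atom.st ξ n a ∈ p := by
      rcases hpq ξ n a ha with h9 | h9
      · exact h9
      · exact b1 _ h9 (Stem.st hA.cx₁ hA.st₁ n a)
    have hb' : Atom.st η n b ∈ q := by
      rcases hpq η n b hb with h9 | h9
      · exact b2 _ h9 (Stem.st hA.cx₂ hA.st₂ n b)
      · exact h9
    obtain ⟨v', hv', u', hu', hu'p⟩ := hCC hs n hn a b ha' hb'
    have hlu : Low l u := hA.flow n v u hu
    have huK : u ∈ K₁ := hA.nf.sub n v hu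
    have hup : u ⊆ p := by
      intro x hx
      rcases Finset.mem_insert.1 (ht (hut hx)) with h9 | h9
      · exact absurd (h9 ▸ hA.cx₁.sing huK hx) hA.s₁
      · rcases Finset.mem_union.1 h9 with h10 | h10
        · exact h10
        · have h11 : x ∈ cut q l := mem_cut.2 ⟨h10, hlu x hx⟩
          rw [← hSB.2.2] at h11
          exact (mem_cut.1 h11).1
    have huu : u ∪ u' ∈ K₁ := hA.cx₁.down p hSB.1.1 _
      (Finset.union_subset hup (hu'p.trans (cut_sub p l)))
    have hvv := hA.nf.inc n v v' u hu u' hu' huu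
    rw [hvv]
    exact hv'

end Pool.Agent.LZ
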