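import Pool.Agent.Lib.MP_10f401_gt.LZ.SpecC

/-!
# ANW: the sets are nowhere dense
-/

set_option autoImplicit false
set_option linter.unusedSectionVars false
set_option linter.unusedVariables false

open Set Cardinal

namespace Pool.Agent.LZ

open Classical Pool.Agent.SymExt

namespace AnwAux

variable {T : Type} [Big T]

theorem blk_mono {y : ℕ → RO (Cd T)} {n v : ℕ} {p q : Cd T} (h : Blk y n v p) (hq : q ≤ p) :
    Blk y n v q := by
  intro i hi
  exact ⟨fun h1 => (y (Nat.pair n i)).mono hq ((h i hi).1 h1),
    fun h1 r hr => (h i hi).2 h1 r (hr.trans hq)⟩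

/-- the extension of the finite sequence -/
def tt (s : List Bool) (n v : ℕ) : List Bool :=
  s ++ (List.range (n * n + n + n + 1)).map fun a => v.testBit (Nat.unpair (s.length + a)).2

theorem app_get (s l : List Bool) (N : ℕ) (h0 : s.length ≤ N) (h2 : N < (s ++ l).length) :
    (s ++ l)[N] = l[N - s.length]'(by
      rw [List.length_append] at h2
      omega) :=
  List.getElem_append_right h0

theorem tt_get (s : List Bool) (n v i : ℕ) (hs : s.length ≤ n) (hi : i ≤ n) :
    ∃ h : Nat.pair n i < (tt s n v).length, (tt s n v)[Nat.pair n i] = v.testBit i := by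
  have h1 : Nat.pair n i = n * n + n + i := by
    unfold Nat.pair
    rw [if_neg (not_lt.2 hi)]
  have h0 : s.length ≤ Nat.pair n i := hs.trans (Nat.left_le_pair n i)
  have h2 : Nat.pair n i < (tt s n v).length := by
    unfold tt
    rw [List.length_append, List.length_map, List.length_range, h1]
    omega
  refine ⟨h2, ?_⟩
  have h3 := app_get s ((List.range (n * n + n + n + 1)).map fun a =>
    v.testBit (Nat.unpair (s.length + a)).2) (Nat.pair n i) h0 h2
  refine h3.trans ?_
  rw [List.getElem_map, List.getElem_range, Nat.add_sub_cancel' h0, Nat.unpair_pair]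

end AnwAux

open AnwAux in
theorem tAnw (T : Type) [Big T] : S_Anw T := by
  intro x k p hX s
  obtain ⟨q, hq, m, hm⟩ := hX p le_rfl
  set n : ℕ := max k s.length with hn
  refine ⟨q, hq, tt s n (m n), List.prefix_append _ _, ?_⟩
  intro y r hr hini hA
  have hB : Blk y n (m n) r := by
    intro i hi
    obtain ⟨h1, h2⟩ := tt_get s n (m n) i (le_max_right _ _) hi
    obtain ⟨h3, h4⟩ := hini _ h1
    rw [h2] at h3 h4
    exact ⟨h3, h4⟩
  obtain ⟨r', hr', m', hm', hno⟩ := hA r le_rfl
  have h5 : (x, m) ∈ r'.c.X := (hr'.trans hr).1.X hm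
  have h6 : m = m' := r'.c.Xi x m m' h5 hm'
  subst h6
  exact hno n (le_max_left _ _) r' le_rfl (blk_mono hB hr')

end Pool.Agent.LZ
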