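import Pool.Agent.Lib.MP_10f401_gt.LZ.SpecA

/-!
# ATM: promise atoms
-/

set_option autoImplicit false
set_option linter.unusedSectionVars false
set_option linter.unusedVariables false

open Set Cardinal

namespace Pool.Agent.LZ

open Classical

namespace AtmAux

variable {T : Type} [Big T]

/-- the ranks which bound all faces of the name `y` -/
def Ub (y : Name T) : Set T := {t | ∀ n v, ∀ u ∈ y n v, Low t u}

theorem ub_nonempty {K : Set (Face T)} (hK : Cx K) {y : Name T} (hy : Nm K y) :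
    (Ub y).Nonempty := by
  have hc : {a : Atom T | ({a} : Face T) ∈ K}.Countable := by
    have h1 : {a : Atom T | ({a} : Face T) ∈ K} = (fun a : Atom T => ({a} : Face T)) ⁻¹' K := rfl
    rw [h1]
    exact hK.cnt.preimage_of_injOn (fun a _ b _ hab => Finset.singleton_injective hab)
  obtain ⟨t, ht⟩ := bdd_of_countable (hc.image rk)
  refine ⟨t, ?_⟩
  intro n v u hu a ha
  exact (ht (rk a) ⟨a, hK.sing (hy.sub n v hu) ha, rfl⟩).le

theorem exists_rho {K : Set (Face T)} (hK : Cx K) {y : Name T} (hy : Nm K y) :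
    ∃ ρ : T, ∀ l, ρ ≤ l ↔ ∀ n v, ∀ u ∈ y n v, Low l u := by
  have hne := ub_nonempty hK hy
  have hwf : WellFounded (fun a b : T => a < b) := wellFounded_lt
  refine ⟨hwf.min (Ub y) hne, fun l => ⟨fun h n v u hu => ?_, fun h => ?_⟩⟩
  · exact (hwf.min_mem (Ub y) hne n v u hu).le h
  · exact not_lt.1 (hwf.not_lt_min (Ub y) h)

/-- the identities used in `K` -/
def Ids (K : Set (Face T)) : Set (ℕ → Bool) := {i | ∃ ρ, ({Atom.pm ρ i} : Face T) ∈ K}

theorem ids_countable {K : Set (Face T)} (hK : Cx K) : (Ids K).Countable := by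
  let g : Face T → (ℕ → Bool) := fun F =>
    if h : ∃ i : ℕ → Bool, ∃ ρ : T, F = {Atom.pm ρ i} then h.choose else fun _ => false
  refine (hK.cnt.image g).mono ?_
  rintro i ⟨ρ, hρ⟩
  refine ⟨_, hρ, ?_⟩
  have h : ∃ i' : ℕ → Bool, ∃ ρ' : T, ({Atom.pm ρ i} : Face T) = {Atom.pm ρ' i'} := ⟨i, ρ, rfl⟩
  have h1 : g {Atom.pm ρ i} = h.choose := dif_pos h
  obtain ⟨ρ', h2⟩ := h.choose_spec
  have h3 := Finset.singleton_injective h2
  rw [h1]
  injection h3 with h4 h5
  exact h5.symm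

theorem exists_ids {K : Set (Face T)} (hK : Cx K) :
    ∃ j : ℕ → (ℕ → Bool), Function.Injective j ∧ ∀ n ρ, ({Atom.pm ρ (j n)} : Face T) ∉ K := by
  have hinf : (Ids K)ᶜ.Infinite := by
    intro hfin
    have h1 : (Set.univ : Set (ℕ → Bool)).Countable := by
      rw [← Set.union_compl_self (Ids K)]
      exact (ids_countable hK).union hfin.countable
    have h2 : #(ℕ → Bool) ≤ ℵ₀ := by
      rw [← Cardinal.mk_univ]
      exact h1.le_aleph0
    have h3 : #(ℕ → Bool) = 2 ^ ℵ₀ := by simp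
    rw [h3] at h2
    exact absurd h2 (not_le.2 (Cardinal.cantor ℵ₀))
  have em : ℕ ↪ ((Ids K)ᶜ : Set (ℕ → Bool)) := Set.Infinite.natEmbedding _ hinf
  refine ⟨fun n => (em n).1, ?_, ?_⟩
  · intro a b hab
    exact em.injective (Subtype.ext hab)
  · intro n ρ h
    exact (em n).2 ⟨ρ, h⟩

end AtmAux

open AtmAux in
theorem tAtm (T : Type) [Big T] : S_Atm T := by
  intro K hK Yn hYc hY
  obtain ⟨j, hj, hjK⟩ := exists_ids hK
  obtain ⟨g, hg⟩ := Set.countable_iff_exists_injOn.1 hYc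
  have hT : Nonempty T := by
    obtain ⟨t, _⟩ := bdd_of_countable (T := T) Set.countable_empty
    exact ⟨t⟩
  have hex : ∀ y : Name T, ∃ ρ : T, y ∈ Yn → ∀ l, ρ ≤ l ↔ ∀ n v, ∀ u ∈ y n v, Low l u := by
    intro y
    by_cases h : y ∈ Yn
    · obtain ⟨ρ, hρ⟩ := exists_rho hK (hY y h)
      exact ⟨ρ, fun _ => hρ⟩
    · exact ⟨hT.some, fun h' => absurd h' h⟩
  choose ρ hρ using hex
  refine ⟨fun e => Atom.pm (ρ e.1) (j (Nat.pair (g e.1) e.2)), ?_, ?_, ?_, ?_⟩
  · intro e e' he he' h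
    injection h with h1 h2
    have h3 := hj h2
    rw [Nat.pair_eq_pair] at h3
    exact Prod.ext (hg he he' h3.1) h3.2
  · intro e
    exact ⟨_, _, rfl⟩
  · intro e _
    exact hjK _ _
  · intro e he l
    exact hρ e.1 he l

end Pool.Agent.LZ
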