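import Pool.Agent.Lib.MP_10f401_gt.LZ.Ord

/-!
# Strong reductions: two facts, and the setting of the amalgamation
-/

set_option autoImplicit false
set_option linter.unusedSectionVars false
set_option linter.unusedVariables false

open Set Cardinal

namespace Pool.Agent.LZ

open Classical

variable {T : Type} [Big T]

theorem cut_cut {p : Face T} {l l' : T} (h : l ≤ l') : cut (cut p l') l = cut p l := by
  ext a
  simp only [mem_cut]
  exact ⟨fun h1 => ⟨h1.1.1, h1.2⟩, fun h1 => ⟨⟨h1.1, h1.2.trans h⟩, h1.2⟩⟩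

theorem cut_cut' {p : Face T} {l l' : T} (h : l ≤ l') : cut (cut p l) l' = cut p l := by
  ext a
  simp only [mem_cut]
  exact ⟨fun h1 => ⟨h1.1.1, h1.1.2⟩, fun h1 => ⟨⟨h1.1, h1.2⟩, h1.2.trans h⟩⟩

/-- fact F1 -/
theorem SR.up {K : Set (Face T)} (hK : Cx K) {l : T} {q s : Face T} (h : SR K l q) (hs : s ∈ K)
    (hl : Low l s) (hc : cut q l ⊆ s) : SR K l (q ∪ s) ∧ cut (q ∪ s) l = s := by
  have h2 : cut (q ∪ s) l = s := by
    rw [cut_union, cut_of_low hl]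
    exact Finset.union_eq_right.2 hc
  refine ⟨⟨?_, ?_⟩, h2⟩
  · obtain ⟨r, hr, h3, h4, _⟩ := h.2 s hs hl hc ∅ (fun α hα => absurd hα (Finset.notMem_empty _))
      0 0
    exact hK.down r hr _ (Finset.union_subset h3 h4)
  · intro Q hQ hQl hQc F hF N v₀
    rw [h2] at hQc
    obtain ⟨r, hr, h3, h4, h5⟩ := h.2 Q hQ hQl (hc.trans hQc) F hF N v₀
    refine ⟨r, hr, Finset.union_subset h3 (hQc.trans h4), h4, ?_⟩
    intro α hα n hn
    rcases h5 α hα n hn with h6 | h6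
    · exact Or.inl (h6.mono Finset.subset_union_left)
    · exact Or.inr h6

theorem not_decSt_of_low {p : Face T} {l α : T} {n : ℕ} (h : Low l p) (hα : l < α) :
    ¬ DecSt p α n := by
  rintro ⟨v, hv⟩
  exact absurd (h _ hv) (not_le.2 hα)

/-- fact F2 -/
theorem SR.cut {K : Set (Face T)} (hK : Cx K) {l l' : T} (hl : l ≤ l') {q : Face T}
    (h : SR K l q) : SR K l (cut q l') := by
  refine ⟨hK.cut h.1 l', ?_⟩
  intro Q hQ hQl hQc F hF N v₀
  rw [cut_cut hl] at hQc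
  obtain ⟨r, hr, h3, h4, h5⟩ := h.2 Q hQ hQl hQc F hF N v₀
  have hr' : LZ.cut r l' ∈ K := hK.cut hr l'
  obtain ⟨r', hr1, h6, h7, h8⟩ := (hK.sr_low l' _ hr' (low_cut r l')).2 _ hr' (low_cut r l')
    (by rw [cut_cut le_rfl]) (F.filter fun α => l' < α)
    (fun α hα => ⟨(Finset.mem_filter.1 hα).2, (hF α (Finset.mem_filter.1 hα).1).2⟩) N v₀
  refine ⟨r', hr1, (cut_mono l' h3).trans h6, ?_, ?_⟩
  · intro a ha
    exact h6 (mem_cut.2 ⟨h4 ha, (hQl a ha).trans hl⟩)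
  · intro α hα n hn
    rcases le_or_gt α l' with h9 | h9
    · rcases h5 α hα n hn with ⟨v, hv⟩ | ⟨v, hv, hv'⟩
      · exact Or.inl ⟨v, mem_cut.2 ⟨hv, h9⟩⟩
      · exact Or.inr ⟨v, hv, h6 (mem_cut.2 ⟨hv', h9⟩)⟩
    · rcases h8 α (Finset.mem_filter.2 ⟨hα, h9⟩) n hn with h10 | h10
      · exact absurd h10 (not_decSt_of_low (low_cut r l') h9)
      · exact Or.inr h10

/-- the (symmetric) setting of the amalgamation -/
structure Tw (K₁ K₂ : Set (Face T)) (l ξ η : T) (f : Name T) : Prop where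
  cx₁ : Cx K₁
  cx₂ : Cx K₂
  com : ∀ p, Low l p → (p ∈ K₁ ↔ p ∈ K₂)
  st₁ : Stem K₁ ξ
  st₂ : Stem K₂ η
  lt₁ : l < ξ
  lt₂ : l < η
  nf : NmF K₁ f
  flow : ∀ n v, ∀ u ∈ f n v, Low l u

theorem low_union {l : T} {p q : Face T} (hp : Low l p) (hq : Low l q) : Low l (p ∪ q) := by
  intro a ha
  rcases Finset.mem_union.1 ha with h | h
  · exact hp a h
  · exact hq a h

theorem Tw.symm {K₁ K₂ : Set (Face T)} {l ξ η : T} {f : Name T} (h : Tw K₁ K₂ l ξ η f) :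
    Tw K₂ K₁ l η ξ f where
  cx₁ := h.cx₂
  cx₂ := h.cx₁
  com p hp := (h.com p hp).symm
  st₁ := h.st₂
  st₂ := h.st₁
  lt₁ := h.lt₂
  lt₂ := h.lt₁
  nf := by
    refine ⟨fun n v u hu => (h.com u (h.flow n v u hu)).1 (h.nf.sub n v hu), fun n => ⟨?_, ?_⟩, ?_⟩
    · rintro u ⟨v, hu⟩
      exact (h.com u (h.flow n v u hu)).1 (h.nf.sub n v hu)
    · intro t ht
      obtain ⟨t', h1, h2⟩ := h.cx₂.sr_ext l t ht
      have h3 : cut t' l ∈ K₁ := (h.com _ (low_cut t' l)).2 (h.cx₂.cut h2.1 l)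
      obtain ⟨u, ⟨v, hu⟩, h4⟩ := (h.nf.pd n).2 _ h3
      have h5 : Low l (cut t' l ∪ u) := low_union (low_cut t' l) (h.flow n v u hu)
      obtain ⟨r, hr, h6, h7, _⟩ := h2.2 _ ((h.com _ h5).1 h4) h5 Finset.subset_union_left ∅
        (fun α hα => absurd hα (Finset.notMem_empty _)) 0 0
      exact ⟨u, ⟨v, hu⟩, h.cx₂.down r hr _
        (Finset.union_subset (h1.trans h6) (Finset.subset_union_right.trans h7))⟩
    · intro n v v' u hu u' hu' huu
      exact h.nf.inc n v v' u hu u' hu' ((h.com _ (low_union (h.flow _ _ _ hu)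
        (h.flow _ _ _ hu'))).2 huu)
  flow := h.flow

/-- a pair of faces with the same low part, which are both strong reductions -/
def SB (K₁ K₂ : Set (Face T)) (l : T) (p q : Face T) : Prop :=
  SR K₁ l p ∧ SR K₂ l q ∧ cut p l = cut q l

theorem SB.symm {K₁ K₂ : Set (Face T)} {l : T} {p q : Face T} (h : SB K₁ K₂ l p q) :
    SB K₂ K₁ l q p := ⟨h.2.1, h.1, h.2.2.symm⟩

/-- the maximum of the functions number `ξ` and `η` is at least `f` from `k` on, as far as it is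
decided -/
def CC (l ξ η : T) (f : Name T) (k : ℕ) (p q : Face T) : Prop :=
  ∀ n ≥ k, ∀ a b, Atom.st ξ n a ∈ p → Atom.st η n b ∈ q → ∃ v ≤ max a b, Dec (cut p l) f n v

theorem CC.symm {l ξ η : T} {f : Name T} {k : ℕ} {p q : Face T} (h : CC l ξ η f k p q)
    (hc : cut p l = cut q l) : CC l η ξ f k q p := by
  intro n hn a b ha hb
  obtain ⟨v, hv, h1⟩ := h n hn b a hb ha
  exact ⟨v, by rwa [max_comm], by rwa [← hc]⟩

/-- the full setting of the amalgamation -/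
structure Am (K₁ K₂ : Set (Face T)) (l β ξ η : T) (f : Name T) (star : Atom T) : Prop
    extends Tw K₁ K₂ l ξ η f where
  r₁ : ∀ a, ({a} : Face T) ∈ K₁ → rk a < β
  r₂ : ∀ a, ({a} : Face T) ∈ K₂ → rk a ≤ l ∨ β ≤ rk a
  ge : β ≤ η
  s₁ : ({star} : Face T) ∉ K₁
  s₂ : ({star} : Face T) ∉ K₂
  srk : rk star = η
  spm : ∃ ρ i, star = Atom.pm ρ i

/-- the amalgam -/
def AK (K₁ K₂ : Set (Face T)) (l ξ η : T) (f : Name T) (k : ℕ) (star : Atom T) :
    Set (Face T) :=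
  {t | ∃ p q, SB K₁ K₂ l p q ∧ (star ∈ t → CC l ξ η f k p q) ∧ t ⊆ insert star (p ∪ q)}

end Pool.Agent.LZ
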