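import Pool.Agent.Lib.MP_10f401_gt.LZ.SpecC

/-!
# PROJECT LZ: the index set exists (helper73)
-/

set_option autoImplicit false

open Set Cardinal

namespace Pool.Agent.LZ

open Classical Pool.Agent.SymExt

namespace BigAux

/-- the cardinal successor of the continuum as a well-ordered type -/
def W : Type := (Order.succ (𝔠 : Cardinal.{0})).ord.ToType

noncomputable instance : LinearOrder W :=
  inferInstanceAs (LinearOrder (Order.succ (𝔠 : Cardinal.{0})).ord.ToType)

instance : WellFoundedLT W :=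
  inferInstanceAs (WellFoundedLT (Order.succ (𝔠 : Cardinal.{0})).ord.ToType)

theorem W_card : #W = Order.succ (𝔠 : Cardinal.{0}) := mk_ord_toType _

theorem iio (w : W) : #(Iio w) ≤ 𝔠 :=
  Order.lt_succ_iff.1 (mk_Iio_toType_ord_lt (c := Order.succ (𝔠 : Cardinal.{0})) w)

theorem iic (w : W) : #(Iic w) ≤ 𝔠 := by
  have h : (Iic w : Set W) = insert w (Iio w) := by
    ext v
    simp only [mem_Iic, mem_insert_iff, mem_Iio]
    exact le_iff_eq_or_lt
  rw [h]
  refine (mk_insert_le).trans ?_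
  calc #(Iio w) + 1 ≤ 𝔠 + 𝔠 := add_le_add (iio w) (one_lt_aleph0.le.trans aleph0_le_continuum)
    _ = 𝔠 := continuum_add_self

theorem bdd (S : Set W) (hS : #S ≤ 𝔠) : ∃ t, ∀ s ∈ S, s < t := by
  by_contra hc
  push Not at hc
  have hu : (⋃ s ∈ S, Iic s) = (univ : Set W) := by
    refine eq_univ_of_forall fun t => ?_
    obtain ⟨s, hs, h⟩ := hc t
    exact mem_biUnion hs h
  have h1 : #(⋃ s ∈ S, Iic s : Set W) ≤ 𝔠 :=
    calc #(⋃ s ∈ S, Iic s : Set W) ≤ #S * ⨆ x : S, #(Iic x.1) := mk_biUnion_le _ _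
      _ ≤ 𝔠 * 𝔠 := mul_le_mul' hS (ciSup_le' fun x => iic x.1)
      _ = 𝔠 := continuum_mul_self
  rw [hu, mk_univ, W_card] at h1
  exact absurd h1 (not_le.2 (Order.lt_succ _))

end BigAux

open BigAux in
theorem tBig : S_Big :=
  ⟨W, ⟨{ (inferInstance : LinearOrder W), (inferInstance : WellFoundedLT W) with
    bdd := bdd
    small := iic }⟩⟩

end Pool.Agent.LZ
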