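import Pool.Agent.Lib.MP_10f401_gt.LZ.SpecD
import Pool.Agent.Lib.MP_820b44_gt.Br.Final

/-!
# From the core sentence to the statement
-/

set_option autoImplicit false
set_option linter.unusedSectionVars false
set_option linter.unusedVariables false
set_option linter.unusedSimpArgs false

namespace Pool.Agent.LZ

open Pool.Agent.ZF Pool.Agent.Lib Pool.Agent.Lib.MP_1929a6_lc Pool.Agent.Lib.MP_1ab623_gt
open Pool.Agent.SymExt
open Pool.Agent.Lib.MP_820b44_gt (AgreeBelow omega_iff sbl_prop)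
open Pool.Agent.Lib.MP_10f401_gt.Mdl (IsCovLuzin MengerProduct RothbergerProduct Goal)

section

variable {M : Type} [Model M]

theorem op_iff' {f x y z : M} : Op (Model.E (M := M)) f x y z ↔ pr (pr x y) z ∈ f := by
  constructor
  · rintro ⟨p, hp, hpv⟩
    have h2 : p = pr x y := isPair_iff.1 hp
    rw [← h2]
    exact maps_iff.1 hpv
  · intro h
    exact ⟨pr x y, isPair_iff.2 rfl, maps_iff.2 h⟩

end

/-- from the core sentence to the structure `MC` -/
theorem mc_of {M : Type} [Model M] (h : (propLg (Model.E (M := M))).lzCor) :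
    ∃ X N B H : M, MC X N B H := by
  have hE : IsZF (Model.E (M := M)) := Model.zf
  simp only [Lg.lzCor, prop_ex, prop_and, isOm_prop _ hE] at h
  obtain ⟨w, X, N, B, H, hw, hX, hN, hL, hB, hS⟩ := h
  have hw' : w = om := omega_iff.1 hw
  subst hw'
  have hsub : ∀ a b : M, (propLg (Model.E (M := M))).sub a b ↔ a ⊆ b := fun a b =>
    MP_1ab623_gt.sub_prop _ a b
  have happ : ∀ f x y : M, (propLg (Model.E (M := M))).app f x y ↔ pr x y ∈ f := fun f x y =>
    (MP_1ab623_gt.app_prop _ hE f x y).trans maps_iff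
  have hap2 : ∀ f x y z : M, (propLg (Model.E (M := M))).ap2 f x y z ↔ pr (pr x y) z ∈ f :=
    fun f x y z => (ap2_prop _ hE f x y z).trans op_iff'
  have hfun : ∀ f a b : M, (propLg (Model.E (M := M))).isFun f a b ↔
      (IsFn f ∧ dom f = a ∧ ∀ x, x ∈ a → app f x ∈ b) := fun f a b =>
    (isFun_prop _ hE f a b).trans isFunction_iff
  have hmem : ∀ a b : M, (propLg (Model.E (M := M))).mem a b ↔ a ∈ b := fun a b => Iff.rfl
  have heq : ∀ a b : M, (propLg (Model.E (M := M))).eq a b ↔ a = b := fun a b => Iff.rfl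
  simp only [Lg.rls, prop_all, prop_imp, hmem, hsub] at hX
  simp only [Lg.lzCov, Lg.lzNwd, prop_all, prop_imp, prop_and, prop_ex, prop_neg, hmem, hsub,
    hap2, sbl_prop, and_imp] at hN
  simp only [Lg.lzLuz, Lg.lzNwd, prop_all, prop_imp, prop_and, prop_ex, prop_neg, hmem, hsub, heq,
    happ, hap2, sbl_prop, and_imp] at hL
  simp only [Lg.lzBas, prop_all, prop_imp, prop_and, prop_ex, hmem, hsub, heq,
    happ, hap2, sbl_prop, and_imp] at hB
  simp only [Lg.lzStar, Lg.lzLe, prop_all, prop_imp, prop_and, prop_ex, prop_or, hmem, hsub, heq,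
    happ, hap2, hfun, and_imp] at hS
  refine ⟨X, N, B, H, ⟨hX, hN.1, hN.2, hL, hB.1, fun j z hj => hB.2 j z hj, hS.1, ?_⟩⟩
  intro J G hJ hd hv hG hu
  obtain ⟨h, h', x, h1, h2, h3, h4, k, hk, h5⟩ := hS.2 J G hJ hd hv hG hu
  refine ⟨h, h', h1, h2, (hJ.app_eq h3).trans (hJ.app_eq h4).symm, k, hk, ?_⟩
  intro n hn hkn v hv'
  have h6 : pr n (app h n) ∈ h := (hS.1 h h1).1.app_mem (by rw [(hS.1 h h1).2.1]; exact hn)
  have h7 : pr n (app h' n) ∈ h' := (hS.1 h' h2).1.app_mem (by rw [(hS.1 h' h2).2.1]; exact hn)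
  rw [hJ.app_eq h3] at hv'
  exact h5 n (app h n) (app h' n) v hn hkn h6 h7 hv'

open SN in
/-- the core sentence is forced -/
theorem forced_lzCor (h1 : S_Frl) (h2 : S_Fbs) (h3 : S_Fcv) (h4 : S_Flz) (h5 : S_Fst)
    {P T : Type} [PartialOrder P] [OrderTop P] (K : Core P T) (p : P) :
    (lg : Lg (RO P) (VN P)).lzCor p := by
  simp only [Lg.lzCor, ro_ex, ro_and]
  intro q _
  exact ⟨q, le_rfl, om _, fun q1 _ => ⟨q1, le_rfl, XN K, fun q2 _ => ⟨q2, le_rfl, NN K,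
    fun q3 _ => ⟨q3, le_rfl, BN P, fun q4 _ => ⟨q4, le_rfl, HN K, isOm_om _, h1 _ _ K _,
      h3 _ _ K _, h4 _ _ K _, h2 _ _, h5 _ _ K _⟩⟩⟩⟩⟩

/-- the main theorem of the model part -/
theorem goal_of_core (h1 : S_Frl) (h2 : S_Fbs) (h3 : S_Fcv) (h4 : S_Flz) (h5 : S_Fst)
    (g1 : S_Mac) (g2 : S_Mlg) (g3 : S_Msm) (g4 : S_Mro) (g5 : S_Mtl) (g6 : S_Mnf) (g7 : S_Mpr)
    {P T : Type} [PartialOrder P] [OrderTop P] (K : Core P T) : Goal := by
  obtain ⟨M, E, t, hE, _, h⟩ := exists_model (P := P) tvF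
    (fun _ => Classical.arbitrary _) ⊤
  have hZ := hE.isZF
  have hC := h .choice (fun s => by
    rw [eval_choice]
    exact forced_choice ⊤) t
  have hT := h .lzCor (fun s => by
    rw [eval_lzCor]
    exact forced_lzCor h1 h2 h3 h4 h5 K ⊤) t
  rw [eval_choice] at hC
  rw [eval_lzCor] at hT
  have hC' : ∀ F, (∀ x, E x F → ∃ t, E t x) →
      (∀ x y t, E x F → E y F → E t x → E t y → x = y) →
      ∃ C, ∀ x, E x F → ∃! t, E t C ∧ E t x := by
    simp only [Lg.choice, prop_all, prop_imp, prop_and, prop_ex, prop_mem, prop_eq] at hC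
    intro F h1 h2
    obtain ⟨C, h3⟩ := hC F ⟨h1, fun x y t h => h2 x y t h.1.1 h.1.2 h.2.1 h.2.2⟩
    refine ⟨C, fun x hx => ?_⟩
    obtain ⟨t, ht, ht'⟩ := h3 x hx
    exact ⟨t, ht, ht'⟩
  let _ : Model M := ⟨E, hZ⟩
  have hCh : Ch M := hC'
  obtain ⟨X, N, B, H, hM⟩ := mc_of (M := M) hT
  refine ⟨M, E, ⟨hZ, hC'⟩, om, X, omega_iff.2 rfl, ⟨fun x hx => hM.rls x hx,
    g2 M X N B H hM, fun S Z hS hSZ => g3 g1 M hCh X N B H hM S Z hS hSZ⟩, ?_⟩
  intro Y hY hYY
  refine g7 g1 g5 g6 M hCh X N B H hM Y hY ?_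
  rcases hYY with h | h
  · exact h
  · exact fun D hD => g4 M _ D (h D hD)

end Pool.Agent.LZ
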