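import Pool.Agent.Lib.MP_10f401_gt.LZ.SpecB
import Pool.Agent.Lib.MP_e6371f_lc.W

/-!
# Chn: a chain of length `ω₁` (helper76)
-/

set_option autoImplicit false
set_option linter.unusedSectionVars false

open Set Cardinal

namespace Pool.Agent.LZ

open Classical

namespace ChnAux

open Pool.Agent.Lib.MP_e6371f_lc

variable {T : Type} [Big T]

theorem cnt (g : T → T) (t₀ : T) (v : W) (ih : ∀ w, w < v → T) :
    (insert t₀ (range fun w : Iio v => g (ih w.1 w.2))).Countable := by
  have : Countable (Iio v) := (W_cnt v).to_subtype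
  exact (countable_range _).insert _

/-- the chain -/
noncomputable def b (g : T → T) (t₀ : T) : W → T :=
  (wellFounded_lt (α := W)).fix fun v ih => Classical.choose (bdd_of_countable (cnt g t₀ v ih))

theorem b_spec (g : T → T) (t₀ : T) (v : W) :
    t₀ < b g t₀ v ∧ ∀ w < v, g (b g t₀ w) < b g t₀ v := by
  have h := Classical.choose_spec
    (bdd_of_countable (cnt g t₀ v fun w _ => b g t₀ w))
  have e : b g t₀ v = Classical.choose
      (bdd_of_countable (cnt g t₀ v fun w _ => b g t₀ w)) := by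
    rw [b, WellFounded.fix_eq]
  rw [← e] at h
  exact ⟨h _ (mem_insert _ _), fun w hw => h _ (mem_insert_of_mem _ ⟨⟨w, hw⟩, rfl⟩)⟩

end ChnAux

open ChnAux Pool.Agent.Lib.MP_e6371f_lc in
theorem tChn (T : Type) [Big T] : S_Chn T := by
  intro g hg t₀
  have hb := b_spec g t₀
  -- the bound
  have hne : {t : T | ∀ w, b g t₀ w < t}.Nonempty := by
    obtain ⟨t, ht⟩ := Big.bdd (range (b g t₀)) (by
      refine (mk_range_le (f := b g t₀)).trans ?_
      rw [W_card]
      exact aleph_one_le_continuum)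
    exact ⟨t, fun w => ht _ (mem_range_self w)⟩
  set B : T := (wellFounded_lt (α := T)).min _ hne with hB
  have hB1 : ∀ w, b g t₀ w < B := (wellFounded_lt (α := T)).min_mem _ hne
  have hB2 : ∀ x, x < B → ∃ w, x ≤ b g t₀ w := by
    intro x hx
    by_contra hc
    push Not at hc
    exact (wellFounded_lt (α := T)).not_lt_min {t : T | ∀ w, b g t₀ w < t} (x := x) hc hx
  refine ⟨B, fun R hR => ?_⟩
  have h1 : ∀ r : R, ∃ w : W, r.1 < B → r.1 ≤ b g t₀ w := by
    intro r
    by_cases h : r.1 < B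
    · obtain ⟨w, hw⟩ := hB2 _ h
      exact ⟨w, fun _ => hw⟩
    · exact ⟨b0, fun h' => absurd h' h⟩
  choose f hf using h1
  have hRc : Countable R := hR.to_subtype
  obtain ⟨v, hv⟩ := W_bdd (countable_range f)
  obtain ⟨v', hv'⟩ := exists_gt' v
  refine ⟨b g t₀ v, (hb v).1, hB1 v, ((hb v').2 v hv').trans (hB1 v'), fun r hr hrB => ?_⟩
  exact (hf ⟨r, hr⟩ hrB).trans ((hg _).trans ((hb v).2 _ (hv _ (mem_range_self _)))).le

end Pool.Agent.LZ
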