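import Pool.Agent.Lib.MP_10f401_gt.LZ.SpecB

/-!
# The closing function
-/

set_option autoImplicit false

open Set Cardinal

namespace Pool.Agent.LZ

open Classical

namespace ClgAux

variable {T : Type} [Big T]

/-- the types for `l` of the conditions with an index in `S` above `l` -/
def Ty (S : Set T) (c : T → Cd T) (l : T) :
    Set (Set ((ℕ → Bool) × (ℕ → ℕ)) × Set (Face T) × Face T) :=
  {x | ∃ i ∈ S, l < i ∧ Tp l (c i) x}

theorem mk_Ty (h1 : S_Cty T) (S : Set T) (c : T → Cd T) (l : T) : #(Ty S c l) ≤ 𝔠 := by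
  refine le_trans (Cardinal.mk_le_mk_of_subset ?_) (h1 l)
  rintro x ⟨i, -, -, hx1, hx2, p', -, -, hx3⟩
  refine ⟨?_, ?_, ?_, ?_⟩
  · rw [hx1]
    exact (c i).c.Xc
  · rw [hx2]
    exact (c i).c.cx.cnt.mono fun p hp => hp.1
  · intro p hp
    rw [hx2] at hp
    exact hp.2
  · rw [← hx3]
    exact low_cut p' l

/-- the ranks of the atoms of a complex -/
def Rk (K : Set (Face T)) : Set T := {r | ∃ a, ({a} : Face T) ∈ K ∧ rk a = r}

omit [Big T] in
theorem Rk_cnt {K : Set (Face T)} (hK : K.Countable) : (Rk K).Countable := by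
  have h1 : ((fun a : Atom T => ({a} : Face T)) ⁻¹' K).Countable :=
    hK.preimage (Finset.singleton_injective)
  refine (h1.image rk).mono ?_
  rintro r ⟨a, ha, rfl⟩
  exact ⟨a, ha, rfl⟩

end ClgAux

open ClgAux in
theorem tClg (T : Type) [Big T] (h1 : S_Cty T) : S_Clg T := by
  intro S c ζ
  have key : ∀ l : T, ∃ m, l < m ∧ ∀ j ∈ S, l < j → ∀ x, Tp l (c j) x →
      ∃ i ∈ S, l < i ∧ Tp l (c i) x ∧ i < m ∧ ζ i < m ∧
        ∀ a, ({a} : Face T) ∈ (c i).c.K → rk a < m := by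
    intro l
    have hch : ∀ x : Ty S c l, ∃ i, i ∈ S ∧ l < i ∧ Tp l (c i) x := fun x => x.2
    choose i hiS hli hi using hch
    set G : Ty S c l → Set T := fun x => {i x} ∪ ({ζ (i x)} ∪ Rk (c (i x)).c.K) with hG
    have hGc : ∀ x, #(G x) ≤ ℵ₀ := fun x => by
      refine Cardinal.le_aleph0_iff_set_countable.2 ?_
      exact (countable_singleton _).union ((countable_singleton _).union
        (Rk_cnt (c (i x)).c.cx.cnt))
    have hU : #(⋃ x, G x) ≤ 𝔠 := by
      refine (Cardinal.mk_iUnion_le_sum_mk).trans ?_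
      refine (Cardinal.sum_le_sum _ (fun _ => ℵ₀) hGc).trans ?_
      rw [Cardinal.sum_const']
      refine (mul_le_mul_left (mk_Ty h1 S c l) ℵ₀).trans ?_
      rw [Cardinal.continuum_mul_aleph0]
    have hl : #(({l} : Set T) ∪ ⋃ x, G x : Set T) ≤ 𝔠 := by
      refine (Cardinal.mk_union_le _ _).trans ?_
      refine (add_le_add ((Cardinal.mk_singleton l).le.trans
        (Cardinal.one_le_aleph0.trans Cardinal.aleph0_le_continuum)) hU).trans ?_
      rw [Cardinal.continuum_add_self]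
    obtain ⟨m, hm⟩ := Big.bdd _ hl
    have hmG : ∀ x, ∀ s ∈ G x, s < m := fun x s hs => hm s (Or.inr (mem_iUnion.2 ⟨x, hs⟩))
    refine ⟨m, hm l (Or.inl rfl), fun j hj hlj x hx => ?_⟩
    set y : Ty S c l := ⟨x, j, hj, hlj, hx⟩ with hy
    refine ⟨i y, hiS y, hli y, hi y, hmG y _ (Or.inl rfl), hmG y _ (Or.inr (Or.inl rfl)),
      fun a ha => hmG y _ (Or.inr (Or.inr ⟨a, ha, rfl⟩))⟩
  choose g hg1 hg2 using key
  exact ⟨g, fun l => ⟨hg1 l, hg2 l⟩⟩

end Pool.Agent.LZ
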