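import Pool.Agent.Lib.MP_10f401_gt.LZ.SpecA

/-!
# A countable set of names closed under reducts (`S_Clo`)
-/

set_option autoImplicit false
set_option linter.unusedSectionVars false
set_option linter.unusedVariables false

open Set Cardinal

namespace Pool.Agent.LZ

open Classical

namespace CloAux

variable {T : Type} [Big T]

theorem same_symm {K : Set (Face T)} {l l' : T} (h : Same K l l') : Same K l' l := fun a ha =>
  (h a ha).symm

theorem countable_finsets {α : Type} {A : Set α} (hA : A.Countable) :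
    {J : Finset α | ∀ y ∈ J, y ∈ A}.Countable := by
  have h1 : {t : Set α | t.Finite ∧ t ⊆ A}.Countable := Set.countable_ofPred_finite_subset hA
  refine Set.MapsTo.countable_of_injOn (f := fun J : Finset α => (J : Set α)) ?_ ?_ h1
  · intro J hJ
    exact ⟨J.finite_toSet, fun y hy => hJ y hy⟩
  · intro J _ J' _ h
    exact Finset.coe_injective h

/-- One step of the closure. -/
def op (K : Set (Face T)) (L : Set T) (st₀ : T → Face T → Finset (Name T) → Name T → Name T)
    (A : Set (Name T)) : Set (Name T) :=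
  A ∪ {x | ∃ l ∈ L, ∃ p ∈ K, ∃ J : Finset (Name T), (∀ y ∈ J, y ∈ A) ∧ SR K l p ∧
    ∃ y ∈ J, x = st₀ l p J y}

theorem op_countable {K : Set (Face T)} {L : Set T}
    (st₀ : T → Face T → Finset (Name T) → Name T → Name T) (hK : K.Countable) (hL : L.Countable)
    {A : Set (Name T)} (hA : A.Countable) : (op K L st₀ A).Countable := by
  refine hA.union ?_
  refine ((hL.prod (hK.prod ((countable_finsets hA).prod hA))).image
    fun e => st₀ e.1 e.2.1 e.2.2.1 e.2.2.2).mono ?_
  rintro x ⟨l, hl, p, hp, J, hJ, -, y, hy, rfl⟩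
  exact ⟨(l, p, J, y), ⟨hl, hp, hJ, hJ y hy⟩, rfl⟩

end CloAux

open CloAux in
theorem tClo (T : Type) [Big T] (h1 : S_Red T) (h2 : S_Rep T) (h3 : S_Sam T) : S_Clo T := by
  intro K hK Y₀ hY hYn
  obtain ⟨L, hL, hL'⟩ := h2 K hK
  choose f hf hf' using hL'
  have ex : ∀ (l : T) (p : Face T) (J : Finset (Name T)), ∃ st : Name T → Name T,
      SR K l p → (∀ y ∈ J, Nm K y) → IsRed K l p J st := by
    intro l p J
    by_cases h : SR K l p ∧ ∀ y ∈ J, Nm K y
    · obtain ⟨st, hst⟩ := h1 K hK l p h.1 J h.2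
      exact ⟨st, fun _ _ => hst⟩
    · exact ⟨id, fun ha hb => absurd ⟨ha, hb⟩ h⟩
  choose st₀ hst₀ using ex
  let A : ℕ → Set (Name T) := fun n => (op K L st₀)^[n] Y₀
  have hA1 : ∀ n, A (n + 1) = op K L st₀ (A n) := fun n => Function.iterate_succ_apply' _ _ _
  have hAc : ∀ n, (A n).Countable := by
    intro n
    induction n with
    | zero => exact hY
    | succ n ih =>
      rw [hA1]
      exact op_countable st₀ hK.cnt hL ih
  have hAn : ∀ n, ∀ y ∈ A n, Nm K y := by
    intro n
    induction n with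
    | zero => exact hYn
    | succ n ih =>
      intro x hx
      rw [hA1] at hx
      rcases hx with hx | ⟨l, hl, p, hp, J, hJ, hs, y, hy, rfl⟩
      · exact ih x hx
      · exact (hst₀ l p J hs fun y hy => ih y (hJ y hy)).nm y hy
  have hAm : Monotone A := by
    refine monotone_nat_of_le_succ fun n => ?_
    rw [hA1]
    exact subset_union_left
  refine ⟨⋃ n, A n, subset_iUnion A 0, countable_iUnion hAc, ?_, fun l p J => st₀ (f l) p J, ?_⟩
  · intro y hy
    obtain ⟨n, hn⟩ := mem_iUnion.1 hy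
    exact hAn n y hn
  · intro l p J hs hJ
    have hs' : SR K (f l) p := (h3 K hK l (f l) (hf' l)).1 p hs
    have hJ' : ∀ y ∈ J, ∃ n, y ∈ A n := fun y hy => mem_iUnion.1 (hJ y hy)
    choose! g hg using hJ'
    have hJn : ∀ y ∈ J, y ∈ A (J.sup g) := fun y hy => hAm (Finset.le_sup hy) (hg y hy)
    have hr := hst₀ (f l) p J hs' fun y hy => hAn _ y (hJn y hy)
    refine ⟨(h3 K hK (f l) l (same_symm (hf' l))).2 p hs.1 J _ hr, fun y hy => ?_⟩
    refine mem_iUnion.2 ⟨J.sup g + 1, ?_⟩
    rw [hA1]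
    exact Or.inr ⟨f l, hf l, p, hs.1, J, hJn, hs', y, hy, rfl⟩

end Pool.Agent.LZ
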