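import Pool.Agent.Lib.MP_10f401_gt.LZ.SpecC

/-!
# COR: the core of the proof
-/

set_option autoImplicit false
set_option linter.unusedSectionVars false
set_option linter.unusedVariables false

open Set Cardinal

namespace Pool.Agent.LZ

open Classical

namespace CorAux

variable {T : Type} [Big T]

/-- a new promise atom -/
theorem exists_star {K₁ K₂ : Set (Face T)} (h₁ : Cx K₁) (h₂ : Cx K₂) (ρ : T) :
    ∃ i : ℕ → Bool, ({Atom.pm ρ i} : Face T) ∉ K₁ ∧ ({Atom.pm ρ i} : Face T) ∉ K₂ := by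
  have hinj : Function.Injective (fun i : ℕ → Bool => ({Atom.pm ρ i} : Face T)) := by
    intro i i' h
    have h3 := Finset.singleton_injective h
    injection h3
  have hc : {i : ℕ → Bool | ({Atom.pm ρ i} : Face T) ∈ K₁ ∪ K₂}.Countable := by
    have h1 : {i : ℕ → Bool | ({Atom.pm ρ i} : Face T) ∈ K₁ ∪ K₂} =
        (fun i : ℕ → Bool => ({Atom.pm ρ i} : Face T)) ⁻¹' (K₁ ∪ K₂) := rfl
    rw [h1]
    exact (h₁.cnt.union h₂.cnt).preimage_of_injOn (fun a _ b _ hab => hinj hab)
  by_contra hcon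
  push Not at hcon
  have huniv : {i : ℕ → Bool | ({Atom.pm ρ i} : Face T) ∈ K₁ ∪ K₂} = Set.univ := by
    rw [Set.eq_univ_iff_forall]
    intro i
    by_cases h : ({Atom.pm ρ i} : Face T) ∈ K₁
    · exact Or.inl h
    · exact Or.inr (hcon i h)
  rw [huniv] at hc
  have h2 : #(ℕ → Bool) ≤ ℵ₀ := by
    rw [← Cardinal.mk_univ]
    exact hc.le_aleph0
  have h3 : #(ℕ → Bool) = 2 ^ ℵ₀ := by simp
  rw [h3] at h2
  exact absurd h2 (not_le.2 (Cardinal.cantor ℵ₀))

/-- the place of an atom -/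
def plc : Atom T → ℕ
  | .st _ n _ => n + 1
  | .pm _ _ => 0

theorem dec_bound (p : Face T) (α : T) {n : ℕ} (hn : p.sup plc ≤ n) : ¬ DecSt p α n := by
  rintro ⟨v, hv⟩
  have h1 : plc (Atom.st α n v) ≤ p.sup plc := Finset.le_sup hv
  have h2 : plc (Atom.st α n v) = n + 1 := rfl
  omega

end CorAux

open CorAux in
theorem tCor (T : Type) [Big T] (h1 : S_Twn T) (h2 : S_Amx T) (h3 : S_Mk T) : S_Cor T := by
  intro f t₀ hlow S hS c ζ hc
  obtain ⟨i, hi, j, hj, l, β, htl, hli, hiβ, hβj, hζ, hX, hcom, hr₁, hr₂, p, q, hp, hq, hSB⟩ :=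
    h1 S hS c ζ t₀
  obtain ⟨e, he₁, he₂⟩ := exists_star (c i).c.cx (c j).c.cx j
  set star : Atom T := Atom.pm j e with hstar
  have hlj : l < j := hli.trans (hiβ.trans_le hβj)
  have hAm : Am (c i).c.K (c j).c.K l β i j f star :=
    { cx₁ := (c i).c.cx
      cx₂ := (c j).c.cx
      com := hcom
      st₁ := (hc i hi).1
      st₂ := (hc j hj).1
      lt₁ := hli
      lt₂ := hlj
      nf := (hc i hi).2
      flow := fun n v u hu => (hlow n v u hu).le htl.le
      r₁ := hr₁
      r₂ := hr₂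
      ge := hβj
      s₁ := he₁
      s₂ := he₂
      srk := rfl
      spm := ⟨j, e, rfl⟩ }
  set k : ℕ := max (p.sup plc) (q.sup plc) with hk
  obtain ⟨hA, hE₁, hE₂, hPd, hlast⟩ := h2 _ _ l β i j f k star hAm
  have hCC : CC l i j f k p q := by
    intro n hn a b ha _
    exact absurd ⟨a, ha⟩ (dec_bound p i ((le_max_left _ _).trans hn))
  have ht : insert star (p ∪ q) ∈ AK (c i).c.K (c j).c.K l i j f k star :=
    ⟨p, q, hSB, fun _ => hCC, Finset.Subset.refl _⟩
  obtain ⟨d, hd, hdK, hdX, hdD, hdY, hdO⟩ := h3 (c i).c _ hA hE₁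
    (fun S' hS' => (hPd S').1 ((c i).c.Dp S' hS'))
    (c j).c.D (c j).c.Dc (fun S' hS' => (hPd S').2 ((c j).c.Dp S' hS'))
    (c j).c.Y (c j).c.Yc (fun y hy => by
      have hy' := (c j).c.Yn y hy
      refine ⟨fun n v => (hy'.sub n v).trans hE₂.sub, hy'.bd, fun n => (hPd _).2 (hy'.pd n), ?_⟩
      intro n v v' u hu u' hu' huu
      exact hy'.inc n v v' u hu u' hu' (hE₂.union (c j).c.cx (hy'.sub n v hu) (hy'.sub n v' hu') huu))
    (c j).c.O (c j).c.Oc (fun o ho t => ((c j).c.Os o ho t).trans hE₂.sub)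
    (fun o ho s => (hPd _).2 ((c j).c.Dp _ ((c j).c.OD o ho s)))
    ∅ Set.countable_empty
    (fun x m m' hm hm' => by
      rw [Set.union_empty] at hm hm'
      exact (c i).c.Xi x m m' hm hm')
    (fun x m hm => absurd hm (notMem_empty _)) (fun e he => absurd he (notMem_empty _))
    (fun e he => absurd he (notMem_empty _))
  have hdX' : d.X = (c j).c.X := by rw [hdX, Set.union_empty, hX]
  have hdj : LeC d (c j).c :=
    { X := by rw [hdX']
      K := by rw [hdK]; exact hE₂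
      D := hdD
      Y := hdY
      O := hdO
      newY := fun e he hn => absurd (by rwa [hdX'] at he) hn
      newO := fun e he hn => absurd (by rwa [hdX'] at he) hn }
  have htd : insert star (p ∪ q) ∈ d.K := by rw [hdK]; exact ht
  refine ⟨i, hi, j, hj, hiβ.trans_le hβj, hζ, ⟨d, insert star (p ∪ q), htd⟩, ?_, ?_, k, ?_⟩
  · exact ⟨hd, (hp.trans Finset.subset_union_left).trans (Finset.subset_insert _ _)⟩
  · exact ⟨hdj, (hq.trans Finset.subset_union_right).trans (Finset.subset_insert _ _)⟩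
  · intro n hn a b v u hu t ht' hrt ha hb hut
    have ht'' : t ∈ AK (c i).c.K (c j).c.K l i j f k star := by
      have : t ∈ d.K := ht'
      rwa [hdK] at this
    exact hlast t ht'' (hrt (Finset.mem_insert_self _ _)) n hn a b v u hu ha hb hut

end Pool.Agent.LZ
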