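import Mathlib
import Pool.Agent.SymExt.Basic

/-!
# The interface between the set of conditions and the model of `ZFC` (MP_10f401_gt, note 4623)

`RO P` (regular predicates on `P`) is the set of truth values.  A real (a subset of `ω`) of the
forcing extension is a function `y : ℕ → RO P`; `y k p` is read: `p` forces `k ∈ y`.  Reals of the
ground model are functions `x : ℕ → Bool`.
-/

set_option autoImplicit false

namespace Pool.Agent.LZ

open Pool.Agent.SymExt

section

variable {P : Type} [Preorder P]

/-- `p` forces that `y` begins with `t` -/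
def Ini (t : List Bool) (y : ℕ → RO P) (p : P) : Prop :=
  ∀ i (h : i < t.length), (t[i] = true → y i p) ∧ (t[i] = false → ∀ q ≤ p, ¬ y i q)

end

/-- `t` is an initial segment of the real `x` of the ground model -/
def Seg (t : List Bool) (x : ℕ → Bool) : Prop := t = (List.range t.length).map x

/-- What the set of conditions `P` has to provide.  `X` is a set of reals of the ground model which
is a Luzin set of the extension; `{y | A x k y}` is a nowhere dense set for `x ∈ X`, `k ∈ ω`, and
these sets cover all reals; `h t`, `t ∈ T`, are functions from `ω` to `ω` such that for all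
functions `J : T → X`, `G : X → ω^ω` there are `t ≠ t'` with `J t = J t' = x` and
`max (h t n) (h t' n) ≥ G x n` for all large `n`. -/
structure Core (P T : Type) [PartialOrder P] [OrderTop P] where
  /-- truth value of: `x` is an element of `X` -/
  X : (ℕ → Bool) → RO P
  /-- truth value of: `y` is in the nowhere dense set number `k` of the point `x` of `X` -/
  A : (ℕ → Bool) → ℕ → (ℕ → RO P) → RO P
  A_congr : ∀ x k (y y' : ℕ → RO P) p, (∀ n, ∀ q ≤ p, (y n q ↔ y' n q)) → A x k y p → A x k y' p
  /-- the sets are nowhere dense -/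
  A_nwd : ∀ x k p, X x p → ∀ s : List Bool, ∃ q ≤ p, ∃ t, s <+: t ∧
    ∀ y : ℕ → RO P, ∀ r ≤ q, Ini t y r → ¬ A x k y r
  /-- the sets cover all reals -/
  A_cov : ∀ (y : ℕ → RO P) p, ∃ q ≤ p, ∃ x k, X x q ∧ A x k y q
  /-- for each sequence of dense open sets (`O n t` is the truth value of: the clopen set of the
  reals which begin with `t` is contained in the open set number `n`) there is a countable set `C`
  such that all elements of `X` which are not in `C` are in all the open sets; and there is an
  element of `X` which is not in `C` -/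
  luz : ∀ p (O : ℕ → List Bool → RO P),
    (∀ n s, ∀ q ≤ p, ∃ r ≤ q, ∃ t, s <+: t ∧ O n t r) →
    ∃ q ≤ p, ∃ C : Set (ℕ → Bool), C.Countable ∧
      (∀ x, x ∉ C → ∀ r ≤ q, X x r → ∀ n, ∀ r' ≤ r, ∃ r'' ≤ r', ∃ t, Seg t x ∧ O n t r'') ∧
      ∃ x, x ∉ C ∧ X x q
  /-- truth value of: the value of the function number `t` at `n` is `v` -/
  h : T → ℕ → ℕ → RO P
  h_tot : ∀ t n p, ∃ q ≤ p, ∃ v, h t n v q
  h_uni : ∀ t n v v' p, h t n v p → h t n v' p → v = v'
  /-- the main property -/
  star : ∀ p (J : T → (ℕ → Bool) → RO P) (G : (ℕ → Bool) → ℕ → ℕ → RO P),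
    (∀ t, ∀ q ≤ p, ∃ r ≤ q, ∃ x, J t x r) →
    (∀ t x, ∀ q ≤ p, J t x q → ∀ n, ∃ r ≤ q, ∃ v, G x n v r) →
    (∀ x n v v', ∀ q ≤ p, G x n v q → G x n v' q → v = v') →
    ∃ q ≤ p, ∃ t t' x, t ≠ t' ∧ J t x q ∧ J t' x q ∧ ∃ k, ∀ n ≥ k, ∀ r ≤ q, ∀ a b v,
      h t n a r → h t' n b r → G x n v r → v ≤ max a b

end Pool.Agent.LZ
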