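import Pool.Agent.Lib.MP_10f401_gt.LZ.SpecB

/-!
# The number of types (helper92)
-/

set_option autoImplicit false

open Set Cardinal

namespace Pool.Agent.LZ

open Classical

namespace CtyAux

variable {T : Type} [Big T]

theorem mul_le {a b : Cardinal.{0}} (ha : a ≤ 𝔠) (hb : b ≤ 𝔠) : a * b ≤ 𝔠 :=
  (mul_le_mul' ha hb).trans_eq continuum_mul_self

theorem prod_le {α β : Type} (ha : #α ≤ 𝔠) (hb : #β ≤ 𝔠) : #(α × β) ≤ 𝔠 := by
  rw [mk_prod, lift_id, lift_id]
  exact mul_le ha hb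

theorem nat_le : #ℕ ≤ 𝔠 := by
  rw [mk_nat]
  exact aleph0_le_continuum

theorem bool_le : #(ℕ → Bool) ≤ 𝔠 := by
  simp

theorem fn_le : #(ℕ → ℕ) ≤ 𝔠 := by
  simp

/-- atoms of rank at most `l`, as elements of a type of cardinality at most `𝔠` -/
def code (l : T) : {a : Atom T // rk a ≤ l} → (Iic l × ℕ × ℕ) ⊕ (Iic l × (ℕ → Bool))
  | ⟨.st α n v, h⟩ => Sum.inl (⟨α, h⟩, n, v)
  | ⟨.pm ρ i, h⟩ => Sum.inr (⟨ρ, h⟩, i)

theorem code_inj (l : T) : Function.Injective (code l) := by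
  rintro ⟨_ | _, h⟩ ⟨_ | _, h'⟩ h1 <;> simp_all [code]

theorem atoms_le (l : T) : #{a : Atom T // rk a ≤ l} ≤ 𝔠 := by
  refine (mk_le_of_injective (code_inj l)).trans ?_
  rw [mk_sum, lift_id, lift_id]
  exact (add_le_add (prod_le (Big.small l) (prod_le nat_le nat_le))
    (prod_le (Big.small l) bool_le)).trans_eq continuum_add_self

theorem faces_le (l : T) : #{p : Face T | Low l p} ≤ 𝔠 := by
  have h1 : Function.Injective fun p : {p : Face T | Low l p} =>
      (p.1.subtype fun a => rk a ≤ l).toList := by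
    intro p p' h
    have h2 : p.1.subtype (fun a => rk a ≤ l) = p'.1.subtype (fun a => rk a ≤ l) := by
      have h3 := congrArg List.toFinset h
      rwa [Finset.toList_toFinset, Finset.toList_toFinset] at h3
    refine Subtype.ext (Finset.ext fun a => ?_)
    have h3 : ∀ p : Face T, Low l p → ∀ a, a ∈ p ↔ ∃ h : rk a ≤ l,
        (⟨a, h⟩ : {a : Atom T // rk a ≤ l}) ∈ p.subtype (fun a => rk a ≤ l) := by
      intro p hp a
      constructor
      · intro ha
        exact ⟨hp a ha, Finset.mem_subtype.2 ha⟩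
      · rintro ⟨h, ha⟩
        exact Finset.mem_subtype.1 ha
    rw [h3 p.1 p.2, h3 p'.1 p'.2, h2]
  refine (mk_le_of_injective h1).trans ((mk_list_le_max _).trans ?_)
  exact max_le aleph0_le_continuum (atoms_le l)

theorem sub_le {α : Type} (s : Set α) (hs : #s ≤ 𝔠) :
    #{t : Set α // t ⊆ s ∧ #t ≤ ℵ₀} ≤ 𝔠 := by
  refine (mk_bounded_subset_le s ℵ₀).trans ?_
  refine (power_le_power_right (max_le hs aleph0_le_continuum)).trans_eq ?_
  exact continuum_power_aleph0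

end CtyAux

open CtyAux in
/-- the number of types -/
theorem tCty (T : Type) [Big T] : S_Cty T := by
  intro l
  have h1 : Function.Injective fun x : {x : Set ((ℕ → Bool) × (ℕ → ℕ)) × Set (Face T) × Face T |
      x.1.Countable ∧ x.2.1.Countable ∧ (∀ p ∈ x.2.1, Low l p) ∧ Low l x.2.2} =>
      (((⟨x.1.1, ⟨subset_univ _, le_aleph0_iff_set_countable.2 x.2.1⟩⟩ :
          {t : Set ((ℕ → Bool) × (ℕ → ℕ)) // t ⊆ univ ∧ #t ≤ ℵ₀}),
        (⟨x.1.2.1, ⟨fun p hp => x.2.2.2.1 p hp, le_aleph0_iff_set_countable.2 x.2.2.1⟩⟩ :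
          {t : Set (Face T) // t ⊆ {p : Face T | Low l p} ∧ #t ≤ ℵ₀}),
        (⟨x.1.2.2, x.2.2.2.2⟩ : {p : Face T | Low l p})) :
        {t : Set ((ℕ → Bool) × (ℕ → ℕ)) // t ⊆ univ ∧ #t ≤ ℵ₀} ×
          {t : Set (Face T) // t ⊆ {p : Face T | Low l p} ∧ #t ≤ ℵ₀} ×
          {p : Face T | Low l p}) := by
    intro x x' h
    obtain ⟨h2, h3⟩ := Prod.mk.inj h
    obtain ⟨h4, h5⟩ := Prod.mk.inj h3
    exact Subtype.ext (Prod.ext (Subtype.mk.inj h2)
      (Prod.ext (Subtype.mk.inj h4) (Subtype.mk.inj h5)))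
  refine (mk_le_of_injective h1).trans ?_
  refine prod_le (sub_le _ ?_) (prod_le (sub_le _ (faces_le l)) (faces_le l))
  rw [mk_univ]
  exact prod_le bool_le fn_le

end Pool.Agent.LZ
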