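import Mathlib

/-!
# The forcing: definitions (MP_10f401_gt, note 4623)

A FACE is a finite set of atoms.  A COMPLEX is a countable set `K` of faces, closed under subsets.
-/

set_option autoImplicit false
set_option linter.unusedSectionVars false
set_option linter.unusedVariables false

open Set Cardinal

namespace Pool.Agent.LZ

open Classical

/-- the index set: a well-order in which sets of at most `2^ω` elements are bounded, and in which
initial segments have at most `2^ω` elements (the cardinal successor of `2^ω`) -/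
class Big (T : Type) extends LinearOrder T, WellFoundedLT T where
  bdd : ∀ S : Set T, #S ≤ 𝔠 → ∃ t, ∀ s ∈ S, s < t
  small : ∀ t : T, #(Iic t) ≤ 𝔠

/-- atoms: stem atoms `st α n v` (the value of the function number `α` at `n` is `v`), and promise
atoms `pm ρ i` of rank `ρ` with identity `i` -/
inductive Atom (T : Type)
  | st (α : T) (n v : ℕ)
  | pm (ρ : T) (i : ℕ → Bool)

/-- the rank of an atom -/
def rk {T : Type} : Atom T → T
  | .st α _ _ => α
  | .pm ρ _ => ρ

/-- faces -/
abbrev Face (T : Type) := Finset (Atom T)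

/-- names of functions: `y n v` is the set of the faces which decide the value `v` at `n` -/
abbrev Name (T : Type) := ℕ → ℕ → Set (Face T)

/-- names of dense open sets of `2^ω`: `o t` is the set of the faces which decide that the basic
clopen set given by `t` is contained in the open set -/
abbrev ONm (T : Type) := List Bool → Set (Face T)

/-- the number of values of a real at `n` -/
def bb (n : ℕ) : ℕ := 2 ^ (n + 1)

/-- `t` is an initial segment of `x` -/
def IsPre (t : List Bool) (x : ℕ → Bool) : Prop := t = (List.range t.length).map x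

section

variable {T : Type} [Big T]

/-- the atoms of `p` of rank at most `l` -/
noncomputable def cut (p : Face T) (l : T) : Face T := p.filter fun a => rk a ≤ l

/-- all atoms of `p` have rank at most `l` -/
def Low (l : T) (p : Face T) : Prop := ∀ a ∈ p, rk a ≤ l

/-- `α` is the index of a function treated by the complex `K` -/
def Stem (K : Set (Face T)) (α : T) : Prop := ({Atom.st α 0 0} : Face T) ∈ K

/-- the finite set of functions `F` is treated by `K` and above `l` -/
def Abv (K : Set (Face T)) (l : T) (F : Finset T) : Prop := ∀ α ∈ F, l < α ∧ Stem K α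

/-- `p` decides the value at `n` of the function number `α` -/
def DecSt (p : Face T) (α : T) (n : ℕ) : Prop := ∃ v, Atom.st α n v ∈ p

/-- `r` decides the functions number `α ∈ F` below `N`, and all values which are not decided by `p`
are at least `v₀` -/
def Large (p : Face T) (F : Finset T) (N v₀ : ℕ) (r : Face T) : Prop :=
  ∀ α ∈ F, ∀ n < N, DecSt p α n ∨ ∃ v, v₀ ≤ v ∧ Atom.st α n v ∈ r

/-- strong reduction: every extension in the part of rank at most `l` of `K` of the low part of `p`
is compatible with `p`, and for new values of functions above `l` one can have large numbers -/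
def SR (K : Set (Face T)) (l : T) (p : Face T) : Prop :=
  p ∈ K ∧ ∀ q ∈ K, Low l q → cut p l ⊆ q → ∀ F : Finset T, Abv K l F → ∀ N v₀ : ℕ,
    ∃ r ∈ K, p ⊆ r ∧ q ⊆ r ∧ Large p F N v₀ r

/-- `S` is a predense subset of `K` -/
def Pd (K : Set (Face T)) (S : Set (Face T)) : Prop := S ⊆ K ∧ ∀ p ∈ K, ∃ q ∈ S, p ∪ q ∈ K

/-- the complexes which are used -/
structure Cx (K : Set (Face T)) : Prop where
  empty : ∅ ∈ K
  down : ∀ p ∈ K, ∀ q ⊆ p, q ∈ K
  cnt : K.Countable
  st_all : ∀ α n v n' v', ({Atom.st α n v} : Face T) ∈ K → ({Atom.st α n' v'} : Face T) ∈ K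
  st_fun : ∀ p ∈ K, ∀ α n v v', Atom.st α n v ∈ p → Atom.st α n v' ∈ p → v = v'
  st_pd : ∀ α, Stem K α → ∀ n, Pd K {s | ∃ v, s = {Atom.st α n v}}
  sr_ext : ∀ l : T, ∀ p ∈ K, ∃ p', p ⊆ p' ∧ SR K l p'
  sr_low : ∀ l : T, ∀ q ∈ K, Low l q → SR K l q

/-- `K'` is an extension of the complex `K` -/
structure Ext (K K' : Set (Face T)) : Prop where
  sub : K ⊆ K'
  ind : ∀ p ∈ K', (∀ a ∈ p, ({a} : Face T) ∈ K) → p ∈ K
  sr : ∀ l : T, ∀ p, SR K l p → SR K' l p

/-- the face `q` decides that the value of `y` at `n` is `v` -/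
def Dec (q : Face T) (y : Name T) (n v : ℕ) : Prop := ∃ u ∈ y n v, u ⊆ q

/-- names over `K` of functions with values `< bb n` at `n` -/
structure Nm (K : Set (Face T)) (y : Name T) : Prop where
  sub : ∀ n v, y n v ⊆ K
  bd : ∀ n v, bb n ≤ v → y n v = ∅
  pd : ∀ n, Pd K {u | ∃ v, u ∈ y n v}
  inc : ∀ n v v', ∀ u ∈ y n v, ∀ u' ∈ y n v', u ∪ u' ∈ K → v = v'

/-- names over `K` of functions from `ℕ` to `ℕ` -/
structure NmF (K : Set (Face T)) (y : Name T) : Prop where
  sub : ∀ n v, y n v ⊆ K
  pd : ∀ n, Pd K {u | ∃ v, u ∈ y n v}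
  inc : ∀ n v v', ∀ u ∈ y n v, ∀ u' ∈ y n v', u ∪ u' ∈ K → v = v'

/-- the predense sets of the name of a dense open set -/
def oD (o : ONm T) (s : List Bool) : Set (Face T) := {u | ∃ t, s <+: t ∧ u ∈ o t}

/-- the set of the faces which decide that `x` is in the dense open set -/
def oX (o : ONm T) (x : ℕ → Bool) : Set (Face T) := {u | ∃ t, IsPre t x ∧ u ∈ o t}

/-- the predense sets of the name of a function -/
def yD (y : Name T) (n : ℕ) : Set (Face T) := {u | ∃ v, u ∈ y n v}

/-- `E` is a predense set which shows that `m` is eventually different from `y` -/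
def Avd (K E : Set (Face T)) (y : Name T) (m : ℕ → ℕ) : Prop :=
  ∀ p ∈ E, ∃ k, ∀ n ≥ k, ∀ u ∈ y n (m n), p ∪ u ∉ K

end

/-- the first components of the conditions -/
@[ext] structure Cn (T : Type) [Big T] where
  /-- pairs `(x, m)`: the point `x` is in the Luzin set, and `m` is the function assigned to it -/
  X : Set ((ℕ → Bool) × (ℕ → ℕ))
  K : Set (Face T)
  /-- predense sets -/
  D : Set (Set (Face T))
  /-- names of reals -/
  Y : Set (Name T)
  /-- names of dense open sets -/
  O : Set (ONm T)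
  Xc : X.Countable
  Xi : ∀ x m m', (x, m) ∈ X → (x, m') ∈ X → m = m'
  Xb : ∀ x m, (x, m) ∈ X → ∀ n, m n < bb n
  cx : Cx K
  Dc : D.Countable
  Dp : ∀ S ∈ D, Pd K S
  Yc : Y.Countable
  Yn : ∀ y ∈ Y, Nm K y
  YD : ∀ y ∈ Y, ∀ n, yD y n ∈ D
  Oc : O.Countable
  Os : ∀ o ∈ O, ∀ t, o t ⊆ K
  OD : ∀ o ∈ O, ∀ s, oD o s ∈ D
  stD : ∀ α, Stem K α → ∀ n, {s | ∃ v, s = {Atom.st α n v}} ∈ D

section

variable {T : Type} [Big T]

/-- the order of the first components: `LeC d c` says that `d` is stronger than `c` -/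
structure LeC (d c : Cn T) : Prop where
  X : c.X ⊆ d.X
  K : Ext c.K d.K
  D : c.D ⊆ d.D
  Y : c.Y ⊆ d.Y
  O : c.O ⊆ d.O
  newY : ∀ e ∈ d.X, e ∉ c.X → ∀ y ∈ c.Y, ∃ E ∈ d.D, Avd d.K E y e.2
  newO : ∀ e ∈ d.X, e ∉ c.X → ∀ o ∈ c.O, oX o e.1 ∈ d.D

end

/-- the set of conditions -/
@[ext] structure Cd (T : Type) [Big T] where
  c : Cn T
  p : Face T
  hp : p ∈ c.K

end Pool.Agent.LZ
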