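import Pool.Agent.Lib.MP_10f401_gt.LZ.SpecB

/-!
# Module DL: domination in the amalgamation (helper85)
-/

set_option autoImplicit false
set_option linter.unusedSectionVars false
set_option linter.unusedVariables false

open Set Cardinal

namespace Pool.Agent.LZ

open Classical

namespace DlAux

variable {T : Type} [Big T]

/-- the first argument of an atom -/
def ar : Atom T → ℕ
  | .st _ n _ => n
  | .pm _ _ => 0

theorem fin_dec (p : Face T) (α : T) : ∃ M : Finset ℕ, ∀ n, DecSt p α n → n ∈ M := by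
  refine ⟨p.image ar, ?_⟩
  rintro n ⟨v, hv⟩
  exact Finset.mem_image.2 ⟨_, hv, rfl⟩

theorem abv_empty (K : Set (Face T)) (l : T) : Abv K l ∅ := fun _ h =>
  absurd h (Finset.notMem_empty _)

theorem mem_of_low {p s : Face T} {l ξ : T} {n a : ℕ} (hs : Low l s) (hl : l < ξ)
    (h : Atom.st ξ n a ∈ p ∪ s) : Atom.st ξ n a ∈ p := by
  rcases Finset.mem_union.1 h with h | h
  · exact h
  · exact absurd (hs _ h) (not_le.2 hl)

theorem low_sub_cut {s p : Face T} {l : T} (hs : Low l s) (h : s ⊆ p) : s ⊆ cut p l := fun a ha =>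
  mem_cut.2 ⟨h ha, hs a ha⟩

end DlAux

open DlAux in
theorem tDl (T : Type) [Big T] (h1 : S_Fdc T) : S_Dl T := by
  intro K₁ K₂ l ξ η f k e hT p q hSB hCC
  obtain ⟨M₁, hM₁⟩ := fin_dec p ξ
  obtain ⟨M₂, hM₂⟩ := fin_dec q η
  obtain ⟨M, hMd⟩ : ∃ M, M = M₁ ∪ M₂ := ⟨_, rfl⟩
  obtain ⟨s', hs', hs'l, hcs', hdec⟩ := h1 K₁ f l hT.cx₁ hT.nf hT.flow (cut p l)
    (hT.cx₁.cut hSB.1.1 l) (low_cut _ _) M
  choose! w hw using hdec
  obtain ⟨hp1, hcp1⟩ := SR.up hT.cx₁ hSB.1 hs' hs'l hcs'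
  have hs'2 : s' ∈ K₂ := (hT.com s' hs'l).1 hs'
  obtain ⟨hq1, hcq1⟩ := SR.up hT.cx₂ hSB.2.1 hs'2 hs'l (by rw [← hSB.2.2]; exact hcs')
  obtain ⟨r, hr, hpr, -, hLr⟩ := hp1.2 s' hs' hs'l (by rw [hcp1]) {ξ} (by
    intro α hα
    rw [Finset.mem_singleton.1 hα]
    exact ⟨hT.lt₁, hT.st₁⟩) (M.sup id + 1) (M.sup w)
  obtain ⟨p₂, hrp, hSRp⟩ := hT.cx₁.sr_ext l r hr
  have hs4 : s' ⊆ cut p₂ l := low_sub_cut hs'l ((Finset.subset_union_right.trans hpr).trans hrp)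
  have hs4K : cut p₂ l ∈ K₂ := (hT.com _ (low_cut p₂ l)).1 (hT.cx₁.cut hSRp.1 l)
  obtain ⟨hq4, hcq4⟩ := SR.up hT.cx₂ hq1 hs4K (low_cut p₂ l) (by rw [hcq1]; exact hs4)
  have hpp2 : p ⊆ p₂ := (Finset.subset_union_left.trans hpr).trans hrp
  have hη : ∀ n b, Atom.st η n b ∈ q ∪ s' ∪ cut p₂ l → Atom.st η n b ∈ q := fun n b hb =>
    mem_of_low hs'l hT.lt₂ (mem_of_low (low_cut p₂ l) hT.lt₂ hb)
  have hlt : ∀ n ∈ M, n < M.sup id + 1 := fun n hn =>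
    Nat.lt_succ_of_le (Finset.le_sup (f := id) hn)
  have hmem : ∀ n b, Atom.st η n b ∈ q → n ∈ M := fun n b hb => by
    rw [hMd]
    exact Finset.mem_union_right _ (hM₂ n ⟨b, hb⟩)
  refine ⟨p₂, q ∪ s' ∪ cut p₂ l, hpp2, Finset.subset_union_left.trans Finset.subset_union_left,
    ⟨hSRp, hq4, hcq4.symm⟩, ?_, ?_⟩
  · intro he n hn a b ha hb
    have hb1 := hη n b hb
    have hnM := hmem n b hb1
    rcases hLr ξ (Finset.mem_singleton_self _) n (hlt n hnM) with ⟨a', ha'⟩ | ⟨v, hv, hv2⟩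
    · have haa : a' = a := hT.cx₁.st_fun p₂ hSRp.1 ξ n a' a (hrp (hpr ha')) ha
      subst haa
      obtain ⟨v, hv, hv2⟩ := hCC he n hn a' b (mem_of_low hs'l hT.lt₁ ha') hb1
      exact ⟨v, hv, hv2.mono (cut_mono l hpp2)⟩
    · have hva : v = a := hT.cx₁.st_fun p₂ hSRp.1 ξ n v a (hrp hv2) ha
      subst hva
      have h7 : w n ≤ M.sup w := Finset.le_sup hnM
      exact ⟨w n, (h7.trans hv).trans (le_max_left _ _), (hw n hnM).mono hs4⟩
  · rintro n ⟨b, hb⟩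
    have hnM := hmem n b (hη n b hb)
    rcases hLr ξ (Finset.mem_singleton_self _) n (hlt n hnM) with ⟨a', ha'⟩ | ⟨v, hv, hv2⟩
    · exact ⟨a', hrp (hpr ha')⟩
    · exact ⟨v, hrp hv2⟩

end Pool.Agent.LZ
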