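import Pool.Agent.Lib.MP_10f401_gt.LZ.SpecB

/-!
# Module ED: extension of the first face (helper85)
-/

set_option autoImplicit false
set_option linter.unusedSectionVars false
set_option linter.unusedVariables false

open Set Cardinal

namespace Pool.Agent.LZ

open Classical

namespace EdAux

variable {T : Type} [Big T]

/-- the first argument of an atom -/
def ar : Atom T → ℕ
  | .st _ n _ => n
  | .pm _ _ => 0

theorem fin_dec (p : Face T) (α : T) : ∃ M : Finset ℕ, ∀ n, DecSt p α n → n ∈ M := by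
  refine ⟨p.image ar, ?_⟩
  rintro n ⟨v, hv⟩
  exact Finset.mem_image.2 ⟨_, hv, rfl⟩

theorem abv_empty (K : Set (Face T)) (l : T) : Abv K l ∅ := fun _ h =>
  absurd h (Finset.notMem_empty _)

theorem mem_of_low {p s : Face T} {l ξ : T} {n a : ℕ} (hs : Low l s) (hl : l < ξ)
    (h : Atom.st ξ n a ∈ p ∪ s) : Atom.st ξ n a ∈ p := by
  rcases Finset.mem_union.1 h with h | h
  · exact h
  · exact absurd (hs _ h) (not_le.2 hl)

theorem low_sub_cut {s p : Face T} {l : T} (hs : Low l s) (h : s ⊆ p) : s ⊆ cut p l := fun a ha =>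
  mem_cut.2 ⟨h ha, hs a ha⟩

end EdAux

open EdAux in
theorem tEd (T : Type) [Big T] (h1 : S_Fdc T) : S_Ed T := by
  intro K₁ K₂ l ξ η f k e hT p q hSB hCC hdom p' hp' hpp F hF N v₀
  obtain ⟨p₁, hp1, hSR1⟩ := hT.cx₁.sr_ext l p' hp'
  obtain ⟨M, hM⟩ := fin_dec p₁ ξ
  obtain ⟨s', hs', hs'l, hcs', hdec⟩ := h1 K₁ f l hT.cx₁ hT.nf hT.flow (cut p₁ l)
    (hT.cx₁.cut hSR1.1 l) (low_cut _ _) M
  choose! w hw using hdec
  obtain ⟨hp2, hcp2⟩ := SR.up hT.cx₁ hSR1 hs' hs'l hcs'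
  have hs'2 : s' ∈ K₂ := (hT.com s' hs'l).1 hs'
  have hcq : cut q l ⊆ s' := by
    rw [← hSB.2.2]
    exact (cut_mono l (hpp.trans hp1)).trans hcs'
  obtain ⟨r, hr, hqr, hsr, hLr⟩ := hSB.2.1.2 s' hs'2 hs'l hcq (insert η F) (by
    intro α hα
    rcases Finset.mem_insert.1 hα with rfl | h
    · exact ⟨hT.lt₂, hT.st₂⟩
    · exact hF α h) (max N (M.sup id + 1)) (max v₀ (M.sup w))
  obtain ⟨q'', hrq, hSRq⟩ := hT.cx₂.sr_ext l r hr
  have hs4 : s' ⊆ cut q'' l := low_sub_cut hs'l (hsr.trans hrq)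
  have hs4K : cut q'' l ∈ K₁ := (hT.com _ (low_cut q'' l)).2 (hT.cx₂.cut hSRq.1 l)
  obtain ⟨hp4, hcp4⟩ := SR.up hT.cx₁ hp2 hs4K (low_cut q'' l) (by rw [hcp2]; exact hs4)
  refine ⟨p₁ ∪ s' ∪ cut q'' l, q'', ?_, hqr.trans hrq, ⟨hp4, hSRq, hcp4⟩, ?_, ?_⟩
  · exact hp1.trans (Finset.subset_union_left.trans Finset.subset_union_left)
  · intro he n hn a b ha hb
    have ha1 : Atom.st ξ n a ∈ p₁ :=
      mem_of_low hs'l hT.lt₁ (mem_of_low (low_cut q'' l) hT.lt₁ ha)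
    have hnM : n ∈ M := hM n ⟨a, ha1⟩
    have hnN : n < max N (M.sup id + 1) := by
      have h6 : n ≤ M.sup id := Finset.le_sup (f := id) hnM
      exact lt_max_of_lt_right (Nat.lt_succ_of_le h6)
    by_cases hd : DecSt q η n
    · obtain ⟨b', hb'⟩ := hd
      have hbb : b' = b := hT.cx₂.st_fun q'' hSRq.1 η n b' b (hrq (hqr hb')) hb
      subst hbb
      obtain ⟨a', ha'⟩ := hdom he n ⟨b', hb'⟩
      have haa : a' = a := hT.cx₁.st_fun p₁ hSR1.1 ξ n a' a (hp1 (hpp ha')) ha1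
      subst haa
      obtain ⟨v, hv, hv2⟩ := hCC he n hn a' b' ha' hb'
      refine ⟨v, hv, hv2.mono (cut_mono l ?_)⟩
      exact (hpp.trans hp1).trans (Finset.subset_union_left.trans Finset.subset_union_left)
    · rcases hLr η (Finset.mem_insert_self _ _) n hnN with h | ⟨v, hv, hv2⟩
      · exact absurd h hd
      · have hvb : v = b := hT.cx₂.st_fun q'' hSRq.1 η n v b (hrq hv2) hb
        subst hvb
        have h7 : w n ≤ M.sup w := Finset.le_sup hnM
        refine ⟨w n, ?_, (hw n hnM).mono (by rw [hcp4]; exact hs4)⟩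
        exact (h7.trans ((le_max_right _ _).trans hv)).trans (le_max_right _ _)
  · exact hLr.mono (Finset.subset_insert _ _) (le_max_left _ _) (le_max_left _ _) hrq

end Pool.Agent.LZ
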