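import Pool.Agent.Lib.MP_10f401_gt.LZ.SpecD

/-!
# It is forced that `BN` is a base of the Cantor space
-/

set_option autoImplicit false

namespace Pool.Agent.LZ

open Pool.Agent.SymExt SN
open Pool.Agent.Lib.MP_820b44_gt (rn m_rn on_rn rn_sub_om sbl_iff sbl_on sbl_congr roE roA roE_iff
  roA_iff roAll_iff roImp_iff roBot_iff roE_of fN m_fN on_fN isFun_fN list_dense')

namespace FbsAux

variable {P : Type} [PartialOrder P] [OrderTop P]

/-- the elements of the name of the base -/
theorem m_BN {a z : VN P} {p : P} : m (op a z) (BN P) p ↔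
    ∀ q ≤ p, ∃ r ≤ q, ∃ (j : ℕ) (y : ℕ → RO P), e a (on j) r ∧ e z (rn y) r ∧
      Ini (lst j) y r := by
  unfold BN
  rw [m_nn]
  refine forall_congr' fun q => forall_congr' fun _ => exists_congr fun r =>
    and_congr_right fun _ => ?_
  constructor
  · rintro ⟨⟨j, y⟩, h1, h2⟩
    obtain ⟨h3, h4⟩ := op_inj h2
    exact ⟨j, y, h3, h4, h1⟩
  · rintro ⟨j, y, h3, h4, h1⟩
    exact ⟨⟨j, y⟩, h1, op_congr h3 h4⟩

theorem ini_rl {t : List Bool} {y : ℕ → RO P} {z : VN P} {p : P} (h : e z (rn y) p)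
    (h1 : Ini t y p) : Ini t (rl z) p := by
  intro i hi
  refine ⟨fun h2 => m_right (e_symm h) (on_rn.2 ((h1 i hi).1 h2)), fun h2 q hq h3 => ?_⟩
  exact (h1 i hi).2 h2 q hq (on_rn.1 (m_right (RO.mono _ hq h) h3))

theorem ini_sbl {t : List Bool} {z z' : VN P} {p : P} (h : Ini t (rl z) p)
    (hs : (lg : Lg (RO P) (VN P)).sbl (on t.length) z z' p) : Ini t (rl z') p := by
  rw [sbl_on] at hs
  intro i hi
  exact ⟨fun h1 => (hs i hi p le_rfl).1 ((h i hi).1 h1),
    fun h1 q hq h2 => (h i hi).2 h1 q hq ((hs i hi q hq).2 h2)⟩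

theorem sbl_of {t : List Bool} {x y : VN P} {p : P} (h : Ini t (rl x) p) (h' : Ini t (rl y) p) :
    (lg : Lg (RO P) (VN P)).sbl (on t.length) x y p := by
  rw [sbl_on]
  intro k hk q hq
  cases htk : t[k] with
  | true =>
    exact ⟨fun _ => RO.mono _ hq ((h' k hk).1 htk), fun _ => RO.mono _ hq ((h k hk).1 htk)⟩
  | false =>
    exact ⟨fun h1 => absurd h1 ((h k hk).2 htk q hq), fun h1 => absurd h1 ((h' k hk).2 htk q hq)⟩

/-- an initial segment of a real is decided below every condition -/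
theorem exists_ini (y : ℕ → RO P) (n : ℕ) (p : P) : ∃ q ≤ p, ∃ t : List Bool,
    t.length = n ∧ Ini t y q := by
  induction n with
  | zero => exact ⟨p, le_rfl, [], rfl, fun i hi => absurd hi (Nat.not_lt_zero _)⟩
  | succ n ih =>
    obtain ⟨q, hq, t, ht, h⟩ := ih
    subst ht
    by_cases h1 : ∃ r ≤ q, y t.length r
    · obtain ⟨r, hr, h2⟩ := h1
      refine ⟨r, hr.trans hq, t ++ [true], by simp, fun i hi => ?_⟩
      rcases Nat.lt_or_ge i t.length with h3 | h3
      · rw [List.getElem_append_left h3]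
        exact h.mono hr i h3
      · have h4 : i = t.length := by
          rw [List.length_append, List.length_singleton] at hi
          omega
        subst h4
        refine ⟨fun _ => h2, fun h5 => ?_⟩
        simp at h5
    · refine ⟨q, hq, t ++ [false], by simp, fun i hi => ?_⟩
      rcases Nat.lt_or_ge i t.length with h3 | h3
      · rw [List.getElem_append_left h3]
        exact h i h3
      · have h4 : i = t.length := by
          rw [List.length_append, List.length_singleton] at hi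
          omega
        subst h4
        refine ⟨fun h5 => ?_, fun _ r hr h2 => h1 ⟨r, hr, h2⟩⟩
        simp at h5

end FbsAux

open FbsAux in
theorem tFbs : S_Fbs := by
  intro P _ _ p
  simp only [Lg.lzBas, ro_all, ro_imp, ro_and, ro_ex, ro_mem, app_iff, sub_iff, and_imp]
  refine ⟨?_, ?_⟩
  · intro y n q hq hy hn r hr
    obtain ⟨r1, hr1, n', hn'⟩ := m_om.1 hn r hr
    obtain ⟨s, hs, t, ht, hI⟩ := exists_ini (rl y) n' r1
    obtain ⟨j, hj⟩ := lst_surj t
    refine ⟨s, hs.trans hr1, on j, m_on_om j s, ?_, ?_⟩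
    · rw [m_BN]
      intro u hu
      refine ⟨u, le_rfl, j, rl y, e_refl _ _, e_rl fun v w hw => hy v w
        (hw.trans (hu.trans (hs.trans (hr1.trans hr)))), ?_⟩
      rw [hj]
      exact hI.mono hu
    · intro z v hv hz
      refine RO.dense _ fun w hw => ?_
      obtain ⟨x, hx, j', y', h1, h2, h3⟩ := m_BN.1 hz w hw
      have h4 := rig_on _ _ _ h1
      subst h4
      rw [hj] at h3
      have hxs : x ≤ s := hx.trans (hw.trans hv)
      refine ⟨x, hx, sbl_congr (e_symm (RO.mono _ (hxs.trans hs) hn')) (e_refl _ _)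
        (e_refl _ _) ?_⟩
      have h5 := sbl_of (hI.mono hxs) (ini_rl h2 h3)
      rwa [ht] at h5
  · intro j z q hq h
    refine ⟨?_, ?_⟩
    · rw [m_om]
      intro r hr
      obtain ⟨s, hs, j', y', h1, h2, h3⟩ := m_BN.1 h r hr
      exact ⟨s, hs, j', h1⟩
    · intro r hr
      obtain ⟨s, hs, j', y', h1, h2, h3⟩ := m_BN.1 h r hr
      refine ⟨s, hs, on (lst j').length, m_on_om _ s, ?_⟩
      intro z' u hu hz' hs'
      rw [m_BN]
      intro v hv
      refine ⟨v, le_rfl, j', rl z', RO.mono _ (hv.trans hu) h1, e_rl fun a w hw => hz' a w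
        (hw.trans hv), ?_⟩
      exact ini_sbl ((ini_rl h2 h3).mono (hv.trans hu)) (RO.mono _ hv hs')

end Pool.Agent.LZ
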