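import Pool.Agent.Lib.MP_10f401_gt.LZ.SpecD

/-!
# It is forced that the nowhere dense sets cover all reals (helper92)
-/

set_option autoImplicit false

namespace Pool.Agent.LZ

open Pool.Agent.SymExt SN
open Pool.Agent.Lib.MP_820b44_gt (rn m_rn on_rn rn_sub_om sbl_iff sbl_on sbl_congr roE roA roE_iff
  roA_iff roAll_iff roImp_iff roBot_iff roE_of fN m_fN on_fN isFun_fN list_dense')

namespace FcvAux

variable {P : Type} [PartialOrder P] [OrderTop P] {T : Type} (K : Core P T)

theorem m_NN {a k y : VN P} {p : P} : m (op (op a k) y) (NN K) p ↔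
    ∀ q ≤ p, ∃ r ≤ q, ∃ x k' y', K.X x r ∧ K.A x k' y' r ∧ e a (cr x) r ∧ e k (on k') r ∧
      e y (rn y') r := by
  unfold NN
  rw [m_nn]
  refine forall_congr' fun q => forall_congr' fun _ => exists_congr fun r =>
    and_congr_right fun _ => ?_
  constructor
  · rintro ⟨⟨x, k', y'⟩, h1, h2⟩
    obtain ⟨h3, h4⟩ := op_inj h2
    obtain ⟨h5, h6⟩ := op_inj h3
    exact ⟨x, k', y', h1.1, h1.2, h5, h6, h4⟩
  · rintro ⟨x, k', y', h1, h2, h3, h4, h5⟩
    exact ⟨⟨x, k', y'⟩, ⟨h1, h2⟩, op_congr (op_congr h3 h4) h5⟩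

/-- the first values can be decided -/
theorem exists_ini (y : ℕ → RO P) (n : ℕ) (p : P) :
    ∃ q ≤ p, ∃ t : List Bool, t.length = n ∧ Ini t y q := by
  induction n generalizing p with
  | zero =>
    refine ⟨p, le_rfl, [], rfl, ?_⟩
    intro i hi
    exact absurd hi (Nat.not_lt_zero i)
  | succ n ih =>
    obtain ⟨q, hq, t, ht, h⟩ := ih p
    by_cases h1 : ∃ r ≤ q, y n r
    · obtain ⟨r, hr, h2⟩ := h1
      refine ⟨r, hr.trans hq, t ++ [true], by simp [ht], ?_⟩
      intro i hi
      by_cases h3 : i < t.length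
      · rw [List.getElem_append_left h3]
        exact h.mono hr i h3
      · have h4 : i = n := by
          simp only [List.length_append, List.length_singleton] at hi
          omega
        subst h4
        rw [List.getElem_append_right (by omega)]
        refine ⟨fun _ => h2, fun h5 => ?_⟩
        simp at h5
    · refine ⟨q, hq, t ++ [false], by simp [ht], ?_⟩
      intro i hi
      by_cases h3 : i < t.length
      · rw [List.getElem_append_left h3]
        exact h i h3
      · have h4 : i = n := by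
          simp only [List.length_append, List.length_singleton] at hi
          omega
        subst h4
        rw [List.getElem_append_right (by omega)]
        refine ⟨fun h5 => ?_, fun _ r hr h5 => h1 ⟨r, hr, h5⟩⟩
        simp at h5

end FcvAux

open FcvAux in
/-- it is forced that the nowhere dense sets cover all reals -/
theorem tFcv : S_Fcv := by
  intro P T _ _ K p
  simp only [Lg.lzCov, Lg.lzNwd, ro_all, ro_imp, ro_and, ro_ex, ro_neg, ro_mem, sub_iff, ap2_iff,
    and_imp]
  refine ⟨?_, ?_⟩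
  · intro x k q hq hx hk y n q1 hq1 hy hn r hr
    obtain ⟨r1, hr1, x0, hx0, he0⟩ := (m_XN K).1 hx r (hr.trans hq1)
    obtain ⟨r2, hr2, k0, hk0⟩ := m_om.1 hk r1 (hr1.trans (hr.trans hq1))
    obtain ⟨r3, hr3, n0, hn0⟩ := m_om.1 hn r2 (hr2.trans (hr1.trans hr))
    obtain ⟨r4, hr4, s, hs, hini⟩ := exists_ini (rl y) n0 r3
    have h41 : r4 ≤ r1 := hr4.trans (hr3.trans hr2)
    obtain ⟨q', hq', t, hst, hA⟩ := K.A_nwd x0 k0 r4 ((K.X x0).mono h41 hx0) s
    have hq'1 : q' ≤ r1 := hq'.trans h41
    have hq'2 : q' ≤ r2 := hq'.trans (hr4.trans hr3)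
    have hq'3 : q' ≤ r3 := hq'.trans hr4
    refine ⟨q', hq'1.trans hr1, cr (fun i => t.getD i false), fun r' hr' =>
      ⟨r', le_rfl, on t.length, ?_, ?_, ?_, ?_, ?_⟩⟩
    · intro z u hu hz
      exact rn_sub_om hz
    · exact m_on_om _ _
    · intro z u hu hz
      have h1 : m z (on n0) u := m_right (RO.mono _ (hu.trans (hr'.trans hq'3)) hn0) hz
      refine m_on.2 fun v hv => ?_
      obtain ⟨w, hw, i, hi, he⟩ := m_on.1 h1 v hv
      have h2 := hst.length_le
      exact ⟨w, hw, i, by omega, he⟩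
    · refine sbl_congr (e_symm (RO.mono _ (hr'.trans hq'3) hn0)) (e_refl _ _) (e_refl _ _) ?_
      rw [sbl_on]
      intro i hi v hv
      rw [on_cr]
      have hi' : i < s.length := by omega
      have h1 : t.getD i false = s[i] := by
        obtain ⟨t', rfl⟩ := hst
        rw [List.getD_append _ _ _ _ hi', List.getD_eq_getElem _ _ hi']
      have h2 : v ≤ r4 := hv.trans (hr'.trans hq')
      have h3 := hini i hi'
      rw [h1]
      constructor
      · intro h4
        by_contra h5
        exact h3.2 (by simpa using h5) v h2 h4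
      · intro h4
        exact RO.mono _ h2 (h3.1 h4)
    · intro z u hu hz v hv hsb
      obtain ⟨w, hw, x1, k1, y1, h1, h2, h3, h4, h5⟩ := (m_NN K).1 hz v hv
      have hwr' : w ≤ r' := hw.trans (hv.trans hu)
      have e1 := rig_cr _ _ _ (e_trans (e_symm (RO.mono _ (hwr'.trans (hr'.trans hq'1)) he0)) h3)
      subst e1
      have e2 := rig_on _ _ _ (e_trans (e_symm (RO.mono _ (hwr'.trans (hr'.trans hq'2)) hk0)) h4)
      subst e2
      refine hA y1 w (hwr'.trans hr') ?_ h2
      have h6 := sbl_on.1 (sbl_congr (e_refl _ _) (e_refl _ _) h5 (RO.mono _ hw hsb))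
      intro i hi
      have h7 : t.getD i false = t[i] := List.getD_eq_getElem _ _ hi
      refine ⟨fun h8 => ?_, fun h8 v' hv' h9 => ?_⟩
      · have h10 := (h6 i hi w le_rfl).1 (on_cr.2 (by rw [h7, h8]))
        exact on_rn.1 h10
      · have h10 := (h6 i hi v' hv').2 (on_rn.2 h9)
        rw [on_cr, h7, h8] at h10
        exact absurd h10 (by simp)
  · intro y q hq hy r hr
    obtain ⟨q', hq', x, k, hx, hA⟩ := K.A_cov (rl y) r
    refine ⟨q', hq', cr x, fun r' hr' => ⟨r', le_rfl, on k, (cr_XN K).2 ((K.X x).mono hr' hx),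
      m_on_om _ _, (m_NN K).2 fun v hv => ⟨v, le_rfl, x, k, rl y, (K.X x).mono (hv.trans hr') hx,
        (K.A x k (rl y)).mono (hv.trans hr') hA, e_refl _ _, e_refl _ _, ?_⟩⟩⟩
    refine e_rl fun u w hw hu => hy u w ?_ hu
    exact hw.trans (hv.trans (hr'.trans (hq'.trans hr)))

end Pool.Agent.LZ
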