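import Pool.Agent.Lib.MP_10f401_gt.LZ.SpecB

/-!
# FDC: deciding a name of a function at finitely many places (helper78)
-/

set_option autoImplicit false

open Set Cardinal

namespace Pool.Agent.LZ

open Classical

theorem tFdc (T : Type) [Big T] : S_Fdc T := by
  intro K f l _ hf hl s hs hsl M
  induction M using Finset.induction_on with
  | empty => exact ⟨s, hs, hsl, Finset.Subset.refl _, fun n hn => absurd hn (Finset.notMem_empty _)⟩
  | insert m M _ ih =>
    obtain ⟨s', h1, h2, h3, h4⟩ := ih
    obtain ⟨u, ⟨v, hu⟩, h5⟩ := (hf.pd m).2 s' h1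
    refine ⟨s' ∪ u, h5, low_union h2 (hl m v u hu), h3.trans Finset.subset_union_left, ?_⟩
    intro n hn
    rcases Finset.mem_insert.1 hn with rfl | hn
    · exact ⟨v, u, hu, Finset.subset_union_right⟩
    · obtain ⟨w, hw⟩ := h4 n hn
      exact ⟨w, hw.mono Finset.subset_union_left⟩

end Pool.Agent.LZ
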