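import Pool.Agent.Lib.MP_10f401_gt.LZ.SpecC

/-!
# Capture of countably many dense open sets of conditions
-/

set_option autoImplicit false
set_option linter.unusedSectionVars false
set_option linter.unusedVariables false

open Set Cardinal

namespace Pool.Agent.LZ

open Classical

namespace FusAux

variable {T : Type} [Big T]

/-- every face of `c` has an extension in each of the dense sets -/
theorem one (h2 : S_Lim T) (Q : ℕ → Set (Cd T)) (hQ : ∀ n, ∀ x ∈ Q n, ∀ y ≤ x, y ∈ Q n)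
    (hd : ∀ n x, ∃ y ≤ x, y ∈ Q n) (c : Cn T) :
    ∃ d : Cn T, LeC d c ∧ ∀ p ∈ c.K, ∀ n, ∃ q, p ⊆ q ∧ ∃ h : q ∈ d.K,
      (⟨d, q, h⟩ : Cd T) ∈ Q n := by
  have hcnt : (c.K ×ˢ (univ : Set ℕ)).Countable := c.cx.cnt.prod countable_univ
  obtain ⟨f, hf⟩ := hcnt.exists_eq_range ⟨(∅, 0), c.cx.empty, mem_univ _⟩
  have hfi : ∀ i, (f i).1 ∈ c.K := by
    intro i
    have h : f i ∈ c.K ×ˢ (univ : Set ℕ) := by
      rw [hf]
      exact mem_range_self i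
    exact h.1
  have hst : ∀ (i : ℕ) (e : {e : Cn T // LeC e c}), ∃ e' : {e : Cn T // LeC e c},
      LeC e'.1 e.1 ∧ ∃ q, (f i).1 ⊆ q ∧ ∃ h : q ∈ e'.1.K,
        (⟨e'.1, q, h⟩ : Cd T) ∈ Q (f i).2 := by
    intro i e
    obtain ⟨y, hy, hyQ⟩ := hd (f i).2 ⟨e.1, (f i).1, e.2.K.sub (hfi i)⟩
    exact ⟨⟨y.c, hy.1.trans e.2⟩, hy.1, y.p, hy.2, y.hp, hyQ⟩
  choose g hg1 hg2 using hst
  let s : ℕ → {e : Cn T // LeC e c} := fun n => Nat.rec ⟨c, LeC.refl c⟩ (fun i e => g i e) n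
  obtain ⟨d, hd1, -, -⟩ := h2 (fun n => (s n).1) (fun n => hg1 n (s n))
  refine ⟨d, hd1 0, fun p hp n => ?_⟩
  have h3 : (p, n) ∈ c.K ×ˢ (univ : Set ℕ) := ⟨hp, mem_univ _⟩
  rw [hf] at h3
  obtain ⟨i, hi⟩ := h3
  obtain ⟨q, hpq, h, hQ'⟩ := hg2 i (s i)
  rw [hi] at hpq hQ'
  exact ⟨q, hpq, (hd1 (i + 1)).K.sub h, hQ n _ hQ' _ ⟨hd1 (i + 1), Finset.Subset.refl _⟩⟩

/-- iterate the first step -/
theorem two (h2 : S_Lim T) (Q : ℕ → Set (Cd T)) (hQ : ∀ n, ∀ x ∈ Q n, ∀ y ≤ x, y ∈ Q n)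
    (hd : ∀ n x, ∃ y ≤ x, y ∈ Q n) (c : Cn T) :
    ∃ d : Cn T, LeC d c ∧ ∀ p ∈ d.K, ∀ n, ∃ q, p ⊆ q ∧ ∃ h : q ∈ d.K,
      (⟨d, q, h⟩ : Cd T) ∈ Q n := by
  choose g hg1 hg2 using one h2 Q hQ hd
  let s : ℕ → Cn T := fun n => Nat.rec c (fun _ e => g e) n
  obtain ⟨d, hd1, hK, -⟩ := h2 s (fun n => hg1 (s n))
  refine ⟨d, hd1 0, fun p hp n => ?_⟩
  rw [hK] at hp
  obtain ⟨i, hi⟩ := mem_iUnion.1 hp
  obtain ⟨q, hpq, h, hQ'⟩ := hg2 (s i) p hi n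
  exact ⟨q, hpq, (hd1 (i + 1)).K.sub h, hQ n _ hQ' _ ⟨hd1 (i + 1), Finset.Subset.refl _⟩⟩

end FusAux

theorem tFus (T : Type) [Big T] (h1 : S_Mk T) (h2 : S_Lim T) : S_Fus T := by
  intro Q hQ hd c
  obtain ⟨e, hec, he⟩ := FusAux.two h2 Q hQ hd c
  let D : ℕ → Set (Face T) := fun n => {q | ∃ h : q ∈ e.K, (⟨e, q, h⟩ : Cd T) ∈ Q n}
  have hDp : ∀ S ∈ range D, Pd e.K S := by
    rintro S ⟨n, rfl⟩
    refine ⟨fun q hq => hq.1, fun p hp => ?_⟩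
    obtain ⟨q, hpq, h, hq⟩ := he p hp n
    refine ⟨q, ⟨h, hq⟩, ?_⟩
    rw [Finset.union_eq_right.2 hpq]
    exact h
  obtain ⟨d, hde, -, -, hD, -, -⟩ := h1 e e.K e.cx (Ext.refl _ e.cx) e.Dp (range D)
    (countable_range D) hDp ∅ countable_empty (fun y hy => absurd hy (notMem_empty y))
    ∅ countable_empty (fun o ho => absurd ho (notMem_empty o))
    (fun o ho => absurd ho (notMem_empty o)) ∅ countable_empty
    (by
      intro x m m'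
      rw [union_empty]
      exact e.Xi x m m')
    (fun x m hx => absurd hx (notMem_empty _)) (fun x hx => absurd hx (notMem_empty x))
    (fun x hx => absurd hx (notMem_empty x))
  refine ⟨d, hde.trans hec, fun n => ⟨D n, hD (mem_range_self n), ?_⟩⟩
  rintro q ⟨h, hq⟩
  exact ⟨hde.K.sub h, hQ n _ hq _ ⟨hde, Finset.Subset.refl _⟩⟩

end Pool.Agent.LZ
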