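import Pool.Agent.Lib.MP_10f401_gt.LZ.SpecA

/-!
# A function generic for countably many requirements (`S_Gen`, MP_10f401_gt)
-/

set_option autoImplicit false

open Set Cardinal

namespace Pool.Agent.LZ

open Classical

namespace GenAux

/-- a value which avoids fewer than `bb i` values -/
theorem exists_val (H : Finset (ℕ → ℕ)) (i : ℕ) (hH : H.card < bb i) :
    ∃ v, v < bb i ∧ ∀ h ∈ H, v ≠ h i := by
  have h1 : (H.image fun h => h i).card < (Finset.range (bb i)).card := by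
    rw [Finset.card_range]
    exact lt_of_le_of_lt Finset.card_image_le hH
  obtain ⟨v, hv1, hv2⟩ := Finset.exists_mem_notMem_of_card_lt_card h1
  refine ⟨v, Finset.mem_range.1 hv1, fun h hh e => hv2 ?_⟩
  rw [e]
  exact Finset.mem_image_of_mem (fun h : ℕ → ℕ => h i) hh

theorem bb_mono {m n : ℕ} (h : m ≤ n) : bb m ≤ bb n :=
  Nat.pow_le_pow_right (by norm_num) (by omega)

theorem lt_bb (n : ℕ) : n < bb n :=
  lt_of_lt_of_le (Nat.lt_two_pow_self) (Nat.pow_le_pow_right (by norm_num) (Nat.le_succ n))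

/-- states of the construction -/
structure Sta where
  n : ℕ
  m : ℕ → ℕ
  H : Finset (ℕ → ℕ)
  hm : ∀ i, m i < bb i
  hH : H.card < bb n

/-- one step -/
structure Stp {I : Type} (r : Finset I × Finset (I × ℕ × (ℕ → ℕ)) × Set (I → ℕ → ℕ))
    (a b : Sta) : Prop where
  lt : a.n < b.n
  agree : ∀ i < a.n, b.m i = a.m i
  sub : a.H ⊆ b.H
  avoid : ∀ h ∈ a.H, ∀ i, a.n ≤ i → i < b.n → b.m i ≠ h i
  succ : (∀ n, ∃ w ∈ r.2.2, ∀ e ∈ r.2.1, ∀ i < n, w e.1 i = e.2.2 i) →
    (∀ e ∈ r.2.1, ∀ i, e.2.1 ≤ i → i < b.n → b.m i ≠ e.2.2 i) →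
    ∃ w ∈ r.2.2, (∀ e ∈ r.2.1, ∀ i < b.n, w e.1 i = e.2.2 i) ∧ (∀ j ∈ r.1, w j ∈ b.H) ∧
      ∀ e ∈ r.2.1, w e.1 ∈ b.H

theorem exists_step {I : Type} (r : Finset I × Finset (I × ℕ × (ℕ → ℕ)) × Set (I → ℕ → ℕ))
    (a : Sta) : ∃ b, Stp r a b := by
  obtain ⟨J, Ψ, W⟩ := r
  have hex : ∀ i, ∃ v, v < bb i ∧ (a.n ≤ i → ∀ h ∈ a.H, v ≠ h i) := by
    intro i
    by_cases hi : a.n ≤ i
    · obtain ⟨v, hv1, hv2⟩ := exists_val a.H i (a.hH.trans_le (bb_mono hi))
      exact ⟨v, hv1, fun _ => hv2⟩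
    · exact ⟨0, (Nat.zero_le i).trans_lt (lt_bb i), fun h => absurd h hi⟩
  choose g hg1 hg2 using hex
  set N := a.n + 1 + a.H.card + J.card + Ψ.card with hN
  set m' : ℕ → ℕ := fun i => if a.n ≤ i then g i else a.m i with hm'
  have hm1 : ∀ i, m' i < bb i := by
    intro i
    simp only [hm']
    split_ifs
    · exact hg1 i
    · exact a.hm i
  have hm2 : ∀ i < a.n, m' i = a.m i := by
    intro i hi
    simp only [hm']
    rw [if_neg (not_le.2 hi)]
  have hm3 : ∀ h ∈ a.H, ∀ i, a.n ≤ i → i < N → m' i ≠ h i := by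
    intro h hh i hi _
    simp only [hm']
    rw [if_pos hi]
    exact hg2 i hi h hh
  have hbN : N < bb N := lt_bb N
  have hlt : a.n < N := by omega
  by_cases hc : (∀ n, ∃ w ∈ W, ∀ e ∈ Ψ, ∀ i < n, w e.1 i = e.2.2 i) ∧
      ∀ e ∈ Ψ, ∀ i, e.2.1 ≤ i → i < N → m' i ≠ e.2.2 i
  · obtain ⟨w, hw, hw2⟩ := hc.1 N
    refine ⟨⟨N, m', a.H ∪ (J.image (fun j => w j) ∪ Ψ.image (fun e => w e.1)), hm1, ?_⟩, ?_⟩
    · have h1 := Finset.card_union_le a.H (J.image (fun j => w j) ∪ Ψ.image (fun e => w e.1))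
      have h2 := Finset.card_union_le (J.image (fun j => w j)) (Ψ.image (fun e => w e.1))
      have h3 : (J.image (fun j => w j)).card ≤ J.card := Finset.card_image_le
      have h4 : (Ψ.image (fun e => w e.1)).card ≤ Ψ.card := Finset.card_image_le
      omega
    · refine ⟨hlt, hm2, Finset.subset_union_left, hm3, fun _ _ => ⟨w, hw, hw2, ?_, ?_⟩⟩
      · intro j hj
        exact Finset.mem_union_right _ (Finset.mem_union_left _
          (Finset.mem_image_of_mem (fun j => w j) hj))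
      · intro e he
        exact Finset.mem_union_right _ (Finset.mem_union_right _
          (Finset.mem_image_of_mem (fun e : I × ℕ × (ℕ → ℕ) => w e.1) he))
  · refine ⟨⟨N, m', a.H, hm1, a.hH.trans_le (bb_mono (by omega))⟩,
      ⟨hlt, hm2, Finset.Subset.refl _, hm3, fun h1 h2 => absurd ⟨h1, h2⟩ hc⟩⟩

end GenAux

open GenAux

theorem tGen : S_Gen := by
  intro I Q hQ
  rcases Q.eq_empty_or_nonempty with rfl | hne
  · exact ⟨fun _ => 0, fun n => (Nat.zero_le n).trans_lt (lt_bb n), fun J Ψ W h => absurd h (by simp)⟩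
  obtain ⟨f, hf⟩ := hQ.exists_eq_range hne
  choose nx hnx using fun (r : Finset I × Finset (I × ℕ × (ℕ → ℕ)) × Set (I → ℕ → ℕ)) (a : Sta) =>
    exists_step r a
  set s0 : Sta := ⟨0, fun _ => 0, ∅, fun i => (Nat.zero_le i).trans_lt (lt_bb i),
    by rw [Finset.card_empty]; exact lt_bb 0⟩ with hs0
  set S : ℕ → Sta := fun k => Nat.rec s0 (fun k a => nx (f k) a) k with hS
  have hst : ∀ k, Stp (f k) (S k) (S (k + 1)) := fun k => hnx (f k) (S k)
  have hmono : StrictMono fun k => (S k).n := strictMono_nat_of_lt_succ fun k => (hst k).lt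
  have hge : ∀ k, k ≤ (S k).n := fun k => hmono.le_apply
  have hagree : ∀ k t, k ≤ t → ∀ i < (S k).n, (S t).m i = (S k).m i := by
    intro k t hkt
    induction t, hkt using Nat.le_induction with
    | base => intro i _; rfl
    | succ t hkt ih =>
      intro i hi
      rw [(hst t).agree i (hi.trans_le (hmono.monotone hkt))]
      exact ih i hi
  have hsub : ∀ k t, k ≤ t → (S k).H ⊆ (S t).H := by
    intro k t hkt
    induction t, hkt using Nat.le_induction with
    | base => exact Finset.Subset.refl _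
    | succ t _ ih => exact ih.trans (hst t).sub
  set m : ℕ → ℕ := fun i => (S (i + 1)).m i with hm
  have hmS : ∀ k i, i < (S k).n → (S k).m i = m i := by
    intro k i hi
    have h1 := hagree k (max k (i + 1)) (le_max_left _ _) i hi
    have h2 := hagree (i + 1) (max k (i + 1)) (le_max_right _ _) i (hge (i + 1))
    rw [← h1, h2]
  have havoid : ∀ k, ∀ h ∈ (S k).H, ∀ i, (S k).n ≤ i → m i ≠ h i := by
    intro k h hh i hi
    have hex : ∃ t, i < (S t).n := ⟨i + 1, hge (i + 1)⟩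
    have hspec := Nat.find_spec hex
    have hkt : k < Nat.find hex := by
      by_contra hcon
      have := hmono.monotone (not_lt.1 hcon)
      have h2 : (S (Nat.find hex)).n ≤ (S k).n := this
      omega
    obtain ⟨t, ht⟩ : ∃ t, Nat.find hex = t + 1 := ⟨Nat.find hex - 1, by omega⟩
    have hmin : ¬ i < (S t).n := Nat.find_min hex (by omega)
    rw [ht] at hspec hkt
    rw [← hmS (t + 1) i hspec]
    exact (hst t).avoid h (hsub k t (by omega) hh) i (not_lt.1 hmin) hspec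
  refine ⟨m, fun n => (S (n + 1)).hm n, ?_⟩
  intro J Ψ W hr h1 h2
  rw [hf] at hr
  obtain ⟨k, hk⟩ := hr
  have hsucc := (hst k).succ
  rw [hk] at hsucc
  obtain ⟨w, hw, hwa, hwb, hwc⟩ := hsucc h1 fun e he i hi hi2 => by
    rw [hmS (k + 1) i hi2]
    exact h2 e he i hi
  refine ⟨w, hw, fun e he i hi => ?_, (S (k + 1)).n, fun j hj i hi => ?_⟩
  · by_cases hi2 : i < (S (k + 1)).n
    · rw [hwa e he i hi2]
      exact h2 e he i hi
    · exact havoid (k + 1) (w e.1) (hwc e he) i (not_lt.1 hi2)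
  · exact havoid (k + 1) (w j) (hwb j hj) i hi

end Pool.Agent.LZ
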