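import Pool.Agent.Lib.MP_10f401_gt.LZ.SpecC

/-!
# HTU: the functions are total and unique
-/

set_option autoImplicit false

open Set Cardinal

namespace Pool.Agent.LZ

open Classical Pool.Agent.SymExt

theorem tHtu (T : Type) [Big T] (h1 : S_Stm T) : S_Htu T := by
  refine ⟨fun t n p => ?_, fun t n v v' p hv hv' => ?_⟩
  · obtain ⟨d, hd, hs⟩ := h1 p.c t
    have hp : p.p ∈ d.K := hd.K.sub p.hp
    obtain ⟨s, ⟨v, rfl⟩, hq⟩ := (d.cx.st_pd t hs n).2 p.p hp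
    refine ⟨⟨d, p.p ∪ {Atom.st t n v}, hq⟩, Cd.le_iff.2 ⟨hd, Finset.subset_union_left⟩, v, ?_⟩
    intro q hq'
    exact ⟨q, le_rfl, (Cd.le_iff.1 hq').2
      (Finset.mem_union_right _ (Finset.mem_singleton_self _))⟩
  · obtain ⟨r, hr, hr1⟩ := hv p le_rfl
    obtain ⟨r', hr', hr2⟩ := hv' r hr
    exact r'.c.cx.st_fun r'.p r'.hp t n v v' ((Cd.le_iff.1 hr').2 hr1) hr2

end Pool.Agent.LZ
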