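import Pool.Agent.Lib.MP_10f401_gt.LZ.SpecC

/-!
# The interface (assembly)
-/

set_option autoImplicit false
set_option linter.unusedSectionVars false
set_option linter.unusedVariables false

open Set Cardinal

namespace Pool.Agent.LZ

open Classical Pool.Agent.SymExt

namespace ItfAux

variable {T : Type} [Big T]

theorem blk {y y' : ℕ → RO (Cd T)} {p : Cd T} (h : ∀ n, ∀ q ≤ p, (y n q ↔ y' n q)) {n v : ℕ}
    {q : Cd T} (hq : q ≤ p) (hb : Blk y' n v q) : Blk y n v q := by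
  intro i hi
  refine ⟨fun h1 => (h _ q hq).2 ((hb i hi).1 h1), fun h1 r hr h2 => ?_⟩
  exact (hb i hi).2 h1 r hr ((h _ r (hr.trans hq)).1 h2)

theorem congr (x : ℕ → Bool) (k : ℕ) (y y' : ℕ → RO (Cd T)) (p : Cd T)
    (h : ∀ n, ∀ q ≤ p, (y n q ↔ y' n q)) (hA : AR x k y p) : AR x k y' p := by
  intro q hq
  obtain ⟨r, hr, m, hm, h1⟩ := hA q hq
  exact ⟨r, hr, m, hm, fun n hn s hs hb => h1 n hn s hs (blk h ((hs.trans hr).trans hq) hb)⟩

end ItfAux

theorem tItf (T : Type) [Big T] (h1 : S_Anw T) (h2 : S_Acv T) (h3 : S_Luz T) (h4 : S_Htu T)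
    (h5 : S_Sta T) : S_Itf T :=
  ⟨{ X := XR
     A := AR
     A_congr := ItfAux.congr
     A_nwd := h1
     A_cov := h2
     luz := h3
     h := hR
     h_tot := h4.1
     h_uni := h4.2
     star := h5 }⟩

end Pool.Agent.LZ
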