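import Pool.Agent.Lib.MP_10f401_gt.LZ.SpecA

/-!
# Module Lev: the level step
-/

set_option autoImplicit false

open Set Cardinal

namespace Pool.Agent.LZ

open Classical

theorem tLev (T : Type) [Big T] (h1 : S_Mk T) (h2 : S_LvE T) (h3 : S_Lkb T) (h4 : S_Lkd T)
    (h5 : S_Lks T) (h6 : S_Lkr T) (h7 : S_Lky T) (h8 : S_Lkx T) : S_Lev T := by
  intro c
  obtain ⟨Yn, Z, m, a, hY, lv⟩ := h2 c.K c.D c.Y c.cx c.Dc c.Dp c.Yc c.Yn
  obtain ⟨b1, b2, b3, b4, b5, _, b7⟩ := h3 c.K c.D Yn Z m a lv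
  have hPd : ∀ S ∈ c.D, Pd (LK c.K Yn Z m a) S := fun S hS =>
    h4 c.K c.D Yn Z m a lv b4 S hS (c.Dp S hS)
  obtain ⟨s1, s2⟩ := h5 c.K c.D Yn Z m a lv
  have hst : ∀ α n v, ({Atom.st α n v} : Face T) ∈ LK c.K Yn Z m a →
      ({Atom.st α n v} : Face T) ∈ c.K := by
    intro α n v h
    obtain ⟨p, hp, _, hall⟩ := b7 _ h α n v (Finset.mem_singleton_self _)
    exact c.cx.sing hp (hall n v (Finset.mem_singleton_self _))
  have cx : Cx (LK c.K Yn Z m a) :=
    { empty := b1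
      down := b2
      cnt := b3
      st_all := fun α n v n' v' h => b4 (c.cx.st_all _ _ _ _ _ (hst α n v h))
      st_fun := by
        intro p hp α n v v' h h'
        obtain ⟨p0, hp0, _, hall⟩ := b7 p hp α n v h
        exact c.cx.st_fun p0 hp0 α n v v' (hall n v h) (hall n v' h')
      st_pd := fun α hα n => hPd _ (c.stD α (hst α 0 0 hα) n)
      sr_ext := fun l p hp => h6 c.K c.D Yn Z m a lv l p hp
      sr_low := fun l q hq hl => s2 l q hq hl }
  have ext : Ext c.K (LK c.K Yn Z m a) := ⟨b4, b5, s1⟩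
  have h7' : ∀ y : Name T, ∃ E : Set (Face T), y ∈ Yn →
      Pd (LK c.K Yn Z m a) E ∧ Avd (LK c.K Yn Z m a) E y m := by
    intro y
    by_cases hy : y ∈ Yn
    · obtain ⟨E, hE⟩ := h7 c.K c.D Yn Z m a lv y hy
      exact ⟨E, fun _ => hE⟩
    · exact ⟨∅, fun h => absurd h hy⟩
  choose E hE using h7'
  obtain ⟨x, hx, hxO⟩ := h8 _ cx c.O c.Oc (fun o ho t => (c.Os o ho t).trans b4)
    (fun o ho s => hPd _ (c.OD o ho s)) (Prod.fst '' c.X) (c.Xc.image _)
  have hx' : ∀ m', (x, m') ∉ c.X := fun m' h => hx ⟨(x, m'), h, rfl⟩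
  obtain ⟨d, hd, _, hdX, _⟩ := h1 c _ cx ext hPd ((E '' c.Y) ∪ ((fun o => oX o x) '' c.O))
    ((c.Yc.image _).union (c.Oc.image _))
    (by
      rintro S (⟨y, hy, rfl⟩ | ⟨o, ho, rfl⟩)
      · exact (hE y (hY hy)).1
      · exact hxO o ho)
    ∅ countable_empty (fun y hy => absurd hy (notMem_empty _))
    ∅ countable_empty (fun o ho => absurd ho (notMem_empty _))
    (fun o ho => absurd ho (notMem_empty _))
    {(x, m)} (countable_singleton _)
    (by
      intro x' m1 m2 e1 e2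
      rcases e1 with e1 | e1 <;> rcases e2 with e2 | e2
      · exact c.Xi x' m1 m2 e1 e2
      · have h9 : x' = x := congrArg Prod.fst (mem_singleton_iff.1 e2)
        rw [h9] at e1
        exact absurd e1 (hx' m1)
      · have h9 : x' = x := congrArg Prod.fst (mem_singleton_iff.1 e1)
        rw [h9] at e2
        exact absurd e2 (hx' m2)
      · have h9 : m1 = m := congrArg Prod.snd (mem_singleton_iff.1 e1)
        have h10 : m2 = m := congrArg Prod.snd (mem_singleton_iff.1 e2)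
        rw [h9, h10])
    (by
      intro x' m' e n
      have h9 : m' = m := congrArg Prod.snd (mem_singleton_iff.1 e)
      rw [h9]
      exact lv.mb n)
    (by
      intro e he _ y hy
      rw [mem_singleton_iff.1 he]
      exact ⟨E y, Or.inl ⟨y, hy, rfl⟩, (hE y (hY hy)).2⟩)
    (by
      intro e he _ o ho
      rw [mem_singleton_iff.1 he]
      exact Or.inr ⟨o, ho, rfl⟩)
  refine ⟨d, hd, (x, m), ?_, hx'⟩
  rw [hdX]
  exact Or.inr rfl

end Pool.Agent.LZ
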