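import Pool.Agent.Lib.MP_10f401_gt.LZ.SpecA

/-!
# Limits of decreasing sequences of conditions (MP_10f401_gt, module Lim)
-/

set_option autoImplicit false
set_option linter.unusedSectionVars false
set_option linter.unusedVariables false

open Set Cardinal

namespace Pool.Agent.LZ

open Classical

namespace LimAux

variable {T : Type} [Big T] {c : ℕ → Cn T}

theorem le_of (hc : ∀ n, LeC (c (n + 1)) (c n)) {n m : ℕ} (h : n ≤ m) : LeC (c m) (c n) := by
  induction m, h using Nat.le_induction with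
  | base => exact LeC.refl _
  | succ m _ ih => exact (hc m).trans ih

/-- the union of the complexes -/
def U (c : ℕ → Cn T) : Set (Face T) := ⋃ n, (c n).K

theorem mem_U {p : Face T} : p ∈ U c ↔ ∃ n, p ∈ (c n).K := mem_iUnion

theorem pdU (hc : ∀ n, LeC (c (n + 1)) (c n)) {n : ℕ} {S : Set (Face T)} (hS : S ∈ (c n).D) :
    Pd (U c) S := by
  refine ⟨fun p hp => mem_U.2 ⟨n, ((c n).Dp S hS).1 hp⟩, fun p hp => ?_⟩
  obtain ⟨m, hm⟩ := mem_U.1 hp
  obtain ⟨q, hq, h1⟩ := ((c (max n m)).Dp S ((le_of hc (le_max_left n m)).D hS)).2 p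
    ((le_of hc (le_max_right n m)).K.sub hm)
  exact ⟨q, hq, mem_U.2 ⟨_, h1⟩⟩

theorem srU (hc : ∀ n, LeC (c (n + 1)) (c n)) {n : ℕ} {l : T} {p : Face T}
    (h : SR (c n).K l p) : SR (U c) l p := by
  refine ⟨mem_U.2 ⟨n, h.1⟩, fun q hq hql hqc F hF N v₀ => ?_⟩
  obtain ⟨m₁, hm₁⟩ := mem_U.1 hq
  have h2 : ∀ α : T, ∃ k : ℕ, α ∈ F → Stem (c k).K α := by
    intro α
    by_cases hα : α ∈ F
    · obtain ⟨k, hk⟩ := mem_U.1 (hF α hα).2
      exact ⟨k, fun _ => hk⟩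
    · exact ⟨0, fun h => absurd h hα⟩
  choose k hk using h2
  set m := max (max n m₁) (F.sup k) with hm
  have hnm : n ≤ m := (le_max_left n m₁).trans (le_max_left _ _)
  have hm1 : m₁ ≤ m := (le_max_right n m₁).trans (le_max_left _ _)
  have h3 : Abv (c m).K l F := by
    intro α hα
    refine ⟨(hF α hα).1, (le_of hc ?_).K.sub (hk α hα)⟩
    exact (Finset.le_sup (f := k) hα).trans (le_max_right _ _)
  obtain ⟨r, hr, h4, h5, h6⟩ := ((le_of hc hnm).K.sr l p h).2 q ((le_of hc hm1).K.sub hm₁) hql hqc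
    F h3 N v₀
  exact ⟨r, mem_U.2 ⟨m, hr⟩, h4, h5, h6⟩

theorem cxU (hc : ∀ n, LeC (c (n + 1)) (c n)) : Cx (U c) where
  empty := mem_U.2 ⟨0, (c 0).cx.empty⟩
  down p hp q hq := by
    obtain ⟨n, hn⟩ := mem_U.1 hp
    exact mem_U.2 ⟨n, (c n).cx.down p hn q hq⟩
  cnt := countable_iUnion fun n => (c n).cx.cnt
  st_all α n v n' v' h := by
    obtain ⟨k, hk⟩ := mem_U.1 h
    exact mem_U.2 ⟨k, (c k).cx.st_all _ _ _ _ _ hk⟩
  st_fun p hp α n v v' h h' := by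
    obtain ⟨k, hk⟩ := mem_U.1 hp
    exact (c k).cx.st_fun p hk α n v v' h h'
  st_pd α hα n := by
    obtain ⟨k, hk⟩ := mem_U.1 hα
    exact pdU hc ((c k).stD α hk n)
  sr_ext l p hp := by
    obtain ⟨k, hk⟩ := mem_U.1 hp
    obtain ⟨p', h1, h2⟩ := (c k).cx.sr_ext l p hk
    exact ⟨p', h1, srU hc h2⟩
  sr_low l q hq hl := by
    obtain ⟨k, hk⟩ := mem_U.1 hq
    exact srU hc ((c k).cx.sr_low l q hk hl)

theorem extU (hc : ∀ n, LeC (c (n + 1)) (c n)) (n : ℕ) : Ext (c n).K (U c) where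
  sub p hp := mem_U.2 ⟨n, hp⟩
  ind p hp ha := by
    obtain ⟨m, hm⟩ := mem_U.1 hp
    rcases le_total m n with h | h
    · exact (le_of hc h).K.sub hm
    · exact (le_of hc h).K.ind p hm ha
  sr l p hp := srU hc hp

/-- the limit -/
def lim (c : ℕ → Cn T) (hc : ∀ n, LeC (c (n + 1)) (c n)) : Cn T where
  X := ⋃ n, (c n).X
  K := U c
  D := ⋃ n, (c n).D
  Y := ⋃ n, (c n).Y
  O := ⋃ n, (c n).O
  Xc := countable_iUnion fun n => (c n).Xc
  Xi x m m' h h' := by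
    obtain ⟨k, hk⟩ := mem_iUnion.1 h
    obtain ⟨k', hk'⟩ := mem_iUnion.1 h'
    exact (c (max k k')).Xi x m m' ((le_of hc (le_max_left k k')).X hk)
      ((le_of hc (le_max_right k k')).X hk')
  Xb x m h n := by
    obtain ⟨k, hk⟩ := mem_iUnion.1 h
    exact (c k).Xb x m hk n
  cx := cxU hc
  Dc := countable_iUnion fun n => (c n).Dc
  Dp S hS := by
    obtain ⟨k, hk⟩ := mem_iUnion.1 hS
    exact pdU hc hk
  Yc := countable_iUnion fun n => (c n).Yc
  Yn y hy := by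
    obtain ⟨k, hk⟩ := mem_iUnion.1 hy
    have h := (c k).Yn y hk
    refine ⟨fun n v u hu => mem_U.2 ⟨k, h.sub n v hu⟩, h.bd, fun n => pdU hc ((c k).YD y hk n), ?_⟩
    intro n v v' u hu u' hu' huu
    exact h.inc n v v' u hu u' hu' ((extU hc k).union (c k).cx (h.sub n v hu) (h.sub n v' hu') huu)
  YD y hy n := by
    obtain ⟨k, hk⟩ := mem_iUnion.1 hy
    exact mem_iUnion.2 ⟨k, (c k).YD y hk n⟩
  Oc := countable_iUnion fun n => (c n).Oc
  Os o ho t p hp := by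
    obtain ⟨k, hk⟩ := mem_iUnion.1 ho
    exact mem_U.2 ⟨k, (c k).Os o hk t hp⟩
  OD o ho s := by
    obtain ⟨k, hk⟩ := mem_iUnion.1 ho
    exact mem_iUnion.2 ⟨k, (c k).OD o hk s⟩
  stD α hα n := by
    obtain ⟨k, hk⟩ := mem_U.1 hα
    exact mem_iUnion.2 ⟨k, (c k).stD α hk n⟩

theorem le_lim (hc : ∀ n, LeC (c (n + 1)) (c n)) (n : ℕ) : LeC (lim c hc) (c n) where
  X e he := mem_iUnion.2 ⟨n, he⟩
  K := extU hc n
  D S hS := mem_iUnion.2 ⟨n, hS⟩
  Y y hy := mem_iUnion.2 ⟨n, hy⟩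
  O o ho := mem_iUnion.2 ⟨n, ho⟩
  newY e he hn y hy := by
    obtain ⟨m, hm⟩ := mem_iUnion.1 he
    rcases le_total m n with h | h
    · exact absurd ((le_of hc h).X hm) hn
    · obtain ⟨E, hE, hA⟩ := (le_of hc h).newY e hm hn y hy
      exact ⟨E, mem_iUnion.2 ⟨m, hE⟩, hA.ext (c m).cx ((c m).Dp E hE).1
        (fun k v => (((c n).Yn y hy).sub k v).trans (le_of hc h).K.sub) (extU hc m)⟩
  newO e he hn o ho := by
    obtain ⟨m, hm⟩ := mem_iUnion.1 he
    rcases le_total m n with h | h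
    · exact absurd ((le_of hc h).X hm) hn
    · exact mem_iUnion.2 ⟨m, (le_of hc h).newO e hm hn o ho⟩

end LimAux

theorem tLim (T : Type) [Big T] : S_Lim T := by
  intro c hc
  exact ⟨LimAux.lim c hc, LimAux.le_lim hc, rfl, rfl⟩

end Pool.Agent.LZ
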