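import Pool.Agent.Lib.MP_10f401_gt.LZ.SpecA

/-!
# Module Lkb: basic properties of the new complex
-/

set_option autoImplicit false
set_option linter.unusedSectionVars false

open Set Cardinal

namespace Pool.Agent.LZ

open Classical

namespace LkbAux

variable {T : Type} [Big T]

theorem good_mono {K : Set (Face T)} {Z : Set (ℕ → ℕ)} {m : ℕ → ℕ} {p p' : Face T}
    {Φ Φ' : Finset (Name T × ℕ)} (h : Good K Z m p Φ) (hp : p' ⊆ p) (hΦ : Φ' ⊆ Φ) :
    Good K Z m p' Φ' := by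
  obtain ⟨z, ⟨h1, h2⟩, h3⟩ := h
  refine ⟨z, ⟨fun e he => h1 e (hΦ he), fun n => ?_⟩, fun e he => h3 e (hΦ he)⟩
  obtain ⟨q, hq, hpq, hd⟩ := h2 n
  exact ⟨q, hq, hp.trans hpq, fun e he => hd e (hΦ he)⟩

theorem good_empty {K : Set (Face T)} {Z : Set (ℕ → ℕ)} {m : ℕ → ℕ} {p : Face T} (hp : p ∈ K) :
    Good K Z m p ∅ :=
  ⟨fun _ _ => 0, ⟨fun _ he => absurd he (Finset.notMem_empty _),
    fun _ => ⟨p, hp, Finset.Subset.refl _, fun _ he => absurd he (Finset.notMem_empty _)⟩⟩,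
    fun _ he => absurd he (Finset.notMem_empty _)⟩

theorem new {K : Set (Face T)} {Yn : Set (Name T)} {a : Name T × ℕ → Atom T} (hK : Cx K)
    (ha : IsAt K Yn a) {p : Face T} (hp : p ∈ K) {e : Name T × ℕ} (he : e.1 ∈ Yn) : a e ∉ p :=
  fun h => ha.new e he (hK.sing hp h)

end LkbAux

open LkbAux

theorem tLkb (T : Type) [Big T] : S_Lkb T := by
  intro K 𝒟 Yn Z m a h
  have hK := h.cx
  have ha := h.at_
  refine ⟨?_, ?_, ?_, ?_, ?_, ?_, ?_⟩
  · exact ⟨∅, hK.empty, ∅, fun _ he => absurd he (Finset.notMem_empty _), good_empty hK.empty,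
      by simp⟩
  · rintro P ⟨p, hp, Φ, hΦ, hG, rfl⟩ Q hQ
    refine ⟨Q ∩ p, hK.down p hp _ Finset.inter_subset_right, Φ.filter (fun e => a e ∈ Q),
      fun e he => hΦ e (Finset.mem_filter.1 he).1,
      good_mono hG Finset.inter_subset_right (Finset.filter_subset _ _), ?_⟩
    ext b
    simp only [Finset.mem_union, Finset.mem_inter, Finset.mem_image, Finset.mem_filter]
    constructor
    · intro hb
      rcases Finset.mem_union.1 (hQ hb) with h1 | h1
      · exact Or.inl ⟨hb, h1⟩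
      · obtain ⟨e, he, rfl⟩ := Finset.mem_image.1 h1
        exact Or.inr ⟨e, ⟨he, hb⟩, rfl⟩
    · rintro (⟨hb, _⟩ | ⟨e, ⟨_, hb⟩, rfl⟩)
      · exact hb
      · exact hb
  · let S : Set (Finset (Name T × ℕ)) := {Φ | Nms Yn Φ}
    have hS : S.Countable := by
      have h2 : MapsTo (fun Φ : Finset (Name T × ℕ) => (Φ : Set (Name T × ℕ))) S
          {t | t.Finite ∧ t ⊆ Yn ×ˢ (univ : Set ℕ)} := fun Φ hΦ =>
        ⟨Φ.finite_toSet, fun e he => ⟨hΦ e he, mem_univ _⟩⟩
      exact h2.countable_of_injOn Finset.coe_injective.injOn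
        (countable_ofPred_finite_subset (h.cnt.prod countable_univ))
    refine ((hK.cnt.prod hS).image fun x : Face T × Finset (Name T × ℕ) =>
      x.1 ∪ x.2.image a).mono ?_
    rintro P ⟨p, hp, Φ, hΦ, _, rfl⟩
    exact ⟨(p, Φ), ⟨hp, hΦ⟩, rfl⟩
  · intro p hp
    exact ⟨p, hp, ∅, fun _ he => absurd he (Finset.notMem_empty _), good_empty hp, by simp⟩
  · rintro P ⟨p, hp, Φ, hΦ, _, rfl⟩ hP
    have h1 : Φ = ∅ := by
      rw [Finset.eq_empty_iff_forall_notMem]
      intro e he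
      exact ha.new e (hΦ e he) (hP (a e) (Finset.mem_union_right _
        (Finset.mem_image_of_mem a he)))
    rw [h1]
    simpa using hp
  · intro p hp p' hp' Φ Φ' hΦ hΦ' hs
    refine ⟨fun b hb => ?_, fun e he => ?_⟩
    · rcases Finset.mem_union.1 (hs (Finset.mem_union_left _ hb)) with h1 | h1
      · exact h1
      · obtain ⟨e, he, rfl⟩ := Finset.mem_image.1 h1
        exact absurd hb (new hK ha hp (hΦ' e he))
    · rcases Finset.mem_union.1 (hs (Finset.mem_union_right _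
        (Finset.mem_image_of_mem a he))) with h1 | h1
      · exact absurd h1 (new hK ha hp' (hΦ e he))
      · obtain ⟨e', he', h2⟩ := Finset.mem_image.1 h1
        rw [← ha.inj e' e (hΦ' e' he') (hΦ e he) h2]
        exact he'
  · rintro P ⟨p, hp, Φ, hΦ, _, rfl⟩ α n v _
    refine ⟨p, hp, Finset.subset_union_left, fun n' v' h1 => ?_⟩
    rcases Finset.mem_union.1 h1 with h2 | h2
    · exact h2
    · obtain ⟨e, _, h3⟩ := Finset.mem_image.1 h2
      obtain ⟨ρ, i, h4⟩ := ha.pm e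
      rw [h4] at h3
      cases h3

end Pool.Agent.LZ
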