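import Pool.Agent.Lib.MP_10f401_gt.LZ.SpecA

/-!
# Module Lkd: predense sets stay predense
-/

set_option autoImplicit false

open Set Cardinal

namespace Pool.Agent.LZ

open Classical

theorem tLkd (T : Type) [Big T] : S_Lkd T := by
  intro K 𝒟 Yn Z m a hL hK S hS hSp
  refine ⟨hSp.1.trans hK, ?_⟩
  rintro P ⟨p, hp, Φ, hΦ, hG, rfl⟩
  obtain ⟨d, hd, hpd, hG'⟩ := hL.gnD S hS p hp Φ hΦ hG
  refine ⟨d, hd, p ∪ d, hpd, Φ, hΦ, hG', ?_⟩
  ext b
  simp only [Finset.mem_union]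
  tauto

end Pool.Agent.LZ

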