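import Pool.Agent.Lib.MP_10f401_gt.LZ.SpecA

/-!
# Strong reductions exist in the new complex
-/

set_option autoImplicit false

open Set Cardinal

namespace Pool.Agent.LZ

open Classical

namespace LkrAux

variable {T : Type} [Big T]

/-- a face with low parts decides a name with low faces by its low part -/
theorem dec_cut {q : Face T} {l : T} {y : Name T} {n v : ℕ} (h : Dec q y n v)
    (hl : ∀ n v, ∀ u ∈ y n v, Low l u) : Dec (cut q l) y n v := by
  obtain ⟨u, hu, h1⟩ := h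
  exact ⟨u, hu, fun b hb => mem_cut.2 ⟨h1 hb, hl n v u hu b hb⟩⟩

/-- a face decides at most one value -/
theorem dec_unique {K : Set (Face T)} (hK : Cx K) {y : Name T} (hy : Nm K y) {r : Face T}
    (hr : r ∈ K) {n v v' : ℕ} (h : Dec r y n v) (h' : Dec r y n v') : v = v' := by
  obtain ⟨u, hu, h1⟩ := h
  obtain ⟨u', hu', h1'⟩ := h'
  exact hy.inc n v v' u hu u' hu' (hK.down r hr _ (Finset.union_subset h1 h1'))

end LkrAux

open LkrAux in
/-- strong reductions exist in the new complex -/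
theorem tLkr (T : Type) [Big T] (h1 : S_Lkb T) : S_Lkr T := by
  intro K 𝒟 Yn Z m a hLv l P hP
  obtain ⟨-, -, -, -, -, h6, h7⟩ := h1 K 𝒟 Yn Z m a hLv
  obtain ⟨p, hp, Φ, hΦ, hgood, rfl⟩ := hP
  obtain ⟨p', st, hpp', hSR, hRed, hst, hgood'⟩ := hLv.gnR l p hp Φ hΦ hgood
  have hKcx := hLv.cx
  have hNst : Nms Yn (Φ.image fun e => (st e.1, e.2)) := by
    intro e he
    obtain ⟨e', he', rfl⟩ := Finset.mem_image.1 he
    exact hst e' he'
  have hNΘ : Nms Yn (Φ ∪ Φ.image fun e => (st e.1, e.2)) := by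
    intro e he
    rcases Finset.mem_union.1 he with h | h
    · exact hΦ e h
    · exact hNst e h
  refine ⟨p' ∪ (Φ ∪ Φ.image fun e => (st e.1, e.2)).image a, ?_, ?_, ?_⟩
  · exact Finset.union_subset_union hpp' (Finset.image_subset_image Finset.subset_union_left)
  · exact ⟨p', hSR.1, _, hNΘ, hgood', rfl⟩
  intro Q hQ hQl hQc F hF N v₀
  obtain ⟨q, hq, Ψ, hΨ, ⟨zΨ, hBrn, hAv⟩, rfl⟩ := hQ
  -- step A
  have hA : LZ.cut p' l ⊆ q ∧ (Φ.image fun e => (st e.1, e.2)) ⊆ Ψ := by
    refine h6 _ (hKcx.cut hSR.1 l) q hq _ _ hNst hΨ ?_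
    refine Finset.Subset.trans (Finset.union_subset ?_ ?_) hQc
    · exact cut_mono l Finset.subset_union_left
    · intro b hb
      obtain ⟨e', he', rfl⟩ := Finset.mem_image.1 hb
      refine mem_cut.2 ⟨?_, ?_⟩
      · exact Finset.mem_union_right _ (Finset.mem_image_of_mem a (Finset.mem_union_right _ he'))
      · refine (hLv.at_.rk e' (hNst e' he') l).2 ?_
        obtain ⟨e, he, rfl⟩ := Finset.mem_image.1 he'
        exact hRed.low e.1 (Finset.mem_image_of_mem Prod.fst he)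
  obtain ⟨hA1, hA2⟩ := hA
  have hmem : ∀ e ∈ Φ, (st e.1, e.2) ∈ Ψ := fun e he =>
    hA2 (Finset.mem_image_of_mem (fun e : Name T × ℕ => (st e.1, e.2)) he)
  -- step B
  have hql : Low l q := hQl.mono Finset.subset_union_left
  have hΨl : ∀ e ∈ Ψ, ∀ n v, ∀ u ∈ e.1 n v, Low l u := by
    intro e he
    refine (hLv.at_.rk e (hΨ e he) l).1 ?_
    exact hQl _ (Finset.mem_union_right _ (Finset.mem_image_of_mem a he))
  -- step C
  have hSt : ∀ α ∈ F, Stem K α := by
    intro α hα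
    obtain ⟨p₁, hp₁, -, h8⟩ := h7 _ (hF α hα).2 α 0 0 (Finset.mem_singleton_self _)
    exact hKcx.sing hp₁ (h8 0 0 (Finset.mem_singleton_self _))
  have hF' : Abv K l F := fun α hα => ⟨(hF α hα).1, hSt α hα⟩
  -- step D
  have hD : ∀ n, ∃ r ∈ K, p' ⊆ r ∧ q ⊆ r ∧ Large p' F N v₀ r ∧
      (∀ e ∈ Φ, ∀ i < n, Dec r e.1 i (zΨ (st e.1) i)) ∧ ∀ e ∈ Ψ, ∀ i < n, Dec r e.1 i (zΨ e.1 i) := by
    intro n
    obtain ⟨qn, hqn, hqq, hdec⟩ := hBrn.2 n
    have hqc : q ⊆ LZ.cut qn l := by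
      rw [← cut_of_low hql]
      exact cut_mono l hqq
    have hdc : ∀ e ∈ Ψ, ∀ i < n, Dec (LZ.cut qn l) e.1 i (zΨ e.1 i) := fun e he i hi =>
      dec_cut (hdec e he i hi) (hΨl e he)
    obtain ⟨r, hr, h8, h9, h10, h11⟩ := hRed.up (LZ.cut qn l) (hKcx.cut hqn l) (low_cut qn l)
      (hA1.trans hqc) n (fun y => zΨ (st y)) (by
        intro y hy i hi
        obtain ⟨e, he, rfl⟩ := Finset.mem_image.1 hy
        exact hdc _ (hmem e he) i hi) F hF' N v₀
    refine ⟨r, hr, h8, hqc.trans h9, h10, ?_, ?_⟩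
    · intro e he i hi
      exact h11 e.1 (Finset.mem_image_of_mem Prod.fst he) i hi
    · intro e he i hi
      exact (hdc e he i hi).mono h9
  -- the function z
  let z : Name T → ℕ → ℕ := fun y => if y ∈ Ψ.image Prod.fst then zΨ y else zΨ (st y)
  have hzΨ : ∀ e ∈ Ψ, z e.1 = zΨ e.1 := fun e he => if_pos (Finset.mem_image_of_mem Prod.fst he)
  have hzΦ : ∀ e ∈ Φ, z e.1 = zΨ (st e.1) := by
    intro e he
    by_cases h : e.1 ∈ Ψ.image Prod.fst
    · have h8 : z e.1 = zΨ e.1 := if_pos h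
      rw [h8]
      obtain ⟨e', he', hee⟩ := Finset.mem_image.1 h
      funext i
      obtain ⟨r, hr, -, -, -, h9, h10⟩ := hD (i + 1)
      have h11 := h9 e he i (Nat.lt_succ_self i)
      have h12 := h10 e' he' i (Nat.lt_succ_self i)
      rw [hee] at h12
      exact dec_unique hKcx (hLv.nm _ (hΦ e he)) hr h12 h11
    · exact if_neg h
  obtain ⟨r, hr, h8, h9, h10, h11⟩ := hLv.gnL p' q F N v₀ (Φ ∪ Ψ) z hSt (by
      intro e he
      rcases Finset.mem_union.1 he with h | h
      · exact hΦ e h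
      · exact hΨ e h) (by
      intro e he
      rcases Finset.mem_union.1 he with h | h
      · rw [hzΦ e h]
        exact hBrn.1 _ (hmem e h)
      · rw [hzΨ e h]
        exact hBrn.1 _ h) (by
      intro e he i hi
      rcases Finset.mem_union.1 he with h | h
      · rw [hzΦ e h]
        exact hAv _ (hmem e h) i hi
      · rw [hzΨ e h]
        exact hAv _ h i hi) (by
      intro n
      obtain ⟨r, hr, h8, h9, h10, h11, h12⟩ := hD n
      refine ⟨r, hr, h8, h9, h10, ?_⟩
      intro e he i hi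
      rcases Finset.mem_union.1 he with h | h
      · rw [hzΦ e h]
        exact h11 e h i hi
      · rw [hzΨ e h]
        exact h12 e h i hi)
  refine ⟨r ∪ (Φ ∪ Ψ).image a, ⟨r, hr, Φ ∪ Ψ, ?_, h11, rfl⟩, ?_, ?_, ?_⟩
  · intro e he
    rcases Finset.mem_union.1 he with h | h
    · exact hΦ e h
    · exact hΨ e h
  · exact Finset.union_subset_union h8 (Finset.image_subset_image
      (Finset.union_subset_union (Finset.Subset.refl _) hA2))
  · exact Finset.union_subset_union h9 (Finset.image_subset_image Finset.subset_union_right)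
  · intro α hα n hn
    rcases h10 α hα n hn with h | ⟨v, hv, h⟩
    · exact Or.inl (h.mono Finset.subset_union_left)
    · exact Or.inr ⟨v, hv, Finset.mem_union_left _ h⟩

end Pool.Agent.LZ
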