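import Pool.Agent.Lib.MP_10f401_gt.LZ.SpecA
import Pool.Agent.Lib.MP_10f401_gt.LZ.Base

/-!
# Strong reductions stay strong reductions, low faces (helper92)
-/

set_option autoImplicit false

open Set Cardinal

namespace Pool.Agent.LZ

open Classical

namespace LksAux

variable {T : Type} [Big T]

/-- a name with low faces is decided by the low part -/
theorem dec_cut {q : Face T} {l : T} {y : Name T} {n v : ℕ} (h : Dec q y n v)
    (hl : ∀ n v, ∀ u ∈ y n v, Low l u) : Dec (cut q l) y n v := by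
  obtain ⟨u, hu, h1⟩ := h
  exact ⟨u, hu, fun b hb => mem_cut.2 ⟨h1 hb, hl n v u hu b hb⟩⟩

/-- the first part -/
theorem sr_up (h1 : S_Lkb T) (K : Set (Face T)) (𝒟 : Set (Set (Face T))) (Yn : Set (Name T))
    (Z : Set (ℕ → ℕ)) (m : ℕ → ℕ) (a : Name T × ℕ → Atom T) (hLv : Lv K 𝒟 Yn Z m a) (l : T)
    (p : Face T) (hp : SR K l p) : SR (LK K Yn Z m a) l p := by
  obtain ⟨-, -, -, h4, -, h6, h7⟩ := h1 K 𝒟 Yn Z m a hLv
  refine ⟨h4 hp.1, ?_⟩
  intro Q hQ hQl hQc F hF N v₀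
  obtain ⟨q, hq, Φ, hΦ, ⟨z, hBrn, hAv⟩, rfl⟩ := hQ
  have hA : LZ.cut p l ⊆ q := by
    refine (h6 _ (hLv.cx.cut hp.1 l) q hq ∅ Φ ?_ hΦ ?_).1
    · intro e he
      exact absurd he (Finset.notMem_empty _)
    · rw [Finset.image_empty, Finset.union_empty]
      exact hQc
  have hql : Low l q := hQl.mono Finset.subset_union_left
  have hΦl : ∀ e ∈ Φ, ∀ n v, ∀ u ∈ e.1 n v, Low l u := by
    intro e he
    refine (hLv.at_.rk e (hΦ e he) l).1 ?_
    exact hQl _ (Finset.mem_union_right _ (Finset.mem_image_of_mem a he))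
  have hSt : ∀ α ∈ F, Stem K α := by
    intro α hα
    obtain ⟨p₁, hp₁, -, h8⟩ := h7 _ (hF α hα).2 α 0 0 (Finset.mem_singleton_self _)
    exact hLv.cx.sing hp₁ (h8 0 0 (Finset.mem_singleton_self _))
  have hF' : Abv K l F := fun α hα => ⟨(hF α hα).1, hSt α hα⟩
  obtain ⟨r, hr, h8, h9, h10, h11⟩ := hLv.gnL p q F N v₀ Φ z hSt hΦ hBrn.1 hAv (by
    intro n
    obtain ⟨qn, hqn, hqq, hdec⟩ := hBrn.2 n
    have hqc : q ⊆ LZ.cut qn l := by
      rw [← cut_of_low hql]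
      exact cut_mono l hqq
    obtain ⟨r, hr, h8, h9, h10⟩ := hp.2 (LZ.cut qn l) (hLv.cx.cut hqn l) (low_cut qn l)
      (hA.trans hqc) F hF' N v₀
    exact ⟨r, hr, h8, hqc.trans h9, h10, fun e he i hi =>
      (dec_cut (hdec e he i hi) (hΦl e he)).mono h9⟩)
  refine ⟨r ∪ Φ.image a, ⟨r, hr, Φ, hΦ, h11, rfl⟩, h8.trans Finset.subset_union_left,
    Finset.union_subset_union h9 (Finset.Subset.refl _), ?_⟩
  exact h10.mono (Finset.Subset.refl _) le_rfl le_rfl Finset.subset_union_left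

end LksAux

open LksAux in
/-- strong reductions stay strong reductions, low faces are strong reductions -/
theorem tLks (T : Type) [Big T] (h1 : S_Lkb T) : S_Lks T := by
  intro K 𝒟 Yn Z m a hLv
  refine ⟨fun l p hp => sr_up h1 K 𝒟 Yn Z m a hLv l p hp, ?_⟩
  intro l P hP hPl
  refine ⟨hP, ?_⟩
  intro Q hQ hQl hQc F hF N v₀
  rw [cut_of_low hPl] at hQc
  have hQ' := hQ
  obtain ⟨q, hq, Ψ, hΨ, -, hQe⟩ := hQ'
  have hqQ : q ⊆ Q := by
    rw [hQe]
    exact Finset.subset_union_left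
  have hql : Low l q := hQl.mono hqQ
  have h2 := sr_up h1 K 𝒟 Yn Z m a hLv l q (hLv.cx.sr_low l q hq hql)
  obtain ⟨R, hR, h3, h4, h5⟩ := h2.2 Q hQ hQl ((cut_sub q l).trans hqQ) F hF N v₀
  refine ⟨R, hR, hQc.trans h4, h4, ?_⟩
  intro α hα n hn
  rcases h5 α hα n hn with h6 | h6
  · exact absurd h6 (not_decSt_of_low hql (hF α hα).1)
  · exact Or.inr h6

end Pool.Agent.LZ
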