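import Pool.Agent.Lib.MP_10f401_gt.LZ.SpecA

/-!
# Module Lky: the promises are predense (helper94)
-/

set_option autoImplicit false

open Set Cardinal

namespace Pool.Agent.LZ

open Classical

theorem tLky (T : Type) [Big T] (h1 : S_Lkb T) : S_Lky T := by
  intro K 𝒟 Yn Z m a hL y hy
  obtain ⟨-, hdown, -⟩ := h1 K 𝒟 Yn Z m a hL
  refine ⟨{s | ∃ k, s = {a (y, k)} ∧ s ∈ LK K Yn Z m a}, ⟨?_, ?_⟩, ?_⟩
  · rintro s ⟨k, -, hs⟩
    exact hs
  · rintro P ⟨p, hp, Φ, hΦ, hG, rfl⟩
    obtain ⟨k, hk⟩ := hL.gnY p hp Φ hΦ hG y hy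
    have h2 : p ∪ (insert (y, k) Φ).image a ∈ LK K Yn Z m a := by
      refine ⟨p, hp, insert (y, k) Φ, ?_, hk, rfl⟩
      intro e he
      rcases Finset.mem_insert.1 he with rfl | he
      · exact hy
      · exact hΦ e he
    have h3 : (p ∪ Φ.image a) ∪ {a (y, k)} = p ∪ (insert (y, k) Φ).image a := by
      rw [Finset.image_insert]
      ext b
      simp only [Finset.mem_union, Finset.mem_insert, Finset.mem_singleton]
      tauto
    refine ⟨{a (y, k)}, ⟨k, rfl, hdown _ h2 _ ?_⟩, ?_⟩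
    · rw [← h3]
      exact Finset.subset_union_right
    · rw [h3]
      exact h2
  · rintro s ⟨k, rfl, hs⟩
    refine ⟨k, fun n hn u hu hmem => ?_⟩
    obtain ⟨p, hp, Φ, hΦ, ⟨z, hz, hav⟩, heq⟩ := hmem
    have hnm := hL.nm y hy
    have huK : u ∈ K := hnm.sub _ _ hu
    have hup : u ⊆ p := by
      intro b hb
      have h2 : b ∈ p ∪ Φ.image a := by
        rw [← heq]
        exact Finset.mem_union_right _ hb
      rcases Finset.mem_union.1 h2 with h3 | h3
      · exact h3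
      · obtain ⟨e, he, rfl⟩ := Finset.mem_image.1 h3
        exact absurd (hL.cx.sing huK hb) (hL.at_.new e (hΦ e he))
    have hyk : (y, k) ∈ Φ := by
      have h2 : a (y, k) ∈ p ∪ Φ.image a := by
        rw [← heq]
        exact Finset.mem_union_left _ (Finset.mem_singleton_self _)
      rcases Finset.mem_union.1 h2 with h3 | h3
      · exact absurd (hL.cx.sing hp h3) (hL.at_.new (y, k) hy)
      · obtain ⟨e, he, h4⟩ := Finset.mem_image.1 h3
        rwa [hL.at_.inj e (y, k) (hΦ e he) hy h4] at he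
    obtain ⟨q, hq, hpq, hdec⟩ := hz.2 (n + 1)
    obtain ⟨u', hu', hu'q⟩ := hdec (y, k) hyk n (Nat.lt_succ_self n)
    have h2 : u ∪ u' ∈ K := hL.cx.down q hq _ (Finset.union_subset (hup.trans hpq) hu'q)
    exact hav (y, k) hyk n hn (hnm.inc n _ _ u hu u' hu' h2)

end Pool.Agent.LZ
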