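import Pool.Agent.Lib.MP_10f401_gt.LZ.SpecC

/-!
# The Luzin property (module Luz, helper37)
-/

set_option autoImplicit false

open Set Cardinal

namespace Pool.Agent.LZ

open Classical Pool.Agent.SymExt

namespace LuzAux

variable {T : Type} [Big T]

/-- two conditions: the face `u` over `d` and `p` are compatible only if `u ∪ p.p` is a face -/
theorem compat {p : Cd T} {d : Cn T} (hd : LeC d p.c) {u : Face T} (hu : u ∈ d.K) {r : Cd T}
    (h1 : LeC r.c d) (h2 : u ⊆ r.p) (h3 : p.p ⊆ r.p) : u ∪ p.p ∈ d.K :=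
  h1.K.union d.cx hu (hd.K.sub p.hp)
    (r.c.cx.down _ r.hp _ (Finset.union_subset h2 h3))

/-- the name of the open set number `n` -/
def nam (p : Cd T) (O : ℕ → List Bool → RO (Cd T)) (d : Cn T) (n : ℕ) : ONm T := fun t =>
  {u | ∃ h : u ∈ d.K, O n t ⟨d, u, h⟩ ∨ u ∪ p.p ∉ d.K}

theorem nam_sub (p : Cd T) (O : ℕ → List Bool → RO (Cd T)) (d : Cn T) (n : ℕ) (t : List Bool) :
    nam p O d n t ⊆ d.K := fun _ hu => hu.1

end LuzAux

open LuzAux in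
theorem tLuz (T : Type) [Big T] (h1 : S_Mk T) (h2 : S_Lev T) (h3 : S_Fus T) : S_Luz T := by
  intro p O hO
  obtain ⟨f, hf⟩ := exists_surjective_nat (ℕ × List Bool)
  obtain ⟨d, hd, hS⟩ := h3 (fun j => {z | (∃ t, (f j).2 <+: t ∧ O (f j).1 t z) ∨
    ∀ r ≤ z, ¬ r ≤ p}) (by
      rintro j x (⟨t, ht, hx⟩ | hx) y hy
      · exact Or.inl ⟨t, ht, (O (f j).1 t).mono hy hx⟩
      · exact Or.inr fun r hr => hx r (hr.trans hy)) (by
      intro j x
      by_cases h : ∃ r ≤ x, r ≤ p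
      · obtain ⟨r, hr, hrp⟩ := h
        obtain ⟨r', hr', t, ht, h4⟩ := hO (f j).1 (f j).2 r hrp
        exact ⟨r', hr'.trans hr, Or.inl ⟨t, ht, h4⟩⟩
      · exact ⟨x, le_rfl, Or.inr fun r hr hrp => h ⟨r, hr, hrp⟩⟩) p.c
  have hpd : ∀ n s, Pd d.K (oD (nam p O d n) s) := by
    intro n s
    refine ⟨?_, ?_⟩
    · rintro u ⟨t, -, hu⟩
      exact hu.1
    · intro p' hp'
      obtain ⟨j, hj⟩ := hf (n, s)
      obtain ⟨S, hSD, hSq⟩ := hS j
      obtain ⟨q, hq, hpq⟩ := (d.Dp S hSD).2 p' hp'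
      obtain ⟨hqK, hq'⟩ := hSq q hq
      refine ⟨q, ?_, hpq⟩
      rcases hq' with ⟨t, ht, h4⟩ | h4
      · rw [hj] at ht h4
        exact ⟨t, ht, hqK, Or.inl h4⟩
      · refine ⟨s, ⟨[], List.append_nil s⟩, hqK, Or.inr fun h5 => ?_⟩
        exact h4 ⟨d, q ∪ p.p, h5⟩ ⟨LeC.refl d, Finset.subset_union_left⟩
          ⟨hd, Finset.subset_union_right⟩
  obtain ⟨d₁, hd₁, -, -, -, -, hO₁⟩ := h1 d d.K d.cx (Ext.refl _ d.cx) d.Dp ∅ countable_empty
    (fun _ h => absurd h (notMem_empty _)) ∅ countable_empty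
    (fun _ h => absurd h (notMem_empty _)) (range (nam p O d)) (countable_range _)
    (by
      rintro _ ⟨n, rfl⟩ t
      exact nam_sub p O d n t)
    (by
      rintro _ ⟨n, rfl⟩ s
      exact hpd n s) ∅ countable_empty
    (by
      intro x m m' hm hm'
      rw [union_empty] at hm hm'
      exact d.Xi x m m' hm hm')
    (fun _ _ h => absurd h (notMem_empty _)) (fun _ h => absurd h (notMem_empty _))
    (fun _ h => absurd h (notMem_empty _))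
  obtain ⟨d₂, hd₂, e, he, hne⟩ := h2 d₁
  have h21 : LeC d₂ d := hd₂.trans hd₁
  have h2p : LeC d₂ p.c := h21.trans hd
  refine ⟨⟨d₂, p.p, h2p.K.sub p.hp⟩, ⟨h2p, Finset.Subset.refl _⟩, Prod.fst '' d₁.X,
    d₁.Xc.image _, ?_, e.1, ?_, ?_⟩
  · intro x hx r hr hXr n r' hr'
    obtain ⟨r₁, hr₁, m, hm⟩ := hXr r' hr'
    have hq : LeC r₁.c d₂ := ((hr₁.1.trans hr'.1).trans hr.1)
    have hpp : p.p ⊆ r₁.p := (hr.2.trans hr'.2).trans hr₁.2
    have h1' : LeC r₁.c d₁ := hq.trans hd₂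
    have hd' : LeC r₁.c d := h1'.trans hd₁
    have hD := h1'.newO (x, m) hm (fun h => hx ⟨_, h, rfl⟩) (nam p O d n) (hO₁ ⟨n, rfl⟩)
    obtain ⟨u, ⟨t, ht, hu⟩, hru⟩ := (r₁.c.Dp _ hD).2 r₁.p r₁.hp
    obtain ⟨huK, hu'⟩ := hu
    refine ⟨⟨r₁.c, r₁.p ∪ u, hru⟩, ?_, t, ht, ?_⟩
    · refine le_trans (b := r₁) ⟨LeC.refl _, Finset.subset_union_left⟩ hr₁
    · rcases hu' with h4 | h4
      · exact (O n t).mono (show (⟨r₁.c, r₁.p ∪ u, hru⟩ : Cd T) ≤ ⟨d, u, huK⟩ from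
          ⟨hd', Finset.subset_union_right⟩) h4
      · exact absurd (compat (r := ⟨r₁.c, r₁.p ∪ u, hru⟩) hd huK hd'
          Finset.subset_union_right (hpp.trans Finset.subset_union_left)) h4
  · rintro ⟨⟨x, m⟩, hxm, hx⟩
    have hx' : x = e.1 := hx
    subst hx'
    exact hne m hxm
  · intro q' hq'
    exact ⟨q', le_rfl, e.2, hq'.1.X he⟩

end Pool.Agent.LZ
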