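import Pool.Agent.Lib.MP_10f401_gt.LZ.SpecA

/-!
# MP_10f401_gt, LZ: existence of the level data (assembly)
-/

set_option autoImplicit false

open Set Cardinal

namespace Pool.Agent.LZ

open Classical

theorem LvEAux.genFor_mono {I : Type}
    {Q Q' : Set (Finset I × Finset (I × ℕ × (ℕ → ℕ)) × Set (I → ℕ → ℕ))} {m : ℕ → ℕ}
    (h : GenFor Q' m) (hQ : Q ⊆ Q') : GenFor Q m := by
  intro J Ψ W hW h1 h2
  exact h J Ψ W (hQ hW) h1 h2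

theorem tLvE (T : Type) [Big T] (h1 : S_Clo T) (h2 : S_Zbr T) (h3 : S_Gen) (h4 : S_QD T)
    (h5 : S_QL T) (h6 : S_QY T) (h7 : S_QR T) (h8 : S_Atm T) : S_LvE T := by
  intro K 𝒟 Y₀ hK h𝒟 hPd hY₀ hNm
  obtain ⟨Yn, hsub, hcnt, hnm, st, hst⟩ := h1 K hK Y₀ hY₀ hNm
  obtain ⟨Z, hZ, hzb⟩ := h2 K hK Yn hcnt hnm
  obtain ⟨QD, hQD, gD⟩ := h4 K hK Yn hcnt hnm Z hZ hzb 𝒟 h𝒟 hPd
  obtain ⟨QL, hQL, gL⟩ := h5 K hK Yn hcnt hnm Z hZ hzb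
  obtain ⟨QY, hQY, gY⟩ := h6 K hK Yn hcnt hnm Z hZ hzb
  obtain ⟨QR, hQR, gR⟩ := h7 K hK Yn hcnt hnm Z hZ hzb st hst
  obtain ⟨m, hm, hg⟩ := h3 (Name T) ((QD ∪ QL) ∪ (QY ∪ QR))
    ((hQD.union hQL).union (hQY.union hQR))
  obtain ⟨a, ha⟩ := h8 K hK Yn hcnt hnm
  refine ⟨Yn, Z, m, a, hsub, ?_⟩
  exact
    { cx := hK
      cnt := hcnt
      nm := hnm
      mb := hm
      zb := hzb
      at_ := ha
      gnD := gD m (LvEAux.genFor_mono hg fun x hx => Or.inl (Or.inl hx))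
      gnL := gL m (LvEAux.genFor_mono hg fun x hx => Or.inl (Or.inr hx))
      gnY := gY m (LvEAux.genFor_mono hg fun x hx => Or.inr (Or.inl hx))
      gnR := gR m (LvEAux.genFor_mono hg fun x hx => Or.inr (Or.inr hx)) }

end Pool.Agent.LZ
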