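import Pool.Agent.Lib.MP_10f401_gt.LZ.SpecC

/-!
# PIG: pigeonhole (helper11)
-/

set_option autoImplicit false
set_option linter.unusedSectionVars false
set_option linter.unusedVariables false

open Set Cardinal

namespace Pool.Agent.LZ

open Classical Pool.Agent.SymExt

theorem tPig (T : Type) [Big T] : S_Pig T := by
  intro f
  by_contra h
  have h1 : ∀ x : ℕ → Bool, ∃ t : T, ∀ i, f i = x → i ≤ t := by
    intro x
    by_contra h2
    refine h ⟨x, fun t => ?_⟩
    by_contra h3
    refine h2 ⟨t, fun i hi => ?_⟩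
    by_contra h4
    exact h3 ⟨i, hi, not_le.1 h4⟩
  choose b hb using h1
  have hc : #(Set.range b) ≤ 𝔠 := by
    refine Cardinal.mk_range_le.trans ?_
    simp
  obtain ⟨t0, ht0⟩ := Big.bdd (Set.range b) hc
  exact absurd (hb (f t0) t0 rfl) (not_le.2 (ht0 _ ⟨_, rfl⟩))

end Pool.Agent.LZ
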