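import Pool.Agent.Lib.MP_10f401_gt.LZ.SpecA

/-!
# Module QL: requirements for large faces
-/

set_option autoImplicit false
set_option linter.unusedSectionVars false
set_option linter.unusedVariables false

open Set Cardinal

namespace Pool.Agent.LZ

open Classical

namespace QLAux

theorem fin_cnt {α : Type} {s : Set α} (hs : s.Countable) :
    {t : Finset α | ∀ a ∈ t, a ∈ s}.Countable :=
  Set.MapsTo.countable_of_injOn (f := fun t : Finset α => (t : Set α))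
    (t := {t : Set α | t.Finite ∧ t ⊆ s}) (fun t ht => ⟨t.finite_toSet, ht⟩)
    (Finset.coe_injective.injOn) (Set.countable_ofPred_finite_subset hs)

variable {T : Type} [Big T]

theorem stem_cnt {K : Set (Face T)} (hK : Cx K) : {α : T | Stem K α}.Countable := by
  refine Set.MapsTo.countable_of_injOn (f := fun α => ({Atom.st α 0 0} : Face T)) (t := K)
    (fun α h => h) ?_ hK.cnt
  intro α _ β _ h
  have h1 : Atom.st α 0 0 = Atom.st β 0 0 := Finset.singleton_injective h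
  injection h1

theorem dec_inj {K : Set (Face T)} (hK : Cx K) {y : Name T} (hy : Nm K y) {q : Face T}
    (hq : q ∈ K) {n v v' : ℕ} (h : Dec q y n v) (h' : Dec q y n v') : v = v' := by
  obtain ⟨u, hu, h1⟩ := h
  obtain ⟨u', hu', h1'⟩ := h'
  exact hy.inc n v v' u hu u' hu' (hK.down q hq _ (Finset.union_subset h1 h1'))

/-- the indices of the requirements -/
abbrev Ix (T : Type) [Big T] : Type :=
  Face T × Face T × Finset T × ℕ × ℕ × Finset (Name T × ℕ × (ℕ → ℕ))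

/-- the set of the functions of a requirement -/
def WW (K : Set (Face T)) (Z : Set (ℕ → ℕ)) (x : Ix T) : Set (Name T → ℕ → ℕ) :=
  {w | ∃ r ∈ K, x.1 ⊆ r ∧ x.2.1 ⊆ r ∧ Large x.1 x.2.2.1 x.2.2.2.1 x.2.2.2.2.1 r ∧
    Brn K Z r (x.2.2.2.2.2.image (fun e => (e.1, e.2.1))) w}

/-- the set of the indices -/
def A (K : Set (Face T)) (Yn : Set (Name T)) (Z : Set (ℕ → ℕ)) : Set (Ix T) :=
  K ×ˢ (K ×ˢ ({F : Finset T | ∀ α ∈ F, α ∈ {α : T | Stem K α}} ×ˢ ((univ : Set ℕ) ×ˢ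
    ((univ : Set ℕ) ×ˢ
      {Ψ : Finset (Name T × ℕ × (ℕ → ℕ)) | ∀ e ∈ Ψ, e ∈ Yn ×ˢ ((univ : Set ℕ) ×ˢ Z)}))))

theorem A_cnt {K : Set (Face T)} (hK : Cx K) {Yn : Set (Name T)} (hY : Yn.Countable)
    {Z : Set (ℕ → ℕ)} (hZ : Z.Countable) : (A K Yn Z).Countable :=
  hK.cnt.prod (hK.cnt.prod ((fin_cnt (stem_cnt hK)).prod ((countable_univ).prod
    ((countable_univ).prod (fin_cnt (hY.prod ((countable_univ).prod hZ)))))))

theorem img (Φ : Finset (Name T × ℕ)) (z : Name T → ℕ → ℕ) :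
    (Φ.image (fun e => (e.1, e.2, z e.1))).image (fun e => (e.1, e.2.1)) = Φ := by
  ext e
  simp only [Finset.mem_image]
  constructor
  · rintro ⟨a, ⟨b, hb, rfl⟩, rfl⟩
    exact hb
  · intro he
    exact ⟨_, ⟨e, he, rfl⟩, rfl⟩

end QLAux

open QLAux

theorem tQL (T : Type) [Big T] : S_QL T := by
  intro K hK Yn hY hn Z hZ hZB
  refine ⟨(fun x : Ix T => ((∅ : Finset (Name T)), x.2.2.2.2.2, WW K Z x)) '' (A K Yn Z),
    (A_cnt hK hY hZ).image _, ?_⟩
  intro m hm p q F N v₀ Φ z hF hΦ hzZ hAv hr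
  obtain ⟨r0, hr0, hpr0, hqr0, -⟩ := hr 0
  have hp : p ∈ K := hK.down r0 hr0 p hpr0
  have hq : q ∈ K := hK.down r0 hr0 q hqr0
  have hx : ((p, q, F, N, v₀, Φ.image (fun e => (e.1, e.2, z e.1))) : Ix T) ∈ A K Yn Z := by
    refine ⟨hp, hq, hF, mem_univ _, mem_univ _, ?_⟩
    intro e he
    obtain ⟨a, ha, rfl⟩ := Finset.mem_image.1 he
    exact ⟨hΦ a ha, mem_univ _, hzZ a ha⟩
  have c1 : ∀ n, ∃ w ∈ WW K Z (p, q, F, N, v₀, Φ.image (fun e => (e.1, e.2, z e.1))),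
      ∀ e ∈ Φ.image (fun e => (e.1, e.2, z e.1)), ∀ i < n, w e.1 i = e.2.2 i := by
    intro n
    obtain ⟨r, hrK, h1, h2, h3, h4⟩ := hr n
    obtain ⟨w, hw1, hw2⟩ := hZB r hrK (Φ.image Prod.fst) (by
      intro y hy
      obtain ⟨e, he, rfl⟩ := Finset.mem_image.1 hy
      exact hΦ e he)
    refine ⟨w, ⟨r, hrK, h1, h2, h3, ?_⟩, ?_⟩
    · change Brn K Z r ((Φ.image (fun e => (e.1, e.2, z e.1))).image (fun e => (e.1, e.2.1))) w
      rw [img]
      refine ⟨fun e he => hw1 _ (Finset.mem_image_of_mem _ he), fun k => ?_⟩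
      obtain ⟨q', hq', h5, h6⟩ := hw2 k
      exact ⟨q', hq', h5, fun e he i hi => h6 _ (Finset.mem_image_of_mem _ he) i hi⟩
    · intro e he i hi
      obtain ⟨a, ha, rfl⟩ := Finset.mem_image.1 he
      obtain ⟨q', hq', h5, h6⟩ := hw2 (i + 1)
      exact dec_inj hK (hn _ (hΦ a ha)) hq'
        (h6 _ (Finset.mem_image_of_mem _ ha) i (Nat.lt_succ_self i)) ((h4 a ha i hi).mono h5)
  have c2 : ∀ e ∈ Φ.image (fun e => (e.1, e.2, z e.1)), ∀ i ≥ e.2.1, m i ≠ e.2.2 i := by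
    intro e he i hi
    obtain ⟨a, ha, rfl⟩ := Finset.mem_image.1 he
    exact hAv a ha i hi
  obtain ⟨w, ⟨r, hrK, h1, h2, h3, h4⟩, hw2, -⟩ := hm _ _ _ (mem_image_of_mem _ hx) c1 c2
  change Brn K Z r ((Φ.image (fun e => (e.1, e.2, z e.1))).image (fun e => (e.1, e.2.1))) w at h4
  rw [img] at h4
  refine ⟨r, hrK, h1, h2, h3, w, h4, ?_⟩
  intro e he i hi
  exact hw2 (e.1, e.2, z e.1) (Finset.mem_image_of_mem _ he) i hi

end Pool.Agent.LZ
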