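import Pool.Agent.Lib.MP_10f401_gt.LZ.SpecA

/-!
# QR: requirements for reducts (helper33)
-/

set_option autoImplicit false
set_option linter.unusedSectionVars false
set_option linter.unusedVariables false

open Set Cardinal

namespace Pool.Agent.LZ

open Classical

namespace QRAux

/-- the finite subsets of `C` -/
def FS {A : Type} (C : Set A) : Set (Finset A) := {Ψ : Finset A | ∀ a ∈ Ψ, a ∈ C}

lemma fin_cnt {A : Type} {C : Set A} (hC : C.Countable) : (FS C).Countable := by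
  have h := (Set.countable_ofPred_finite_subset hC).preimage_of_injOn
    (f := fun Ψ : Finset A => (Ψ : Set A)) Finset.coe_injective.injOn
  refine h.mono fun Ψ (hΨ : ∀ a ∈ Ψ, a ∈ C) => ?_
  exact ⟨Ψ.finite_toSet, fun a ha => hΨ a ha⟩

variable {T : Type} [Big T]

/-- the set of functions of a requirement -/
def WR (K : Set (Face T)) (Z : Set (ℕ → ℕ)) (st : T → Face T → Finset (Name T) → Name T → Name T)
    (l : T) (p : Face T) (J : Finset (Name T)) : Set (Name T → ℕ → ℕ) :=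
  {w | (∀ y ∈ J, w y ∈ Z) ∧ ∃ p', p ⊆ p' ∧ SR K l p' ∧
    ∀ n, ∃ q ∈ K, Low l q ∧ cut p' l ⊆ q ∧ ∀ y ∈ J, ∀ i < n, Dec q (st l p' J y) i (w y i)}

lemma dec_unique {K : Set (Face T)} (hK : Cx K) {y : Name T} (hy : Nm K y) {r : Face T}
    (hr : r ∈ K) {i v v' : ℕ} (h : Dec r y i v) (h' : Dec r y i v') : v = v' := by
  obtain ⟨u, hu, hur⟩ := h
  obtain ⟨u', hu', hur'⟩ := h'
  exact hy.inc i _ _ u hu u' hu' (hK.down r hr _ (Finset.union_subset hur hur'))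

lemma first {K : Set (Face T)} (hK : Cx K) {Yn : Set (Name T)} (hYn : ∀ y ∈ Yn, Nm K y)
    {Z : Set (ℕ → ℕ)} (hZB : ZB K Yn Z) {st : T → Face T → Finset (Name T) → Name T → Name T}
    (hst : ∀ l p J, SR K l p → (∀ y ∈ J, y ∈ Yn) →
      IsRed K l p J (st l p J) ∧ ∀ y ∈ J, st l p J y ∈ Yn) {J : Finset (Name T)}
    (hJ : ∀ y ∈ J, y ∈ Yn) (l : T) {p : Face T} (z : Name T → ℕ → ℕ) (n : ℕ)
    (hz : ∃ q ∈ K, p ⊆ q ∧ ∀ y ∈ J, ∀ i < n, Dec q y i (z y i)) :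
    ∃ w ∈ WR K Z st l p J, ∀ y ∈ J, ∀ i < n, w y i = z y i := by
  obtain ⟨q, hqK, hpq, hdec⟩ := hz
  obtain ⟨p', hqp', hSR⟩ := hK.sr_ext l q hqK
  obtain ⟨hR, hRY⟩ := hst l p' J hSR hJ
  have hdn : ∀ y ∈ J, ∀ i < n, Dec (cut p' l) (st l p' J y) i (z y i) :=
    hR.dn n z fun y hy i hi => (hdec y hy i hi).mono hqp'
  obtain ⟨z', hz'1, hz'2⟩ := hZB (cut p' l) (hK.cut hSR.1 l) (J.image (st l p' J)) (by
    intro y hy
    obtain ⟨y0, hy0, rfl⟩ := Finset.mem_image.1 hy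
    exact hRY y0 hy0)
  refine ⟨fun y => z' (st l p' J y), ⟨fun y hy => hz'1 _ (Finset.mem_image_of_mem _ hy), p',
    hpq.trans hqp', hSR, fun k => ?_⟩, fun y hy i hi => ?_⟩
  · obtain ⟨q', hq', hcq', h⟩ := hz'2 k
    refine ⟨cut q' l, hK.cut hq' l, low_cut q' l, ?_, fun y hy i hi => ?_⟩
    · intro a ha
      exact mem_cut.2 ⟨hcq' ha, (mem_cut.1 ha).2⟩
    · obtain ⟨u, hu, huq⟩ := h _ (Finset.mem_image_of_mem _ hy) i hi
      refine ⟨u, hu, fun a ha => mem_cut.2 ⟨huq ha, hR.low y hy _ _ u hu a ha⟩⟩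
  · obtain ⟨q', hq', hcq', h⟩ := hz'2 n
    exact dec_unique hK (hR.nm y hy) hq' (h _ (Finset.mem_image_of_mem _ hy) i hi)
      ((hdn y hy i hi).mono hcq')

lemma second {K : Set (Face T)} (hK : Cx K) {Yn : Set (Name T)} (hYn : ∀ y ∈ Yn, Nm K y)
    {Z : Set (ℕ → ℕ)} {m : ℕ → ℕ} {l : T} {p' : Face T} {Φ : Finset (Name T × ℕ)}
    {s : Name T → Name T} (hR : IsRed K l p' (Φ.image Prod.fst) s) {w : Name T → ℕ → ℕ}
    (hΦ : Nms Yn Φ) (hwZ : ∀ y ∈ Φ.image Prod.fst, w y ∈ Z)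
    (hq : ∀ n, ∃ q ∈ K, Low l q ∧ cut p' l ⊆ q ∧
      ∀ y ∈ Φ.image Prod.fst, ∀ i < n, Dec q (s y) i (w y i))
    (hAv : Av m Φ w) : Good K Z m p' (Φ ∪ Φ.image fun e => (s e.1, e.2)) := by
  obtain ⟨J, hJd⟩ : ∃ J : Finset (Name T), J = Φ.image Prod.fst := ⟨_, rfl⟩
  rw [← hJd] at hR hwZ hq
  have hJ : ∀ e ∈ Φ, e.1 ∈ J := by
    intro e he
    rw [hJd]
    exact Finset.mem_image_of_mem _ he
  have hcall : ∀ n, ∃ r ∈ K, p' ⊆ r ∧ (∀ y ∈ J, ∀ i < n, Dec r y i (w y i)) ∧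
      ∀ y ∈ J, ∀ i < n, Dec r (s y) i (w y i) := by
    intro n
    obtain ⟨q, hqK, hlow, hcut, hdec⟩ := hq n
    obtain ⟨r, hr, hpr, hqr, -, hd⟩ := hR.up q hqK hlow hcut n w hdec ∅
      (fun α hα => absurd hα (Finset.notMem_empty _)) 0 0
    exact ⟨r, hr, hpr, hd, fun y hy i hi => (hdec y hy i hi).mono hqr⟩
  obtain ⟨z, hzd⟩ : ∃ z : Name T → ℕ → ℕ, z = fun y' => if y' ∈ J then w y' else
      if h : ∃ y ∈ J, s y = y' then w h.choose else fun _ => 0 := ⟨_, rfl⟩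
  have k1 : ∀ y ∈ J, z y = w y := by
    intro y hy
    rw [hzd]
    exact if_pos hy
  have k2 : ∀ y ∈ J, z (s y) = w y := by
    intro y hy
    funext i
    obtain ⟨r, hr, -, hd1, hd2⟩ := hcall (i + 1)
    by_cases hs : s y ∈ J
    · rw [k1 _ hs]
      exact dec_unique hK (hR.nm y hy) hr (hd1 _ hs i (Nat.lt_succ_self i))
        (hd2 y hy i (Nat.lt_succ_self i))
    · have hex : ∃ y0 ∈ J, s y0 = s y := ⟨y, hy, rfl⟩
      have h3 : z (s y) = w hex.choose := by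
        rw [hzd]
        exact (if_neg hs).trans (dif_pos hex)
      rw [h3]
      obtain ⟨h4, h5⟩ := hex.choose_spec
      have h6 := hd2 _ h4 i (Nat.lt_succ_self i)
      rw [h5] at h6
      exact dec_unique hK (hR.nm y hy) hr h6 (hd2 y hy i (Nat.lt_succ_self i))
  refine ⟨z, ⟨?_, fun n => ?_⟩, ?_⟩
  · intro e he
    rcases Finset.mem_union.1 he with he | he
    · rw [k1 _ (hJ e he)]
      exact hwZ _ (hJ e he)
    · obtain ⟨e0, he0, rfl⟩ := Finset.mem_image.1 he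
      change z (s e0.1) ∈ Z
      rw [k2 _ (hJ e0 he0)]
      exact hwZ _ (hJ e0 he0)
  · obtain ⟨r, hr, hpr, hd1, hd2⟩ := hcall n
    refine ⟨r, hr, hpr, fun e he i hi => ?_⟩
    rcases Finset.mem_union.1 he with he | he
    · rw [k1 _ (hJ e he)]
      exact hd1 _ (hJ e he) i hi
    · obtain ⟨e0, he0, rfl⟩ := Finset.mem_image.1 he
      change Dec r (s e0.1) i (z (s e0.1) i)
      rw [k2 _ (hJ e0 he0)]
      exact hd2 _ (hJ e0 he0) i hi
  · intro e he i hi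
    rcases Finset.mem_union.1 he with he | he
    · rw [k1 _ (hJ e he)]
      exact hAv e he i hi
    · obtain ⟨e0, he0, rfl⟩ := Finset.mem_image.1 he
      change m i ≠ z (s e0.1) i
      rw [k2 _ (hJ e0 he0)]
      exact hAv e0 he0 i hi

end QRAux

open QRAux in
theorem tQR (T : Type) [Big T] (h1 : S_Rep T) (h2 : S_Sam T) : S_QR T := by
  intro K hK Yn hYc hYn Z hZc hZB st hst
  obtain ⟨L, hLc, hL⟩ := h1 K hK
  refine ⟨(fun x : T × Face T × Finset (Name T × ℕ × (ℕ → ℕ)) =>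
    ((∅ : Finset (Name T)), x.2.2, WR K Z st x.1 x.2.1 (x.2.2.image Prod.fst))) ''
      (L ×ˢ (K ×ˢ FS (Yn ×ˢ ((univ : Set ℕ) ×ˢ Z)))), ?_, ?_⟩
  · exact (hLc.prod (hK.cnt.prod (fin_cnt (hYc.prod (countable_univ.prod hZc))))).image _
  · intro m hm l p hp Φ hΦ hG
    obtain ⟨z, ⟨hz1, hz2⟩, hz3⟩ := hG
    obtain ⟨l', hl', hsame⟩ := hL l
    have hsame' : Same K l' l := fun a ha => (hsame a ha).symm
    obtain ⟨Ψ, hΨd⟩ : ∃ Ψ : Finset (Name T × ℕ × (ℕ → ℕ)),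
        Ψ = Φ.image fun e => (e.1, e.2, z e.1) := ⟨_, rfl⟩
    have hmemΨ : ∀ e ∈ Φ, (e.1, e.2, z e.1) ∈ Ψ := by
      intro e he
      rw [hΨd]
      exact Finset.mem_image_of_mem _ he
    have hofΨ : ∀ f ∈ Ψ, ∃ e ∈ Φ, f = (e.1, e.2, z e.1) := by
      intro f hf
      rw [hΨd] at hf
      obtain ⟨e, he, rfl⟩ := Finset.mem_image.1 hf
      exact ⟨e, he, rfl⟩
    have hΨ : Ψ.image Prod.fst = Φ.image Prod.fst := by
      rw [hΨd, Finset.image_image]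
      rfl
    have hJY : ∀ y ∈ Φ.image Prod.fst, y ∈ Yn := by
      intro y hy
      obtain ⟨e, he, rfl⟩ := Finset.mem_image.1 hy
      exact hΦ e he
    have hmem := hm ∅ Ψ (WR K Z st l' p (Ψ.image Prod.fst)) ⟨(l', p, Ψ), ⟨hl', hp, by
      intro f hf
      obtain ⟨e, he, rfl⟩ := hofΨ f hf
      exact ⟨hΦ e he, mem_univ _, hz1 e he⟩⟩, rfl⟩
    rw [hΨ] at hmem
    obtain ⟨w, ⟨hwZ, p', hpp', hSR, hq⟩, hw2, -⟩ := hmem (by
      intro n
      obtain ⟨q, hqK, hpq, hdec⟩ := hz2 n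
      obtain ⟨w, hw, hw'⟩ := first hK hYn hZB hst hJY l' (p := p) z n ⟨q, hqK, hpq, by
        intro y hy i hi
        obtain ⟨e, he, rfl⟩ := Finset.mem_image.1 hy
        exact hdec e he i hi⟩
      refine ⟨w, hw, fun f hf i hi => ?_⟩
      obtain ⟨e, he, rfl⟩ := hofΨ f hf
      exact hw' e.1 (Finset.mem_image_of_mem _ he) i hi) (by
      intro f hf i hi
      obtain ⟨e, he, rfl⟩ := hofΨ f hf
      exact hz3 e he i hi)
    obtain ⟨hR, hRY⟩ := hst l' p' (Φ.image Prod.fst) hSR hJY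
    refine ⟨p', st l' p' (Φ.image Prod.fst), hpp', (h2 K hK l' l hsame').1 p' hSR,
      (h2 K hK l' l hsame').2 p' hSR.1 _ _ hR,
      fun e he => hRY e.1 (Finset.mem_image_of_mem _ he), ?_⟩
    exact second hK hYn hR hΦ hwZ hq fun e he i hi => hw2 _ (hmemΨ e he) i hi

end Pool.Agent.LZ
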