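import Pool.Agent.Lib.MP_10f401_gt.LZ.SpecA

/-!
# QY: requirements for a new name (helper11)
-/

set_option autoImplicit false
set_option linter.unusedSectionVars false
set_option linter.unusedVariables false

open Set Cardinal

namespace Pool.Agent.LZ

open Classical

namespace QYAux

/-- the finite subsets of `C` -/
def FS {A : Type} (C : Set A) : Set (Finset A) := {Ψ : Finset A | ∀ a ∈ Ψ, a ∈ C}

lemma fin_cnt {A : Type} {C : Set A} (hC : C.Countable) : (FS C).Countable := by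
  have h := (Set.countable_ofPred_finite_subset hC).preimage_of_injOn
    (f := fun Ψ : Finset A => (Ψ : Set A)) Finset.coe_injective.injOn
  refine h.mono fun Ψ (hΨ : ∀ a ∈ Ψ, a ∈ C) => ?_
  exact ⟨Ψ.finite_toSet, fun a ha => hΨ a ha⟩

variable {T : Type} [Big T]

/-- the promises of a requirement -/
noncomputable def ph (Ψ : Finset (Name T × ℕ × (ℕ → ℕ))) : Finset (Name T × ℕ) :=
  Ψ.image fun e => (e.1, e.2.1)

/-- the set of functions of a requirement -/
def Wf (K : Set (Face T)) (Z : Set (ℕ → ℕ)) (p : Face T) (y : Name T)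
    (Ψ : Finset (Name T × ℕ × (ℕ → ℕ))) : Set (Name T → ℕ → ℕ) :=
  {w | Brn K Z p (insert (y, 0) (ph Ψ)) w}

end QYAux

open QYAux in
theorem tQY (T : Type) [Big T] : S_QY T := by
  intro K hK Yn hYc hYn Z hZc hZB
  refine ⟨(fun x : Face T × Name T × Finset (Name T × ℕ × (ℕ → ℕ)) =>
    (({x.2.1} : Finset (Name T)), x.2.2, Wf K Z x.1 x.2.1 x.2.2)) ''
      (K ×ˢ (Yn ×ˢ FS (Yn ×ˢ ((univ : Set ℕ) ×ˢ Z)))), ?_, ?_⟩
  · exact (hK.cnt.prod (hYc.prod (fin_cnt (hYc.prod (countable_univ.prod hZc))))).image _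
  · intro m hm p hp Φ hΦ hG y hy
    obtain ⟨z, ⟨hz1, hz2⟩, hz3⟩ := hG
    obtain ⟨Ψ, hΨd⟩ : ∃ Ψ : Finset (Name T × ℕ × (ℕ → ℕ)),
        Ψ = Φ.image fun e => (e.1, e.2, z e.1) := ⟨_, rfl⟩
    have hmemΨ : ∀ e ∈ Φ, (e.1, e.2, z e.1) ∈ Ψ := by
      intro e he
      rw [hΨd]
      exact Finset.mem_image_of_mem _ he
    have hofΨ : ∀ f ∈ Ψ, ∃ e ∈ Φ, f = (e.1, e.2, z e.1) := by
      intro f hf
      rw [hΨd] at hf
      obtain ⟨e, he, rfl⟩ := Finset.mem_image.1 hf
      exact ⟨e, he, rfl⟩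
    have hΨ : ph Ψ = Φ := by
      unfold ph
      rw [hΨd, Finset.image_image]
      exact Finset.image_id
    have hmem := hm {y} Ψ (Wf K Z p y Ψ) ⟨(p, y, Ψ), ⟨hp, hy, by
      intro f hf
      obtain ⟨e, he, rfl⟩ := hofΨ f hf
      exact ⟨hΦ e he, mem_univ _, hz1 e he⟩⟩, rfl⟩
    obtain ⟨w, hB, hw2, k, hk⟩ := hmem (by
      intro n
      obtain ⟨q, hq, hpq, hdec⟩ := hz2 n
      obtain ⟨w, hw1, hw2⟩ := hZB q hq (insert y (Φ.image Prod.fst)) (by
        intro y' hy'
        rcases Finset.mem_insert.1 hy' with rfl | hy'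
        · exact hy
        · obtain ⟨e, he, rfl⟩ := Finset.mem_image.1 hy'
          exact hΦ e he)
      have hin : ∀ e ∈ insert (y, 0) Φ, e.1 ∈ insert y (Φ.image Prod.fst) := by
        intro e he
        rcases Finset.mem_insert.1 he with rfl | he
        · exact Finset.mem_insert_self _ _
        · exact Finset.mem_insert_of_mem (Finset.mem_image_of_mem _ he)
      refine ⟨w, ?_, ?_⟩
      · show Brn K Z p (insert (y, 0) (ph Ψ)) w
        rw [hΨ]
        refine ⟨fun e he => hw1 e.1 (hin e he), fun k => ?_⟩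
        obtain ⟨r, hr, hqr, h⟩ := hw2 k
        exact ⟨r, hr, hpq.trans hqr, fun e he i hi => h e.1 (hin e he) i hi⟩
      · intro f hf i hi
        obtain ⟨e, he, rfl⟩ := hofΨ f hf
        obtain ⟨r, hr, hqr, h⟩ := hw2 n
        obtain ⟨u, hu, hur⟩ := h e.1 (hin e (Finset.mem_insert_of_mem he)) i hi
        obtain ⟨u', hu', hur'⟩ := hdec e he i hi
        exact (hYn e.1 (hΦ e he)).inc i _ _ u hu u' hu' (hK.down r hr _
          (Finset.union_subset hur (hur'.trans hqr)))) (by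
      intro f hf i hi
      obtain ⟨e, he, rfl⟩ := hofΨ f hf
      exact hz3 e he i hi)
    have hB2 : Brn K Z p (insert (y, 0) Φ) w := by
      have h : Brn K Z p (insert (y, 0) (ph Ψ)) w := hB
      rwa [hΨ] at h
    refine ⟨k, w, ⟨fun e he => ?_, fun n => ?_⟩, fun e he i hi => ?_⟩
    · rcases Finset.mem_insert.1 he with rfl | he
      · exact hB2.1 (y, 0) (Finset.mem_insert_self _ _)
      · exact hB2.1 e (Finset.mem_insert_of_mem he)
    · obtain ⟨q, hq, hpq, h⟩ := hB2.2 n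
      refine ⟨q, hq, hpq, fun e he i hi => ?_⟩
      rcases Finset.mem_insert.1 he with rfl | he
      · exact h (y, 0) (Finset.mem_insert_self _ _) i hi
      · exact h e (Finset.mem_insert_of_mem he) i hi
    · rcases Finset.mem_insert.1 he with rfl | he
      · exact hk y (Finset.mem_singleton_self _) i hi
      · exact hw2 _ (hmemΨ e he) i hi

end Pool.Agent.LZ
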