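import Pool.Agent.Lib.MP_10f401_gt.LZ.SpecC

/-!
# RCH: rich conditions
-/

set_option autoImplicit false
set_option linter.unusedSectionVars false
set_option linter.unusedVariables false

open Set Cardinal

namespace Pool.Agent.LZ

open Classical

namespace RchAux

variable {T : Type} [Big T]

/-- the trivial name -/
def f0 : Name T := fun _ v => {u | v = 0 ∧ u = ∅}

theorem f0_nm {K : Set (Face T)} (hK : Cx K) : NmF K (f0 : Name T) := by
  refine ⟨?_, ?_, ?_⟩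
  · rintro n v u ⟨_, rfl⟩
    exact hK.empty
  · intro n
    refine ⟨?_, ?_⟩
    · rintro u ⟨v, _, rfl⟩
      exact hK.empty
    · intro p hp
      refine ⟨∅, ⟨0, rfl, rfl⟩, ?_⟩
      rwa [Finset.union_empty]
  · rintro n v v' u ⟨h, _⟩ u' ⟨h', _⟩ _
    rw [h, h']

end RchAux

open RchAux in
theorem tRch (T : Type) [Big T] (h1 : S_Cor T) (h2 : S_Stm T) : S_Rch T := by
  intro S hS c
  by_contra hcon
  push Not at hcon
  have hex : ∀ i, ∃ (d : Cd T) (ζ : T), i ∈ S → d ≤ c i ∧ Stem d.c.K i ∧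
      ∀ j ∈ S, ζ < j → ∀ r : Cd T, r ≤ d → ¬ r ≤ c j := by
    intro i
    by_cases hi : i ∈ S
    · obtain ⟨d, hd, ζ, hζ⟩ := hcon i hi
      obtain ⟨d', hd', hst⟩ := h2 d.c i
      refine ⟨⟨d', d.p, hd'.K.sub d.hp⟩, ζ, fun _ => ⟨?_, hst, ?_⟩⟩
      · exact ⟨hd'.trans hd.1, hd.2⟩
      · intro j hj hζj r hr
        exact hζ j hj hζj r (hr.trans ⟨hd', Finset.Subset.refl _⟩)
    · exact ⟨c i, i, fun h => absurd h hi⟩
  choose d ζ hd using hex
  obtain ⟨t₀, _⟩ := bdd_of_countable (T := T) Set.countable_empty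
  obtain ⟨i, hi, j, hj, _, hζ, r, hr1, hr2, _⟩ := h1 f0 t₀ (by
    rintro n v u ⟨_, rfl⟩ a ha
    exact absurd ha (Finset.notMem_empty _)) S hS d ζ (fun i hi => ⟨(hd i hi).2.1, f0_nm (d i).c.cx⟩)
  exact (hd i hi).2.2 j hj hζ r hr1 (hr2.trans (hd j hj).1)

end Pool.Agent.LZ
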