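import Pool.Agent.Lib.MP_10f401_gt.LZ.SpecA
import Pool.Agent.Lib.MP_10f401_gt.LZ.Base

/-!
# Module RED
-/

set_option autoImplicit false
set_option linter.unusedSectionVars false
set_option linter.unusedVariables false

open Set Cardinal

namespace Pool.Agent.LZ

open Classical

namespace RedAux

variable {T : Type} [Big T]

/-- agreement below `n` on `J` -/
def Eqn (J : Finset (Name T)) (n : ℕ) (w w' : Name T → ℕ → ℕ) : Prop :=
  ∀ y ∈ J, ∀ i < n, w y i = w' y i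

theorem Eqn.refl (J : Finset (Name T)) (n : ℕ) (w : Name T → ℕ → ℕ) : Eqn J n w w :=
  fun _ _ _ _ => rfl

theorem Eqn.symm {J : Finset (Name T)} {n : ℕ} {w w' : Name T → ℕ → ℕ} (h : Eqn J n w w') :
    Eqn J n w' w := fun y hy i hi => (h y hy i hi).symm

theorem Eqn.trans {J : Finset (Name T)} {n : ℕ} {w w' w'' : Name T → ℕ → ℕ} (h : Eqn J n w w')
    (h' : Eqn J n w' w'') : Eqn J n w w'' := fun y hy i hi => (h y hy i hi).trans (h' y hy i hi)

theorem Eqn.mono {J : Finset (Name T)} {n m : ℕ} {w w' : Name T → ℕ → ℕ} (h : Eqn J n w w')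
    (hm : m ≤ n) : Eqn J m w w' := fun y hy i hi => h y hy i (hi.trans_le hm)

variable (K : Set (Face T)) (l : T) (p : Face T) (J : Finset (Name T))

/-- the low extensions of the low part of `p` -/
def Kl : Set (Face T) := {q | q ∈ K ∧ Low l q ∧ cut p l ⊆ q}

/-- `r` decides `w` below `n` -/
def Dc (n : ℕ) (w : Name T → ℕ → ℕ) (r : Face T) : Prop := ∀ y ∈ J, ∀ i < n, Dec r y i (w y i)

/-- the possible values -/
def E (n : ℕ) (w : Name T → ℕ → ℕ) : Set (Face T) :=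
  {q | q ∈ Kl K l p ∧ ∀ q' ∈ Kl K l p, q ⊆ q' → ∀ F, Abv K l F → ∀ N v₀, ∃ r ∈ K, p ⊆ r ∧ q' ⊆ r ∧
    Large p F N v₀ r ∧ Dc J n w r}

/-- the code of the values at `n` -/
noncomputable def code (n : ℕ) (w : Name T → ℕ → ℕ) : ℕ :=
  Encodable.encode (J.toList.map fun y => w y n)

theorem code_eq {n : ℕ} {w w' : Name T → ℕ → ℕ} :
    code J n w = code J n w' ↔ ∀ y ∈ J, w y n = w' y n := by
  unfold code
  rw [Encodable.encode_inj, List.map_inj_left]
  simp

/-- the selected possible values -/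
def F : ℕ → (Name T → ℕ → ℕ) → Set (Face T)
  | 0, _ => Kl K l p
  | n + 1, w => {q | q ∈ F n w ∧ q ∈ E K l p J (n + 1) w ∧ ∀ w', Eqn J n w w' →
      code J n w' < code J n w → ∀ q' ∈ Kl K l p, q ⊆ q' → q' ∉ E K l p J (n + 1) w'}

variable {K l p J}

theorem Dc.mono {n : ℕ} {w : Name T → ℕ → ℕ} {r r' : Face T} (h : Dc J n w r) (hr : r ⊆ r') :
    Dc J n w r' := fun y hy i hi => (h y hy i hi).mono hr

theorem Dc.congr {n : ℕ} {w w' : Name T → ℕ → ℕ} {r : Face T} (h : Dc J n w r)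
    (hw : Eqn J n w w') : Dc J n w' r := by
  intro y hy i hi
  rw [← hw y hy i hi]
  exact h y hy i hi

theorem E.congr {n : ℕ} {w w' : Name T → ℕ → ℕ} {q : Face T} (h : q ∈ E K l p J n w)
    (hw : Eqn J n w w') : q ∈ E K l p J n w' := by
  refine ⟨h.1, fun q' hq' hqq F hF N v₀ => ?_⟩
  obtain ⟨r, h1, h2, h3, h4, h5⟩ := h.2 q' hq' hqq F hF N v₀
  exact ⟨r, h1, h2, h3, h4, h5.congr hw⟩

theorem E.up {n : ℕ} {w : Name T → ℕ → ℕ} {q q' : Face T} (h : q ∈ E K l p J n w)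
    (hq : q' ∈ Kl K l p) (hqq : q ⊆ q') : q' ∈ E K l p J n w :=
  ⟨hq, fun q'' h1 h2 => h.2 q'' h1 (hqq.trans h2)⟩

theorem E.dn {n m : ℕ} {w : Name T → ℕ → ℕ} {q : Face T} (h : q ∈ E K l p J n w)
    (hm : m ≤ n) : q ∈ E K l p J m w := by
  refine ⟨h.1, fun q' hq' hqq F hF N v₀ => ?_⟩
  obtain ⟨r, h1, h2, h3, h4, h5⟩ := h.2 q' hq' hqq F hF N v₀
  exact ⟨r, h1, h2, h3, h4, fun y hy i hi => h5 y hy i (hi.trans_le hm)⟩

theorem E.zero (hp : SR K l p) (w : Name T → ℕ → ℕ) {q : Face T} (hq : q ∈ Kl K l p) :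
    q ∈ E K l p J 0 w := by
  refine ⟨hq, fun q' hq' hqq F hF N v₀ => ?_⟩
  obtain ⟨r, h1, h2, h3, h4⟩ := hp.2 q' hq'.1 hq'.2.1 hq'.2.2 F hF N v₀
  exact ⟨r, h1, h2, h3, h4, fun y hy i hi => absurd hi (Nat.not_lt_zero _)⟩

theorem E.emp (hp : SR K l p) (n : ℕ) (w : Name T → ℕ → ℕ) {q : Face T} (hq : q ∈ Kl K l p)
    (hJ : J = ∅) : q ∈ E K l p J n w := by
  refine ⟨hq, fun q' hq' hqq F hF N v₀ => ?_⟩
  obtain ⟨r, h1, h2, h3, h4⟩ := hp.2 q' hq'.1 hq'.2.1 hq'.2.2 F hF N v₀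
  refine ⟨r, h1, h2, h3, h4, fun y hy i hi => ?_⟩
  rw [hJ] at hy
  exact absurd hy (Finset.notMem_empty _)

/-- extension of a face to one which decides all names of `J` at `n` -/
theorem decide_at (hK : Cx K) (n : ℕ) (J : Finset (Name T)) (hJ : ∀ y ∈ J, Nm K y) {r : Face T}
    (hr : r ∈ K) : ∃ r' ∈ K, r ⊆ r' ∧ ∃ v : Name T → ℕ, ∀ y ∈ J, Dec r' y n (v y) := by
  induction J using Finset.induction_on with
  | empty => exact ⟨r, hr, Finset.Subset.refl _, fun _ => 0, fun y hy => absurd hy (by simp)⟩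
  | insert y J hy ih =>
    obtain ⟨r', h1, h2, v, h3⟩ := ih fun y' hy' => hJ y' (Finset.mem_insert_of_mem hy')
    obtain ⟨u, ⟨a, hu⟩, h4⟩ := ((hJ y (Finset.mem_insert_self _ _)).pd n).2 r' h1
    refine ⟨r' ∪ u, h4, h2.trans Finset.subset_union_left, Function.update v y a, ?_⟩
    intro y' hy'
    by_cases h : y' = y
    · subst h
      rw [Function.update_self]
      exact ⟨u, hu, Finset.subset_union_right⟩
    · rw [Function.update_of_ne h]
      exact (h3 y' (Finset.mem_of_mem_insert_of_ne hy' h)).mono Finset.subset_union_left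

theorem dec_lt {y : Name T} (hy : Nm K y) {r : Face T} {n v : ℕ} (h : Dec r y n v) :
    v < bb n := by
  by_contra hc
  obtain ⟨u, hu, _⟩ := h
  rw [hy.bd n v (not_lt.1 hc)] at hu
  exact hu

theorem dec_uni (hK : Cx K) {y : Name T} (hy : Nm K y) {r : Face T} (hr : r ∈ K) {n v v' : ℕ}
    (h : Dec r y n v) (h' : Dec r y n v') : v = v' := by
  obtain ⟨u, hu, h1⟩ := h
  obtain ⟨u', hu', h2⟩ := h'
  exact hy.inc n v v' u hu u' hu' (hK.down r hr _ (Finset.union_subset h1 h2))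

/-- (E1) -/
theorem E.step (hK : Cx K) (hJ : ∀ y ∈ J, Nm K y) {n : ℕ} {w : Name T → ℕ → ℕ} {q : Face T}
    (h : q ∈ E K l p J n w) : ∃ w', Eqn J n w w' ∧ ∃ q' ∈ Kl K l p, q ⊆ q' ∧
      q' ∈ E K l p J (n + 1) w' := by
  by_contra hc
  push Not at hc
  -- the finitely many candidates
  let mk : (J → ℕ) → (Name T → ℕ → ℕ) := fun v y => if hy : y ∈ J then
    Function.update (w y) n (v ⟨y, hy⟩) else w y
  have hmk : ∀ v, Eqn J n w (mk v) := by
    intro v y hy i hi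
    simp only [mk, hy, dif_pos, Function.update_of_ne hi.ne]
  have hfin : ∀ V : Finset (J → ℕ), ∃ q' ∈ Kl K l p, q ⊆ q' ∧ ∃ F, Abv K l F ∧ ∃ N v₀,
      ∀ v ∈ V, ¬ ∃ r ∈ K, p ⊆ r ∧ q' ⊆ r ∧ Large p F N v₀ r ∧ Dc J (n + 1) (mk v) r := by
    intro V
    induction V using Finset.induction_on with
    | empty =>
      exact ⟨q, h.1, Finset.Subset.refl _, ∅, fun α hα => absurd hα (Finset.notMem_empty _), 0, 0,
        fun v hv => absurd hv (Finset.notMem_empty _)⟩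
    | insert v V hv ih =>
      obtain ⟨q', h1, h2, F, hF, N, v₀, h3⟩ := ih
      have h4 := hc (mk v) (hmk v) q' h1 h2
      have h5 : ∃ q'' ∈ Kl K l p, q' ⊆ q'' ∧ ∃ F', Abv K l F' ∧ ∃ N' v', ¬ ∃ r ∈ K, p ⊆ r ∧
          q'' ⊆ r ∧ Large p F' N' v' r ∧ Dc J (n + 1) (mk v) r := by
        by_contra h6
        push Not at h6
        exact h4 ⟨h1, fun q'' g1 g2 F' g3 N' v' => by
          obtain ⟨r, g4⟩ := h6 q'' g1 g2 F' g3 N' v'
          exact ⟨r, g4⟩⟩
      obtain ⟨q'', g1, g2, F', g3, N', v', g4⟩ := h5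
      refine ⟨q'', g1, h2.trans g2, F ∪ F', ?_, max N N', max v₀ v', ?_⟩
      · intro α hα
        rcases Finset.mem_union.1 hα with h | h
        · exact hF α h
        · exact g3 α h
      · intro v1 hv1
        rintro ⟨r, r1, r2, r3, r4, r5⟩
        rcases Finset.mem_insert.1 hv1 with rfl | h7
        · exact g4 ⟨r, r1, r2, r3, r4.mono Finset.subset_union_right (le_max_right _ _)
            (le_max_right _ _) (Finset.Subset.refl _), r5⟩
        · exact h3 v1 h7 ⟨r, r1, r2, g2.trans r3, r4.mono Finset.subset_union_left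
            (le_max_left _ _) (le_max_left _ _) (Finset.Subset.refl _), r5⟩
  obtain ⟨q', h1, h2, F, hF, N, v₀, h3⟩ := hfin (Fintype.piFinset fun _ => Finset.range (bb n))
  obtain ⟨r, r1, r2, r3, r4, r5⟩ := h.2 q' h1 h2 F hF N v₀
  obtain ⟨r', g1, g2, v, g3⟩ := decide_at hK n J hJ r1
  refine h3 (fun y => v y) ?_ ⟨r', g1, r2.trans g2, r3.trans g2,
    r4.mono (Finset.Subset.refl _) le_rfl le_rfl g2, ?_⟩
  · rw [Fintype.mem_piFinset]
    intro y
    rw [Finset.mem_range]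
    exact dec_lt (hJ _ y.2) (g3 _ y.2)
  · intro y hy i hi
    simp only [mk, hy, dif_pos]
    rcases Nat.lt_succ_iff_lt_or_eq.1 hi with h4 | h4
    · rw [Function.update_of_ne h4.ne]
      exact (r5 y hy i h4).mono g2
    · subst h4
      rw [Function.update_self]
      exact g3 y hy

theorem F.kl : ∀ {n : ℕ} {w : Name T → ℕ → ℕ} {q : Face T}, q ∈ F K l p J n w → q ∈ Kl K l p
  | 0, _, _, h => h
  | _ + 1, _, _, h => h.2.1.1

theorem F.e (hp : SR K l p) : ∀ {n : ℕ} {w : Name T → ℕ → ℕ} {q : Face T}, q ∈ F K l p J n w →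
    q ∈ E K l p J n w
  | 0, w, _, h => E.zero hp w h
  | _ + 1, _, _, h => h.2.1

theorem F.up : ∀ {n : ℕ} {w : Name T → ℕ → ℕ} {q q' : Face T}, q ∈ F K l p J n w →
    q' ∈ Kl K l p → q ⊆ q' → q' ∈ F K l p J n w
  | 0, _, _, _, _, h, _ => h
  | n + 1, w, q, q', h, h', hq => ⟨F.up h.1 h' hq, E.up h.2.1 h' hq,
      fun w' h1 h2 q'' h3 h4 => h.2.2 w' h1 h2 q'' h3 (hq.trans h4)⟩

theorem F.congr : ∀ {n : ℕ} {w w' : Name T → ℕ → ℕ} {q : Face T}, q ∈ F K l p J n w →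
    Eqn J n w w' → q ∈ F K l p J n w'
  | 0, _, _, _, h, _ => h
  | n + 1, w, w', q, h, hw => by
    refine ⟨F.congr h.1 (hw.mono (Nat.le_succ n)), E.congr h.2.1 hw, ?_⟩
    intro w'' h1 h2
    have hc : code J n w' = code J n w :=
      (code_eq J).2 fun y hy => (hw y hy n (Nat.lt_succ_self n)).symm
    exact h.2.2 w'' ((hw.mono (Nat.le_succ n)).trans h1) (by rwa [← hc])

theorem F.dn : ∀ {n m : ℕ} {w : Name T → ℕ → ℕ} {q : Face T}, q ∈ F K l p J n w → m ≤ n →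
    q ∈ F K l p J m w := by
  intro n m w q h hm
  induction n with
  | zero =>
    obtain rfl : m = 0 := by omega
    exact h
  | succ n ih =>
    rcases Nat.lt_or_ge m (n + 1) with h1 | h1
    · exact ih h.1 (by omega)
    · obtain rfl : m = n + 1 := by omega
      exact h

theorem kl_union {q q' : Face T} (h : q ∈ Kl K l p) (h' : q' ∈ Kl K l p) (hq : q ∪ q' ∈ K) :
    q ∪ q' ∈ Kl K l p :=
  ⟨hq, low_union h.2.1 h'.2.1, h.2.2.trans Finset.subset_union_left⟩

/-- (F1) -/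
theorem F.inc : ∀ {n : ℕ} {w w' : Name T → ℕ → ℕ} {q q' : Face T}, q ∈ F K l p J n w →
    q' ∈ F K l p J n w' → q ∪ q' ∈ K → Eqn J n w w' := by
  intro n
  induction n with
  | zero => exact fun _ _ _ y hy i hi => absurd hi (Nat.not_lt_zero _)
  | succ n ih =>
    intro w w' q q' h h' hq
    have h1 := ih h.1 h'.1 hq
    have h2 : q ∪ q' ∈ Kl K l p := kl_union h.2.1.1 h'.2.1.1 hq
    have h3 : code J n w = code J n w' := by
      rcases lt_trichotomy (code J n w) (code J n w') with h4 | h4 | h4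
      · exact absurd (E.up h.2.1 h2 Finset.subset_union_left)
          (h'.2.2 w h1.symm h4 _ h2 Finset.subset_union_right)
      · exact h4
      · exact absurd (E.up h'.2.1 h2 Finset.subset_union_right)
          (h.2.2 w' h1 h4 _ h2 Finset.subset_union_left)
    intro y hy i hi
    rcases Nat.lt_succ_iff_lt_or_eq.1 hi with h4 | h4
    · exact h1 y hy i h4
    · subst h4
      exact (code_eq J).1 h3 y hy

/-- (F2) -/
theorem F.step (hp : SR K l p) (hK : Cx K) (hJ : ∀ y ∈ J, Nm K y) {n : ℕ}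
    {w : Name T → ℕ → ℕ} {q : Face T} (h : q ∈ F K l p J n w) :
    ∃ w', Eqn J n w w' ∧ ∃ q' ∈ Kl K l p, q ⊆ q' ∧ q' ∈ F K l p J (n + 1) w' := by
  have h0 := E.step hK hJ (F.e hp h)
  let C : Set ℕ := {c | ∃ w', Eqn J n w w' ∧ code J n w' = c ∧ ∃ q' ∈ Kl K l p, q ⊆ q' ∧
    q' ∈ E K l p J (n + 1) w'}
  have hC : C.Nonempty := by
    obtain ⟨w', h1, q', h2, h3, h4⟩ := h0
    exact ⟨_, w', h1, rfl, q', h2, h3, h4⟩
  have hmin : sInf C ∈ C := Nat.sInf_mem hC
  obtain ⟨w', h1, h2, q', h3, h4, h5⟩ := hmin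
  refine ⟨w', h1, q', h3, h4, F.congr (F.up h h3 h4) h1, h5, ?_⟩
  intro w'' g1 g2 q'' g3 g4 g5
  rw [h2] at g2
  exact absurd (Nat.sInf_le (show code J n w'' ∈ C from
    ⟨w'', h1.trans g1, rfl, q'', g3, h4.trans g4, g5⟩)) (not_le.2 g2)

/-- (F3) -/
theorem F.all (hp : SR K l p) (hK : Cx K) (hJ : ∀ y ∈ J, Nm K y) (n : ℕ) {q : Face T}
    (h : q ∈ Kl K l p) : ∃ w, ∃ q' ∈ Kl K l p, q ⊆ q' ∧ q' ∈ F K l p J n w := by
  induction n with
  | zero => exact ⟨fun _ _ => 0, q, h, Finset.Subset.refl _, h⟩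
  | succ n ih =>
    obtain ⟨w, q', h1, h2, h3⟩ := ih
    obtain ⟨w', _, q'', h4, h5, h6⟩ := F.step hp hK hJ h3
    exact ⟨w', q'', h4, h2.trans h5, h6⟩

variable (K l p J)

/-- the reduct of `y` -/
def rd (y : Name T) : Name T := fun i v =>
  {q | (∃ w, q ∈ F K l p J (i + 1) w ∧ w y i = v) ∨ (v = 0 ∧ q ∈ K ∧ Low l q ∧ q ∪ cut p l ∉ K)}

variable {K l p J}

theorem rd_dec (hK : Cx K) {y : Name T} {q : Face T} (hq : q ∈ Kl K l p) {i v : ℕ}
    (h : Dec q (rd K l p J y) i v) : ∃ w, q ∈ F K l p J (i + 1) w ∧ w y i = v := by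
  obtain ⟨u, hu, h1⟩ := h
  rcases hu with ⟨w, h2, h3⟩ | ⟨_, h2, h3, h4⟩
  · exact ⟨w, F.up h2 hq h1, h3⟩
  · exact absurd (hK.down q hq.1 _ (Finset.union_subset h1 hq.2.2)) h4

theorem isRed (hK : Cx K) (hp : SR K l p) (hJ : ∀ y ∈ J, Nm K y) :
    IsRed K l p J (rd K l p J) where
  nm y hy := by
    refine ⟨?_, ?_, ?_, ?_⟩
    · rintro n v u (⟨w, h, _⟩ | ⟨_, h, _⟩)
      · exact (F.kl h).1
      · exact h
    · intro n v hv
      rw [Set.eq_empty_iff_forall_notMem]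
      rintro u (⟨w, h, h1⟩ | ⟨h, _⟩)
      · have h2 := (F.e hp h).2 u (F.kl h) (Finset.Subset.refl _) ∅
          (fun α hα => absurd hα (Finset.notMem_empty _)) 0 0
        obtain ⟨r, _, _, _, _, h3⟩ := h2
        have := dec_lt (hJ y hy) (h3 y hy n (Nat.lt_succ_self n))
        omega
      · have : 0 < bb n := by unfold bb; positivity
        omega
    · intro n
      refine ⟨?_, ?_⟩
      · rintro u ⟨v, (⟨w, h, _⟩ | ⟨_, h, _⟩)⟩
        · exact (F.kl h).1
        · exact h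
      · intro t ht
        obtain ⟨t', h1, h2⟩ := hK.sr_ext l t ht
        by_cases hc : cut t' l ∪ cut p l ∈ K
        · have h3 : cut t' l ∪ cut p l ∈ Kl K l p :=
            ⟨hc, low_union (low_cut _ _) (low_cut _ _), Finset.subset_union_right⟩
          obtain ⟨w, q', h4, h5, h6⟩ := F.all hp hK hJ (n + 1) h3
          obtain ⟨r, hr, h7, h8, _⟩ := h2.2 q' h4.1 h4.2.1 (Finset.subset_union_left.trans h5) ∅
            (fun α hα => absurd hα (Finset.notMem_empty _)) 0 0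
          exact ⟨q', ⟨w y n, Or.inl ⟨w, h6, rfl⟩⟩, hK.down r hr _
            (Finset.union_subset (h1.trans h7) h8)⟩
        · exact ⟨cut t' l, ⟨0, Or.inr ⟨rfl, hK.cut h2.1 l, low_cut _ _, hc⟩⟩,
            hK.down t' h2.1 _ (Finset.union_subset h1 (cut_sub t' l))⟩
    · rintro n v v' u (⟨w, h, h1⟩ | ⟨h, h0, h1, h2⟩) u' (⟨w', h', h1'⟩ | ⟨h', h0', h1', h2'⟩) huu
      · rw [← h1, ← h1']
        exact F.inc h h' huu y hy n (Nat.lt_succ_self n)
      · exfalso
        refine h2' (hK.down _ huu _ (Finset.union_subset Finset.subset_union_right ?_))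
        exact (F.kl h).2.2.trans Finset.subset_union_left
      · exfalso
        refine h2 (hK.down _ huu _ (Finset.union_subset Finset.subset_union_left ?_))
        exact (F.kl h').2.2.trans Finset.subset_union_right
      · rw [h, h']
  low y hy n v u hu := by
    rcases hu with ⟨w, h, _⟩ | ⟨_, _, h, _⟩
    · exact (F.kl h).2.1
    · exact h
  up q hq hql hqc n z hz F' hF N v₀ := by
    have hk : q ∈ Kl K l p := ⟨hq, hql, hqc⟩
    have key : q ∈ E K l p J n z := by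
      rcases Nat.eq_zero_or_pos n with rfl | hn
      · exact E.zero hp z hk
      · rcases J.eq_empty_or_nonempty with hJe | ⟨y₀, hy₀⟩
        · exact E.emp hp n z hk hJe
        · obtain ⟨w, h1, _⟩ := rd_dec hK hk (hz y₀ hy₀ (n - 1) (by omega))
          have hn' : n - 1 + 1 = n := by omega
          rw [hn'] at h1
          refine E.congr (F.e hp h1) ?_
          intro y hy i hi
          obtain ⟨w', h2, h3⟩ := rd_dec hK hk (hz y hy i hi)
          rw [← h3]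
          exact F.inc (F.dn h1 (by omega : i + 1 ≤ n)) h2 (by rwa [Finset.union_idempotent]) y hy i
            (Nat.lt_succ_self i)
    obtain ⟨r, h1, h2, h3, h4, h5⟩ := key.2 q hk (Finset.Subset.refl _) F' hF N v₀
    exact ⟨r, h1, h2, h3, h4, h5⟩
  dn n z hz y hy i hi := by
    have hk : cut p l ∈ Kl K l p := ⟨hK.cut hp.1 l, low_cut _ _, Finset.Subset.refl _⟩
    have key : ∀ k ≤ n, cut p l ∈ F K l p J k z := by
      intro k
      induction k with
      | zero => exact fun _ => hk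
      | succ k ih =>
        intro hkn
        refine ⟨ih (by omega), ⟨hk, ?_⟩, ?_⟩
        · intro q' hq' hqq F' hF N v₀
          obtain ⟨r, h1, h2, h3, h4⟩ := hp.2 q' hq'.1 hq'.2.1 hq'.2.2 F' hF N v₀
          exact ⟨r, h1, h2, h3, h4, fun y hy i hi => (hz y hy i (by omega)).mono h2⟩
        · intro w' g1 g2 q' g3 g4 g5
          obtain ⟨r, h1, h2, h3, h4, h5⟩ := g5.2 q' g3 (Finset.Subset.refl _) ∅
            (fun α hα => absurd hα (Finset.notMem_empty _)) 0 0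
          refine absurd ((code_eq J).2 fun y hy => ?_) g2.ne
          exact dec_uni hK (hJ y hy) h1 (h5 y hy k (Nat.lt_succ_self k))
            ((hz y hy k (by omega)).mono h2)
    exact ⟨cut p l, Or.inl ⟨z, key (i + 1) hi, rfl⟩, Finset.Subset.refl _⟩

end RedAux

theorem tRed (T : Type) [Big T] : S_Red T := fun K hK l p hp J hJ =>
  ⟨RedAux.rd K l p J, RedAux.isRed hK hp hJ⟩

end Pool.Agent.LZ
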