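import Pool.Agent.Lib.MP_10f401_gt.LZ.SpecA

/-!
# Module Rep: countably many cuts represent all
-/

set_option autoImplicit false

open Set Cardinal

namespace Pool.Agent.LZ

open Classical

namespace RepAux

theorem ranks_countable {T : Type} [Big T] {K : Set (Face T)} (hK : Cx K) :
    (rk '' {a : Atom T | ({a} : Face T) ∈ K}).Countable := by
  apply Set.Countable.image
  exact hK.cnt.preimage (f := fun a : Atom T => ({a} : Face T)) Finset.singleton_injective

end RepAux

theorem tRep (T : Type) [Big T] : S_Rep T := by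
  intro K hK
  have hR := RepAux.ranks_countable hK
  set R : Set T := rk '' {a : Atom T | ({a} : Face T) ∈ K} with hRdef
  obtain ⟨t, ht⟩ := bdd_of_countable hR
  let g : T → T := fun r =>
    if h : ∃ l, ∀ r' ∈ R, (r' ≤ l ↔ r' < r) then h.choose else t
  refine ⟨{t} ∪ g '' R, (countable_singleton t).union (hR.image g), fun l => ?_⟩
  by_cases h : ∀ r ∈ R, r ≤ l
  · refine ⟨t, Or.inl rfl, fun a ha => ?_⟩
    have hm : rk a ∈ R := ⟨a, ha, rfl⟩
    exact ⟨fun _ => (ht _ hm).le, fun _ => h _ hm⟩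
  · push Not at h
    obtain ⟨r₀, h₀, h₁⟩ := h
    have wf : WellFounded (fun a b : T => a < b) := wellFounded_lt
    have hne : ({r | r ∈ R ∧ l < r} : Set T).Nonempty := ⟨r₀, h₀, h₁⟩
    obtain ⟨hrR, hlr⟩ := wf.min_mem _ hne
    have hmin : ∀ x ∈ R, l < x → ¬ x < wf.min _ hne := by
      intro x hx hlx
      have hx' : x ∈ ({r | r ∈ R ∧ l < r} : Set T) := ⟨hx, hlx⟩
      exact wf.not_lt_min _ hx'
    set r : T := wf.min _ hne
    have hr : ∃ l', ∀ r' ∈ R, (r' ≤ l' ↔ r' < r) := by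
      refine ⟨l, fun r' hr' => ⟨fun h2 => h2.trans_lt hlr, fun h2 => ?_⟩⟩
      by_contra h3
      exact hmin r' hr' (not_le.1 h3) h2
    have hg : ∀ r' ∈ R, (r' ≤ g r ↔ r' < r) := by
      have e : g r = hr.choose := dif_pos hr
      rw [e]
      exact hr.choose_spec
    refine ⟨g r, Or.inr ⟨r, hrR, rfl⟩, fun a ha => ?_⟩
    have hm : rk a ∈ R := ⟨a, ha, rfl⟩
    rw [hg _ hm]
    refine ⟨fun h2 => h2.trans_lt hlr, fun h2 => ?_⟩
    by_contra h3
    exact hmin _ hm (not_le.1 h3) h2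

end Pool.Agent.LZ

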