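import Pool.Agent.Lib.MP_10f401_gt.LZ.SpecA

/-!
# `SR` and `IsRed` depend on `l` only up to `Same`
-/

set_option autoImplicit false
set_option linter.unusedSectionVars false
set_option linter.unusedVariables false

open Set Cardinal

namespace Pool.Agent.LZ

open Classical

namespace SamAux

variable {T : Type} [Big T] {K : Set (Face T)} {l l' : T}

theorem symm (h : Same K l l') : Same K l' l := fun a ha => (h a ha).symm

theorem low (hK : Cx K) (h : Same K l l') {q : Face T} (hq : q ∈ K) (hl : Low l q) :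
    Low l' q := fun a ha => (h a (hK.sing hq ha)).1 (hl a ha)

theorem cut_eq (hK : Cx K) (h : Same K l l') {p : Face T} (hp : p ∈ K) :
    cut p l = cut p l' := by
  ext a
  rw [mem_cut, mem_cut]
  exact ⟨fun ha => ⟨ha.1, (h a (hK.sing hp ha.1)).1 ha.2⟩,
    fun ha => ⟨ha.1, (h a (hK.sing hp ha.1)).2 ha.2⟩⟩

theorem abv (h : Same K l l') {F : Finset T} (hF : Abv K l' F) : Abv K l F := by
  intro α hα
  obtain ⟨h1, h2⟩ := hF α hα
  refine ⟨?_, h2⟩
  by_contra h3
  exact absurd ((h (Atom.st α 0 0) h2).1 (not_lt.1 h3)) (not_le.2 h1)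

end SamAux

open SamAux in
theorem tSam (T : Type) [Big T] : S_Sam T := by
  intro K hK l l' h
  refine ⟨?_, ?_⟩
  · intro p hp
    refine ⟨hp.1, fun q hq hql hc F hF N v₀ => ?_⟩
    refine hp.2 q hq (low hK (symm h) hq hql) ?_ F (abv h hF) N v₀
    rw [cut_eq hK h hp.1]
    exact hc
  · intro p hp J st hst
    refine ⟨hst.nm, ?_, ?_, ?_⟩
    · intro y hy n v u hu
      exact low hK h ((hst.nm y hy).sub n v hu) (hst.low y hy n v u hu)
    · intro q hq hql hc n z hz F hF N v₀
      refine hst.up q hq (low hK (symm h) hq hql) ?_ n z hz F (abv h hF) N v₀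
      rw [cut_eq hK h hp]
      exact hc
    · intro n z hz y hy i hi
      rw [← cut_eq hK h hp]
      exact hst.dn n z hz y hy i hi

end Pool.Agent.LZ
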