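import Pool.Agent.Lib.MP_10f401_gt.LZ.SpecC

/-!
# STA: the main property
-/

set_option autoImplicit false
set_option linter.unusedSectionVars false
set_option linter.unusedVariables false

open Set Cardinal

namespace Pool.Agent.LZ

open Classical Pool.Agent.SymExt

namespace StaAux

variable {T : Type} [Big T]

/-- the dense open sets -/
def QQ (G : ℕ → ℕ → RO (Cd T)) (q₀ : Cd T) (n : ℕ) : Set (Cd T) :=
  {z | (z ≤ q₀ ∧ ∃ v, G n v z) ∨ ∀ r, r ≤ z → ¬ r ≤ q₀}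

theorem QQ_open (G : ℕ → ℕ → RO (Cd T)) (q₀ : Cd T) (n : ℕ) :
    ∀ z ∈ QQ G q₀ n, ∀ y ≤ z, y ∈ QQ G q₀ n := by
  rintro z (⟨h1, v, h2⟩ | h) y hy
  · exact Or.inl ⟨hy.trans h1, v, (G n v).mono hy h2⟩
  · exact Or.inr fun r hr => h r (hr.trans hy)

theorem QQ_dense (G : ℕ → ℕ → RO (Cd T)) (q₀ : Cd T)
    (hG : ∀ q ≤ q₀, ∀ n, ∃ r ≤ q, ∃ v, G n v r) (n : ℕ) (z : Cd T) :
    ∃ y ≤ z, y ∈ QQ G q₀ n := by
  by_cases h : ∃ r, r ≤ z ∧ r ≤ q₀
  · obtain ⟨r, h1, h2⟩ := h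
    obtain ⟨s, hs, v, hv⟩ := hG r h2 n
    exact ⟨s, hs.trans h1, Or.inl ⟨hs.trans h2, v, hv⟩⟩
  · push Not at h
    exact ⟨z, le_rfl, Or.inr fun r hr hr' => h r hr hr'⟩

/-- the name of the function -/
def ff (G : ℕ → ℕ → RO (Cd T)) (d : Cn T) (p₀ : Face T) : Name T := fun n v =>
  {u | (∃ h : u ∈ d.K, p₀ ⊆ u ∧ G n v ⟨d, u, h⟩) ∨ (v = 0 ∧ u ∈ d.K ∧ u ∪ p₀ ∉ d.K)}

theorem ff_nm (G : ℕ → ℕ → RO (Cd T)) (d : Cn T) (q₀ : Cd T) (hd : LeC d q₀.c)
    (hU : ∀ n v v', ∀ q ≤ q₀, G n v q → G n v' q → v = v')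
    (hS : ∀ n, ∃ S ∈ d.D, ∀ q ∈ S, ∃ h : q ∈ d.K, (⟨d, q, h⟩ : Cd T) ∈ QQ G q₀ n) :
    NmF d.K (ff G d q₀.p) := by
  have hsub : ∀ n v, ff G d q₀.p n v ⊆ d.K := by
    rintro n v u (⟨h, _⟩ | ⟨_, h, _⟩)
    · exact h
    · exact h
  refine ⟨hsub, ?_, ?_⟩
  · intro n
    refine ⟨?_, ?_⟩
    · rintro u ⟨v, hu⟩
      exact hsub n v hu
    · intro s hs
      obtain ⟨S, hSD, hSQ⟩ := hS n
      obtain ⟨q, hq, hsq⟩ := (d.Dp S hSD).2 s hs
      obtain ⟨hqK, hqQ⟩ := hSQ q hq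
      refine ⟨q, ?_, hsq⟩
      rcases hqQ with ⟨h1, v, hv⟩ | h
      · exact ⟨v, Or.inl ⟨hqK, h1.2, hv⟩⟩
      · refine ⟨0, Or.inr ⟨rfl, hqK, ?_⟩⟩
        intro hcon
        exact h ⟨d, q ∪ q₀.p, hcon⟩ ⟨LeC.refl d, Finset.subset_union_left⟩
          ⟨hd, Finset.subset_union_right⟩
  · rintro n v v' u (⟨h, h1, h2⟩ | ⟨h, h1, h2⟩) u' (⟨h', h1', h2'⟩ | ⟨h', h1', h2'⟩) huu
    · have hw : (⟨d, u ∪ u', huu⟩ : Cd T) ≤ q₀ := ⟨hd, h1.trans Finset.subset_union_left⟩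
      refine hU n v v' ⟨d, u ∪ u', huu⟩ hw ((G n v).mono ?_ h2) ((G n v').mono ?_ h2')
      · exact ⟨LeC.refl d, Finset.subset_union_left⟩
      · exact ⟨LeC.refl d, Finset.subset_union_right⟩
    · exact absurd (d.cx.down _ huu _ (Finset.union_subset Finset.subset_union_right
        (h1.trans Finset.subset_union_left))) h2'
    · exact absurd (d.cx.down _ huu _ (Finset.union_subset Finset.subset_union_left
        (h1'.trans Finset.subset_union_right))) h2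
    · rw [h, h']

theorem exists_bound {K : Set (Face T)} (hK : Cx K) : ∃ t : T, ∀ u ∈ K, Low t u := by
  have hc : {a : Atom T | ({a} : Face T) ∈ K}.Countable := by
    have h1 : {a : Atom T | ({a} : Face T) ∈ K} = (fun a : Atom T => ({a} : Face T)) ⁻¹' K := rfl
    rw [h1]
    exact hK.cnt.preimage_of_injOn (fun a _ b _ hab => Finset.singleton_injective hab)
  obtain ⟨t, ht⟩ := bdd_of_countable (hc.image rk)
  exact ⟨t, fun u hu a ha => (ht (rk a) ⟨a, hK.sing hu ha, rfl⟩).le⟩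

end StaAux

open StaAux in
theorem tSta (T : Type) [Big T] (h1 : S_Pig T) (h2 : S_Mk T) (h3 : S_Stm T) (h4 : S_Rch T)
    (h5 : S_Fus T) (h6 : S_Cor T) : S_Sta T := by
  intro p J G hJ hG hU
  have hex : ∀ t, ∃ c : Cd T, c ≤ p ∧ ∃ g, J t g c := by
    intro t
    obtain ⟨r, hr, x, hx⟩ := hJ t p le_rfl
    exact ⟨r, hr, x, hx⟩
  choose c hc g hg using hex
  obtain ⟨x, hx⟩ := h1 g
  obtain ⟨i₀, hi₀, hrich⟩ := h4 {t | g t = x} (fun t => by
    obtain ⟨i, hi, hti⟩ := hx t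
    exact ⟨i, hi, hti⟩) c
  have hi₀' : g i₀ = x := hi₀
  have hJi₀ : J i₀ x (c i₀) := by rw [← hi₀']; exact hg i₀
  obtain ⟨d, hd, hdS⟩ := h5 (QQ (G x) (c i₀)) (QQ_open (G x) (c i₀))
    (QQ_dense (G x) (c i₀) (fun q hq n => hG i₀ x q (hq.trans (hc i₀))
      ((J i₀ x).mono hq hJi₀) n)) (c i₀).c
  have hnm : NmF d.K (ff (G x) d (c i₀).p) := ff_nm (G x) d (c i₀) hd
    (fun n v v' q hq => hU x n v v' q (hq.trans (hc i₀))) hdS
  set f : Name T := ff (G x) d (c i₀).p with hf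
  -- the condition which knows the name
  obtain ⟨d₁, hd₁, hd₁K, hd₁X, hd₁D, _, _⟩ := h2 d d.K d.cx (Ext.refl d.K d.cx) d.Dp
    (Set.range fun n => yD f n) (Set.countable_range _) (by
      rintro S ⟨n, rfl⟩
      exact hnm.pd n) ∅ Set.countable_empty (fun y hy => absurd hy (notMem_empty _))
    ∅ Set.countable_empty (fun o ho => absurd ho (notMem_empty _))
    (fun o ho => absurd ho (notMem_empty _)) ∅ Set.countable_empty
    (fun x m m' hm hm' => by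
      rw [Set.union_empty] at hm hm'
      exact d.Xi x m m' hm hm')
    (fun x m hm => absurd hm (notMem_empty _)) (fun e he => absurd he (notMem_empty _))
    (fun e he => absurd he (notMem_empty _))
  have hp₀ : (c i₀).p ∈ d.K := hd.K.sub (c i₀).hp
  have hp₁ : (c i₀).p ∈ d₁.K := by rw [hd₁K]; exact hp₀
  obtain ⟨t₀, ht₀⟩ := exists_bound d.cx
  have hz₀ : (⟨d₁, (c i₀).p, hp₁⟩ : Cd T) ≤ c i₀ := ⟨hd₁.trans hd, Finset.Subset.refl _⟩
  set z₀ : Cd T := ⟨d₁, (c i₀).p, hp₁⟩ with hz₀def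
  -- the family
  have hfam : ∀ j, ∃ r : Cd T, (g j = x ∧ ∃ r', r' ≤ z₀ ∧ r' ≤ c j) →
      r ≤ z₀ ∧ r ≤ c j ∧ Stem r.c.K j := by
    intro j
    by_cases h : g j = x ∧ ∃ r', r' ≤ z₀ ∧ r' ≤ c j
    · obtain ⟨_, r', hr1, hr2⟩ := h
      obtain ⟨d', hd', hst⟩ := h3 r'.c j
      refine ⟨⟨d', r'.p, hd'.K.sub r'.hp⟩, fun _ => ⟨?_, ?_, hst⟩⟩
      · exact ⟨hd'.trans hr1.1, hr1.2⟩
      · exact ⟨hd'.trans hr2.1, hr2.2⟩
    · exact ⟨p, fun h' => absurd h' h⟩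
  choose r hr using hfam
  obtain ⟨i, hi, j, hj, hij, -, s, hsi, hsj, k, hk⟩ := h6 f t₀
    (fun n v u hu => ht₀ u (hnm.sub n v hu)) {j | g j = x ∧ ∃ r', r' ≤ z₀ ∧ r' ≤ c j}
    (fun t => by
      obtain ⟨j, hj, htj, r', hr1, hr2⟩ := hrich z₀ hz₀ t
      exact ⟨j, ⟨hj, r', hr1, hr2⟩, htj⟩) r (fun t => t) (fun j hj => by
      obtain ⟨hr1, hr2, hst⟩ := hr j hj
      have hK : Ext d₁.K (r j).c.K := hr1.1.K
      refine ⟨hst, ⟨fun n v => ?_, fun n => ?_, fun n v v' u hu u' hu' huu => ?_⟩⟩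
      · intro u hu
        exact hK.sub (by rw [hd₁K]; exact hnm.sub n v hu)
      · exact (r j).c.Dp _ (hr1.1.D (hd₁D ⟨n, rfl⟩))
      · have h7 : u ∪ u' ∈ d₁.K := hK.union d₁.cx (by rw [hd₁K]; exact hnm.sub n v hu)
          (by rw [hd₁K]; exact hnm.sub n v' hu') huu
        rw [hd₁K] at h7
        exact hnm.inc n v v' u hu u' hu' h7)
  obtain ⟨hi1, hi2, hist⟩ := hr i hi
  obtain ⟨hj1, hj2, hjst⟩ := hr j hj
  have hgi : g i = x := hi.1
  have hgj : g j = x := hj.1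
  refine ⟨s, (hsi.trans hi2).trans (hc i), i, j, x, hij.ne, ?_, ?_, k, ?_⟩
  · have := (J i (g i)).mono (hsi.trans hi2) (hg i)
    rwa [hgi] at this
  · have := (J j (g j)).mono (hsj.trans hj2) (hg j)
    rwa [hgj] at this
  · intro n hn w hw a b v ha hb hv
    obtain ⟨r₁, hr₁, ha1⟩ := ha w le_rfl
    obtain ⟨r₂, hr₂, hb2⟩ := hb r₁ hr₁
    have hr₂w : r₂ ≤ w := hr₂.trans hr₁
    have hr₂s : r₂ ≤ s := hr₂w.trans hw
    have hr₂z : r₂ ≤ z₀ := (hr₂s.trans hsi).trans hi1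
    have ha2 : Atom.st i n a ∈ r₂.p := hr₂.2 ha1
    have hK₂ : Ext d.K r₂.c.K := by
      have := hr₂z.1.K
      have h8 : Ext d₁.K r₂.c.K := this
      rwa [hd₁K] at h8
    obtain ⟨u, ⟨v'', hu⟩, hru⟩ := (r₂.c.Dp _ (hr₂z.1.D (hd₁D ⟨n, rfl⟩))).2 r₂.p r₂.hp
    have hq₀ : (c i₀).p ⊆ r₂.p := hr₂z.2
    have huK : u ∈ d.K := hnm.sub n v'' hu
    have hfirst : ∃ h : u ∈ d.K, (c i₀).p ⊆ u ∧ G x n v'' ⟨d, u, h⟩ := by
      rcases hu with h | ⟨_, _, h⟩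
      · exact h
      · exfalso
        apply h
        refine hK₂.union d.cx huK hp₀ (r₂.c.cx.down _ hru _ ?_)
        exact Finset.union_subset Finset.subset_union_right (hq₀.trans Finset.subset_union_left)
    obtain ⟨huK', hqu, hGu⟩ := hfirst
    have hW1 : (⟨r₂.c, r₂.p ∪ u, hru⟩ : Cd T) ≤ ⟨d, u, huK'⟩ :=
      ⟨hr₂z.1.trans hd₁, Finset.subset_union_right⟩
    have hW2 : (⟨r₂.c, r₂.p ∪ u, hru⟩ : Cd T) ≤ r₂ := ⟨LeC.refl _, Finset.subset_union_left⟩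
    have hWp : (⟨r₂.c, r₂.p ∪ u, hru⟩ : Cd T) ≤ p :=
      (hW2.trans (hr₂s.trans (hsi.trans hi2))).trans (hc i)
    have hvv : v'' = v := hU x n v'' v _ hWp ((G x n v'').mono hW1 hGu)
      ((G x n v).mono (hW2.trans hr₂w) hv)
    have hstI : Stem s.c.K i := hist.ext hsi.1.K
    have hstJ : Stem s.c.K j := hjst.ext hsj.1.K
    have hKs : Ext d₁.K s.c.K := (hsi.trans hi1).1.K
    have huKs : u ∈ s.c.K := hKs.sub (by rw [hd₁K]; exact huK)
    have hmem : s.p ∪ ({Atom.st i n a, Atom.st j n b} ∪ u) ∈ s.c.K := by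
      refine hr₂s.1.K.ind _ (r₂.c.cx.down _ hru _ ?_) ?_
      · refine Finset.union_subset (hr₂s.2.trans Finset.subset_union_left)
          (Finset.union_subset ?_ Finset.subset_union_right)
        intro e he
        rw [Finset.mem_insert, Finset.mem_singleton] at he
        rcases he with rfl | rfl
        · exact Finset.mem_union_left _ ha2
        · exact Finset.mem_union_left _ hb2
      · intro e he
        rw [Finset.mem_union, Finset.mem_union, Finset.mem_insert, Finset.mem_singleton] at he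
        rcases he with he | (rfl | rfl) | he
        · exact s.c.cx.sing s.hp he
        · exact hstI.st s.c.cx n a
        · exact hstJ.st s.c.cx n b
        · exact s.c.cx.sing huKs he
    have := hk n hn a b v'' u hu _ hmem Finset.subset_union_left
      (Finset.mem_union_right _ (Finset.mem_union_left _ (Finset.mem_insert_self _ _)))
      (Finset.mem_union_right _ (Finset.mem_union_left _ (Finset.mem_insert_of_mem
        (Finset.mem_singleton_self _))))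
      ((Finset.subset_union_right).trans Finset.subset_union_right)
    rwa [hvv] at this

end Pool.Agent.LZ
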