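import Pool.Agent.Lib.MP_10f401_gt.LZ.SpecA

/-!
# Module Stm: adding a new function to a condition (helper94)
-/

set_option autoImplicit false

open Set Cardinal

namespace Pool.Agent.LZ

open Classical

theorem tStm (T : Type) [Big T] (h1 : S_Mk T) (h2 : S_StmK T) : S_Stm T := by
  intro c α
  by_cases hα : Stem c.K α
  · exact ⟨c, LeC.refl c, hα⟩
  · obtain ⟨K', hK', hE, hS, hP⟩ := h2 c.K c.cx α hα
    obtain ⟨d, hd, hdK, -⟩ := h1 c K' hK' hE (fun S hS => hP S (c.Dp S hS)) ∅ countable_empty
      (by simp) ∅ countable_empty (by simp) ∅ countable_empty (by simp) (by simp) ∅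
      countable_empty (by
        intro x m m' h h'
        rw [union_empty] at h h'
        exact c.Xi x m m' h h') (by simp) (by simp) (by simp)
    exact ⟨d, hd, by rw [hdK]; exact hS⟩

end Pool.Agent.LZ
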