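import Pool.Agent.Lib.MP_10f401_gt.LZ.SpecA

/-!
# A new function number `α`
-/

set_option autoImplicit false
set_option linter.unusedSectionVars false
set_option linter.unusedVariables false

open Set Cardinal

namespace Pool.Agent.LZ

open Classical

namespace StmKAux

variable {T : Type} [Big T]

/-- stem atoms of the function number `α` -/
def IsA (α : T) (a : Atom T) : Prop := ∃ n v, a = Atom.st α n v

/-- the old part of a face -/
noncomputable def old (α : T) (t : Face T) : Face T := t.filter fun a => ¬ IsA α a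

/-- the new part of a face -/
noncomputable def new (α : T) (t : Face T) : Face T := t.filter fun a => IsA α a

/-- the new part is functional -/
def Fn (α : T) (t : Face T) : Prop :=
  ∀ n v v', Atom.st α n v ∈ t → Atom.st α n v' ∈ t → v = v'

/-- the new complex -/
def NK (K : Set (Face T)) (α : T) : Set (Face T) := {t | old α t ∈ K ∧ Fn α t}

theorem mem_old {α : T} {t : Face T} {a : Atom T} : a ∈ old α t ↔ a ∈ t ∧ ¬ IsA α a := by
  simp [old]

theorem mem_new {α : T} {t : Face T} {a : Atom T} : a ∈ new α t ↔ a ∈ t ∧ IsA α a := by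
  simp [new]

theorem old_sub (α : T) (t : Face T) : old α t ⊆ t := Finset.filter_subset _ _

theorem new_sub (α : T) (t : Face T) : new α t ⊆ t := Finset.filter_subset _ _

theorem old_union_new (α : T) (t : Face T) : old α t ∪ new α t = t := by
  ext a
  simp only [Finset.mem_union, mem_old, mem_new]
  tauto

theorem isA_st (α : T) (n v : ℕ) : IsA α (Atom.st α n v) := ⟨n, v, rfl⟩

theorem isA_rk {α : T} {a : Atom T} (h : IsA α a) : rk a = α := by
  obtain ⟨n, v, rfl⟩ := h
  rfl

theorem not_isA_of_ne {α β : T} (h : β ≠ α) (n v : ℕ) : ¬ IsA α (Atom.st β n v) := by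
  rintro ⟨n', v', e⟩
  injection e with e1
  exact h e1

section

variable {K : Set (Face T)} {α : T}

theorem not_isA (hK : Cx K) (hα : ¬ Stem K α) {p : Face T} (hp : p ∈ K) {a : Atom T}
    (ha : a ∈ p) : ¬ IsA α a := by
  rintro ⟨n, v, rfl⟩
  exact hα (hK.stem hp ha)

theorem old_of_mem (hK : Cx K) (hα : ¬ Stem K α) {p : Face T} (hp : p ∈ K) : old α p = p := by
  ext a
  rw [mem_old]
  exact ⟨fun h => h.1, fun h => ⟨h, not_isA hK hα hp h⟩⟩

/-- the faces `r ∪ u` -/
theorem mk_mem (hK : Cx K) (hα : ¬ Stem K α) {r u : Face T} (hr : r ∈ K) (hu : ∀ a ∈ u, IsA α a)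
    (hf : Fn α u) : r ∪ u ∈ NK K α := by
  refine ⟨?_, ?_⟩
  · have h1 : old α (r ∪ u) = r := by
      ext a
      rw [mem_old, Finset.mem_union]
      constructor
      · rintro ⟨h | h, h'⟩
        · exact h
        · exact absurd (hu a h) h'
      · intro h
        exact ⟨Or.inl h, not_isA hK hα hr h⟩
    rw [h1]
    exact hr
  · intro n v v' h h'
    have h2 : ∀ v, Atom.st α n v ∈ r ∪ u → Atom.st α n v ∈ u := by
      intro v h
      rcases Finset.mem_union.1 h with h | h
      · exact absurd (isA_st α n v) (not_isA hK hα hr h)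
      · exact h
    exact hf n v v' (h2 _ h) (h2 _ h')

theorem sub_NK (hK : Cx K) (hα : ¬ Stem K α) : K ⊆ NK K α := by
  intro p hp
  have h := mk_mem hK hα hp (u := ∅) (fun a ha => absurd ha (Finset.notMem_empty _))
    (fun n v v' h => absurd h (Finset.notMem_empty _))
  rwa [Finset.union_empty] at h

theorem sing_ne (hK : Cx K) (hα : ¬ Stem K α) {β : T} (hβ : β ≠ α) (n v : ℕ)
    (h : ({Atom.st β n v} : Face T) ∈ NK K α) : ({Atom.st β n v} : Face T) ∈ K := by
  have h1 : old α ({Atom.st β n v} : Face T) = {Atom.st β n v} := by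
    ext a
    rw [mem_old, Finset.mem_singleton]
    constructor
    · exact fun h => h.1
    · rintro rfl
      exact ⟨rfl, not_isA_of_ne hβ n v⟩
  rw [← h1]
  exact h.1

theorem sing_eq (hK : Cx K) (hα : ¬ Stem K α) (n v : ℕ) :
    ({Atom.st α n v} : Face T) ∈ NK K α := by
  have h := mk_mem hK hα hK.empty (u := {Atom.st α n v}) (fun a ha => by
    rw [Finset.mem_singleton] at ha
    rw [ha]
    exact isA_st α n v) (fun n v v' h h' => by
    rw [Finset.mem_singleton] at h h'
    have e := h.trans h'.symm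
    injection e)
  rwa [Finset.empty_union] at h

/-- predense sets stay predense -/
theorem pd_NK (hK : Cx K) (hα : ¬ Stem K α) {S : Set (Face T)} (h : Pd K S) : Pd (NK K α) S := by
  refine ⟨h.1.trans (sub_NK hK hα), fun t ht => ?_⟩
  obtain ⟨d, hd, h1⟩ := h.2 _ ht.1
  refine ⟨d, hd, ?_⟩
  have h2 : t ∪ d = (old α t ∪ d) ∪ new α t := by
    conv_lhs => rw [← old_union_new α t]
    rw [Finset.union_assoc, Finset.union_comm (new α t), ← Finset.union_assoc]
  rw [h2]
  exact mk_mem hK hα h1 (fun a ha => (mem_new.1 ha).2) fun n v v' h3 h4 =>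
    ht.2 n v v' (mem_new.1 h3).1 (mem_new.1 h4).1

/-- the extension of the functional part -/
theorem fill {s : Face T} (hs : ∀ a ∈ s, IsA α a) (hf : Fn α s) (N v₀ : ℕ) :
    ∃ u : Face T, (∀ a ∈ u, IsA α a) ∧ Fn α u ∧ s ⊆ u ∧
      ∀ n < N, DecSt s α n ∨ Atom.st α n v₀ ∈ u := by
  refine ⟨s ∪ ((Finset.range N).filter fun n => ¬ DecSt s α n).image fun n => Atom.st α n v₀,
    ?_, ?_, Finset.subset_union_left, ?_⟩
  · intro a ha
    rcases Finset.mem_union.1 ha with h | h
    · exact hs a h
    · obtain ⟨n, _, rfl⟩ := Finset.mem_image.1 h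
      exact isA_st α n v₀
  · intro n v v' h h'
    have key : ∀ v, Atom.st α n v ∈ s ∪ ((Finset.range N).filter fun n => ¬ DecSt s α n).image
        (fun n => Atom.st α n v₀) → Atom.st α n v ∈ s ∨ (v = v₀ ∧ ¬ DecSt s α n) := by
      intro v h
      rcases Finset.mem_union.1 h with h | h
      · exact Or.inl h
      · obtain ⟨n', hn', e⟩ := Finset.mem_image.1 h
        injection e with e1 e2 e3
        subst e2
        exact Or.inr ⟨e3.symm, (Finset.mem_filter.1 hn').2⟩
    rcases key v h with h1 | ⟨h1, h2⟩ <;> rcases key v' h' with h3 | ⟨h3, h4⟩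
    · exact hf n v v' h1 h3
    · exact absurd ⟨v, h1⟩ h4
    · exact absurd ⟨v', h3⟩ h2
    · rw [h1, h3]
  · intro n hn
    by_cases h : DecSt s α n
    · exact Or.inl h
    · exact Or.inr (Finset.mem_union_right _ (Finset.mem_image.2 ⟨n,
        Finset.mem_filter.2 ⟨Finset.mem_range.2 hn, h⟩, rfl⟩))

/-- the main point: strong reductions of the new complex -/
theorem sr_NK (hK : Cx K) (hα : ¬ Stem K α) {l : T} {p s : Face T} (hp : SR K l p)
    (hs : ∀ a ∈ s, IsA α a) (hf : Fn α s) : SR (NK K α) l (p ∪ s) := by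
  refine ⟨mk_mem hK hα hp.1 hs hf, ?_⟩
  intro Q hQ hQl hc F hF N v₀
  have h1 : cut p l ⊆ old α Q := by
    intro a ha
    exact mem_old.2 ⟨hc (cut_mono l Finset.subset_union_left ha),
      not_isA hK hα hp.1 (mem_cut.1 ha).1⟩
  have h2 : Abv K l (F.erase α) := by
    intro β hβ
    rw [Finset.mem_erase] at hβ
    obtain ⟨h3, h4⟩ := hF β hβ.2
    exact ⟨h3, sing_ne hK hα hβ.1 _ _ h4⟩
  obtain ⟨r, hr, h3, h4, h5⟩ := hp.2 _ hQ.1 (hQl.mono (old_sub α Q)) h1 _ h2 N v₀
  -- the new part
  have h6 : ∃ u : Face T, (∀ a ∈ u, IsA α a) ∧ Fn α u ∧ s ⊆ u ∧ new α Q ⊆ u ∧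
      (α ∈ F → ∀ n < N, DecSt s α n ∨ Atom.st α n v₀ ∈ u) := by
    rcases le_or_gt α l with hl | hl
    · refine ⟨new α Q, fun a ha => (mem_new.1 ha).2, fun n v v' h7 h8 =>
        hQ.2 n v v' (mem_new.1 h7).1 (mem_new.1 h8).1, ?_, Finset.Subset.refl _, ?_⟩
      · intro a ha
        refine mem_new.2 ⟨hc (mem_cut.2 ⟨Finset.mem_union_right _ ha, ?_⟩), hs a ha⟩
        rw [isA_rk (hs a ha)]
        exact hl
      · intro h7
        exact absurd (hF α h7).1 (not_lt.2 hl)
    · obtain ⟨u, g1, g2, g3, g4⟩ := fill hs hf N v₀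
      refine ⟨u, g1, g2, g3, ?_, fun _ => g4⟩
      intro a ha
      obtain ⟨g5, g6⟩ := mem_new.1 ha
      have g7 := hQl a g5
      rw [isA_rk g6] at g7
      exact absurd g7 (not_le.2 hl)
  obtain ⟨u, g1, g2, g3, g4, g5⟩ := h6
  refine ⟨r ∪ u, mk_mem hK hα hr g1 g2, ?_, ?_, ?_⟩
  · exact Finset.union_subset (h3.trans Finset.subset_union_left)
      (g3.trans Finset.subset_union_right)
  · rw [← old_union_new α Q]
    exact Finset.union_subset (h4.trans Finset.subset_union_left)
      (g4.trans Finset.subset_union_right)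
  · intro β hβ n hn
    by_cases hβα : β = α
    · subst hβα
      rcases g5 hβ n hn with h | h
      · exact Or.inl (h.mono Finset.subset_union_right)
      · exact Or.inr ⟨v₀, le_rfl, Finset.mem_union_right _ h⟩
    · rcases h5 β (Finset.mem_erase.2 ⟨hβα, hβ⟩) n hn with h | ⟨v, hv, h⟩
      · exact Or.inl (h.mono Finset.subset_union_left)
      · exact Or.inr ⟨v, hv, Finset.mem_union_left _ h⟩

/-- the new complex is countable -/
theorem cnt_NK (hK : Cx K) : (NK K α).Countable := by
  have h1 : (K ×ˢ (univ : Set (Finset (ℕ × ℕ)))).Countable := hK.cnt.prod (countable_univ)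
  refine (h1.image fun e => e.1 ∪ e.2.image fun x => Atom.st α x.1 x.2).mono ?_
  intro t ht
  have h2 : ∃ s : Finset (ℕ × ℕ), s.image (fun x => Atom.st α x.1 x.2) = new α t := by
    have h3 : (new α t : Set (Atom T)) ⊆ (fun x : ℕ × ℕ => Atom.st α x.1 x.2) '' univ := by
      intro a ha
      obtain ⟨n, v, h⟩ := (mem_new.1 ha).2
      exact ⟨(n, v), mem_univ _, h.symm⟩
    obtain ⟨s, _, hs⟩ := Finset.subset_set_image_iff.1 h3
    exact ⟨s, hs⟩
  obtain ⟨s, hs⟩ := h2
  refine ⟨(old α t, s), ⟨ht.1, mem_univ _⟩, ?_⟩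
  show old α t ∪ s.image (fun x => Atom.st α x.1 x.2) = t
  rw [hs, old_union_new]

theorem cx_NK (hK : Cx K) (hα : ¬ Stem K α) : Cx (NK K α) where
  empty := sub_NK hK hα hK.empty
  down p hp q hq := by
    refine ⟨hK.down _ hp.1 _ fun a ha => ?_, fun n v v' h h' => hp.2 n v v' (hq h) (hq h')⟩
    exact mem_old.2 ⟨hq (mem_old.1 ha).1, (mem_old.1 ha).2⟩
  cnt := cnt_NK hK
  st_all β n v n' v' h := by
    by_cases hβ : β = α
    · subst hβ
      exact sing_eq hK hα n' v'
    · exact sub_NK hK hα (hK.st_all _ _ _ _ _ (sing_ne hK hα hβ n v h))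
  st_fun p hp β n v v' h h' := by
    by_cases hβ : β = α
    · subst hβ
      exact hp.2 n v v' h h'
    · exact hK.st_fun _ hp.1 β n v v' (mem_old.2 ⟨h, not_isA_of_ne hβ n v⟩)
        (mem_old.2 ⟨h', not_isA_of_ne hβ n v'⟩)
  st_pd β hβ n := by
    by_cases hβα : β = α
    · subst hβα
      refine ⟨?_, fun t ht => ?_⟩
      · rintro s ⟨v, rfl⟩
        exact sing_eq hK hα n v
      · by_cases h : DecSt t β n
        · obtain ⟨v, hv⟩ := h
          refine ⟨{Atom.st β n v}, ⟨v, rfl⟩, ?_⟩
          rw [Finset.union_eq_left.2 (by simpa using hv)]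
          exact ht
        · refine ⟨{Atom.st β n 0}, ⟨0, rfl⟩, ?_⟩
          have h1 : t ∪ {Atom.st β n 0} = old β t ∪ (new β t ∪ {Atom.st β n 0}) := by
            rw [← Finset.union_assoc, old_union_new]
          rw [h1]
          refine mk_mem hK hα ht.1 ?_ ?_
          · intro a ha
            rcases Finset.mem_union.1 ha with h2 | h2
            · exact (mem_new.1 h2).2
            · rw [Finset.mem_singleton] at h2
              rw [h2]
              exact isA_st β n 0
          · intro m v v' h2 h3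
            have key : ∀ v, Atom.st β m v ∈ new β t ∪ {Atom.st β n 0} → Atom.st β m v ∈ t ∨
                (m = n ∧ v = 0) := by
              intro v hv
              rcases Finset.mem_union.1 hv with h4 | h4
              · exact Or.inl (mem_new.1 h4).1
              · rw [Finset.mem_singleton] at h4
                injection h4 with e1 e2 e3
                exact Or.inr ⟨e2, e3⟩
            rcases key v h2 with h4 | ⟨h4, h5⟩ <;> rcases key v' h3 with h6 | ⟨h6, h7⟩
            · exact ht.2 m v v' h4 h6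
            · subst h6
              exact absurd ⟨v, h4⟩ h
            · subst h4
              exact absurd ⟨v', h6⟩ h
            · rw [h5, h7]
    · exact pd_NK hK hα (hK.st_pd β (sing_ne hK hα hβα _ _ hβ) n)
  sr_ext l P hP := by
    obtain ⟨p', h1, h2⟩ := hK.sr_ext l _ hP.1
    refine ⟨p' ∪ new α P, ?_, sr_NK hK hα h2 (fun a ha => (mem_new.1 ha).2) fun n v v' h3 h4 =>
      hP.2 n v v' (mem_new.1 h3).1 (mem_new.1 h4).1⟩
    conv_lhs => rw [← old_union_new α P]
    exact Finset.union_subset_union_left h1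
  sr_low l Q hQ hl := by
    have h := sr_NK hK hα (hK.sr_low l _ hQ.1 (hl.mono (old_sub α Q))) (s := new α Q)
      (fun a ha => (mem_new.1 ha).2) fun n v v' h3 h4 =>
      hQ.2 n v v' (mem_new.1 h3).1 (mem_new.1 h4).1
    rwa [old_union_new] at h

theorem ext_NK (hK : Cx K) (hα : ¬ Stem K α) : Ext K (NK K α) where
  sub := sub_NK hK hα
  ind p hp h := by
    have h1 : old α p = p := by
      ext a
      rw [mem_old]
      refine ⟨fun h => h.1, fun ha => ⟨ha, ?_⟩⟩
      exact not_isA hK hα (h a ha) (Finset.mem_singleton_self a)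
    rw [← h1]
    exact hp.1
  sr l p hp := by
    have h := sr_NK hK hα hp (s := ∅) (fun a ha => absurd ha (Finset.notMem_empty _))
      (fun n v v' h => absurd h (Finset.notMem_empty _))
    rwa [Finset.union_empty] at h

end

end StmKAux

open StmKAux in
/-- a new function number `α` -/
theorem tStmK (T : Type) [Big T] : S_StmK T := by
  intro K hK α hα
  exact ⟨NK K α, cx_NK hK hα, ext_NK hK hα, sing_eq hK hα 0 0, fun S hS => pd_NK hK hα hS⟩

end Pool.Agent.LZ
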