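import Pool.Agent.Lib.MP_10f401_gt.LZ.SpecB

/-!
# Twn: twins (reflection) (helper14)
-/

set_option autoImplicit false
set_option linter.unusedSectionVars false

open Set Cardinal

namespace Pool.Agent.LZ

open Classical

namespace TwnAux

variable {T : Type} [Big T]

/-- the set of the ranks of the atoms of a complex is countable -/
theorem ranks_countable {K : Set (Face T)} (hK : K.Countable) :
    (rk '' {a : Atom T | ({a} : Face T) ∈ K}).Countable := by
  have h1 : ((fun a : Atom T => ({a} : Face T)) ⁻¹' K).Countable :=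
    hK.preimage Finset.singleton_injective
  exact h1.image rk

end TwnAux

open TwnAux in
theorem tTwn (T : Type) [Big T] (h1 : S_Clg T) (h2 : S_Chn T) : S_Twn T := by
  intro S hS c ζ t₀
  obtain ⟨g, hg⟩ := h1 S c ζ
  obtain ⟨B, hB⟩ := h2 g (fun t => (hg t).1) t₀
  obtain ⟨j, hj, hBj⟩ := hS B
  obtain ⟨l, h3, h4, h5, h6⟩ := hB _ (ranks_countable (c j).c.cx.cnt)
  obtain ⟨p', h7, h8⟩ := (c j).c.cx.sr_ext l (c j).p (c j).hp
  obtain ⟨i, hi, h9, ⟨h10, h11, p, h12, h13, h14⟩, h15, h16, h17⟩ := (hg l).2 j hj (h4.trans hBj)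
    ((c j).c.X, {p | p ∈ (c j).c.K ∧ Low l p}, cut p' l) ⟨rfl, rfl, p', h7, h8, rfl⟩
  refine ⟨i, hi, j, hj, l, B, h3, h9, h15.trans h5, hBj.le, h16.trans (h5.trans hBj), h10.symm,
    fun r hr => ?_, fun a ha => (h17 a ha).trans h5, fun a ha => ?_, p, p', h12, h7, h13, h8, h14⟩
  · have h18 := Set.ext_iff.1 h11 r
    exact ⟨fun h => (h18.2 ⟨h, hr⟩).1, fun h => (h18.1 ⟨h, hr⟩).1⟩
  · rcases lt_or_ge (rk a) B with h | h
    · exact Or.inl (h6 _ ⟨a, ha, rfl⟩ h)
    · exact Or.inr h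

end Pool.Agent.LZ
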