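import Pool.Agent.Lib.MP_10f401_gt.LZ.SpecA

/-!
# Module Zbr: branches in a countable set
-/

set_option autoImplicit false

open Set Cardinal

namespace Pool.Agent.LZ

open Classical

namespace ZbrAux

variable {T : Type} [Big T]

/-- one step: decide the values at `n` of the names in `J` -/
theorem step {K : Set (Face T)} (n : ℕ) (J : Finset (Name T))
    (hJ : ∀ y ∈ J, Nm K y) (p : Face T) (hp : p ∈ K) :
    ∃ q ∈ K, p ⊆ q ∧ ∀ y ∈ J, ∃ v, Dec q y n v := by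
  induction J using Finset.induction_on with
  | empty => exact ⟨p, hp, Finset.Subset.refl _, fun y hy => absurd hy (Finset.notMem_empty _)⟩
  | insert y J hy ih =>
    obtain ⟨q, hq, hpq, h⟩ := ih fun y' hy' => hJ y' (Finset.mem_insert_of_mem hy')
    obtain ⟨u, ⟨v, hu⟩, hqu⟩ := ((hJ y (Finset.mem_insert_self _ _)).pd n).2 q hq
    refine ⟨q ∪ u, hqu, hpq.trans Finset.subset_union_left, fun y' hy' => ?_⟩
    rcases Finset.mem_insert.1 hy' with rfl | hy'
    · exact ⟨v, u, hu, Finset.subset_union_right⟩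
    · obtain ⟨v', hv'⟩ := h y' hy'
      exact ⟨v', hv'.mono Finset.subset_union_left⟩

theorem branch {K : Set (Face T)} (J : Finset (Name T))
    (hJ : ∀ y ∈ J, Nm K y) (p : Face T) (hp : p ∈ K) :
    ∃ z : Name T → ℕ → ℕ, ∀ n, ∃ q ∈ K, p ⊆ q ∧ ∀ y ∈ J, ∀ i < n, Dec q y i (z y i) := by
  choose s hsK hs hd using fun (n : ℕ) (q : {q : Face T // q ∈ K}) => step n J hJ q.1 q.2
  let Q : ℕ → {q : Face T // q ∈ K} := fun n =>
    Nat.rec (motive := fun _ => {q : Face T // q ∈ K}) ⟨p, hp⟩ (fun n q => ⟨s n q, hsK n q⟩) n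
  have hQ : ∀ n, (Q n).1 ⊆ (Q (n + 1)).1 := fun n => hs n (Q n)
  have hQm : ∀ n m, n ≤ m → (Q n).1 ⊆ (Q m).1 := by
    intro n m h
    induction h with
    | refl => exact Finset.Subset.refl _
    | step _ ih => exact ih.trans (hQ _)
  have hQd : ∀ n, ∀ y ∈ J, ∃ v, Dec (Q (n + 1)).1 y n v := fun n => hd n (Q n)
  refine ⟨fun y n => if h : ∃ v, Dec (Q (n + 1)).1 y n v then Classical.choose h else 0,
    fun n => ⟨(Q n).1, (Q n).2, hQm 0 n (Nat.zero_le n), fun y hy i hi => ?_⟩⟩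
  have h := hQd i y hy
  simp only [dif_pos h]
  exact (Classical.choose_spec h).mono (hQm (i + 1) n hi)

end ZbrAux

theorem tZbr (T : Type) [Big T] : S_Zbr T := by
  intro K hK Yn hYc hYn
  have h1 : ∀ (p : Face T) (J : Finset (Name T)), ∃ z : Name T → ℕ → ℕ, p ∈ K →
      (∀ y ∈ J, y ∈ Yn) → ∀ n, ∃ q ∈ K, p ⊆ q ∧ ∀ y ∈ J, ∀ i < n, Dec q y i (z y i) := by
    intro p J
    by_cases h : p ∈ K ∧ ∀ y ∈ J, y ∈ Yn
    · obtain ⟨z, hz⟩ := ZbrAux.branch J (fun y hy => hYn y (h.2 y hy)) p h.1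
      exact ⟨z, fun _ _ => hz⟩
    · exact ⟨fun _ _ => 0, fun hp hJ => absurd ⟨hp, hJ⟩ h⟩
  choose z hz using h1
  let S : Set (Finset (Name T)) := {J | (J : Set (Name T)) ⊆ Yn}
  have hS : S.Countable := by
    have h2 : MapsTo (fun J : Finset (Name T) => (J : Set (Name T))) S
        {t | t.Finite ∧ t ⊆ Yn} := fun J hJ => ⟨J.finite_toSet, hJ⟩
    exact h2.countable_of_injOn Finset.coe_injective.injOn (countable_ofPred_finite_subset hYc)
  refine ⟨⋃ p ∈ K, ⋃ J ∈ S, (z p J) '' (J : Set (Name T)), ?_, ?_⟩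
  · exact hK.cnt.biUnion fun p _ => hS.biUnion fun J _ => (J.finite_toSet.image _).countable
  · intro p hp J hJ
    refine ⟨z p J, fun y hy => ?_, hz p J hp hJ⟩
    refine mem_biUnion hp (mem_biUnion (show J ∈ S from fun y hy => hJ y hy) ?_)
    exact ⟨y, hy, rfl⟩

end Pool.Agent.LZ
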