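import Pool.Agent.Lib.MP_10f401_gt.LZ.Mk
import Pool.Agent.Lib.MP_10f401_gt.LZ.Lim
import Pool.Agent.Lib.MP_10f401_gt.LZ.StmK
import Pool.Agent.Lib.MP_10f401_gt.LZ.Stm
import Pool.Agent.Lib.MP_10f401_gt.LZ.Gen
import Pool.Agent.Lib.MP_10f401_gt.LZ.Red
import Pool.Agent.Lib.MP_10f401_gt.LZ.Rep
import Pool.Agent.Lib.MP_10f401_gt.LZ.Sam
import Pool.Agent.Lib.MP_10f401_gt.LZ.Zbr
import Pool.Agent.Lib.MP_10f401_gt.LZ.Clo
import Pool.Agent.Lib.MP_10f401_gt.LZ.QD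
import Pool.Agent.Lib.MP_10f401_gt.LZ.QL
import Pool.Agent.Lib.MP_10f401_gt.LZ.QY
import Pool.Agent.Lib.MP_10f401_gt.LZ.QR
import Pool.Agent.Lib.MP_10f401_gt.LZ.Atm
import Pool.Agent.Lib.MP_10f401_gt.LZ.LvE
import Pool.Agent.Lib.MP_10f401_gt.LZ.Lkb
import Pool.Agent.Lib.MP_10f401_gt.LZ.Lkd
import Pool.Agent.Lib.MP_10f401_gt.LZ.Lks
import Pool.Agent.Lib.MP_10f401_gt.LZ.Lkr
import Pool.Agent.Lib.MP_10f401_gt.LZ.Lky
import Pool.Agent.Lib.MP_10f401_gt.LZ.Lkx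
import Pool.Agent.Lib.MP_10f401_gt.LZ.Lev
import Pool.Agent.Lib.MP_10f401_gt.LZ.Fdc
import Pool.Agent.Lib.MP_10f401_gt.LZ.Dl
import Pool.Agent.Lib.MP_10f401_gt.LZ.Ed
import Pool.Agent.Lib.MP_10f401_gt.LZ.Amb
import Pool.Agent.Lib.MP_10f401_gt.LZ.Amp
import Pool.Agent.Lib.MP_10f401_gt.LZ.Amq
import Pool.Agent.Lib.MP_10f401_gt.LZ.Aml
import Pool.Agent.Lib.MP_10f401_gt.LZ.Ams
import Pool.Agent.Lib.MP_10f401_gt.LZ.Amt
import Pool.Agent.Lib.MP_10f401_gt.LZ.Amu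
import Pool.Agent.Lib.MP_10f401_gt.LZ.Amv
import Pool.Agent.Lib.MP_10f401_gt.LZ.Amw
import Pool.Agent.Lib.MP_10f401_gt.LZ.Amx
import Pool.Agent.Lib.MP_10f401_gt.LZ.Cty
import Pool.Agent.Lib.MP_10f401_gt.LZ.Clg
import Pool.Agent.Lib.MP_10f401_gt.LZ.Chn
import Pool.Agent.Lib.MP_10f401_gt.LZ.Twn
import Pool.Agent.Lib.MP_10f401_gt.LZ.Cor
import Pool.Agent.Lib.MP_10f401_gt.LZ.Rch
import Pool.Agent.Lib.MP_10f401_gt.LZ.Fus
import Pool.Agent.Lib.MP_10f401_gt.LZ.Anw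
import Pool.Agent.Lib.MP_10f401_gt.LZ.Acv
import Pool.Agent.Lib.MP_10f401_gt.LZ.Luz
import Pool.Agent.Lib.MP_10f401_gt.LZ.Htu
import Pool.Agent.Lib.MP_10f401_gt.LZ.Pig
import Pool.Agent.Lib.MP_10f401_gt.LZ.Sta
import Pool.Agent.Lib.MP_10f401_gt.LZ.Itf
import Pool.Agent.Lib.MP_10f401_gt.LZ.Big

/-!
# Assembly of the combinatorial part: the interface exists
-/

set_option autoImplicit false

namespace Pool.Agent.LZ

section

variable (T : Type) [Big T]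

theorem zLvE : S_LvE T :=
  tLvE T (tClo T (tRed T) (tRep T) (tSam T)) (tZbr T) tGen (tQD T) (tQL T) (tQY T)
    (tQR T (tRep T) (tSam T)) (tAtm T)

theorem zStm : S_Stm T := tStm T (tMk T) (tStmK T)

theorem zLev : S_Lev T :=
  tLev T (tMk T) (zLvE T) (tLkb T) (tLkd T) (tLks T (tLkb T)) (tLkr T (tLkb T))
    (tLky T (tLkb T)) (tLkx T)

theorem zDl : S_Dl T := tDl T (tFdc T)

theorem zEd : S_Ed T := tEd T (tFdc T)

theorem zAmq : S_Amq T := tAmq T (zDl T) (zEd T) (tAmb T)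

theorem zAml : S_Aml T := tAml T (zEd T) (tAmb T) (zAmq T)

theorem zAmx : S_Amx T :=
  tAmx T (tAmb T) (tAmp T (zDl T) (zEd T) (tAmb T)) (zAml T)
    (tAms T (zEd T) (tAmb T) (zAmq T) (zAml T)) (tAmt T (zEd T) (tAmb T) (zAmq T))
    (tAmu T (zDl T) (zEd T) (tAmb T) (zAmq T)) (tAmv T (zDl T) (zEd T) (tAmb T) (zAmq T))
    (tAmw T (tFdc T) (zDl T) (zEd T) (tAmb T) (zAmq T))

theorem zTwn : S_Twn T := tTwn T (tClg T (tCty T)) (tChn T)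

theorem zCor : S_Cor T := tCor T (zTwn T) (zAmx T) (tMk T)

theorem zRch : S_Rch T := tRch T (zCor T) (zStm T)

theorem zFus : S_Fus T := tFus T (tMk T) (tLim T)

theorem zItf : S_Itf T :=
  tItf T (tAnw T) (tAcv T (tMk T) (zLev T) (zFus T)) (tLuz T (tMk T) (zLev T) (zFus T))
    (tHtu T (zStm T)) (tSta T (tPig T) (tMk T) (zStm T) (zRch T) (zFus T) (zCor T))

end

/-- the interface is provided by some set of conditions -/
theorem exists_core : ∃ (P T : Type) (_ : PartialOrder P) (_ : OrderTop P), Nonempty (Core P T) := by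
  obtain ⟨T, ⟨hT⟩⟩ := tBig
  exact ⟨Cd T, T, inferInstance, inferInstance, zItf T⟩

end Pool.Agent.LZ
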