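import Pool.Agent.Lib.MP_10f401_gt.LZ.SpecD

/-!
# Module Flz: the Luzin property is forced
-/

set_option autoImplicit false
set_option linter.unusedSectionVars false
set_option linter.unusedVariables false
set_option linter.unusedSimpArgs false

namespace Pool.Agent.LZ

open Pool.Agent.SymExt SN
open Pool.Agent.Lib.MP_820b44_gt (rn m_rn on_rn rn_sub_om sbl_iff sbl_on sbl_congr roE roA roE_iff
  roA_iff roAll_iff roImp_iff roBot_iff roE_of fN m_fN on_fN isFun_fN list_dense')

namespace FlzAux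

/-- initial segments can be decided -/
theorem exists_Ini {P : Type} [Preorder P] (y : ℕ → RO P) (n : ℕ) (p : P) :
    ∃ q ≤ p, ∃ t : List Bool, t.length = n ∧ Ini t y q := by
  induction n with
  | zero => exact ⟨p, le_rfl, [], rfl, fun i hi => absurd hi (Nat.not_lt_zero i)⟩
  | succ n ih =>
    obtain ⟨q, hq, t, ht, h⟩ := ih
    by_cases hy : ∃ r ≤ q, y n r
    · obtain ⟨r, hr, hy⟩ := hy
      refine ⟨r, hr.trans hq, t ++ [true], by simp [ht], fun i hi => ?_⟩
      rcases lt_or_eq_of_le (Nat.lt_succ_iff.1 (show i < n + 1 by simpa [ht] using hi)) with h1 | h1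
      · have h2 : i < t.length := by omega
        rw [List.getElem_append_left h2]
        exact ⟨fun h3 => (y i).mono hr ((h i h2).1 h3), fun h3 s hs => (h i h2).2 h3 s (hs.trans hr)⟩
      · subst h1
        rw [List.getElem_append_right (by omega)]
        simp [ht]
        exact hy
    · refine ⟨q, hq, t ++ [false], by simp [ht], fun i hi => ?_⟩
      rcases lt_or_eq_of_le (Nat.lt_succ_iff.1 (show i < n + 1 by simpa [ht] using hi)) with h1 | h1
      · have h2 : i < t.length := by omega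
        rw [List.getElem_append_left h2]
        exact h i h2
      · subst h1
        rw [List.getElem_append_right (by omega)]
        simp [ht]
        exact fun s hs h4 => hy ⟨s, hs, h4⟩

variable {P : Type} [PartialOrder P] [OrderTop P]

theorem nwd_iff {w N x k : VN P} {p : P} : (lg : Lg (RO P) (VN P)).lzNwd w N x k p ↔
    ∀ y n, ∀ q ≤ p, (∀ z, ∀ r ≤ q, m z y r → m z w r) → m n w q → ∀ r ≤ q, ∃ s ≤ r, ∃ y' n',
      (∀ z, ∀ u ≤ s, m z y' u → m z w u) ∧ m n' w s ∧ (∀ z, ∀ u ≤ s, m z n u → m z n' u) ∧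
      (lg : Lg (RO P) (VN P)).sbl n y y' s ∧ ∀ z, ∀ u ≤ s, m (op (op x k) z) N u → ∀ v ≤ u,
        ¬ (lg : Lg (RO P) (VN P)).sbl n' y' z v := by
  simp only [Lg.lzNwd, ro_all, ro_imp, ro_and, ro_ex2, ro_neg, ro_mem, ap2_iff, sub_iff, and_imp]

/-- the real of the ground model given by a finite sequence -/
def sq (t : List Bool) : ℕ → Bool := fun i => t.getD i false

theorem sq_lt {t : List Bool} {i : ℕ} (h : i < t.length) : sq t i = t[i] := by
  unfold sq
  rw [List.getD_eq_getElem?_getD, List.getElem?_eq_getElem h]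
  rfl

theorem Ini.iff {t : List Bool} {y : ℕ → RO P} {p : P} (h : Ini t y p) {i : ℕ}
    (hi : i < t.length) {q : P} (hq : q ≤ p) : y i q ↔ sq t i = true := by
  rw [sq_lt hi]
  cases ht : t[i] with
  | true => exact ⟨fun _ => rfl, fun _ => (y i).mono hq ((h i hi).1 ht)⟩
  | false => exact ⟨fun h1 => absurd h1 ((h i hi).2 ht q hq), fun h1 => absurd h1 (by simp)⟩

theorem cr_sub {x : ℕ → Bool} {z : VN P} {p : P} (h : m z (cr x) p) : m z (om P) p := rn_sub_om h

/-- the open sets -/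
noncomputable def O (R : VN P) (n : ℕ) (t : List Bool) : RO P :=
  RO.all fun z : VN P => RO.imp
    (roA (m (op (op (on n.unpair.1) (on n.unpair.2)) z) R)
      ((lg : Lg (RO P) (VN P)).sbl (on t.length) (cr (sq t)) z)) RO.bot

theorem O_iff {R : VN P} {n : ℕ} {t : List Bool} {p : P} : O R n t p ↔ ∀ z : VN P, ∀ q ≤ p,
    m (op (op (on n.unpair.1) (on n.unpair.2)) z) R q →
      ¬ (lg : Lg (RO P) (VN P)).sbl (on t.length) (cr (sq t)) z q := by
  unfold O
  rw [roAll_iff]
  refine forall_congr' fun z => ?_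
  rw [roImp_iff]
  refine forall_congr' fun q => forall_congr' fun _ => ?_
  rw [roA_iff, roBot_iff, and_imp]

theorem O_dense {R : VN P} {p : P} (hR : ∀ k i : VN P, ∀ q ≤ p, m k (om P) q → m i (om P) q →
    (lg : Lg (RO P) (VN P)).lzNwd (om P) R k i q) (n : ℕ) (s : List Bool) :
    ∀ q ≤ p, ∃ r ≤ q, ∃ t, s <+: t ∧ O R n t r := by
  intro q hq
  have h1 := nwd_iff.1 (hR (on n.unpair.1) (on n.unpair.2) q hq (m_on_om _ _) (m_on_om _ _))
    (cr (sq s)) (on s.length) q le_rfl (fun z r hr hz => cr_sub hz) (m_on_om _ _) q le_rfl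
  obtain ⟨r, hr, y', n', hy', hn', hsub, hsbl, hav⟩ := h1
  obtain ⟨r1, hr1, l, hl⟩ := m_om.1 hn' r le_rfl
  obtain ⟨r2, hr2, t, htl, ht⟩ := exists_Ini (rl y') l r1
  have hr2r : r2 ≤ r := hr2.trans hr1
  have hle : s.length ≤ t.length := by
    by_contra hlt
    push Not at hlt
    rw [htl] at hlt
    have h2 : m (on l) (on s.length : VN P) r1 := m_on_on.2 hlt
    have h3 := hsub (on l) r1 hr1 h2
    have h4 : m (on l) (on l : VN P) r1 := m_right hl h3
    exact absurd (m_on_on.1 h4) (lt_irrefl _)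
  have hsbl' := sbl_on.1 hsbl
  have hst : ∀ i (h : i < s.length), s[i] = t[i]'(h.trans_le hle) := by
    intro i h
    have h2 := hsbl' i h r2 hr2r
    rw [on_cr] at h2
    have h3 := Ini.iff ht (h.trans_le hle) le_rfl
    change m (on i) y' r2 ↔ _ at h3
    rw [h3, sq_lt h, sq_lt (h.trans_le hle)] at h2
    exact Bool.eq_iff_iff.2 h2
  refine ⟨r2, hr2r.trans hr, t, ?_, ?_⟩
  · rw [List.prefix_iff_eq_take]
    apply List.ext_getElem
    · simp [hle]
    · intro i h1 h2
      rw [hst i h1, List.getElem_take]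
  · rw [O_iff]
    intro z u hu hz hs
    refine hav z u (hu.trans hr2r) hz u le_rfl ?_
    have h2 : (lg : Lg (RO P) (VN P)).sbl (on l) y' z u := by
      rw [sbl_on]
      intro k hk v hv
      have h3 := sbl_on.1 hs k (by omega) v hv
      rw [on_cr] at h3
      have h4 := Ini.iff ht (show k < t.length by omega) (hv.trans hu)
      change m (on k) y' v ↔ _ at h4
      rw [h4, h3]
    exact sbl_congr (e_symm (RO.mono _ (hu.trans hr2) hl)) (e_refl _ _) (e_refl _ _) h2

end FlzAux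

open FlzAux in
theorem tFlz : S_Flz := by
  intro P T _ _ K p
  simp only [Lg.lzLuz, ro_all, ro_imp, ro_and, ro_ex2, ro_neg, ro_mem, ro_eq, ap2_iff, app_iff,
    and_imp]
  intro R q0 _ hR q1 hq1
  obtain ⟨q2, hq2, C, hC, hC1, x0, hx0, hx0'⟩ := K.luz q1 (O R)
    (O_dense fun k i q hq => hR k i q (hq.trans hq1))
  obtain ⟨g, hg⟩ := Set.countable_iff_exists_injOn.1 hC
  refine ⟨q2, hq2, fnm (fun x : C => on (g x)) (fun x : C => cr x), cr x0, ?_, ?_, ?_, ?_, ?_⟩
  · intro k c s _ h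
    refine m_om.2 fun r hr => ?_
    obtain ⟨u, hu, x, hx, _⟩ := m_op_fnm.1 h r hr
    exact ⟨u, hu, g x, hx⟩
  · intro k c c' s _ h h'
    refine RO.dense _ fun r hr => ?_
    obtain ⟨u, hu, x, hx, hx'⟩ := m_op_fnm.1 h r hr
    obtain ⟨v, hv, y, hy, hy'⟩ := m_op_fnm.1 h' u (hu.trans hr)
    have h1 : g x = g y := rig_on _ _ _ (e_trans (e_symm (RO.mono _ hv hx)) hy)
    have h2 : x = y := Subtype.ext (hg x.2 y.2 h1)
    subst h2
    exact ⟨v, hv.trans hu, e_trans (RO.mono _ hv hx') (e_symm hy')⟩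
  · exact (cr_XN K).2 hx0'
  · intro k s _ h
    obtain ⟨u, hu, x, _, hx⟩ := m_op_fnm.1 h s le_rfl
    have h1 : x0 = x := rig_cr _ _ _ hx
    exact hx0 (h1 ▸ x.2)
  · intro z s hs hz hno k i u hu hk hi v hv hR'
    obtain ⟨r1, hr1, x, hx, hzx⟩ := (m_XN K).1 hz v (hv.trans hu)
    have hxC : x ∉ C := by
      intro hxC
      refine hno (on (g x)) r1 (hr1.trans (hv.trans hu)) (m_op_fnm.2 fun r hr => ?_)
      exact ⟨r, le_rfl, ⟨x, hxC⟩, e_refl _ _, RO.mono _ hr hzx⟩
    obtain ⟨r2, hr2, k', hk'⟩ := m_om.1 hk r1 (hr1.trans hv)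
    obtain ⟨r3, hr3, i', hi'⟩ := m_om.1 hi r2 (hr2.trans (hr1.trans hv))
    have h31 : r3 ≤ r1 := hr3.trans hr2
    have h3s : r3 ≤ s := h31.trans (hr1.trans (hv.trans hu))
    obtain ⟨r4, hr4, t, hseg, hO⟩ := hC1 x hxC r3 (h3s.trans hs) ((K.X x).mono h31 hx)
      (Nat.pair k' i') r3 le_rfl
    refine O_iff.1 hO (cr x) r4 le_rfl ?_ ?_
    · rw [Nat.unpair_pair]
      refine m_left (op_congr (op_congr (RO.mono _ (hr4.trans hr3) hk') (RO.mono _ hr4 hi'))
        (RO.mono _ (hr4.trans h31) hzx)) (RO.mono _ (hr4.trans (h31.trans hr1)) hR')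
    · rw [sbl_on]
      intro j hj w _
      rw [on_cr, on_cr, sq_lt hj]
      have h1 : t[j] = x j := by
        have h2 : ∀ (t' : List Bool) (h : j < t'.length), t = t' → t[j] = t'[j] := by
          intro t' h e
          subst e
          rfl
        rw [h2 _ (by simpa using hj) hseg]
        simp
      rw [h1]

end Pool.Agent.LZ
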