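import Pool.Agent.Lib.MP_10f401_gt.LZ.SpecD

/-!
# Forced: `X` is a set of reals
-/

set_option autoImplicit false

namespace Pool.Agent.LZ

open Pool.Agent.SymExt SN
open Pool.Agent.Lib.MP_820b44_gt (rn m_rn on_rn rn_sub_om sbl_iff sbl_on sbl_congr roE roA roE_iff
  roA_iff roAll_iff roImp_iff roBot_iff roE_of fN m_fN on_fN isFun_fN list_dense')

theorem tFrl : S_Frl := by
  intro P T _ _ K p
  simp only [Lg.rls, ro_all, ro_imp, ro_mem, sub_iff]
  intro x q hq hx z r hr hz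
  refine RO.dense _ fun s hs => ?_
  obtain ⟨t, ht, y, -, hy⟩ := (m_XN K).1 hx s (hs.trans hr)
  exact ⟨t, ht, rn_sub_om (m_right hy (RO.mono _ (ht.trans hs) hz))⟩

end Pool.Agent.LZ
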