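import Pool.Agent.Lib.MP_10f401_gt.LZ.SpecD

/-!
# FST: the main property of the functions is forced
-/

set_option autoImplicit false
set_option linter.unusedSectionVars false
set_option linter.unusedVariables false
set_option linter.unusedSimpArgs false

namespace Pool.Agent.LZ

open Pool.Agent.SymExt SN
open Pool.Agent.Lib.MP_820b44_gt (rn m_rn on_rn rn_sub_om sbl_iff sbl_on sbl_congr roE roA roE_iff
  roA_iff roAll_iff roImp_iff roBot_iff roE_of fN m_fN on_fN isFun_fN list_dense')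

namespace FstAux

variable {P : Type} [PartialOrder P] [OrderTop P]

theorem isFun_e {f g A B : VN P} {p : P} (h : e f g p) (hg : lg.isFun g A B p) :
    lg.isFun f A B p := by
  rw [isFun_iff] at hg ⊢
  obtain ⟨h1, h2, h3⟩ := hg
  refine ⟨fun z q hq hz r hr => h1 z q hq (m_right (RO.mono _ hq h) hz) r hr,
    fun x q hq hx r hr => ?_, fun x y y' q hq hy hy' => h3 x y y' q hq
      (m_right (RO.mono _ hq h) hy) (m_right (RO.mono _ hq h) hy')⟩
  obtain ⟨s, hs, y, hy⟩ := h2 x q hq hx r hr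
  exact ⟨s, hs, y, m_right (e_symm (RO.mono _ (hs.trans (hr.trans hq)) h)) hy⟩

/-- a number which is at most the value `a'` -/
theorem le_of {v a : VN P} {v' a' : ℕ} {p : P} (hv : e v (on v') p) (ha : e a (on a') p)
    (h : v' ≤ a') : m v a p ∨ e v a p := by
  rcases h.lt_or_eq with h | h
  · left
    exact m_left (e_symm hv) (m_right (e_symm ha) (m_on_on.2 h))
  · right
    subst h
    exact e_trans hv (e_symm ha)

end FstAux

open FstAux

theorem tFst : S_Fst := by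
  intro P T _ _ K p
  simp only [Lg.lzStar, Lg.lzLe, ro_all, ro_imp, ro_and, ro_ex, ro_or, ro_mem, ro_eq, app_iff,
    ap2_iff, and_imp]
  refine ⟨fun h q hq hh => RO.dense _ fun r hr => ?_, ?_⟩
  · obtain ⟨s, hs, t, ht⟩ := (m_HN K).1 hh r hr
    exact ⟨s, hs, isFun_e ht (isFun_fN (fun n k k' q _ h1 h2 => K.h_uni t n k k' q h1 h2)
      (fun n q _ => K.h_tot t n q))⟩
  intro J G q hq hJ hG1 hG2 q1 hq1
  have hJ' := isFun_iff.1 hJ
  -- values of `J` are in `X`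
  have hval : ∀ (t : T) (y : VN P), ∀ r ≤ q, m (op (fN (K.h t)) y) J r →
      ∃ s ≤ r, ∃ x, K.X x s ∧ e y (cr x) s := by
    intro t y r hr h
    obtain ⟨s, hs, a, b, _, hb, hab⟩ := hJ'.1 _ r hr h r le_rfl
    obtain ⟨_, h2⟩ := op_inj hab
    obtain ⟨s', hs', x, hx, hbx⟩ := (m_XN K).1 hb s le_rfl
    exact ⟨s', hs'.trans hs, x, hx, e_trans (RO.mono _ hs' h2) hbx⟩
  have hX : ∀ (t : T) (x : ℕ → Bool), ∀ r ≤ q, m (op (fN (K.h t)) (cr x)) J r → K.X x r := by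
    intro t x r hr h
    refine (K.X x).dense fun r' hr' => ?_
    obtain ⟨s, hs, x', hx', he⟩ := hval t _ r' (hr'.trans hr) (RO.mono _ hr' h)
    have := rig_cr _ _ _ he
    subst this
    exact ⟨s, hs, hx'⟩
  have hGt : ∀ (t : T) (x : ℕ → Bool), ∀ r ≤ q, m (op (fN (K.h t)) (cr x)) J r → ∀ n : ℕ,
      ∃ s ≤ r, ∃ v : ℕ, K.X x s ∧ m (op (op (cr x) (on n)) (on v)) G s := by
    intro t x r hr h n
    have hx := hX t x r hr h
    obtain ⟨s, hs, v, hv, hv'⟩ := hG1 (cr x) (on n) r hr ((cr_XN K).2 hx) (m_on_om n r) r le_rfl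
    obtain ⟨s', hs', k, hk⟩ := m_om.1 hv s le_rfl
    exact ⟨s', hs'.trans hs, k, (K.X x).mono (hs'.trans hs) hx,
      m_left (op_congr (e_refl _ _) hk) (RO.mono _ hs' hv')⟩
  obtain ⟨q', hq', t, t', x, htt, hJx, hJx', k, hk⟩ := K.star q1
    (fun t x => m (op (fN (K.h t)) (cr x)) J)
    (fun x n v => roA (K.X x) (m (op (op (cr x) (on n)) (on v)) G))
    (by
      intro t r hr
      have hrq : r ≤ q := hr.trans hq1
      obtain ⟨s, hs, y, hy⟩ := hJ'.2.1 (fN (K.h t)) r hrq (HN_self K t r) r le_rfl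
      obtain ⟨s', hs', x, hx, hyx⟩ := hval t y s (hs.trans hrq) hy
      exact ⟨s', hs'.trans hs, x, m_left (op_congr (e_refl _ _) hyx) (RO.mono _ hs' hy)⟩)
    (by
      intro t x r hr h n
      exact hGt t x r (hr.trans hq1) h n)
    (by
      intro x n v v' r hr h h'
      exact rig_on _ _ _ (hG2 (cr x) (on n) (on v) (on v') r (hr.trans hq1) h.2 h'.2))
  have hq'q : q' ≤ q := hq'.trans hq1
  refine ⟨q', hq', fN (K.h t), fun r hr => ⟨r, le_rfl, fN (K.h t'), fun r2 hr2 =>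
    ⟨r2, le_rfl, cr x, ?_, ?_, ?_, ?_, ?_⟩⟩⟩
  · exact HN_self K t r2
  · exact HN_self K t' r2
  · exact RO.mono _ (hr2.trans hr) hJx
  · exact RO.mono _ (hr2.trans hr) hJx'
  intro r3 hr3
  refine ⟨r3, le_rfl, on k, m_on_om k r3, ?_⟩
  intro n a b v r4 hr4 hn hkn ha hb hv u hu
  have hr4' : r4 ≤ q' := hr4.trans (hr3.trans (hr2.trans hr))
  obtain ⟨u1, hu1, n', hn'⟩ := m_om.1 hn u hu
  obtain ⟨u2, hu2, n1, a', hta, hn1, ha'⟩ := m_fN.1 ha u1 (hu1.trans hu)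
  have h1 := rig_on _ _ _ (e_trans (e_symm (RO.mono _ hu2 hn')) hn1)
  subst h1
  obtain ⟨u3, hu3, n2, b', htb, hn2, hb'⟩ := m_fN.1 hb u2 (hu2.trans (hu1.trans hu))
  have h2 := rig_on _ _ _ (e_trans (e_symm (RO.mono _ (hu3.trans hu2) hn')) hn2)
  subst h2
  obtain ⟨u4, hu4, h4⟩ := hkn u3 (hu3.trans (hu2.trans (hu1.trans hu)))
  have hu41 : u4 ≤ u1 := hu4.trans (hu3.trans hu2)
  have hkn' : k ≤ n' := by
    rcases h4 with h4 | h4
    · exact (m_on_on.1 (m_right (RO.mono _ hu41 hn') h4)).le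
    · exact (rig_on _ _ _ (e_trans h4 (RO.mono _ hu41 hn'))).le
  have hu4r : u4 ≤ r4 := hu41.trans (hu1.trans hu)
  have hu4q' : u4 ≤ q' := hu4r.trans hr4'
  obtain ⟨u5, hu5, v', hx5, hv'⟩ := hGt t x u4 (hu4q'.trans hq'q) (RO.mono _ hu4q' hJx) n'
  have hv5 : m (op (op (cr x) (on n')) v) G u5 := m_left
    (op_congr (op_congr (e_refl _ _) (RO.mono _ (hu5.trans hu41) hn')) (e_refl _ _))
    (RO.mono _ (hu5.trans hu4r) hv)
  have hvv : e v (on v') u5 := hG2 (cr x) (on n') v (on v') u5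
    (hu5.trans (hu4q'.trans hq'q)) hv5 hv'
  have hle := hk n' hkn' u5 (hu5.trans hu4q') a' b' v'
    ((K.h t n' a').mono (hu5.trans (hu4.trans hu3)) hta)
    ((K.h t' n' b').mono (hu5.trans hu4) htb) ⟨hx5, hv'⟩
  refine ⟨u5, hu5.trans (hu41.trans hu1), ?_⟩
  rcases le_max_iff.1 hle with h5 | h5
  · left
    intro w hw
    exact ⟨w, le_rfl, le_of (RO.mono _ hw hvv)
      (RO.mono _ (hw.trans (hu5.trans (hu4.trans hu3))) ha') h5⟩
  · right
    intro w hw
    exact ⟨w, le_rfl, le_of (RO.mono _ hw hvv) (RO.mono _ (hw.trans (hu5.trans hu4)) hb') h5⟩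

end Pool.Agent.LZ
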