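import Pool.Agent.Lib.MP_10f401_gt.LZ.SpecD

/-!
# MAC: choice functions inside a model (helper78)
-/

set_option autoImplicit false

namespace Pool.Agent.LZ

open Pool.Agent.ZF Pool.Agent.Lib.MP_1929a6_lc Pool.Agent.Lib.MP_1ab623_gt
open Pool.Agent.Lib.MP_820b44_gt Pool.Agent.Lib.MP_10f401_gt.Mdl

namespace MacAux

/-- the pairs of `R` with the first component `a` -/
noncomputable def S {M : Type} [Model M] (A B R a : M) : M :=
  sep (prod A B) (fun z => fst z = a ∧ z ∈ R)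

theorem mem_S {M : Type} [Model M] {A B R a z : M} :
    z ∈ S A B R a ↔ z ∈ prod A B ∧ fst z = a ∧ z ∈ R := mem_sep

theorem pr_mem_S {M : Type} [Model M] {A B R a x y : M} :
    pr x y ∈ S A B R a ↔ (x ∈ A ∧ y ∈ B) ∧ x = a ∧ pr x y ∈ R := by
  rw [mem_S, pr_mem_prod, fst_pr]

end MacAux

open MacAux

theorem tMac : S_Mac := by
  intro M _ hch A B R hR
  have hF : ∀ x : M, x ∈ img (fun a => S A B R a) A ↔ ∃ a, a ∈ A ∧ x = S A B R a := by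
    intro x
    have : Ft₁ (fun a : M => S A B R a) := by
      unfold S
      infer_instance
    exact mem_img
  obtain ⟨C, hC⟩ := hch (img (fun a => S A B R a) A) (by
    intro x hx
    obtain ⟨a, ha, rfl⟩ := (hF x).1 hx
    obtain ⟨b, hb, hab⟩ := hR a ha
    exact ⟨pr a b, pr_mem_S.2 ⟨⟨ha, hb⟩, rfl, hab⟩⟩) (by
    intro x y t hx hy htx hty
    obtain ⟨a, _, rfl⟩ := (hF x).1 hx
    obtain ⟨a', _, rfl⟩ := (hF y).1 hy
    have h1 : fst t = a := (mem_S.1 htx).2.1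
    have h2 : fst t = a' := (mem_S.1 hty).2.1
    rw [← h1, ← h2])
  have hC' : ∀ a, a ∈ A → ∃! t, t ∈ C ∧ t ∈ S A B R a := fun a ha => hC _ ((hF _).2 ⟨a, ha, rfl⟩)
  have hf : ∀ z : M, z ∈ sep (prod A B) (fun z => z ∈ C ∧ z ∈ R) ↔
      z ∈ prod A B ∧ z ∈ C ∧ z ∈ R := fun z => mem_sep
  obtain ⟨f, hfd⟩ : ∃ f : M, f = sep (prod A B) (fun z => z ∈ C ∧ z ∈ R) := ⟨_, rfl⟩
  rw [← hfd] at hf
  have hfn : IsFn f := by
    refine ⟨fun p hp => ?_, fun x y y' h h' => ?_⟩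
    · obtain ⟨x, _, y, _, h⟩ := mem_prod.1 ((hf p).1 hp).1
      exact ⟨x, y, h⟩
    · obtain ⟨h1, h2, h3⟩ := (hf _).1 h
      obtain ⟨h1', h2', h3'⟩ := (hf _).1 h'
      obtain ⟨t, _, ht⟩ := hC' x (pr_mem_prod.1 h1).1
      have e1 := ht (pr x y) ⟨h2, pr_mem_S.2 ⟨pr_mem_prod.1 h1, rfl, h3⟩⟩
      have e2 := ht (pr x y') ⟨h2', pr_mem_S.2 ⟨pr_mem_prod.1 h1', rfl, h3'⟩⟩
      exact (pr_inj.1 (e1.trans e2.symm)).2
  have hdom : dom f = A := by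
    refine ext' fun x => ?_
    rw [mem_dom]
    constructor
    · rintro ⟨y, hy⟩
      exact (pr_mem_prod.1 ((hf _).1 hy).1).1
    · intro hx
      obtain ⟨t, ⟨ht1, ht2⟩, _⟩ := hC' x hx
      obtain ⟨h1, h2, h3⟩ := mem_S.1 ht2
      obtain ⟨x', _, y, _, rfl⟩ := mem_prod.1 h1
      rw [fst_pr] at h2
      subst h2
      exact ⟨y, (hf _).2 ⟨h1, ht1, h3⟩⟩
  refine ⟨f, hfn, hdom, fun a ha => ?_⟩
  have h1 : pr a (app f a) ∈ f := hfn.app_mem (by rw [hdom]; exact ha)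
  obtain ⟨h2, _, h3⟩ := (hf _).1 h1
  exact ⟨(pr_mem_prod.1 h2).2, h3⟩

end Pool.Agent.LZ
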