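import Pool.Agent.Lib.MP_10f401_gt.LZ.SpecD

/-!
# Module Mlg: inside `M`, the set `X` is large
-/

set_option autoImplicit false

universe u

namespace Pool.Agent.LZ

open Pool.Agent.ZF Pool.Agent.Lib.MP_1929a6_lc Pool.Agent.Lib.MP_1ab623_gt
open Pool.Agent.Lib.MP_820b44_gt Pool.Agent.Lib.MP_10f401_gt.Mdl

theorem tMlg : S_Mlg := by
  intro M _ X N B H hC hL
  have key : ∀ a S : M, Maps (Model.E (M := M))
      (gr (fun x => sep (pow om) (fun y => ∃ k, k ∈ (om : M) ∧ pr (pr x k) y ∈ N)) X) a S →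
      a ∈ X ∧ S = sep (pow om) (fun y => ∃ k, k ∈ (om : M) ∧ pr (pr a k) y ∈ N) := by
    intro a S h
    exact pr_mem_gr.1 (maps_iff.1 h)
  obtain ⟨y, hy, hy2⟩ := hL
    (gr (fun x => sep (pow om) (fun y => ∃ k, k ∈ (om : M) ∧ pr (pr x k) y ∈ N)) X)
    (pow (pow om)) (isFunction_iff.2 ⟨gr_isFn, dom_gr, fun x hx => by
      rw [app_gr hx, mem_pow]
      intro z hz
      exact (mem_sep.1 hz).1⟩) (by
      intro a S h
      obtain ⟨ha, rfl⟩ := key a S h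
      refine ⟨fun z hz => mem_pow.1 (mem_sep.1 hz).1,
        gr (fun k => sep (pow om) (fun y => pr (pr a k) y ∈ N)) om, pow (pow om),
        isFunction_iff.2 ⟨gr_isFn, dom_gr, fun x hx => ?_⟩, ?_, ?_⟩
      · rw [app_gr hx, mem_pow]
        intro z hz
        exact (mem_sep.1 hz).1
      · intro k R hk
        obtain ⟨hk1, rfl⟩ := pr_mem_gr.1 (maps_iff.1 hk)
        intro y n hy hn
        obtain ⟨y', n', h1, h2, h3, h4, h5⟩ := hC.nwd a k ha hk1 y n hy hn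
        exact ⟨y', n', h1, h2, h3, h4, fun z hz => h5 z (mem_sep.1 hz).2⟩
      · intro z hz
        obtain ⟨hz1, k, hk, hz2⟩ := mem_sep.1 hz
        exact ⟨k, _, maps_iff.2 (pr_mem_gr.2 ⟨hk, rfl⟩), mem_sep.2 ⟨hz1, hz2⟩⟩)
  obtain ⟨x, k, hx, hk, hN⟩ := hC.cov y hy
  exact hy2 x _ (maps_iff.2 (pr_mem_gr.2 ⟨hx, rfl⟩))
    (mem_sep.2 ⟨mem_pow.2 hy, k, hk, hN⟩)

end Pool.Agent.LZ

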