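import Pool.Agent.Lib.MP_10f401_gt.LZ.SpecD

/-!
# Inside a model: reduction of the Menger property of `X × Y` to increasing covers
-/

set_option autoImplicit false
set_option linter.unusedSectionVars false
set_option linter.unusedVariables false

namespace Pool.Agent.LZ

open Pool.Agent.ZF Pool.Agent.Lib.MP_1929a6_lc Pool.Agent.Lib.MP_1ab623_gt
open Pool.Agent.Lib.MP_820b44_gt Pool.Agent.Lib.MP_10f401_gt.Mdl

namespace MnfAux

variable {M : Type} [Model M]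

/-- the basic open set with the numbers `j`, `j'` -/
noncomputable def Bx (D B j j' : M) : M := sep D (fun p => pr j (fst p) ∈ B ∧ pr j' (snd p) ∈ B)

instance : Ft₄ (Bx : M → M → M → M → M) := by unfold Bx; infer_instance

theorem mem_Bx {D B j j' x y : M} : pr x y ∈ Bx D B j j' ↔ pr x y ∈ D ∧ pr j x ∈ B ∧ pr j' y ∈ B := by
  unfold Bx
  rw [mem_sep, fst_pr, snd_pr]

/-- the increasing covers -/
noncomputable def OO (D B u : M) : M := sep (prod (prod om om) D) (fun z => ∃ j, j ∈ snd (fst z) ∧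
  ∃ j', j' ∈ snd (fst z) ∧ snd z ∈ Bx D B j j' ∧
    ∃ V, V ∈ app u (fst (fst z)) ∧ Bx D B j j' ⊆ V)

theorem mem_OO {D B u n m p : M} : pr (pr n m) p ∈ OO D B u ↔ (n ∈ (om : M) ∧ m ∈ (om : M)) ∧
    ∃ j, j ∈ m ∧ ∃ j', j' ∈ m ∧ p ∈ Bx D B j j' ∧ ∃ V, V ∈ app u n ∧ Bx D B j j' ⊆ V := by
  unfold OO
  rw [mem_sep, pr_mem_prod, pr_mem_prod, fst_pr, snd_pr, fst_pr, snd_pr]
  constructor
  · rintro ⟨⟨h1, h2⟩, h3⟩
    exact ⟨h1, h3⟩
  · rintro ⟨h1, h3⟩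
    obtain ⟨j, hj, j', hj', hp, h4⟩ := h3
    exact ⟨⟨h1, (mem_sep.1 hp).1⟩, j, hj, j', hj', hp, h4⟩

theorem agree_mono {a b x y : M} (hb : b ∈ (om : M)) (h : a ∈ b ∨ a = b)
    (hxy : AgreeBelow (Model.E (M := M)) b x y) : AgreeBelow (Model.E (M := M)) a x y := by
  intro k hk
  rcases h with h | rfl
  · exact hxy k (om_trans hb h hk)
  · exact hxy k hk

/-- two natural numbers have an upper bound, in the sense of `∈` -/
theorem exists_gt {a b : M} (ha : a ∈ (om : M)) (hb : b ∈ (om : M)) :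
    ∃ m, m ∈ (om : M) ∧ a ∈ m ∧ b ∈ m := by
  rcases om_total ha hb with h | h | h
  · exact ⟨succ b, succ_mem_om hb, mem_succ.2 (Or.inr h), mem_succ.2 (Or.inl rfl)⟩
  · exact ⟨succ b, succ_mem_om hb, mem_succ.2 (Or.inl h), mem_succ.2 (Or.inl rfl)⟩
  · exact ⟨succ a, succ_mem_om ha, mem_succ.2 (Or.inl rfl), mem_succ.2 (Or.inr h)⟩

end MnfAux

open MnfAux

theorem tMnf : S_Mnf := by
  intro mac M _ hCh X N B H Y D hMC hY hD hred u U₀ hu hcov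
  obtain ⟨huf, hud, _⟩ := isFunction_iff.1 hu
  have hc : ∀ n, n ∈ (om : M) → IsCover (Model.E (M := M))
      (IsOpenSubsetOfProduct (Model.E (M := M)) om X Y D) D (app u n) := by
    intro n hn
    refine hcov n (app u n) (maps_iff.2 (huf.app_mem ?_))
    rw [hud]
    exact hn
  have hDp : ∀ x y, x ∈ X → y ∈ Y → pr x y ∈ D := fun x y hx hy => (hD _).2 ⟨x, y, hx, hy, rfl⟩
  have hDr : ∀ x y, pr x y ∈ D → x ∈ X ∧ y ∈ Y := by
    intro x y h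
    obtain ⟨x', y', hx, hy, he⟩ := (hD _).1 h
    obtain ⟨rfl, rfl⟩ := pr_inj.1 he
    exact ⟨hx, hy⟩
  -- the covers
  have hO1 : ∀ n x y, n ∈ (om : M) → x ∈ X → y ∈ Y → ∃ m, m ∈ (om : M) ∧
      pr (pr n m) (pr x y) ∈ OO D B u := by
    intro n x y hn hx hy
    obtain ⟨V, hV, hpV⟩ := (hc n hn).covers (pr x y) (hDp x y hx hy)
    obtain ⟨hV1, hV2⟩ := (hc n hn).isOpen V hV
    obtain ⟨k, hk, h1⟩ := hV2 x y (maps_iff.2 hpV)
    obtain ⟨j, hj, hjx, hj2⟩ := hMC.bas₁ x k (hMC.rls x hx) hk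
    obtain ⟨j', hj', hjy, hj2'⟩ := hMC.bas₁ y k (hY y hy) hk
    obtain ⟨m, hm, hjm, hjm'⟩ := exists_gt hj hj'
    refine ⟨m, hm, mem_OO.2 ⟨⟨hn, hm⟩, j, hjm, j', hjm', mem_Bx.2 ⟨hDp x y hx hy, hjx, hjy⟩,
      V, hV, ?_⟩⟩
    intro p hp
    obtain ⟨x', y', hx', hy', rfl⟩ := (hD p).1 (mem_sep.1 hp).1
    rw [mem_Bx] at hp
    exact maps_iff.1 (h1 x' y' hx' hy' (hj2 x' hp.2.1) (hj2' y' hp.2.2))
  have hO2 : ∀ n m m' x y, n ∈ (om : M) → m ∈ (om : M) → m' ∈ (om : M) → m ⊆ m' → x ∈ X →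
      y ∈ Y → pr (pr n m) (pr x y) ∈ OO D B u → pr (pr n m') (pr x y) ∈ OO D B u := by
    intro n m m' x y hn hm hm' hmm hx hy h
    obtain ⟨_, j, hj, j', hj', h2⟩ := mem_OO.1 h
    exact mem_OO.2 ⟨⟨hn, hm'⟩, j, hmm j hj, j', hmm j' hj', h2⟩
  have hO3 : ∀ n m x y, n ∈ (om : M) → m ∈ (om : M) → x ∈ X → y ∈ Y →
      pr (pr n m) (pr x y) ∈ OO D B u →
      ∃ k, k ∈ (om : M) ∧ ∀ x' y', x' ∈ X → y' ∈ Y → AgreeBelow (Model.E (M := M)) k x x' →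
        AgreeBelow (Model.E (M := M)) k y y' → pr (pr n m) (pr x' y') ∈ OO D B u := by
    intro n m x y hn hm hx hy h
    obtain ⟨_, j, hj, j', hj', hp, h2⟩ := mem_OO.1 h
    rw [mem_Bx] at hp
    obtain ⟨_, k, hk, hk2⟩ := hMC.bas₂ j x hp.2.1
    obtain ⟨_, k', hk', hk2'⟩ := hMC.bas₂ j' y hp.2.2
    obtain ⟨l, hl, hkl, hkl'⟩ := exists_gt hk hk'
    refine ⟨l, hl, fun x' y' hx' hy' ha ha' => mem_OO.2 ⟨⟨hn, hm⟩, j, hj, j', hj',
      mem_Bx.2 ⟨hDp x' y' hx' hy', ?_, ?_⟩, h2⟩⟩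
    · exact hk2 x' (hMC.rls x' hx') (agree_mono hl (Or.inl hkl) ha)
    · exact hk2' y' (hY y' hy') (agree_mono hl (Or.inl hkl') ha')
  obtain ⟨h, hh, hhd, hho, hhc⟩ := hred (OO D B u) hO1 hO2 hO3
  -- the choice of the sets
  obtain ⟨f, hf, hfd, hf2⟩ := mac M hCh
    (sep (prod om (prod om om)) (fun a => ∃ V, V ∈ app u (fst a) ∧
      Bx D B (fst (snd a)) (snd (snd a)) ⊆ V))
    (sUn (ran u))
    (sep (prod (prod om (prod om om)) (sUn (ran u))) (fun z => snd z ∈ app u (fst (fst z)) ∧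
      Bx D B (fst (snd (fst z))) (snd (snd (fst z))) ⊆ snd z)) (by
    intro a ha
    obtain ⟨ha1, V, hV, hV2⟩ := mem_sep.1 ha
    have hfa : fst a ∈ (om : M) := by
      obtain ⟨n, hn, q, _, rfl⟩ := mem_prod.1 ha1
      rw [fst_pr]
      exact hn
    have hVr : V ∈ sUn (ran u) := by
      rw [mem_sUn]
      refine ⟨app u (fst a), mem_ran.2 ⟨fst a, huf.app_mem ?_⟩, hV⟩
      rw [hud]
      exact hfa
    refine ⟨V, hVr, mem_sep.2 ⟨pr_mem_prod.2 ⟨ha1, hVr⟩, ?_⟩⟩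
    rw [fst_pr, snd_pr]
    exact ⟨hV, hV2⟩)
  have hf3 : ∀ n j j', n ∈ (om : M) → j ∈ (om : M) → j' ∈ (om : M) →
      (∃ V, V ∈ app u n ∧ Bx D B j j' ⊆ V) →
      app f (pr n (pr j j')) ∈ app u n ∧ Bx D B j j' ⊆ app f (pr n (pr j j')) := by
    intro n j j' hn hj hj' hV
    have h1 : pr n (pr j j') ∈ sep (prod (om : M) (prod om om)) (fun a => ∃ V, V ∈ app u (fst a) ∧
        Bx D B (fst (snd a)) (snd (snd a)) ⊆ V) := by
      rw [mem_sep, pr_mem_prod, pr_mem_prod, fst_pr, snd_pr, fst_pr, snd_pr]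
      exact ⟨⟨hn, hj, hj'⟩, hV⟩
    have h2 := (mem_sep.1 (hf2 _ h1).2).2
    rw [fst_pr, snd_pr, fst_pr, snd_pr, fst_pr, snd_pr] at h2
    exact h2
  -- the selection
  have hhm : ∀ n j, n ∈ (om : M) → j ∈ app h n → j ∈ (om : M) :=
    fun n j hn hj => mem_om_of_mem (hho n hn) hj
  refine ⟨gr (fun n => img (fun a => app f (pr n a)) (sep (prod (app h n) (app h n))
      (fun a => ∃ V, V ∈ app u n ∧ Bx D B (fst a) (snd a) ⊆ V))) om,
    ran (gr (fun n => img (fun a => app f (pr n a)) (sep (prod (app h n) (app h n))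
      (fun a => ∃ V, V ∈ app u n ∧ Bx D B (fst a) (snd a) ⊆ V))) om),
    isFunction_iff.2 ⟨gr_isFn, dom_gr, fun n hn => ?_⟩, fun n C F hnC hnF => ?_, fun p hp => ?_⟩
  · rw [mem_ran, app_gr hn]
    exact ⟨n, pr_mem_gr.2 ⟨hn, rfl⟩⟩
  · rw [maps_iff, pr_mem_gr] at hnF
    obtain ⟨hn, rfl⟩ := hnF
    rw [maps_iff] at hnC
    have hC : app u n = C := huf.app_eq hnC
    subst hC
    refine ⟨fun V hV => ?_, finiteSet_iff.2 (KFin.img _ ?_)⟩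
    · obtain ⟨a, ha, rfl⟩ := mem_img.1 hV
      obtain ⟨ha1, ha2⟩ := mem_sep.1 ha
      obtain ⟨j, hj, j', hj', rfl⟩ := mem_prod.1 ha1
      rw [fst_pr, snd_pr] at ha2
      exact (hf3 n j j' hn (hhm n j hn hj) (hhm n j' hn hj') ha2).1
    · exact (KFin.prod (KFin.of_mem_om (hho n hn)) (KFin.of_mem_om (hho n hn))).subset
        fun z hz => (mem_sep.1 hz).1
  · obtain ⟨x, y, hx, hy, rfl⟩ := (hD p).1 hp
    obtain ⟨n, hn, h1⟩ := hhc x y hx hy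
    obtain ⟨_, j, hj, j', hj', hb, hV⟩ := mem_OO.1 h1
    have h2 := hf3 n j j' hn (hhm n j hn hj) (hhm n j' hn hj') hV
    refine ⟨n, _, app f (pr n (pr j j')), maps_iff.2 (pr_mem_gr.2 ⟨hn, rfl⟩), ?_,
      h2.2 (pr x y) hb⟩
    refine mem_img.2 ⟨pr j j', mem_sep.2 ⟨pr_mem_prod.2 ⟨hj, hj'⟩, ?_⟩, rfl⟩
    rw [fst_pr, snd_pr]
    exact hV

end Pool.Agent.LZ
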