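import Pool.Agent.Lib.MP_10f401_gt.LZ.SpecD

/-!
# MPR: the product theorem
-/

set_option autoImplicit false

universe u

namespace Pool.Agent.LZ

open Pool.Agent.ZF Pool.Agent.Lib.MP_1929a6_lc Pool.Agent.Lib.MP_1ab623_gt
open Pool.Agent.Lib.MP_820b44_gt Pool.Agent.Lib.MP_10f401_gt.Mdl

namespace MprAux

variable {M : Type} [Model M]

theorem le_sub {v a : M} (ha : a ∈ (om : M)) (h : v ∈ a ∨ v = a) : v ⊆ a := by
  rcases h with h | rfl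
  · exact fun z hz => om_trans ha h hz
  · exact sub_refl' v

theorem exists_max {a b : M} (ha : a ∈ (om : M)) (hb : b ∈ (om : M)) :
    ∃ n, n ∈ (om : M) ∧ a ⊆ n ∧ b ⊆ n := by
  rcases om_total ha hb with h | h | h
  · exact ⟨b, hb, le_sub hb (Or.inl h), sub_refl' b⟩
  · exact ⟨b, hb, le_sub hb (Or.inr h), sub_refl' b⟩
  · exact ⟨a, ha, sub_refl' a, le_sub ha (Or.inl h)⟩

theorem agree_mono {k n x y : M} (h : k ⊆ n) (h1 : AgreeBelow (Model.E (M := M)) n x y) :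
    AgreeBelow (Model.E (M := M)) k x y := fun j hj => h1 j (h j hj)

/-- the properties of `O` -/
structure OP (X Y O : M) : Prop where
  cov : ∀ n x y, n ∈ (om : M) → x ∈ X → y ∈ Y → ∃ m, m ∈ (om : M) ∧ pr (pr n m) (pr x y) ∈ O
  mono : ∀ n m m' x y, n ∈ (om : M) → m ∈ (om : M) → m' ∈ (om : M) → m ⊆ m' → x ∈ X → y ∈ Y →
    pr (pr n m) (pr x y) ∈ O → pr (pr n m') (pr x y) ∈ O
  opn : ∀ n m x y, n ∈ (om : M) → m ∈ (om : M) → x ∈ X → y ∈ Y → pr (pr n m) (pr x y) ∈ O →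
    ∃ k, k ∈ (om : M) ∧ ∀ x' y', x' ∈ X → y' ∈ Y → AgreeBelow (Model.E (M := M)) k x x' →
      AgreeBelow (Model.E (M := M)) k y y' → pr (pr n m) (pr x' y') ∈ O

/-- the set `U_x` -/
noncomputable def Ux (Y O x : M) : M :=
  sep (prod (prod om om) (prod Y Y)) (fun z => pr (fst z) (pr x (fst (snd z))) ∈ O ∧
    pr (fst z) (pr x (snd (snd z))) ∈ O)

theorem mem_Ux {Y O x i m y y' : M} : pr (pr i m) (pr y y') ∈ Ux Y O x ↔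
    (i ∈ (om : M) ∧ m ∈ (om : M)) ∧ (y ∈ Y ∧ y' ∈ Y) ∧ pr (pr i m) (pr x y) ∈ O ∧
      pr (pr i m) (pr x y') ∈ O := by
  unfold Ux
  rw [mem_sep]
  simp only [pr_mem_prod, fst_pr, snd_pr, and_assoc]

theorem of_Ux {Y O x i m p : M} (h : pr (pr i m) p ∈ Ux Y O x) :
    ∃ y y', y ∈ Y ∧ y' ∈ Y ∧ p = pr y y' := by
  unfold Ux at h
  rw [mem_sep] at h
  have h1 := h.1
  rw [pr_mem_prod] at h1
  obtain ⟨y, hy, y', hy', rfl⟩ := mem_prod.1 h1.2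
  exact ⟨y, y', hy, hy', rfl⟩

theorem isProd_prod (A B : M) : IsProd (Model.E (M := M)) (prod A B) A B := by
  intro p
  constructor
  · intro h
    obtain ⟨x, hx, y, hy, rfl⟩ := mem_prod.1 h
    exact ⟨x, y, hx, hy, isPair_iff.2 rfl⟩
  · rintro ⟨x, y, hx, hy, h⟩
    exact mem_prod.2 ⟨x, hx, y, hy, isPair_iff.1 h⟩

/-- the function `g_x` -/
theorem exists_g (hMac : S_Mac) (hMtl : S_Mtl) (hCh : Ch M) {X Y O x : M} (hO : OP X Y O)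
    (hx : x ∈ X) (hYY : MengerProduct (Model.E (M := M)) om Y Y) :
    ∃ g : M, IsFn g ∧ dom g = om ∧ (∀ i, i ∈ (om : M) → app g i ∈ (om : M)) ∧
      ∀ y y' k, y ∈ Y → y' ∈ Y → k ∈ (om : M) → ∃ i, i ∈ (om : M) ∧ (k ∈ i ∨ k = i) ∧
        pr (pr i (app g i)) (pr x y) ∈ O ∧ pr (pr i (app g i)) (pr x y') ∈ O := by
  have c1 : ∀ i m, i ∈ (om : M) → m ∈ (om : M) → IsOpenSubsetOfProduct (Model.E (M := M)) om Y Y
      (prod Y Y) (sep (prod Y Y) (fun p => pr (pr i m) p ∈ Ux Y O x)) := by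
    intro i m hi hm
    refine ⟨fun z hz => (mem_sep.1 hz).1, fun a y hay => ?_⟩
    have h1 := maps_iff.1 hay
    obtain ⟨h2, h3⟩ := mem_sep.1 h1
    obtain ⟨_, ⟨ha, hy⟩, h4, h5⟩ := mem_Ux.1 h3
    obtain ⟨k, hk, h6⟩ := hO.opn i m x a hi hm hx ha h4
    obtain ⟨k', hk', h7⟩ := hO.opn i m x y hi hm hx hy h5
    obtain ⟨n, hn, h8, h9⟩ := exists_max hk hk'
    refine ⟨n, hn, fun a' y' ha' hy' h10 h11 => ?_⟩
    refine maps_iff.2 (mem_sep.2 ⟨pr_mem_prod.2 ⟨ha', hy'⟩, mem_Ux.2 ⟨⟨hi, hm⟩, ⟨ha', hy'⟩, ?_, ?_⟩⟩)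
    · exact h6 x a' hx ha' (fun _ _ => Iff.rfl) (agree_mono h8 h10)
    · exact h7 x y' hx hy' (fun _ _ => Iff.rfl) (agree_mono h9 h11)
  have c2 : ∀ i p, i ∈ (om : M) → p ∈ prod Y Y →
      ∃ m, m ∈ (om : M) ∧ pr (pr i m) p ∈ Ux Y O x := by
    intro i p hi hp
    obtain ⟨y, hy, y', hy', rfl⟩ := mem_prod.1 hp
    obtain ⟨m, hm, h1⟩ := hO.cov i x y hi hx hy
    obtain ⟨m', hm', h2⟩ := hO.cov i x y' hi hx hy'
    obtain ⟨n, hn, h3, h4⟩ := exists_max hm hm'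
    exact ⟨n, hn, mem_Ux.2 ⟨⟨hi, hn⟩, ⟨hy, hy'⟩, hO.mono i m n x y hi hm hn h3 hx hy h1,
      hO.mono i m' n x y' hi hm' hn h4 hx hy' h2⟩⟩
  have c3 : ∀ i m m' p, i ∈ (om : M) → m ∈ (om : M) → m' ∈ (om : M) → m ⊆ m' →
      pr (pr i m) p ∈ Ux Y O x → pr (pr i m') p ∈ Ux Y O x := by
    intro i m m' p hi hm hm' hmm h1
    obtain ⟨y, y', hy, hy', rfl⟩ := of_Ux h1
    obtain ⟨_, _, h2, h3⟩ := mem_Ux.1 h1
    exact mem_Ux.2 ⟨⟨hi, hm'⟩, ⟨hy, hy'⟩, hO.mono i m m' x y hi hm hm' hmm hx hy h2,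
      hO.mono i m m' x y' hi hm hm' hmm hx hy' h3⟩
  obtain ⟨g, hg1, hg2, hg3, hg4⟩ := hMtl hMac M hCh _ (prod Y Y) (Ux Y O x)
    (hYY _ (isProd_prod Y Y)) c1 c2 c3
  refine ⟨g, hg1, hg2, hg3, fun y y' k hy hy' hk => ?_⟩
  obtain ⟨i, hi, hki, h1⟩ := hg4 (pr y y') (pr_mem_prod.2 ⟨hy, hy'⟩) k hk
  obtain ⟨_, _, h2, h3⟩ := mem_Ux.1 h1
  exact ⟨i, hi, hki, h2, h3⟩

/-- the functions from `om` to `om` -/
noncomputable def FN (M : Type) [Model M] : M :=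
  sep (pow (prod om om)) (fun g => IsFn g ∧ dom g = om)

theorem mem_FN {g : M} : g ∈ FN M ↔ IsFn g ∧ dom g = om ∧ ∀ i, i ∈ (om : M) → app g i ∈ (om : M) := by
  unfold FN
  rw [mem_sep, mem_pow]
  constructor
  · rintro ⟨h1, h2, h3⟩
    refine ⟨h2, h3, fun i hi => ?_⟩
    have h4 : pr i (app g i) ∈ g := h2.app_mem (by rw [h3]; exact hi)
    exact (pr_mem_prod.1 (h1 _ h4)).2
  · rintro ⟨h2, h3, h4⟩
    refine ⟨fun p hp => ?_, h2, h3⟩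
    obtain ⟨x, y, rfl⟩ := h2.1 p hp
    obtain ⟨h5, h6⟩ := h2.pr_mem_iff.1 hp
    rw [h3] at h5
    rw [pr_mem_prod]
    exact ⟨h5, by rw [← h6]; exact h4 x h5⟩

end MprAux

open MprAux

theorem tMpr : S_Mpr := by
  intro hMac hMtl hMnf M _ hCh X N B H hMC Y hY hYY D hD
  have hD' : ∀ p, p ∈ D ↔ ∃ x y, x ∈ X ∧ y ∈ Y ∧ p = pr x y := by
    intro p
    rw [show (p ∈ D ↔ ∃ x y, x ∈ X ∧ y ∈ Y ∧ p = pr x y) ↔ (Model.E (M := M) p D ↔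
      ∃ x y, x ∈ X ∧ y ∈ Y ∧ p = pr x y) from Iff.rfl, hD p]
    simp only [isPair_iff]
    rfl
  refine hMnf hMac M hCh X N B H Y D hMC hY hD' ?_
  intro O hO1 hO2 hO3
  have hO : OP X Y O := ⟨hO1, hO2, hO3⟩
  by_contra hcon
  -- the bad points
  have hR1 : ∀ z, z ∈ sep (prod H (prod X Y)) (fun z => ∀ n, n ∈ (om : M) →
      pr (pr n (app (fst z) n)) (snd z) ∉ O) ↔ z ∈ prod H (prod X Y) ∧ ∀ n, n ∈ (om : M) →
      pr (pr n (app (fst z) n)) (snd z) ∉ O := fun z => mem_sep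
  obtain ⟨f, hf1, hf2, hf3⟩ := hMac M hCh H (prod X Y) (sep (prod H (prod X Y)) (fun z => ∀ n,
      n ∈ (om : M) → pr (pr n (app (fst z) n)) (snd z) ∉ O)) (by
    intro h hh
    obtain ⟨h1, h2, h3⟩ := hMC.hfn h hh
    by_contra hc
    refine hcon ⟨h, h1, h2, h3, fun x y hx hy => ?_⟩
    by_contra hc2
    refine hc ⟨pr x y, pr_mem_prod.2 ⟨hx, hy⟩, (hR1 _).2 ⟨?_, fun n hn hnO => hc2 ⟨n, hn, ?_⟩⟩⟩
    · rw [pr_mem_prod, pr_mem_prod]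
      exact ⟨hh, hx, hy⟩
    · rw [fst_pr, snd_pr] at hnO
      exact hnO)
  have hfx : ∀ h, h ∈ H → ∃ x y, x ∈ X ∧ y ∈ Y ∧ app f h = pr x y ∧ ∀ n, n ∈ (om : M) →
      pr (pr n (app h n)) (pr x y) ∉ O := by
    intro h hh
    obtain ⟨h1, h2⟩ := hf3 h hh
    obtain ⟨x, hx, y, hy, hxy⟩ := mem_prod.1 h1
    refine ⟨x, y, hx, hy, hxy, fun n hn => ?_⟩
    have h3 := ((hR1 _).1 h2).2 n hn
    rw [fst_pr, snd_pr, hxy] at h3
    exact h3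
  -- the functions `g_x`
  have hR2 : ∀ z, z ∈ sep (prod X (FN M)) (fun z => ∀ y y' k, y ∈ Y → y' ∈ Y → k ∈ (om : M) →
      ∃ i, i ∈ (om : M) ∧ (k ∈ i ∨ k = i) ∧ pr (pr i (app (snd z) i)) (pr (fst z) y) ∈ O ∧
        pr (pr i (app (snd z) i)) (pr (fst z) y') ∈ O) ↔ z ∈ prod X (FN M) ∧
      ∀ y y' k, y ∈ Y → y' ∈ Y → k ∈ (om : M) →
      ∃ i, i ∈ (om : M) ∧ (k ∈ i ∨ k = i) ∧ pr (pr i (app (snd z) i)) (pr (fst z) y) ∈ O ∧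
        pr (pr i (app (snd z) i)) (pr (fst z) y') ∈ O := fun z => mem_sep
  obtain ⟨F, hF1, hF2, hF3⟩ := hMac M hCh X (FN M) (sep (prod X (FN M)) (fun z => ∀ y y' k,
      y ∈ Y → y' ∈ Y → k ∈ (om : M) →
      ∃ i, i ∈ (om : M) ∧ (k ∈ i ∨ k = i) ∧ pr (pr i (app (snd z) i)) (pr (fst z) y) ∈ O ∧
        pr (pr i (app (snd z) i)) (pr (fst z) y') ∈ O)) (by
    intro x hx
    obtain ⟨g, hg1, hg2, hg3, hg4⟩ := exists_g hMac hMtl hCh hO hx hYY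
    refine ⟨g, mem_FN.2 ⟨hg1, hg2, hg3⟩, (hR2 _).2 ⟨pr_mem_prod.2 ⟨hx, mem_FN.2 ⟨hg1, hg2, hg3⟩⟩, ?_⟩⟩
    rw [fst_pr, snd_pr]
    exact hg4)
  have hG : ∀ x n v, pr (pr x n) v ∈ gr (fun z => app (app F (fst z)) (snd z)) (prod X om) ↔
      (x ∈ X ∧ n ∈ (om : M)) ∧ v = app (app F x) n := by
    intro x n v
    rw [pr_mem_gr, pr_mem_prod, fst_pr, snd_pr]
  have hJ : ∀ h, h ∈ H → app (gr (fun h => fst (app f h)) H) h = fst (app f h) :=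
    fun h hh => app_gr hh
  obtain ⟨h, h', hh, hh', hJJ, k, hk, hs⟩ := hMC.star (gr (fun h => fst (app f h)) H)
    (gr (fun z => app (app F (fst z)) (snd z)) (prod X om)) gr_isFn dom_gr
    (fun h hh => by
      obtain ⟨x, y, hx, hy, hxy, _⟩ := hfx h hh
      rw [hJ h hh, hxy, fst_pr]
      exact hx)
    (fun x n hx hn => ⟨app (app F x) n, (mem_FN.1 (hF3 x hx).1).2.2 n hn, (hG x n _).2 ⟨⟨hx, hn⟩, rfl⟩⟩)
    (fun x n v v' h1 h2 => by rw [((hG x n v).1 h1).2, ((hG x n v').1 h2).2])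
  obtain ⟨x, y, hx, hy, hxy, hno⟩ := hfx h hh
  obtain ⟨x', y', hx', hy', hxy', hno'⟩ := hfx h' hh'
  rw [hJ h hh, hJ h' hh', hxy, hxy', fst_pr, fst_pr] at hJJ
  subst hJJ
  have h1 := ((hR2 _).1 (hF3 x hx).2).2 y y' k hy hy' hk
  rw [fst_pr, snd_pr] at h1
  obtain ⟨i, hi, hki, h2, h3⟩ := h1
  have hv := (mem_FN.1 (hF3 x hx).1).2.2 i hi
  have h4 := hs i hi hki (app (app F x) i) (by
    rw [hJ h hh, hxy, fst_pr, hG]
    exact ⟨⟨hx, hi⟩, rfl⟩)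
  have hai := (hMC.hfn h hh).2.2 i hi
  have hai' := (hMC.hfn h' hh').2.2 i hi
  rcases h4 with h4 | h4
  · exact hno i hi (hO2 i _ _ x y hi hv hai (le_sub hai h4) hx hy h2)
  · exact hno' i hi (hO2 i _ _ x y' hi hv hai' (le_sub hai' h4) hx hy' h3)

end Pool.Agent.LZ
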