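import Pool.Agent.Lib.MP_10f401_gt.LZ.SpecD

/-!
# MP_10f401_gt, module Msm (task 24241, helper99): inside `M`, `X` is a Luzin set
-/

set_option autoImplicit false

universe u

namespace Pool.Agent.LZ

open Pool.Agent.ZF Pool.Agent.Lib.MP_1929a6_lc Pool.Agent.Lib.MP_1ab623_gt
open Pool.Agent.Lib.MP_820b44_gt Pool.Agent.Lib.MP_10f401_gt.Mdl

namespace MsmAux

variable {M : Type u} [Model M]

/-- nowhere dense sets of reals -/
def NW (S : M) : Prop :=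
  ∀ y n : M, y ⊆ om → n ∈ (om : M) → ∃ y' n' : M, y' ⊆ om ∧ n' ∈ (om : M) ∧ n ⊆ n' ∧
    (∀ k, k ∈ n → (k ∈ y ↔ k ∈ y')) ∧ ∀ z, z ∈ S → ¬ ∀ k, k ∈ n' → (k ∈ y' ↔ k ∈ z)

instance : Fo₁ (NW : M → Prop) := by unfold NW; infer_instance

theorem nw_iff {S : M} : NowhereDense (Model.E (M := M)) om S ↔ NW S := Iff.rfl

theorem NW.mono {S T : M} (h : NW S) (hT : ∀ z, z ∈ T → z ∈ S) : NW T := by
  intro y n hy hn
  obtain ⟨y', n', h1, h2, h3, h4, h5⟩ := h y n hy hn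
  exact ⟨y', n', h1, h2, h3, h4, fun z hz => h5 z (hT z hz)⟩

theorem NW.nwp {S : M} (h : NW S) {Q : M → Prop} (hQ : ∀ z, Q z → z ∈ S) : NwP Q := by
  intro y n hy hn
  obtain ⟨y', n', h1, h2, h3, h4, h5⟩ := h y n hy hn
  exact ⟨y', n', h1, h2, h3, h4, fun z hz => h5 z (hQ z hz)⟩

theorem nwp_empty {Q : M → Prop} (hQ : ∀ z, ¬ Q z) : NwP Q :=
  fun y n hy hn => ⟨y, n, hy, hn, sub_refl' n, fun _ _ => Iff.rfl, fun z hz => absurd hz (hQ z)⟩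

/-- first relation -/
noncomputable def R1 (N₁ : M) : M :=
  sep (prod (prod om om) (pow om)) (fun p => snd p ∈ app N₁ (fst (fst p)))

theorem mem_R1 {N₁ k i z : M} : pr (pr k i) z ∈ R1 N₁ ↔
    ((k ∈ (om : M) ∧ i ∈ (om : M)) ∧ z ⊆ om) ∧ z ∈ app N₁ k := by
  unfold R1
  rw [mem_sep, pr_mem_prod, pr_mem_prod, mem_pow, fst_pr, fst_pr, snd_pr]

/-- the relation between points and countable covers -/
noncomputable def RR (Z F : M) : M :=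
  sep (prod Z (pow (prod om (pow (pow om))))) (fun p => (∀ i, i ∈ (om : M) → NW (app (snd p) i)) ∧
    ∀ z, z ∈ app F (fst p) → ∃ i, i ∈ (om : M) ∧ z ∈ app (snd p) i)

theorem mem_RR {Z F c g : M} : pr c g ∈ RR Z F ↔
    (c ∈ Z ∧ g ∈ pow (prod om (pow (pow (om : M))))) ∧ (∀ i, i ∈ (om : M) → NW (app g i)) ∧
      ∀ z, z ∈ app F c → ∃ i, i ∈ (om : M) ∧ z ∈ app g i := by
  unfold RR
  rw [mem_sep, pr_mem_prod, fst_pr, snd_pr]

/-- second relation -/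
noncomputable def R2 (Z C g : M) : M :=
  sep (prod (prod om om) (pow om)) (fun p => ∃ c, c ∈ Z ∧ pr (fst (fst p)) c ∈ C ∧
    snd p ∈ app (app g c) (snd (fst p)))

theorem mem_R2 {Z C g k i z : M} : pr (pr k i) z ∈ R2 Z C g ↔
    ((k ∈ (om : M) ∧ i ∈ (om : M)) ∧ z ⊆ om) ∧ ∃ c, c ∈ Z ∧ pr k c ∈ C ∧
      z ∈ app (app g c) i := by
  unfold R2
  rw [mem_sep, pr_mem_prod, pr_mem_prod, mem_pow, fst_pr, fst_pr, snd_pr, snd_pr]

end MsmAux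

open MsmAux in
theorem tMsm : S_Msm := by
  intro hMac M _ hCh X N B H hMC S Z hS hZ
  obtain ⟨hSr, N₁, B₁, hN₁, hN₁', hScov⟩ := hS
  obtain ⟨hN1, hN2, -⟩ := isFunction_iff.1 hN₁
  have hNW1 : ∀ k, k ∈ (om : M) → NW (app N₁ k) := by
    intro k hk
    refine nw_iff.1 (hN₁' k (app N₁ k) (maps_iff.2 (hN1.app_mem ?_)))
    rw [hN2]
    exact hk
  obtain ⟨C, x₀, hC1, hC2, -, -, hC3⟩ := hMC.luz (R1 N₁) (fun k i hk hi =>
    (hNW1 k hk).nwp fun z hz => (mem_R1.1 hz).2)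
  have hcov : ∀ z, z ∈ Z → ∃ k, pr k z ∈ C := by
    intro z hz
    obtain ⟨hzX, hzS⟩ := (hZ z).1 hz
    by_contra hcon
    push Not at hcon
    obtain ⟨k, R, hkR, hzR⟩ := hScov z hzS
    rw [maps_iff] at hkR
    have hk : k ∈ (om : M) := by
      rw [← hN2]
      exact mem_dom.2 ⟨R, hkR⟩
    refine hC3 z hzX hcon k ∅ hk empty_mem_om (mem_R1.2 ⟨⟨⟨hk, empty_mem_om⟩, hSr z hzS⟩, ?_⟩)
    rw [hN1.app_eq hkR]
    exact hzR
  intro F B' hF hFM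
  obtain ⟨hF1, hF2, -⟩ := isFunction_iff.1 hF
  obtain ⟨g, hg1, hg2, hg3⟩ := hMac M hCh Z (pow (prod om (pow (pow (om : M))))) (RR Z F) (by
    intro c hc
    obtain ⟨hr, N₂, B₂, hN₂, hN₂', hc2⟩ := hFM c (app F c) (maps_iff.2 (hF1.app_mem (by
      rw [hF2]
      exact hc)))
    obtain ⟨hn1, hn2, -⟩ := isFunction_iff.1 hN₂
    have hmem : gr (fun i => app N₂ i ∩ pow om) om ∈ pow (prod om (pow (pow (om : M)))) := by
      rw [mem_pow]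
      intro p hp
      obtain ⟨i, hi, rfl⟩ := mem_gr.1 hp
      rw [pr_mem_prod, mem_pow]
      exact ⟨hi, fun z hz => (mem_int.1 hz).2⟩
    refine ⟨gr (fun i => app N₂ i ∩ pow om) om, hmem, mem_RR.2 ⟨⟨hc, hmem⟩, ?_, ?_⟩⟩
    · intro i hi
      rw [app_gr hi]
      have h1 : NW (app N₂ i) := nw_iff.1 (hN₂' i (app N₂ i) (maps_iff.2 (hn1.app_mem (by
        rw [hn2]
        exact hi))))
      exact h1.mono fun z hz => (mem_int.1 hz).1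
    · intro z hz
      obtain ⟨i, R, hiR, hzR⟩ := hc2 z hz
      rw [maps_iff] at hiR
      have hi : i ∈ (om : M) := by
        rw [← hn2]
        exact mem_dom.2 ⟨R, hiR⟩
      refine ⟨i, hi, ?_⟩
      rw [app_gr hi, mem_int, hn1.app_eq hiR, mem_pow]
      exact ⟨hzR, hr z hz⟩)
  obtain ⟨C', x, -, -, hx, hxC, hC'⟩ := hMC.luz (R2 Z C g) (by
    intro k i hk hi
    by_cases hex : ∃ c, c ∈ Z ∧ pr k c ∈ C
    · obtain ⟨c, hc, hkc⟩ := hex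
      refine ((mem_RR.1 (hg3 c hc).2).2.1 i hi).nwp fun z hz => ?_
      obtain ⟨-, c', -, hkc', hz'⟩ := mem_R2.1 hz
      rw [hC2 k c c' hkc hkc']
      exact hz'
    · refine nwp_empty fun z hz => ?_
      obtain ⟨-, c', hc', hkc', -⟩ := mem_R2.1 hz
      exact hex ⟨c', hc', hkc'⟩)
  refine ⟨x, hMC.rls x hx, fun c S' hcS hxS => ?_⟩
  rw [maps_iff] at hcS
  have hc : c ∈ Z := by
    rw [← hF2]
    exact mem_dom.2 ⟨S', hcS⟩
  obtain ⟨k, hk⟩ := hcov c hc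
  have hxS' : x ∈ app F c := by
    rw [hF1.app_eq hcS]
    exact hxS
  obtain ⟨i, hi, hxi⟩ := (mem_RR.1 (hg3 c hc).2).2.2 x hxS'
  exact hC' x hx hxC k i (hC1 k c hk) hi
    (mem_R2.2 ⟨⟨⟨hC1 k c hk, hi⟩, hMC.rls x hx⟩, c, hc, hk, hxi⟩)

end Pool.Agent.LZ
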