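import Pool.Agent.Lib.MP_10f401_gt.LZ.SpecD

/-!
# Inside a model: the Menger property for increasing covers, with infinitely many hits
-/

set_option autoImplicit false
set_option linter.unusedSectionVars false
set_option linter.unusedVariables false

namespace Pool.Agent.LZ

open Pool.Agent.ZF Pool.Agent.Lib.MP_1929a6_lc Pool.Agent.Lib.MP_1ab623_gt
open Pool.Agent.Lib.MP_820b44_gt Pool.Agent.Lib.MP_10f401_gt.Mdl

namespace MtlAux

variable {M : Type} [Model M]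

theorem sub_of_mem {a b : M} (hb : b ∈ (om : M)) (h : a ∈ b) : a ⊆ b :=
  fun z hz => om_trans hb h hz

theorem un_of_sub {a b : M} (h : a ⊆ b) : a ∪ b = b := by
  refine ext' fun z => ?_
  rw [mem_un]
  exact ⟨fun h1 => h1.elim (h z) id, Or.inr⟩

theorem un_of_sub' {a b : M} (h : b ⊆ a) : a ∪ b = a := by
  refine ext' fun z => ?_
  rw [mem_un]
  exact ⟨fun h1 => h1.elim id (h z), Or.inl⟩

theorem un_cases {a b : M} (ha : a ∈ (om : M)) (hb : b ∈ (om : M)) :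
    (a ∪ b = b ∧ (a ∈ b ∨ a = b)) ∨ (a ∪ b = a ∧ b ∈ a) := by
  rcases om_total ha hb with h | h | h
  · exact Or.inl ⟨un_of_sub (sub_of_mem hb h), Or.inl h⟩
  · subst h
    exact Or.inl ⟨un_of_sub (sub_refl' a), Or.inr rfl⟩
  · exact Or.inr ⟨un_of_sub' (sub_of_mem ha h), h⟩

theorem un_om {a b : M} (ha : a ∈ (om : M)) (hb : b ∈ (om : M)) : a ∪ b ∈ (om : M) := by
  rcases un_cases ha hb with h | h
  · rw [h.1]; exact hb
  · rw [h.1]; exact ha

/-- the open set number `m` of the cover number `i` -/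
noncomputable def UU (Q U i m : M) : M := sep Q (fun p => pr (pr i m) p ∈ U)

instance : Ft₄ (UU : M → M → M → M → M) := by unfold UU; infer_instance

theorem mem_UU {Q U i m p : M} : p ∈ UU Q U i m ↔ p ∈ Q ∧ pr (pr i m) p ∈ U := mem_sep

/-- a finite set of members of an increasing sequence is bounded by a member -/
theorem fin_bdd {Q U i F : M}
    (hmon : ∀ m m' p, m ∈ (om : M) → m' ∈ (om : M) → m ⊆ m' → pr (pr i m) p ∈ U →
      pr (pr i m') p ∈ U)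
    (hF : KFin F) (h : ∀ V, V ∈ F → ∃ m, m ∈ (om : M) ∧ V = UU Q U i m) :
    ∃ m, m ∈ (om : M) ∧ ∀ V, V ∈ F → V ⊆ UU Q U i m := by
  obtain ⟨n, hn, h1⟩ := KFin.bdd' (fun k V : M => k ∈ (om : M) ∧ ¬ V ⊆ UU Q U i k) hF (by
    intro V hV
    obtain ⟨m, hm, rfl⟩ := h V hV
    refine ⟨m, hm, fun k hk => ?_⟩
    have h2 : m ⊆ k → UU Q U i m ⊆ UU Q U i k := by
      intro h3 p hp
      rw [mem_UU] at hp ⊢
      exact ⟨hp.1, hmon m k p hm hk.1 h3 hp.2⟩
    rcases om_total hk.1 hm with h3 | h3 | h3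
    · exact h3
    · exact absurd (h2 (by rw [h3]; exact sub_refl' m)) hk.2
    · exact absurd (h2 (sub_of_mem hk.1 h3)) hk.2)
  refine ⟨n, hn, fun V hV => ?_⟩
  by_contra h2
  exact notMem_self n (h1 V hV n ⟨hn, h2⟩)

/-- the Menger property for one sequence of increasing covers -/
theorem step1 {op : M → Prop} {Q U : M} (hM : IsMenger (Model.E (M := M)) om op Q)
    (hop : ∀ i m, i ∈ (om : M) → m ∈ (om : M) → op (UU Q U i m))
    (hcov : ∀ i p, i ∈ (om : M) → p ∈ Q → ∃ m, m ∈ (om : M) ∧ pr (pr i m) p ∈ U)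
    (hmon : ∀ i m m' p, i ∈ (om : M) → m ∈ (om : M) → m' ∈ (om : M) → m ⊆ m' →
      pr (pr i m) p ∈ U → pr (pr i m') p ∈ U) {k : M} (hk : k ∈ (om : M)) :
    ∃ a : M, IsFn a ∧ dom a = om ∧ (∀ n, n ∈ (om : M) → app a n ∈ (om : M)) ∧
      ∀ p, p ∈ Q → ∃ n, n ∈ (om : M) ∧ pr (pr (n ∪ k) (app a n)) p ∈ U := by
  obtain ⟨s, T, hs, hs2, hs3⟩ := hM (gr (fun n => img (fun m => UU Q U (n ∪ k) m) om) om)
    (ran (gr (fun n => img (fun m => UU Q U (n ∪ k) m) om) om))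
    (isFunction_iff.2 ⟨gr_isFn, dom_gr, fun n hn => by
      rw [mem_ran, app_gr hn]
      exact ⟨n, pr_mem_gr.2 ⟨hn, rfl⟩⟩⟩)
    (fun n C hnC => by
      rw [maps_iff, pr_mem_gr] at hnC
      obtain ⟨hn, rfl⟩ := hnC
      refine ⟨fun V hV => ?_, fun x hx => ?_⟩
      · obtain ⟨m, hm, rfl⟩ := mem_img.1 hV
        exact hop _ m (un_om hn hk) hm
      · obtain ⟨m, hm, h⟩ := hcov (n ∪ k) x (un_om hn hk) hx
        exact ⟨UU Q U (n ∪ k) m, mem_img.2 ⟨m, hm, rfl⟩, mem_UU.2 ⟨hx, h⟩⟩)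
  obtain ⟨hsf, hsd, _⟩ := isFunction_iff.1 hs
  have hch : ∀ n, n ∈ (om : M) →
      least (sep om (fun m => ∀ V, V ∈ app s n → V ⊆ UU Q U (n ∪ k) m)) ∈ (om : M) ∧
      ∀ V, V ∈ app s n → V ⊆ UU Q U (n ∪ k)
        (least (sep om (fun m => ∀ V, V ∈ app s n → V ⊆ UU Q U (n ∪ k) m))) := by
    intro n hn
    have h5 : Maps (Model.E (M := M)) s n (app s n) := by
      rw [maps_iff]
      refine hsf.app_mem ?_
      rw [hsd]
      exact hn
    have h6 := hs2 n (img (fun m => UU Q U (n ∪ k) m) om) (app s n)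
      (maps_iff.2 (pr_mem_gr.2 ⟨hn, rfl⟩)) h5
    obtain ⟨m, hm, h7⟩ := fin_bdd (Q := Q) (U := U) (i := n ∪ k) (F := app s n)
      (fun m m' p h8 h9 h10 h11 => hmon (n ∪ k) m m' p (un_om hn hk) h8 h9 h10 h11)
      (finiteSet_iff.1 h6.2) (fun V hV => by
        obtain ⟨m, hm, he⟩ := mem_img.1 (h6.1 V hV)
        exact ⟨m, hm, he⟩)
    have h8 := least_mem (M := M)
      (S := sep om (fun m => ∀ V, V ∈ app s n → V ⊆ UU Q U (n ∪ k) m))
      (fun k hk => (mem_sep.1 hk).1) ⟨m, mem_sep.2 ⟨hm, h7⟩⟩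
    exact mem_sep.1 h8
  refine ⟨gr (fun n => least (sep om (fun m => ∀ V, V ∈ app s n → V ⊆ UU Q U (n ∪ k) m))) om,
    gr_isFn, dom_gr, fun n hn => ?_, fun p hp => ?_⟩
  · rw [app_gr hn]
    exact (hch n hn).1
  · obtain ⟨n, F, V, hnF, hVF, hpV⟩ := hs3 p hp
    rw [maps_iff] at hnF
    have hn : n ∈ (om : M) := by
      rw [← hsd, mem_dom]
      exact ⟨F, hnF⟩
    refine ⟨n, hn, ?_⟩
    rw [app_gr hn]
    have h5 : app s n = F := hsf.app_eq hnF
    exact (mem_UU.1 ((hch n hn).2 V (by rw [h5]; exact hVF) p hpV)).2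

end MtlAux

open MtlAux

theorem tMtl : S_Mtl := by
  intro mac M _ hCh op Q U hM hop hcov hmon
  -- choice of a function for every `k`
  obtain ⟨f, hf, hfd, hf2⟩ := mac M hCh (om : M)
    (sep (pow (prod om om)) (fun a => IsFn a ∧ dom a = om ∧
      ∀ n, n ∈ (om : M) → app a n ∈ (om : M)))
    (sep (prod om (pow (prod om om))) (fun z => ∀ p, p ∈ Q → ∃ n, n ∈ (om : M) ∧
      pr (pr (n ∪ fst z) (app (snd z) n)) p ∈ U)) (by
    intro k hk
    obtain ⟨a, h1, h2, h3, h4⟩ := step1 hM hop hcov hmon hk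
    have h5 : a ⊆ prod om om := by
      intro z hz
      obtain ⟨x, y, rfl⟩ := h1.1 z hz
      obtain ⟨h6, h7⟩ := h1.pr_mem_iff.1 hz
      rw [h2] at h6
      rw [pr_mem_prod, ← h7]
      exact ⟨h6, h3 x h6⟩
    refine ⟨a, mem_sep.2 ⟨mem_pow.2 h5, h1, h2, h3⟩, mem_sep.2 ⟨pr_mem_prod.2
      ⟨hk, mem_pow.2 h5⟩, ?_⟩⟩
    rw [fst_pr, snd_pr]
    exact h4)
  have hf3 : ∀ k, k ∈ (om : M) → (∀ n, n ∈ (om : M) → app (app f k) n ∈ (om : M)) ∧
      ∀ p, p ∈ Q → ∃ n, n ∈ (om : M) ∧ pr (pr (n ∪ k) (app (app f k) n)) p ∈ U := by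
    intro k hk
    obtain ⟨h1, h2⟩ := hf2 k hk
    have h3 := (mem_sep.1 h2).2
    rw [fst_pr, snd_pr] at h3
    exact ⟨(mem_sep.1 h1).2.2.2, h3⟩
  -- the maximum
  have hch : ∀ i, i ∈ (om : M) →
      least (sep om (fun m => ∀ k n, k ∈ succ i → n ∈ succ i → app (app f k) n ⊆ m)) ∈ (om : M) ∧
      ∀ k n, k ∈ succ i → n ∈ succ i → app (app f k) n ⊆
        least (sep om (fun m => ∀ k n, k ∈ succ i → n ∈ succ i → app (app f k) n ⊆ m)) := by
    intro i hi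
    have hsi : ∀ z, z ∈ succ i → z ∈ (om : M) := by
      intro z hz
      rcases mem_succ.1 hz with rfl | hz
      · exact hi
      · exact mem_om_of_mem hi hz
    have hK : KFin (img (fun q => app (app f (fst q)) (snd q)) (prod (succ i) (succ i))) :=
      KFin.img _ (KFin.prod (KFin.of_mem_om (succ_mem_om hi)) (KFin.of_mem_om (succ_mem_om hi)))
    obtain ⟨m, hm, h1⟩ := KFin.bdd hK (by
      intro z hz
      obtain ⟨q, hq, rfl⟩ := mem_img.1 hz
      obtain ⟨k, hk, n, hn, rfl⟩ := mem_prod.1 hq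
      rw [fst_pr, snd_pr]
      exact (hf3 k (hsi k hk)).1 n (hsi n hn))
    have h8 := least_mem (M := M)
      (S := sep om (fun m => ∀ k n, k ∈ succ i → n ∈ succ i → app (app f k) n ⊆ m))
      (fun k hk => (mem_sep.1 hk).1) ⟨m, mem_sep.2 ⟨hm, fun k n hk hn => by
        refine sub_of_mem hm (h1 _ (mem_img.2 ⟨pr k n, pr_mem_prod.2 ⟨hk, hn⟩, ?_⟩))
        rw [fst_pr, snd_pr]⟩⟩
    exact mem_sep.1 h8
  refine ⟨gr (fun i => least (sep om (fun m => ∀ k n, k ∈ succ i → n ∈ succ i →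
    app (app f k) n ⊆ m))) om, gr_isFn, dom_gr, fun i hi => ?_, fun p hp k hk => ?_⟩
  · rw [app_gr hi]
    exact (hch i hi).1
  · obtain ⟨n, hn, h1⟩ := (hf3 k hk).2 p hp
    have hi : n ∪ k ∈ (om : M) := un_om hn hk
    have h2 : k ∈ succ (n ∪ k) ∧ n ∈ succ (n ∪ k) ∧ (k ∈ n ∪ k ∨ k = n ∪ k) := by
      rcases un_cases hn hk with h | h
      · rw [h.1, mem_succ, mem_succ]
        exact ⟨Or.inl rfl, h.2.symm, Or.inr rfl⟩
      · rw [h.1, mem_succ, mem_succ]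
        exact ⟨Or.inr h.2, Or.inl rfl, Or.inl h.2⟩
    refine ⟨n ∪ k, hi, h2.2.2, ?_⟩
    rw [app_gr hi]
    exact hmon (n ∪ k) (app (app f k) n) _ p hi ((hf3 k hk).1 n hn) (hch _ hi).1
      ((hch _ hi).2 k n h2.1 h2.2.1) h1

end Pool.Agent.LZ
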