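import Pool.Agent.Lib.MP_10f401_gt.LZ.FinA
import Pool.Agent.Lib.MP_10f401_gt.LZ.Brg
import Pool.Agent.Lib.MP_10f401_gt.LZ.Frl
import Pool.Agent.Lib.MP_10f401_gt.LZ.Fbs
import Pool.Agent.Lib.MP_10f401_gt.LZ.Fcv
import Pool.Agent.Lib.MP_10f401_gt.LZ.Flz
import Pool.Agent.Lib.MP_10f401_gt.LZ.Fst
import Pool.Agent.Lib.MP_10f401_gt.LZ.Mac
import Pool.Agent.Lib.MP_10f401_gt.LZ.Mlg
import Pool.Agent.Lib.MP_10f401_gt.LZ.Msm
import Pool.Agent.Lib.MP_10f401_gt.LZ.Mro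
import Pool.Agent.Lib.MP_10f401_gt.LZ.Mtl
import Pool.Agent.Lib.MP_10f401_gt.LZ.Mnf
import Pool.Agent.Lib.MP_10f401_gt.LZ.Mpr

/-!
# The final assembly
-/

set_option autoImplicit false

namespace Pool.Agent.LZ

/-- there is a model of `ZFC` with a `cov(M)`-Luzin set `X` such that `X × Y` is Menger for every set
of reals `Y` for which `Y × Y` is Menger or Rothberger -/
theorem goal : Pool.Agent.Lib.MP_10f401_gt.Mdl.Goal := by
  obtain ⟨P, T, i1, i2, ⟨K⟩⟩ := exists_core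
  exact goal_of_core tFrl tFbs tFcv tFlz tFst tMac tMlg tMsm tMro tMtl tMnf tMpr K

end Pool.Agent.LZ
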