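import Pool.Agent.Lib.MP_10f401_gt.LZ.SpecA

/-!
# Module Lkx: a Cohen real over countably many names of dense open sets
-/

set_option autoImplicit false
set_option linter.unusedSectionVars false
set_option linter.unusedVariables false

open Set Cardinal

namespace Pool.Agent.LZ

open Classical

namespace LkxAux

theorem gen (D : ℕ → Set (List Bool)) (hD : ∀ n s, ∃ t, s <+: t ∧ t ∈ D n) :
    ∃ x : ℕ → Bool, ∀ n, ∃ t ∈ D n, IsPre t x := by
  choose g hg1 hg2 using hD
  let F : ℕ → List Bool := fun n => Nat.rec [] (fun n s => g n s ++ [true]) n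
  have F1 : ∀ n, F (n + 1) = g n (F n) ++ [true] := fun n => rfl
  have mono1 : ∀ n, F n <+: F (n + 1) := fun n => by
    rw [F1]
    exact (hg1 n (F n)).trans ⟨_, rfl⟩
  have mono : ∀ n m, n ≤ m → F n <+: F m := by
    intro n m h
    induction h with
    | refl => exact ⟨[], List.append_nil _⟩
    | step _ ih => exact ih.trans (mono1 _)
  have len : ∀ n, n ≤ (F n).length := by
    intro n
    induction n with
    | zero => exact Nat.zero_le _
    | succ n ih =>
      rw [F1, List.length_append]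
      have := (hg1 n (F n)).length_le
      simp only [List.length_cons, List.length_nil]
      omega
  have pre : ∀ s t : List Bool, s <+: t → ∀ i < s.length, t.getD i false = s.getD i false := by
    rintro s t ⟨r, rfl⟩ i hi
    exact List.getD_append _ _ _ _ hi
  refine ⟨fun i => (F (i + 1)).getD i false, fun n => ⟨g n (F n), hg2 n _, ?_⟩⟩
  have hs : g n (F n) <+: F (n + 1) := by
    rw [F1]
    exact ⟨_, rfl⟩
  unfold IsPre
  apply List.ext_getElem
  · simp
  · intro i h1 h2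
    have e1 : (F (n + 1)).getD i false = (g n (F n)).getD i false := pre _ _ hs i h1
    have e2 : (F (i + 1)).getD i false = (F (n + 1)).getD i false := by
      rcases le_total (i + 1) (n + 1) with h | h
      · exact (pre _ _ (mono _ _ h) i (lt_of_lt_of_le (Nat.lt_succ_self i) (len (i + 1)))).symm
      · exact pre _ _ (mono _ _ h) i (lt_of_lt_of_le h1 hs.length_le)
    rw [List.getElem_map, List.getElem_range, e2, e1, List.getD_eq_getElem _ _ h1]

theorem gen' (𝒟 : Set (Set (List Bool))) (hc : 𝒟.Countable)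
    (hD : ∀ D ∈ 𝒟, ∀ s, ∃ t, s <+: t ∧ t ∈ D) :
    ∃ x : ℕ → Bool, ∀ D ∈ 𝒟, ∃ t ∈ D, IsPre t x := by
  obtain ⟨f, hf⟩ := (hc.insert (univ : Set (List Bool))).exists_eq_range (insert_nonempty _ _)
  obtain ⟨x, hx⟩ := gen f (fun n s => by
    have h1 : f n ∈ insert (univ : Set (List Bool)) 𝒟 := by
      rw [hf]
      exact mem_range_self n
    rcases h1 with h1 | h1
    · exact ⟨s, ⟨[], List.append_nil _⟩, by rw [h1]; exact mem_univ _⟩
    · exact hD _ h1 s)
  refine ⟨x, fun D h => ?_⟩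
  have h1 : D ∈ range f := by
    rw [← hf]
    exact mem_insert_of_mem _ h
  obtain ⟨n, rfl⟩ := h1
  exact hx n

theorem not_pre (x : ℕ → Bool) (s : List Bool) : ¬ IsPre (s ++ [!(x s.length)]) x := by
  intro h
  unfold IsPre at h
  have h1 : (s ++ [!(x s.length)])[s.length]? =
      ((List.range (s ++ [!(x s.length)]).length).map x)[s.length]? := by rw [← h]
  simp at h1

end LkxAux

open LkxAux

theorem tLkx (T : Type) [Big T] : S_Lkx T := by
  intro K' hK 𝒪 hc hO hP X₀ hX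
  let D1 : Face T × ONm T → Set (List Bool) := fun e => {t | ∃ u ∈ e.2 t, e.1 ∪ u ∈ K'}
  let D2 : (ℕ → Bool) → Set (List Bool) := fun x' => {t | ¬ IsPre t x'}
  obtain ⟨x, hx⟩ := gen' (D1 '' (K' ×ˢ 𝒪) ∪ D2 '' X₀)
    (((hK.cnt.prod hc).image D1).union (hX.image D2)) (by
      rintro D (⟨⟨p, o⟩, ⟨hp, ho⟩, rfl⟩ | ⟨x', hx', rfl⟩) s
      · obtain ⟨u, ⟨t, ht, hu⟩, h1⟩ := (hP o ho s).2 p hp
        exact ⟨t, ht, u, hu, h1⟩
      · exact ⟨_, ⟨_, rfl⟩, not_pre x' s⟩)
  refine ⟨x, fun hxX => ?_, fun o ho => ⟨?_, fun p hp => ?_⟩⟩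
  · obtain ⟨t, ht, h1⟩ := hx (D2 x) (Or.inr (mem_image_of_mem _ hxX))
    exact ht h1
  · rintro u ⟨t, _, hu⟩
    exact hO o ho t hu
  · obtain ⟨t, ⟨u, hu, h2⟩, h1⟩ := hx (D1 (p, o)) (Or.inl (mem_image_of_mem _ ⟨hp, ho⟩))
    exact ⟨u, ⟨t, h1, hu⟩, h2⟩

end Pool.Agent.LZ
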