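import Pool.Agent.Lib.MP_10f401_gt.LZ.SpecA

/-!
# A new first component from an extension of the complex (helper10)
-/

set_option autoImplicit false

open Set Cardinal

namespace Pool.Agent.LZ

open Classical

namespace MkAux

variable {T : Type} [Big T]

theorem nm_ext {K K' : Set (Face T)} (hK : Cx K) (h : Ext K K') {y : Name T} (hy : Nm K y)
    (hp : ∀ n, Pd K' (yD y n)) : Nm K' y where
  sub n v := (hy.sub n v).trans h.sub
  bd := hy.bd
  pd n := hp n
  inc n v v' u hu u' hu' huu :=
    hy.inc n v v' u hu u' hu' (h.union hK (hy.sub n v hu) (hy.sub n v' hu') huu)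

theorem stem_countable {K : Set (Face T)} (hK : Cx K) : {α : T | Stem K α}.Countable := by
  have h1 : {α : T | Stem K α} = (fun α : T => ({Atom.st α 0 0} : Face T)) ⁻¹' K := rfl
  rw [h1]
  refine hK.cnt.preimage_of_injOn ?_
  intro α _ β _ h
  have h2 : Atom.st α 0 0 = Atom.st β 0 0 := Finset.singleton_injective h
  injection h2

/-- the predense sets of the new component -/
def DD (c : Cn T) (K' : Set (Face T)) (D' : Set (Set (Face T))) (Y' : Set (Name T))
    (O' : Set (ONm T)) : Set (Set (Face T)) :=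
  c.D ∪ (D' ∪ ({S | ∃ e ∈ Y' ×ˢ (univ : Set ℕ), yD e.1 e.2 = S} ∪
    ({S | ∃ e ∈ O' ×ˢ (univ : Set (List Bool)), oD e.1 e.2 = S} ∪
      {S | ∃ e ∈ {α : T | Stem K' α} ×ˢ (univ : Set ℕ),
        {s : Face T | ∃ v, s = {Atom.st e.1 e.2 v}} = S})))

theorem DD_countable (c : Cn T) {K' : Set (Face T)} (hK' : Cx K') {D' : Set (Set (Face T))}
    (hD : D'.Countable) {Y' : Set (Name T)} (hY : Y'.Countable) {O' : Set (ONm T)}
    (hO : O'.Countable) : (DD c K' D' Y' O').Countable := by
  unfold DD
  refine c.Dc.union (hD.union (Set.Countable.union ?_ (Set.Countable.union ?_ ?_)))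
  · exact (hY.prod countable_univ).image (fun e : Name T × ℕ => yD e.1 e.2)
  · exact (hO.prod countable_univ).image (fun e : ONm T × List Bool => oD e.1 e.2)
  · exact ((stem_countable hK').prod countable_univ).image
      (fun e : T × ℕ => {s : Face T | ∃ v, s = {Atom.st e.1 e.2 v}})

end MkAux

open MkAux in
theorem tMk (T : Type) [Big T] : S_Mk T := by
  intro c K' hK' hE hD D' hDc hDp Y' hYc hYn O' hOc hOs hOp X' hXc hXi hXb hnY hnO
  have hDP : ∀ S ∈ DD c K' D' Y' O', Pd K' S := by
    intro S hS
    rcases hS with h | h | ⟨e, he, rfl⟩ | ⟨e, he, rfl⟩ | ⟨e, he, rfl⟩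
    · exact hD S h
    · exact hDp S h
    · exact (hYn e.1 he.1).pd e.2
    · exact hOp e.1 he.1 e.2
    · exact hK'.st_pd e.1 he.1 e.2
  refine ⟨{ X := c.X ∪ X'
            K := K'
            D := DD c K' D' Y' O'
            Y := c.Y ∪ Y'
            O := c.O ∪ O'
            Xc := c.Xc.union hXc
            Xi := hXi
            Xb := ?_
            cx := hK'
            Dc := DD_countable c hK' hDc hYc hOc
            Dp := hDP
            Yc := c.Yc.union hYc
            Yn := ?_
            YD := ?_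
            Oc := c.Oc.union hOc
            Os := ?_
            OD := ?_
            stD := ?_ }, ?_, rfl, rfl, ?_, subset_union_right, subset_union_right⟩
  · rintro x m (h | h)
    · exact c.Xb x m h
    · exact hXb x m h
  · rintro y (h | h)
    · exact nm_ext c.cx hE (c.Yn y h) fun n => hD _ (c.YD y h n)
    · exact hYn y h
  · rintro y (h | h) n
    · exact Or.inl (c.YD y h n)
    · exact Or.inr (Or.inr (Or.inl ⟨(y, n), ⟨h, mem_univ _⟩, rfl⟩))
  · rintro o (h | h) t
    · exact (c.Os o h t).trans hE.sub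
    · exact hOs o h t
  · rintro o (h | h) s
    · exact Or.inl (c.OD o h s)
    · exact Or.inr (Or.inr (Or.inr (Or.inl ⟨(o, s), ⟨h, mem_univ _⟩, rfl⟩)))
  · intro α hα n
    exact Or.inr (Or.inr (Or.inr (Or.inr ⟨(α, n), ⟨hα, mem_univ _⟩, rfl⟩)))
  · refine ⟨subset_union_left, hE, subset_union_left, subset_union_left, subset_union_left,
      ?_, ?_⟩
    · rintro e (he | he) hn y hy
      · exact absurd he hn
      · obtain ⟨E, hE1, hE2⟩ := hnY e he hn y hy
        exact ⟨E, Or.inr (Or.inl hE1), hE2⟩
    · rintro e (he | he) hn o ho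
      · exact absurd he hn
      · exact Or.inr (Or.inl (hnO e he hn o ho))
  · exact fun S hS => Or.inr (Or.inl hS)

end Pool.Agent.LZ
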