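import Pool.Agent.Lib.MP_10f401_gt.LZ.SpecD

/-!
# Inside a model: Rothberger spaces are Menger spaces
-/

set_option autoImplicit false
set_option linter.unusedSectionVars false
set_option linter.unusedVariables false

namespace Pool.Agent.LZ

open Pool.Agent.ZF Pool.Agent.Lib.MP_1929a6_lc Pool.Agent.Lib.MP_1ab623_gt
open Pool.Agent.Lib.MP_820b44_gt Pool.Agent.Lib.MP_10f401_gt.Mdl

theorem tMro : S_Mro := by
  intro M _ op X h u B hu hc
  obtain ⟨s, T, hs, h1, h2⟩ := h u B hu hc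
  obtain ⟨hs1, hs2, hs3⟩ := isFunction_iff.1 hs
  refine ⟨gr (fun n => {app s n}) om, ran (gr (fun n => {app s n}) om),
    isFunction_iff.2 ⟨gr_isFn, dom_gr, ?_⟩, ?_, ?_⟩
  · intro n hn
    rw [mem_ran]
    exact ⟨n, gr_isFn.app_mem (by rw [dom_gr]; exact hn)⟩
  · intro n C F hC hF
    rw [maps_iff, pr_mem_gr] at hF
    obtain ⟨hn, rfl⟩ := hF
    refine ⟨?_, finiteSet_iff.2 (KFin.sing _)⟩
    intro z hz
    rw [mem_sing.1 hz]
    refine h1 n C _ hC (maps_iff.2 (hs1.app_mem ?_))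
    rw [hs2]
    exact hn
  · intro x hx
    obtain ⟨n, U, hU, hxU⟩ := h2 x hx
    have hU' := maps_iff.1 hU
    refine ⟨n, {app s n}, U, maps_iff.2 (pr_mem_gr.2 ⟨?_, rfl⟩), ?_, hxU⟩
    · rw [← hs2, mem_dom]
      exact ⟨U, hU'⟩
    · exact mem_sing.2 (hs1.app_eq hU').symm

end Pool.Agent.LZ
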