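import Pool.Agent.Lib.MP_10f401_gt.LZ.Notions
import Pool.Agent.Lib.MP_10f401_gt.LZ.Core
import Pool.Agent.Lib.MP_820b44_gt.Br.Sml

/-!
# The names of the objects of the core sentence
-/

set_option autoImplicit false
set_option linter.unusedSectionVars false
set_option linter.unusedVariables false
set_option linter.unusedSimpArgs false

namespace Pool.Agent.LZ

open Pool.Agent.SymExt SN
open Pool.Agent.Lib.MP_820b44_gt (rn m_rn on_rn rn_sub_om sbl_iff sbl_on sbl_congr roE roA roE_iff
  roA_iff roAll_iff roImp_iff roBot_iff roE_of fN m_fN on_fN isFun_fN list_dense')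

section

variable {P : Type} [PartialOrder P] [OrderTop P]

/-- a truth value of the ground model -/
def roB (φ : Prop) : RO P := ⟨fun _ => φ, fun _ h => h, fun {p} h => by
  obtain ⟨_, _, h⟩ := h p le_rfl
  exact h⟩

/-- the name of the real `x` of the ground model -/
noncomputable def cr (x : ℕ → Bool) : VN P := rn fun n => roB (x n = true)

theorem on_cr {x : ℕ → Bool} {n : ℕ} {p : P} : m (on n) (cr x) p ↔ x n = true := on_rn

theorem rig_cr : Rig (P := P) cr := by
  intro x y p h
  funext n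
  have h1 : m (on n) (cr x : VN P) p ↔ m (on n) (cr y) p :=
    ⟨fun h2 => m_right h h2, fun h2 => m_right (e_symm h) h2⟩
  rw [on_cr, on_cr] at h1
  cases hx : x n <;> cases hy : y n <;> simp_all

/-- the truth values of the natural numbers in `z` -/
def rl (z : VN P) : ℕ → RO P := fun n => m (on n) z

theorem rl_rn (y : ℕ → RO P) (n : ℕ) (p : P) : rl (rn y) n p ↔ y n p := on_rn

/-- every real is equal to one of the form `rn y` -/
theorem e_rl {z : VN P} {p : P} (h : ∀ u, ∀ q ≤ p, m u z q → m u (om P) q) :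
    e z (rn (rl z)) p := by
  refine e_ext fun q hq u => ⟨?_, ?_⟩
  · intro hu
    rw [m_rn]
    intro r hr
    obtain ⟨s, hs, n, hn⟩ := m_om.1 (h u q hq hu) r hr
    exact ⟨s, hs, n, m_left hn (RO.mono _ (hs.trans hr) hu), hn⟩
  · intro hu
    refine RO.dense _ fun r hr => ?_
    obtain ⟨s, hs, n, hn, hu'⟩ := m_rn.1 hu r hr
    exact ⟨s, hs, m_left (e_symm hu') hn⟩

theorem Ini.mono {t : List Bool} {y : ℕ → RO P} {p q : P} (h : Ini t y p) (hq : q ≤ p) :
    Ini t y q := fun i hi => ⟨fun h1 => (y i).mono hq ((h i hi).1 h1),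
      fun h1 r hr => (h i hi).2 h1 r (hr.trans hq)⟩

theorem Ini.dense {t : List Bool} {y : ℕ → RO P} {p : P} (h : ∀ q ≤ p, ∃ r ≤ q, Ini t y r) :
    Ini t y p := by
  intro i hi
  refine ⟨fun h1 => (y i).dense fun q hq => ?_, fun h1 q hq h2 => ?_⟩
  · obtain ⟨r, hr, h2⟩ := h q hq
    exact ⟨r, hr, (h2 i hi).1 h1⟩
  · obtain ⟨r, hr, h3⟩ := h q hq
    exact (h3 i hi).2 h1 r le_rfl ((y i).mono hr h2)

/-- truth value of: `y` begins with `t` -/
def roI (t : List Bool) (y : ℕ → RO P) : RO P :=
  ⟨Ini t y, fun h h1 => h1.mono h, fun h => Ini.dense h⟩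

/-- an enumeration of the finite sequences -/
noncomputable def lst (j : ℕ) : List Bool := (exists_surjective_nat (List Bool)).choose j

theorem lst_surj (t : List Bool) : ∃ j, lst j = t :=
  (exists_surjective_nat (List Bool)).choose_spec t

variable (P) in
/-- the name of the base -/
noncomputable def BN : VN P :=
  nn (fun z : ℕ × (ℕ → RO P) => op (on z.1) (rn z.2)) fun z => roI (lst z.1) z.2

variable {T : Type} (K : Core P T)

/-- the name of the Luzin set -/
noncomputable def XN : VN P := nn cr K.X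

theorem m_XN {z : VN P} {p : P} : m z (XN K) p ↔ ∀ q ≤ p, ∃ r ≤ q, ∃ x, K.X x r ∧ e z (cr x) r :=
  m_nn

theorem cr_XN {x : ℕ → Bool} {p : P} : m (cr x) (XN K) p ↔ K.X x p := m_nn_iff rig_cr

/-- the name of the nowhere dense sets -/
noncomputable def NN : VN P :=
  nn (fun z : (ℕ → Bool) × ℕ × (ℕ → RO P) => op (op (cr z.1) (on z.2.1)) (rn z.2.2))
    fun z => roA (K.X z.1) (K.A z.1 z.2.1 z.2.2)

/-- the name of the set of functions -/
noncomputable def HN : VN P := fm fun t => fN (K.h t)

theorem m_HN {z : VN P} {p : P} : m z (HN K) p ↔ ∀ q ≤ p, ∃ r ≤ q, ∃ t, e z (fN (K.h t)) r := m_fm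

theorem HN_self (t : T) (p : P) : m (fN (K.h t)) (HN K) p := m_fm_self t

end

end Pool.Agent.LZ
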