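import Pool.Agent.Lib.MP_820b44_gt.Br.Notions

/-!
# The core sentence of MP_10f401_gt, evaluated in an arbitrary logic
-/

set_option linter.unusedSectionVars false
set_option linter.unusedVariables false
set_option linter.unusedSimpArgs false

universe u v

namespace Pool.Agent.SymExt

namespace Lg

variable {Ω : Type u} {V : Type v} (l : Lg Ω V)

/-- the set of the `z` with `((x, k), z) ∈ N` is nowhere dense -/
def lzNwd (w N x k : V) : Ω :=
  l.all fun y => l.all fun n => l.imp (l.and (l.sub y w) (l.mem n w))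
    (l.ex fun y' => l.ex fun n' => l.and (l.sub y' w) (l.and (l.mem n' w) (l.and (l.sub n n')
      (l.and (l.sbl n y y') (l.all fun z => l.imp (l.ap2 N x k z) (l.neg (l.sbl n' y' z)))))))

/-- the nowhere dense sets given by `N` cover all reals -/
def lzCov (w X N : V) : Ω :=
  l.and (l.all fun x => l.all fun k => l.imp (l.and (l.mem x X) (l.mem k w)) (l.lzNwd w N x k))
    (l.all fun y => l.imp (l.sub y w) (l.ex fun x => l.ex fun k => l.and (l.mem x X)
      (l.and (l.mem k w) (l.ap2 N x k y))))

/-- the Luzin property: if all sets `{z | ((k, i), z) ∈ R}` are nowhere dense, there is a partial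
function `C` on `w` such that all elements of `X` which are not values of `C` are in none of these
sets, and there is an element of `X` which is not a value of `C` -/
def lzLuz (w X : V) : Ω :=
  l.all fun R => l.imp (l.all fun k => l.all fun i => l.imp (l.and (l.mem k w) (l.mem i w))
      (l.lzNwd w R k i))
    (l.ex fun C => l.ex fun x => l.and
      (l.all fun k => l.all fun c => l.imp (l.app C k c) (l.mem k w))
      (l.and (l.all fun k => l.all fun c => l.all fun c' => l.imp
        (l.and (l.app C k c) (l.app C k c')) (l.eq c c'))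
      (l.and (l.mem x X) (l.and (l.all fun k => l.neg (l.app C k x))
        (l.all fun z => l.imp (l.and (l.mem z X) (l.all fun k => l.neg (l.app C k z)))
          (l.all fun k => l.all fun i => l.imp (l.and (l.mem k w) (l.mem i w))
            (l.neg (l.ap2 R k i z))))))))

/-- the sets `{z | (j, z) ∈ B}`, `j ∈ w`, are a base of the Cantor space -/
def lzBas (w B : V) : Ω :=
  l.and (l.all fun y => l.all fun n => l.imp (l.and (l.sub y w) (l.mem n w))
      (l.ex fun j => l.and (l.mem j w) (l.and (l.app B j y)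
        (l.all fun z => l.imp (l.app B j z) (l.sbl n y z)))))
    (l.all fun j => l.all fun z => l.imp (l.app B j z) (l.and (l.mem j w)
      (l.ex fun k => l.and (l.mem k w) (l.all fun z' => l.imp
        (l.and (l.sub z' w) (l.sbl k z z')) (l.app B j z')))))

/-- `v ≤ a` (von Neumann numbers) -/
def lzLe (v a : V) : Ω := l.or (l.mem v a) (l.eq v a)

/-- the main property of the set of functions `H` -/
def lzStar (w X H : V) : Ω :=
  l.and (l.all fun h => l.imp (l.mem h H) (l.isFun h w w))
    (l.all fun J => l.all fun G => l.imp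
      (l.and (l.isFun J H X) (l.and
        (l.all fun x => l.all fun n => l.imp (l.and (l.mem x X) (l.mem n w))
          (l.ex fun v => l.and (l.mem v w) (l.ap2 G x n v)))
        (l.all fun x => l.all fun n => l.all fun v => l.all fun v' => l.imp
          (l.and (l.ap2 G x n v) (l.ap2 G x n v')) (l.eq v v'))))
      (l.ex fun h => l.ex fun h' => l.ex fun x => l.and (l.mem h H) (l.and (l.mem h' H)
        (l.and (l.app J h x) (l.and (l.app J h' x) (l.ex fun k => l.and (l.mem k w)
          (l.all fun n => l.all fun a => l.all fun b => l.all fun v => l.imp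
            (l.and (l.mem n w) (l.and (l.lzLe k n) (l.and (l.app h n a) (l.and (l.app h' n b)
              (l.ap2 G x n v)))))
            (l.or (l.lzLe v a) (l.lzLe v b)))))))))

/-- the core sentence -/
def lzCor : Ω :=
  l.ex fun w => l.ex fun X => l.ex fun N => l.ex fun B => l.ex fun H => l.and (l.isOm w)
    (l.and (l.rls w X) (l.and (l.lzCov w X N) (l.and (l.lzLuz w X) (l.and (l.lzBas w B)
      (l.lzStar w X H)))))

end Lg

namespace Fm

/-- nowhere dense -/
def lzNwd (w N x k n : ℕ) : Fm :=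
  .all n (.all (n + 1) (.imp (.and (.sub n w (n + 2)) (.mem (n + 1) w))
    (.ex (n + 2) (.ex (n + 3) (.and (.sub (n + 2) w (n + 4)) (.and (.mem (n + 3) w)
      (.and (.sub (n + 1) (n + 3) (n + 4)) (.and (.sbl (n + 1) n (n + 2) (n + 4))
        (.all (n + 4) (.imp (.ap2 N x k (n + 4) (n + 5))
          (.neg (.sbl (n + 3) (n + 2) (n + 4) (n + 5)))))))))))))

/-- cover -/
def lzCov (w X N n : ℕ) : Fm :=
  .and (.all n (.all (n + 1) (.imp (.and (.mem n X) (.mem (n + 1) w))
      (.lzNwd w N n (n + 1) (n + 2)))))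
    (.all n (.imp (.sub n w (n + 1)) (.ex (n + 1) (.ex (n + 2) (.and (.mem (n + 1) X)
      (.and (.mem (n + 2) w) (.ap2 N (n + 1) (n + 2) n (n + 3))))))))

/-- Luzin -/
def lzLuz (w X n : ℕ) : Fm :=
  .all n (.imp (.all (n + 1) (.all (n + 2) (.imp (.and (.mem (n + 1) w) (.mem (n + 2) w))
      (.lzNwd w n (n + 1) (n + 2) (n + 3)))))
    (.ex (n + 1) (.ex (n + 2) (.and
      (.all (n + 3) (.all (n + 4) (.imp (.app (n + 1) (n + 3) (n + 4) (n + 5))
        (.mem (n + 3) w))))
      (.and (.all (n + 3) (.all (n + 4) (.all (n + 5) (.imp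
        (.and (.app (n + 1) (n + 3) (n + 4) (n + 6)) (.app (n + 1) (n + 3) (n + 5) (n + 6)))
          (.eq (n + 4) (n + 5))))))
      (.and (.mem (n + 2) X) (.and (.all (n + 3) (.neg (.app (n + 1) (n + 3) (n + 2) (n + 4))))
        (.all (n + 3) (.imp (.and (.mem (n + 3) X)
            (.all (n + 4) (.neg (.app (n + 1) (n + 4) (n + 3) (n + 5)))))
          (.all (n + 4) (.all (n + 5) (.imp (.and (.mem (n + 4) w) (.mem (n + 5) w))
            (.neg (.ap2 n (n + 4) (n + 5) (n + 3) (n + 6)))))))))))))))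

/-- base -/
def lzBas (w B n : ℕ) : Fm :=
  .and (.all n (.all (n + 1) (.imp (.and (.sub n w (n + 2)) (.mem (n + 1) w))
      (.ex (n + 2) (.and (.mem (n + 2) w) (.and (.app B (n + 2) n (n + 3))
        (.all (n + 3) (.imp (.app B (n + 2) (n + 3) (n + 4))
          (.sbl (n + 1) n (n + 3) (n + 4))))))))))
    (.all n (.all (n + 1) (.imp (.app B n (n + 1) (n + 2)) (.and (.mem n w)
      (.ex (n + 2) (.and (.mem (n + 2) w) (.all (n + 3) (.imp
        (.and (.sub (n + 3) w (n + 4)) (.sbl (n + 2) (n + 1) (n + 3) (n + 4)))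
          (.app B n (n + 3) (n + 4))))))))))

/-- `v ≤ a` -/
def lzLe (v a : ℕ) : Fm := .or (.mem v a) (.eq v a)

/-- main property -/
def lzStar (w X H n : ℕ) : Fm :=
  .and (.all n (.imp (.mem n H) (.isFun n w w (n + 1))))
    (.all n (.all (n + 1) (.imp
      (.and (.isFun n H X (n + 2)) (.and
        (.all (n + 2) (.all (n + 3) (.imp (.and (.mem (n + 2) X) (.mem (n + 3) w))
          (.ex (n + 4) (.and (.mem (n + 4) w) (.ap2 (n + 1) (n + 2) (n + 3) (n + 4) (n + 5)))))))
        (.all (n + 2) (.all (n + 3) (.all (n + 4) (.all (n + 5) (.imp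
          (.and (.ap2 (n + 1) (n + 2) (n + 3) (n + 4) (n + 6))
            (.ap2 (n + 1) (n + 2) (n + 3) (n + 5) (n + 6))) (.eq (n + 4) (n + 5)))))))))
      (.ex (n + 2) (.ex (n + 3) (.ex (n + 4) (.and (.mem (n + 2) H) (.and (.mem (n + 3) H)
        (.and (.app n (n + 2) (n + 4) (n + 5)) (.and (.app n (n + 3) (n + 4) (n + 5))
          (.ex (n + 5) (.and (.mem (n + 5) w)
            (.all (n + 6) (.all (n + 7) (.all (n + 8) (.all (n + 9) (.imp
              (.and (.mem (n + 6) w) (.and (.lzLe (n + 5) (n + 6))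
                (.and (.app (n + 2) (n + 6) (n + 7) (n + 10))
                (.and (.app (n + 3) (n + 6) (n + 8) (n + 10))
                  (.ap2 (n + 1) (n + 4) (n + 6) (n + 9) (n + 10))))))
              (.or (.lzLe (n + 9) (n + 7)) (.lzLe (n + 9) (n + 8))))))))))))))))))))

/-- the core sentence -/
def lzCor : Fm :=
  .ex 0 (.ex 1 (.ex 2 (.ex 3 (.ex 4 (.and (.isOm 0 5) (.and (.rls 0 1 5) (.and (.lzCov 0 1 2 5)
    (.and (.lzLuz 0 1 5) (.and (.lzBas 0 3 5) (.lzStar 0 1 4 5))))))))))

end Fm

section eval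

variable {Ω : Type u} {V : Type v} (l : Lg Ω V)

theorem eval_lzNwd {w N x k n : ℕ} (hw : w < n) (hN : N < n) (hx : x < n) (hk : k < n)
    (s : ℕ → V) : l.eval (.lzNwd w N x k n) s = l.lzNwd (s w) (s N) (s x) (s k) := by
  simp (disch := omega) only [Fm.lzNwd, Lg.lzNwd, Lg.eval, Lg.eval_ex, Lg.eval_and, Lg.eval_neg,
    eval_sub, eval_sbl, eval_ap2, Function.update_of_ne, Function.update_self]

theorem eval_lzCov {w X N n : ℕ} (hw : w < n) (hX : X < n) (hN : N < n)
    (s : ℕ → V) : l.eval (.lzCov w X N n) s = l.lzCov (s w) (s X) (s N) := by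
  simp (disch := omega) only [Fm.lzCov, Lg.lzCov, Lg.eval, Lg.eval_ex, Lg.eval_and, eval_lzNwd,
    eval_sub, eval_ap2, Function.update_of_ne, Function.update_self]

theorem eval_lzLuz {w X n : ℕ} (hw : w < n) (hX : X < n)
    (s : ℕ → V) : l.eval (.lzLuz w X n) s = l.lzLuz (s w) (s X) := by
  simp (disch := omega) only [Fm.lzLuz, Lg.lzLuz, Lg.eval, Lg.eval_ex, Lg.eval_and, Lg.eval_neg,
    eval_lzNwd, eval_app, eval_ap2, Function.update_of_ne, Function.update_self]

theorem eval_lzBas {w B n : ℕ} (hw : w < n) (hB : B < n)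
    (s : ℕ → V) : l.eval (.lzBas w B n) s = l.lzBas (s w) (s B) := by
  simp (disch := omega) only [Fm.lzBas, Lg.lzBas, Lg.eval, Lg.eval_ex, Lg.eval_and, eval_sub,
    eval_sbl, eval_app, Function.update_of_ne, Function.update_self]

theorem eval_lzStar {w X H n : ℕ} (hw : w < n) (hX : X < n) (hH : H < n)
    (s : ℕ → V) : l.eval (.lzStar w X H n) s = l.lzStar (s w) (s X) (s H) := by
  simp (disch := omega) only [Fm.lzStar, Lg.lzStar, Fm.lzLe, Lg.lzLe, Lg.eval, Lg.eval_ex,
    Lg.eval_and, Lg.eval_or, eval_isFun, eval_app, eval_ap2, Function.update_of_ne,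
    Function.update_self]

theorem eval_lzCor (s : ℕ → V) : l.eval .lzCor s = l.lzCor := by
  simp (disch := omega) only [Fm.lzCor, Lg.lzCor, Lg.eval_ex, Lg.eval_and,
    eval_isOm, eval_rls, eval_lzCov, eval_lzLuz, eval_lzBas, eval_lzStar,
    Function.update_of_ne, Function.update_self]

end eval

end Pool.Agent.SymExt
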