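import Pool.Agent.Lib.MP_10f401_gt.LZ.Defs

/-!
# The order of the conditions
-/

set_option autoImplicit false
set_option linter.unusedSectionVars false
set_option linter.unusedVariables false

open Set Cardinal

namespace Pool.Agent.LZ

open Classical

variable {T : Type} [Big T]

theorem mem_cut {p : Face T} {l : T} {a : Atom T} : a ∈ cut p l ↔ a ∈ p ∧ rk a ≤ l := by
  simp [cut]

theorem cut_sub (p : Face T) (l : T) : cut p l ⊆ p := Finset.filter_subset _ _

theorem low_cut (p : Face T) (l : T) : Low l (cut p l) := fun a ha => (mem_cut.1 ha).2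

theorem cut_mono {p q : Face T} (l : T) (h : p ⊆ q) : cut p l ⊆ cut q l := fun a ha =>
  mem_cut.2 ⟨h (mem_cut.1 ha).1, (mem_cut.1 ha).2⟩

theorem cut_of_low {p : Face T} {l : T} (h : Low l p) : cut p l = p := by
  ext a
  rw [mem_cut]
  exact ⟨fun h => h.1, fun ha => ⟨ha, h a ha⟩⟩

theorem Low.mono {p q : Face T} {l : T} (h : Low l q) (hp : p ⊆ q) : Low l p := fun a ha =>
  h a (hp ha)

theorem Low.le {p : Face T} {l l' : T} (h : Low l p) (hl : l ≤ l') : Low l' p := fun a ha =>
  (h a ha).trans hl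

theorem cut_union (p q : Face T) (l : T) : cut (p ∪ q) l = cut p l ∪ cut q l := by
  ext a
  simp only [mem_cut, Finset.mem_union]
  tauto

theorem Cx.cut {K : Set (Face T)} (h : Cx K) {p : Face T} (hp : p ∈ K) (l : T) : cut p l ∈ K :=
  h.down p hp _ (cut_sub p l)

theorem Cx.sing {K : Set (Face T)} (h : Cx K) {p : Face T} (hp : p ∈ K) {a : Atom T}
    (ha : a ∈ p) : ({a} : Face T) ∈ K :=
  h.down p hp _ (by simpa using ha)

theorem Cx.stem {K : Set (Face T)} (h : Cx K) {p : Face T} (hp : p ∈ K) {α : T} {n v : ℕ}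
    (ha : Atom.st α n v ∈ p) : Stem K α := h.st_all _ _ _ _ _ (h.sing hp ha)

theorem Stem.st {K : Set (Face T)} (h : Cx K) {α : T} (hs : Stem K α) (n v : ℕ) :
    ({Atom.st α n v} : Face T) ∈ K := h.st_all _ _ _ _ _ hs

theorem Large.mono {p : Face T} {F F' : Finset T} {N N' v v' : ℕ} {r r' : Face T}
    (h : Large p F' N' v' r) (hF : F ⊆ F') (hN : N ≤ N') (hv : v ≤ v') (hr : r ⊆ r') :
    Large p F N v r' := by
  intro α hα n hn
  rcases h α (hF hα) n (hn.trans_le hN) with h1 | ⟨w, hw, h1⟩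
  · exact Or.inl h1
  · exact Or.inr ⟨w, hv.trans hw, hr h1⟩

theorem DecSt.mono {p q : Face T} {α : T} {n : ℕ} (h : DecSt p α n) (hp : p ⊆ q) :
    DecSt q α n := by
  obtain ⟨v, hv⟩ := h
  exact ⟨v, hp hv⟩

theorem Dec.mono {p q : Face T} {y : Name T} {n v : ℕ} (h : Dec p y n v) (hp : p ⊆ q) :
    Dec q y n v := by
  obtain ⟨u, hu, h1⟩ := h
  exact ⟨u, hu, h1.trans hp⟩

theorem Stem.ext {K K' : Set (Face T)} (h : Ext K K') {α : T} (hs : Stem K α) : Stem K' α :=
  h.sub hs

theorem Ext.refl (K : Set (Face T)) (hK : Cx K) : Ext K K := ⟨subset_rfl, fun p hp _ => hp, fun _ _ h => h⟩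

theorem Ext.trans {K K' K'' : Set (Face T)} (h : Ext K K') (h' : Ext K' K'') : Ext K K'' where
  sub := h.sub.trans h'.sub
  ind p hp ha := h.ind p (h'.ind p hp fun a hq => h.sub (ha a hq)) ha
  sr l p hp := h'.sr l p (h.sr l p hp)

theorem Ext.union {K K' : Set (Face T)} (h : Ext K K') (hK : Cx K) {p q : Face T} (hp : p ∈ K)
    (hq : q ∈ K) (hpq : p ∪ q ∈ K') : p ∪ q ∈ K :=
  h.ind _ hpq fun a ha => (Finset.mem_union.1 ha).elim (fun h => hK.sing hp h)
    fun h => hK.sing hq h

theorem Avd.ext {K K' E : Set (Face T)} {y : Name T} {m : ℕ → ℕ} (h : Avd K E y m)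
    (hK : Cx K) (hE : E ⊆ K) (hy : ∀ n v, y n v ⊆ K) (he : Ext K K') : Avd K' E y m := by
  intro p hp
  obtain ⟨k, hk⟩ := h p hp
  exact ⟨k, fun n hn u hu hpu => hk n hn u hu (he.union hK (hE hp) (hy _ _ hu) hpu)⟩

theorem LeC.refl (c : Cn T) : LeC c c where
  X := subset_rfl
  K := Ext.refl _ c.cx
  D := subset_rfl
  Y := subset_rfl
  O := subset_rfl
  newY e he hn := absurd he hn
  newO e he hn := absurd he hn

theorem LeC.trans {c d e : Cn T} (h : LeC e d) (h' : LeC d c) : LeC e c where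
  X := h'.X.trans h.X
  K := h'.K.trans h.K
  D := h'.D.trans h.D
  Y := h'.Y.trans h.Y
  O := h'.O.trans h.O
  newY x hx hn y hy := by
    by_cases hd : x ∈ d.X
    · obtain ⟨E, hE, hA⟩ := h'.newY x hd hn y hy
      exact ⟨E, h.D hE, hA.ext d.cx (d.Dp E hE).1
        (fun n v => ((c.Yn y hy).sub n v).trans h'.K.sub) h.K⟩
    · exact h.newY x hx hd y (h'.Y hy)
  newO x hx hn o ho := by
    by_cases hd : x ∈ d.X
    · exact h.D (h'.newO x hd hn o ho)
    · exact h.newO x hx hd o (h'.O ho)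

instance : PartialOrder (Cd T) where
  le d c := LeC d.c c.c ∧ c.p ⊆ d.p
  le_refl c := ⟨LeC.refl _, Finset.Subset.refl _⟩
  le_trans a b c h h' := ⟨h.1.trans h'.1, h'.2.trans h.2⟩
  le_antisymm a b h h' := by
    have h1 : a.c = b.c := Cn.ext (h'.1.X.antisymm h.1.X) (h'.1.K.sub.antisymm h.1.K.sub)
      (h'.1.D.antisymm h.1.D) (h'.1.Y.antisymm h.1.Y) (h'.1.O.antisymm h.1.O)
    exact Cd.ext h1 (Finset.Subset.antisymm h'.2 h.2)

theorem Cd.le_iff {d c : Cd T} : d ≤ c ↔ LeC d.c c.c ∧ c.p ⊆ d.p := Iff.rfl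

theorem stem_sing {α : T} : ¬ Stem ({∅} : Set (Face T)) α := by
  intro h
  have h1 : ({Atom.st α 0 0} : Face T) = ∅ := h
  exact Finset.singleton_ne_empty _ h1

theorem sr_sing (l : T) : SR ({∅} : Set (Face T)) l ∅ := by
  refine ⟨rfl, fun q hq _ _ F hF N v => ⟨∅, rfl, Finset.Subset.refl _, ?_, ?_⟩⟩
  · have : q = ∅ := hq
    rw [this]
  · intro α hα
    exact absurd (hF α hα).2 stem_sing

theorem cx_sing : Cx ({∅} : Set (Face T)) where
  empty := rfl
  down p hp q hq := by
    have : p = ∅ := hp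
    subst this
    exact Finset.subset_empty.1 hq
  cnt := countable_singleton _
  st_all α n v n' v' h := absurd h (Finset.singleton_ne_empty _)
  st_fun p hp α n v v' h := by
    have : p = ∅ := hp
    subst this
    simp at h
  st_pd α h := absurd h stem_sing
  sr_ext l p hp := by
    have : p = ∅ := hp
    subst this
    exact ⟨∅, Finset.Subset.refl _, sr_sing l⟩
  sr_low l p hp _ := by
    have : p = ∅ := hp
    subst this
    exact sr_sing l

/-- the trivial first component -/
def topC : Cn T where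
  X := ∅
  K := {∅}
  D := ∅
  Y := ∅
  O := ∅
  Xc := countable_empty
  Xi _ _ _ h := absurd h (notMem_empty _)
  Xb _ _ h := absurd h (notMem_empty _)
  cx := cx_sing
  Dc := countable_empty
  Dp _ h := absurd h (notMem_empty _)
  Yc := countable_empty
  Yn _ h := absurd h (notMem_empty _)
  YD _ h := absurd h (notMem_empty _)
  Oc := countable_empty
  Os _ h := absurd h (notMem_empty _)
  OD _ h := absurd h (notMem_empty _)
  stD α h := absurd h stem_sing

theorem Cx.sr_empty {K : Set (Face T)} (h : Cx K) (l : T) : SR K l ∅ :=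
  h.sr_low l ∅ h.empty fun a ha => absurd ha (Finset.notMem_empty _)

theorem LeC.top (c : Cn T) : LeC c topC where
  X := empty_subset _
  K := by
    refine ⟨?_, ?_, ?_⟩
    · rintro p hp
      have : p = ∅ := hp
      rw [this]
      exact c.cx.empty
    · intro p _ h
      change p = ∅
      rw [Finset.eq_empty_iff_forall_notMem]
      intro a ha
      exact Finset.singleton_ne_empty a (h a ha)
    · intro l p hp
      have : p = ∅ := hp.1
      rw [this]
      exact c.cx.sr_empty l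
  D := empty_subset _
  Y := empty_subset _
  O := empty_subset _
  newY _ _ _ _ h := absurd h (notMem_empty _)
  newO _ _ _ _ h := absurd h (notMem_empty _)

instance : OrderTop (Cd T) where
  top := ⟨topC, ∅, rfl⟩
  le_top a := ⟨LeC.top _, Finset.empty_subset _⟩

/-! ### cardinalities -/

theorem bdd_of_countable {S : Set T} (h : S.Countable) : ∃ t, ∀ s ∈ S, s < t :=
  Big.bdd S (h.le_aleph0.trans Cardinal.aleph0_le_continuum)

theorem exists_gt'' (t : T) : ∃ s, t < s := by
  obtain ⟨s, hs⟩ := bdd_of_countable (countable_singleton t)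
  exact ⟨s, hs t rfl⟩

end Pool.Agent.LZ
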