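import Pool.Agent.Lib.MP_10f401_gt.LZ.SpecA

/-!
# QD: requirements for predense sets (helper33)
-/

set_option autoImplicit false
set_option linter.unusedSectionVars false
set_option linter.unusedVariables false

open Set Cardinal

namespace Pool.Agent.LZ

open Classical

namespace QDAux

/-- the finite subsets of `C` -/
def FS {A : Type} (C : Set A) : Set (Finset A) := {Ψ : Finset A | ∀ a ∈ Ψ, a ∈ C}

lemma fin_cnt {A : Type} {C : Set A} (hC : C.Countable) : (FS C).Countable := by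
  have h := (Set.countable_ofPred_finite_subset hC).preimage_of_injOn
    (f := fun Ψ : Finset A => (Ψ : Set A)) Finset.coe_injective.injOn
  refine h.mono fun Ψ (hΨ : ∀ a ∈ Ψ, a ∈ C) => ?_
  exact ⟨Ψ.finite_toSet, fun a ha => hΨ a ha⟩

variable {T : Type} [Big T]

/-- the promises of a requirement -/
noncomputable def ph (Ψ : Finset (Name T × ℕ × (ℕ → ℕ))) : Finset (Name T × ℕ) :=
  Ψ.image fun e => (e.1, e.2.1)

/-- the set of functions of a requirement -/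
def Wf (K : Set (Face T)) (Z : Set (ℕ → ℕ)) (S : Set (Face T)) (p : Face T)
    (Ψ : Finset (Name T × ℕ × (ℕ → ℕ))) : Set (Name T → ℕ → ℕ) :=
  {w | ∃ d ∈ S, p ∪ d ∈ K ∧ Brn K Z (p ∪ d) (ph Ψ) w}

end QDAux

open QDAux in
theorem tQD (T : Type) [Big T] : S_QD T := by
  intro K hK Yn hYc hYn Z hZc hZB 𝒟 h𝒟c h𝒟p
  refine ⟨(fun x : Set (Face T) × Face T × Finset (Name T × ℕ × (ℕ → ℕ)) =>
    ((∅ : Finset (Name T)), x.2.2, Wf K Z x.1 x.2.1 x.2.2)) ''
      (𝒟 ×ˢ (K ×ˢ FS (Yn ×ˢ ((univ : Set ℕ) ×ˢ Z)))), ?_, ?_⟩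
  · exact (h𝒟c.prod (hK.cnt.prod (fin_cnt (hYc.prod (countable_univ.prod hZc))))).image _
  · intro m hm S hS p hp Φ hΦ hG
    obtain ⟨z, ⟨hz1, hz2⟩, hz3⟩ := hG
    obtain ⟨Ψ, hΨd⟩ : ∃ Ψ : Finset (Name T × ℕ × (ℕ → ℕ)),
        Ψ = Φ.image fun e => (e.1, e.2, z e.1) := ⟨_, rfl⟩
    have hmemΨ : ∀ e ∈ Φ, (e.1, e.2, z e.1) ∈ Ψ := by
      intro e he
      rw [hΨd]
      exact Finset.mem_image_of_mem _ he
    have hofΨ : ∀ f ∈ Ψ, ∃ e ∈ Φ, f = (e.1, e.2, z e.1) := by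
      intro f hf
      rw [hΨd] at hf
      obtain ⟨e, he, rfl⟩ := Finset.mem_image.1 hf
      exact ⟨e, he, rfl⟩
    have hΨ : ph Ψ = Φ := by
      unfold ph
      rw [hΨd, Finset.image_image]
      exact Finset.image_id
    have hmem := hm ∅ Ψ (Wf K Z S p Ψ) ⟨(S, p, Ψ), ⟨hS, hp, by
      intro f hf
      obtain ⟨e, he, rfl⟩ := hofΨ f hf
      exact ⟨hΦ e he, mem_univ _, hz1 e he⟩⟩, rfl⟩
    obtain ⟨w, ⟨d, hd, hpd, hB⟩, hw2, -⟩ := hmem (by
      intro n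
      obtain ⟨q, hq, hpq, hdec⟩ := hz2 n
      obtain ⟨d, hd, hqd⟩ := (h𝒟p S hS).2 q hq
      obtain ⟨w, hw1, hw2⟩ := hZB (q ∪ d) hqd (Φ.image Prod.fst) (by
        intro y hy
        obtain ⟨e, he, rfl⟩ := Finset.mem_image.1 hy
        exact hΦ e he)
      have hsub : p ∪ d ⊆ q ∪ d := Finset.union_subset_union_left hpq
      refine ⟨w, ⟨d, hd, hK.down _ hqd _ hsub, ?_⟩, ?_⟩
      · rw [hΨ]
        refine ⟨fun e he => hw1 e.1 (Finset.mem_image_of_mem _ he), fun k => ?_⟩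
        obtain ⟨r, hr, hqr, h⟩ := hw2 k
        exact ⟨r, hr, hsub.trans hqr, fun e he i hi => h e.1 (Finset.mem_image_of_mem _ he) i hi⟩
      · intro f hf i hi
        obtain ⟨e, he, rfl⟩ := hofΨ f hf
        obtain ⟨r, hr, hqr, h⟩ := hw2 n
        obtain ⟨u, hu, hur⟩ := h e.1 (Finset.mem_image_of_mem _ he) i hi
        obtain ⟨u', hu', hur'⟩ := hdec e he i hi
        exact (hYn e.1 (hΦ e he)).inc i _ _ u hu u' hu' (hK.down r hr _
          (Finset.union_subset hur (hur'.trans (Finset.subset_union_left.trans hqr))))) (by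
      intro f hf i hi
      obtain ⟨e, he, rfl⟩ := hofΨ f hf
      exact hz3 e he i hi)
    refine ⟨d, hd, hpd, w, ?_, ?_⟩
    · rwa [hΨ] at hB
    · intro e he i hi
      exact hw2 _ (hmemΨ e he) i hi

end Pool.Agent.LZ
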