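import Pool.Agent.Lib.MP_10f401_gt.LZ.Ord

/-!
# Statements of the modules, part A: limits, new functions, the generic level

Every `S_Xyz` is proved in its own file `LZ/Xyz.lean` as `theorem tXyz : (... →) S_Xyz T`.
-/

set_option autoImplicit false
set_option linter.unusedSectionVars false
set_option linter.unusedVariables false

open Set Cardinal

namespace Pool.Agent.LZ

open Classical

variable (T : Type) [Big T]

/-- MK (about 110 lines).  A new first component from an extension of the complex.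
PROOF.  `d` has the components `X = c.X ∪ X'`, `K = K'`, `Y = c.Y ∪ Y'`, `O = c.O ∪ O'` and
`D = c.D ∪ D' ∪ {yD y n : y ∈ Y', n} ∪ {oD o s : o ∈ O', s} ∪ {stem sets}`, where the stem sets are
`{s | ∃ v, s = {st α n v}}` for all `α` with `Stem K' α` and all `n` (countable: `α ↦ {st α 0 0}` is
an injection into the countable set `K'`; predense by `Cx.st_pd`).  `Yn` for `y ∈ c.Y`: `Nm K' y`:
`sub` from `K ⊆ K'`, `bd` the same, `pd` because `yD y n ∈ c.D` (this is the same set as in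
`Nm.pd`), `inc` by `Ext.union` (`u, u' ∈ K`, `u ∪ u' ∈ K'`, hence `∈ K`).  `Os`, `OD`: the same.
`LeC d c`: `newY`: `e ∈ X'` by assumption, and `Avd` as assumed.  For `o t ⊆ K'` use `K ⊆ K'`. -/
def S_Mk : Prop := ∀ (c : Cn T) (K' : Set (Face T)), Cx K' → Ext c.K K' → (∀ S ∈ c.D, Pd K' S) →
  ∀ D' : Set (Set (Face T)), D'.Countable → (∀ S ∈ D', Pd K' S) →
  ∀ Y' : Set (Name T), Y'.Countable → (∀ y ∈ Y', Nm K' y) →
  ∀ O' : Set (ONm T), O'.Countable → (∀ o ∈ O', ∀ t, o t ⊆ K') →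
    (∀ o ∈ O', ∀ s, Pd K' (oD o s)) →
  ∀ X' : Set ((ℕ → Bool) × (ℕ → ℕ)), X'.Countable →
    (∀ x m m', (x, m) ∈ c.X ∪ X' → (x, m') ∈ c.X ∪ X' → m = m') →
    (∀ x m, (x, m) ∈ X' → ∀ n, m n < bb n) →
    (∀ e ∈ X', e ∉ c.X → ∀ y ∈ c.Y, ∃ E ∈ D', Avd K' E y e.2) →
    (∀ e ∈ X', e ∉ c.X → ∀ o ∈ c.O, oX o e.1 ∈ D') →
  ∃ d : Cn T, LeC d c ∧ d.K = K' ∧ d.X = c.X ∪ X' ∧ D' ⊆ d.D ∧ Y' ⊆ d.Y ∧ O' ⊆ d.O

/-- LIM (about 150 lines).  Limits of decreasing sequences.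
PROOF.  First `LeC (c m) (c n)` for `n ≤ m` (induction, `LeC.trans`).  `d` has as components the
unions.  (1) `S ∈ (c n).D` implies `Pd (⋃ K) S`: for `p ∈ (c m).K` put `j = max n m`; then
`S ∈ (c j).D`, `p ∈ (c j).K`, use `(c j).Dp`.  (2) `SR (c n).K l p` implies `SR (⋃ K) l p`: let `q`,
`F` be given; there is `m ≥ n` with `q ∈ (c m).K` and `Stem (c m).K α` for all `α ∈ F` (finite
set); `SR (c m).K l p` by `Ext.sr`; the `r` obtained is in `(c m).K ⊆ ⋃ K`.  (3) `Cx (⋃ K)`: `empty`,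
`down`, `cnt` (`Set.countable_iUnion`), `st_all`, `st_fun` each in one `(c n).K`; `st_pd` from (1) and
`Cn.stD` (if `{st α 0 0} ∈ (c n).K`); `sr_ext`, `sr_low` from (2).  (4) `Ext (c n).K (⋃ K)`: `ind`:
`p ∈ (c m).K`; if `m ≤ n` clear, otherwise `(Ext (c n).K (c m).K).ind`; `sr` is (2).  (5) `newY`:
`e ∈ (c m).X`, `e ∉ (c n).X` (so not `m ≤ n`), `y ∈ (c n).Y`: the `E ∈ (c m).D` with
`Avd (c m).K E y e.2` from `LeC (c m) (c n)`, then `Avd.ext` with `Ext (c m).K (⋃ K)`.  `newO` the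
same.  `Xi`: both pairs are in one `(c n).X`.  `Yn`: `y ∈ (c n).Y`: `pd` from `Cn.YD` and (1), `inc` by
`Ext.union`.  Unions of the names, `D`, `O`: countable. -/
def S_Lim : Prop := ∀ c : ℕ → Cn T, (∀ n, LeC (c (n + 1)) (c n)) →
  ∃ d : Cn T, (∀ n, LeC d (c n)) ∧ d.K = ⋃ n, (c n).K ∧ d.D = ⋃ n, (c n).D

/-- STMK (about 200 lines).  A new function number `α`.
PROOF.  For a finite set `s` of pairs of natural numbers let
`g s = s.image (fun e => Atom.st α e.1 e.2)`.  Let `K'` be the set of all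
`p ∪ g s`, `p ∈ K`, `s` functional (`(n,v), (n,v') ∈ s → v = v'`).  As `¬ Stem K α`, no `p ∈ K` contains
an atom `st α n v` (`Cx.stem`), so in `t = p ∪ g s` the parts `p = t.filter (not of the form
st α n v)` and `s` are determined by `t`; if `t' ⊆ t` then `t' = p' ∪ g s'` with `p' ⊆ p`, `s' ⊆ s`;
`t ∪ t' = (p ∪ p') ∪ g (s ∪ s')`.  `Ext.sub`: `s = ∅`.  `Ext.ind`: the atoms `st α n v` are not in `K`,
hence `s = ∅`.  `empty`, `down`, `cnt` clear.  `st_all`, `st_fun`: for `β ≠ α` from `K`, for `α` by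
definition.  `Pd K S → Pd K' S`: `p ∪ g s`, `d ∈ S` with `p ∪ d ∈ K`, so `(p ∪ d) ∪ g s ∈ K'`.
`st_pd`: `β ≠ α`: by the last point; `β = α`: given `p ∪ g s` and `n`: if some `(n,v) ∈ s` take this
`v`, otherwise `v = 0` and `s ∪ {(n,0)}`.
`sr_low`: let `Q = q ∪ g s` be low, `Q' = q' ∪ g s' ⊇ Q` low, `F` above `l`.  `Abv K' l F`; the
elements of `F` other than `α` are stems of `K`.  If `α ≤ l`: `α ∉ F`; `(sr_low l q')` for `K` with
`q'` and `F` gives `r ∈ K`, `q' ⊆ r`, `Large q' F N v₀ r`, where `DecSt q' β n` is impossible for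
`β > l` as `q'` is low; take `r ∪ g s'`.  If `l < α`: `s' = ∅` as `Q'` is low; take `r` for `F.erase α`
and `r ∪ g {(n, v₀) : n < N}`.
`Ext.sr`: `SR K l p`, `Q = q ∪ g s ∈ K'` low, `cut p l ⊆ Q`, hence `cut p l ⊆ q`: `r ∈ K` for
`F.erase α`, then `r ∪ g s` if `α ≤ l`, and `r ∪ g {(n, v₀) : n < N}` if `l < α` (then `s = ∅`).
`sr_ext`: `P = p ∪ g s`: take `p' ⊇ p` with `SR K l p'` and `P' = p' ∪ g s`.  `SR K' l P'`: let
`Q = q ∪ g t` low, `cut P' l ⊆ Q`.  So `cut p' l ⊆ q`, and `s ⊆ t` if `α ≤ l`.  Take `r ⊇ p' ∪ q` for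
`F.erase α`.  If `α ≤ l`: `r ∪ g t ⊇ P' ∪ Q`.  If `l < α`: `t = ∅`; take
`r ∪ g (s ∪ {(n, v₀) : n < N, n not in the domain of s})`. -/
def S_StmK : Prop := ∀ K : Set (Face T), Cx K → ∀ α : T, ¬ Stem K α →
  ∃ K' : Set (Face T), Cx K' ∧ Ext K K' ∧ Stem K' α ∧ ∀ S, Pd K S → Pd K' S

/-- STM (about 30 lines, from `S_Mk`, `S_StmK`).
PROOF.  If `Stem c.K α` take `d = c`.  Otherwise `S_StmK` and `S_Mk` with
`D' = Y' = O' = X' = ∅`. -/
def S_Stm : Prop := ∀ (c : Cn T) (α : T), ∃ d : Cn T, LeC d c ∧ Stem d.K α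

/-! ### the generic level -/

/-- the function `m` is generic for the requirements in `Q` -/
def GenFor {I : Type} (Q : Set (Finset I × Finset (I × ℕ × (ℕ → ℕ)) × Set (I → ℕ → ℕ)))
    (m : ℕ → ℕ) : Prop :=
  ∀ J Ψ W, (J, Ψ, W) ∈ Q → (∀ n, ∃ w ∈ W, ∀ e ∈ Ψ, ∀ i < n, w e.1 i = e.2.2 i) →
    (∀ e ∈ Ψ, ∀ i ≥ e.2.1, m i ≠ e.2.2 i) →
      ∃ w ∈ W, (∀ e ∈ Ψ, ∀ i ≥ e.2.1, m i ≠ w e.1 i) ∧ ∃ k, ∀ j ∈ J, ∀ i ≥ k, m i ≠ w j i

/-- GEN (about 150 lines).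
PROOF.  If `Q` is empty take `m = 0`.  Otherwise let `f : ℕ → Q` be a surjection.  Construct by
recursion states `(n, m, H)`, `n : ℕ`, `m : ℕ → ℕ`, `H : Finset (ℕ → ℕ)`, with `m i < bb i` for all
`i` and `H.card < bb n` (start: `n = 0`, `m = 0`, `H = ∅`).  STEP for `(J, Ψ, W) = f s` from
`(n, m, H)`: choose `N > n` with `H.card + J.card + Ψ.card < bb N` and redefine `m` on `[n, N)` with
`m' i < bb i` and `m' i ≠ h i` for all `h ∈ H` (there is such a value as `H.card < bb n ≤ bb i`: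
`Finset.exists_mem_notMem_of_card_lt_card` for `range (bb i)` and the image of `H`).  If `m'` agrees with the
forbidden value somewhere below `N` (there are `e ∈ Ψ`, `e.2.1 ≤ i < N` with `m' i = e.2.2 i`), or if the
first assumption of `GenFor` fails for this requirement, the new state is `(N, m', H)`.  Otherwise
take `w ∈ W` with `w e.1 i = e.2.2 i` for `e ∈ Ψ`, `i < N`, and let the new `H` be
`H ∪ {w j : j ∈ J} ∪ {w e.1 : e ∈ Ψ}`.  All states of the sequence: `n_s` increases strictly,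
`m_{s+1}` agrees with `m_s` below `n_s`, `H_s ⊆ H_{s+1}`, and `m_{s+1} i ≠ h i` for `h ∈ H_s`,
`n_s ≤ i < n_{s+1}`.  Let `m i = m_{i+1} i` (`= m_s i` for all `s` with `i < n_s`).  So `m i ≠ h i` for all
`i ≥ n_s`, `h ∈ H_s`.  If the requirement `f s` satisfies both assumptions, then we were in the last
case at step `s`, and `w` is as desired: for `e ∈ Ψ` and `e.2.1 ≤ i < n_{s+1}`:
`m i ≠ e.2.2 i = w e.1 i`; for `i ≥ n_{s+1}`: `w e.1 ∈ H_{s+1}`; `k = n_{s+1}`. -/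
def S_Gen : Prop := ∀ (I : Type) (Q : Set (Finset I × Finset (I × ℕ × (ℕ → ℕ)) × Set (I → ℕ → ℕ))),
  Q.Countable → ∃ m : ℕ → ℕ, (∀ n, m n < bb n) ∧ GenFor Q m

variable {T}

/-- `st y` (for `y ∈ J`) is a name of low rank which decides as much of `y` as is possible below
`p` -/
structure IsRed (K : Set (Face T)) (l : T) (p : Face T) (J : Finset (Name T))
    (st : Name T → Name T) : Prop where
  nm : ∀ y ∈ J, Nm K (st y)
  low : ∀ y ∈ J, ∀ n v, ∀ u ∈ st y n v, Low l u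
  up : ∀ q ∈ K, Low l q → cut p l ⊆ q → ∀ n, ∀ z : Name T → ℕ → ℕ,
    (∀ y ∈ J, ∀ i < n, Dec q (st y) i (z y i)) → ∀ F, Abv K l F → ∀ N v₀, ∃ r ∈ K, p ⊆ r ∧ q ⊆ r ∧
      Large p F N v₀ r ∧ ∀ y ∈ J, ∀ i < n, Dec r y i (z y i)
  dn : ∀ n, ∀ z : Name T → ℕ → ℕ, (∀ y ∈ J, ∀ i < n, Dec p y i (z y i)) →
    ∀ y ∈ J, ∀ i < n, Dec (cut p l) (st y) i (z y i)

/-- `l` and `l'` give the same initial segment of the atoms of `K` -/
def Same (K : Set (Face T)) (l l' : T) : Prop := ∀ a, ({a} : Face T) ∈ K → (rk a ≤ l ↔ rk a ≤ l')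

variable (T)

/-- RED (about 250 lines).  Reducts exist.
PROOF.  Write `w ≡_n w'` for: `w y i = w' y i` for all `y ∈ J`, `i < n` (`w : Name T → ℕ → ℕ`).  Let `K_l`
be the set of `q ∈ K` with `Low l q`, `cut p l ⊆ q`.  Let `E n w` be the set of all `q ∈ K_l` such that for
all `q' ∈ K_l`, `q ⊆ q'`, all `F` with `Abv K l F` and all `N`, `v₀` there is `r ∈ K` with `p ⊆ r`, `q' ⊆ r`,
`Large p F N v₀ r` and `Dec r y i (w y i)` for all `y ∈ J`, `i < n`.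
(E0) `E n w` is closed upwards in `K_l`, it depends on `w` below `n` on `J` only, `E (n+1) w ⊆ E n w`,
and `E 0 w = K_l` as `SR K l p`.
(E1) If `q ∈ E n w`, there are `w' ≡_n w` and `q' ∈ K_l`, `q ⊆ q'`, with `q' ∈ E (n+1) w'`.  Otherwise let
`V` be the finite list of all `w'` which equal `w` except that `w' y n` (`y ∈ J`) is replaced by an
arbitrary number `< bb n` (`Fintype.piFinset`/`Finset.pi`).  By induction on sublists of `V`: there is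
`q' ⊇ q` in `K_l` and `(F, N, v₀)` such that for all `w'` of the sublist there is no `r ∈ K` with
`p ⊆ r`, `q' ⊆ r`, `Large p F N v₀ r`, deciding `y i` as `w' y i` for `i < n+1` (`q' ∉ E (n+1) w'` gives a
larger `q''` and `(F', N', v₀')`; take unions and maxima, `Large.mono`).  Apply this to all of `V`;
as `q ∈ E n w` there is `r ∈ K`, `p ⊆ r`, `q' ⊆ r`, `Large p F N v₀ r` deciding below `n`; by `Nm.pd`
extend `r` (finitely many steps, one for each `y ∈ J`) to `r'` which decides `y n` for all `y ∈ J`; the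
values are `< bb n` by `Nm.bd`; `Dec` and `Large` are kept under extension; contradiction.
Define `F 0 w = K_l` and `F (n+1) w` = the set of all `q ∈ F n w ∩ E (n+1) w` such that for all
`w' ≡_n w` with `code n w' < code n w` no `q' ∈ K_l`, `q ⊆ q'` is in `E (n+1) w'`; here `code n w : ℕ` is the
encoding of the list of the `w y n`, `y ∈ J` (`Encodable.encode (J.toList.map fun y => w y n)`), so
`code n w = code n w'` iff `w y n = w' y n` for all `y ∈ J`.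
(F0) `F n w` is closed upwards in `K_l`, depends on `w` below `n` only, decreases with `n`,
`F n w ⊆ E n w`.
(F1) If `q ∈ F n w`, `q' ∈ F n w'`, `q ∪ q' ∈ K`, then `w ≡_n w'`: induction on `n`; for `n+1`: `w ≡_n w'`;
if `code n w' < code n w` then `q ∪ q' ∈ E (n+1) w'` contradicts `q ∈ F (n+1) w`; symmetric.
(F2) If `q ∈ F n w` there are `w' ≡_n w`, `q' ⊇ q`, `q' ∈ F (n+1) w'`: among all `w' ≡_n w` with some
`q' ⊇ q` in `E (n+1) w'` (there is one by (E1)) take one with the least code.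
Hence (F3): for every `q ∈ K_l` and `n` some `q' ⊇ q`, `q' ∈ K_l`, is in some `F n w`.
DEFINE `st y i v` = `{q | ∃ w, q ∈ F (i+1) w ∧ w y i = v}` together with (if `v = 0`) all low `q ∈ K` with
`q ∪ cut p l ∉ K`.
`Nm K (st y)`: `sub`: clear.  `bd`: `q ∈ F (i+1) w ⊆ E (i+1) w` gives `r` with `Dec r y i (w y i)`, so
`w y i < bb i` (`0 < bb i`).  `inc`: (F1) if both are from the first part; an element of the first
part contains `cut p l`, so it is incompatible with the elements of the second part.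
`pd`: let `t ∈ K`; take `t' ⊇ t` with `SR K l t'` (`sr_ext`), `u = cut t' l`.  If `u ∪ cut p l ∉ K`, then `u`
is in the second part, and `t ∪ u ⊆ t'`.  Otherwise `u ∪ cut p l ∈ K_l`, by (F3) there is
`q' ⊇ u ∪ cut p l` in `F (i+1) w` (in the set), and by `SR K l t'` (with `F = ∅`) there is
`r ∈ K`, `r ⊇ t' ∪ q' ⊇ t ∪ q'`.
`low`: clear.  `up`: let `q ∈ K_l` with `Dec q (st y) i (z y i)` for `y ∈ J`, `i < n`.  Claim: `q ∈ E n z`.
If `n = 0` or `J = ∅`: `E n z` contains `K_l` (`SR`).  Otherwise for `y ∈ J`, `i < n` there is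
`w^{y,i}` with `q ∈ F (i+1) w^{y,i}`, `w^{y,i} y i = z y i` (second part impossible, as
`cut p l ⊆ q`; `F` is closed upwards).  Fix `y₀ ∈ J`, `w = w^{y₀,n-1}`.  As `q ∈ F n w ⊆ F (i+1) w`, (F1) gives
`w ≡_{i+1} w^{y,i}`, so `z y i = w y i`.  Hence `z ≡_n w` and `q ∈ E n w = E n z`.  Now use the definition of
`E n z` with `q' = q`.
`dn`: let `Dec p y i (z y i)` for `y ∈ J`, `i < n`.  By induction on `k ≤ n`: `cut p l ∈ F k z`.
`cut p l ∈ E (k+1) z` for `k < n` as `SR K l p` and all `r ⊇ p` decide the same; if `w' ≡_k z` and some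
`q' ∈ K_l` is in `E (k+1) w'`, there is `r ∈ K`, `r ⊇ p` with `Dec r y k (w' y k)`, and `Dec r y k (z y k)`, so
by `Nm.inc` (`u ∪ u' ⊆ r ∈ K`) `w' y k = z y k` for all `y ∈ J`, `code k w' = code k z`.  So
`cut p l ∈ st y i (z y i)` for `i < n`, `y ∈ J`. -/
def S_Red : Prop := ∀ K : Set (Face T), Cx K → ∀ l p, SR K l p → ∀ J : Finset (Name T),
  (∀ y ∈ J, Nm K y) → ∃ st : Name T → Name T, IsRed K l p J st

/-- REP (about 60 lines).  Only countably many `l` are needed.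
PROOF.  `R = {rk a | {a} ∈ K}` is countable (`a ↦ {a}` is injective and `K` is countable).  Let `t` be
a strict upper bound of `R` (`bdd_of_countable`).  For `r ∈ R` let `g r` be some `l` with
`∀ r' ∈ R, r' ≤ l ↔ r' < r` if there is one (otherwise `g r = t`).  `L = {t} ∪ g '' R`.  Let `l` be
given.  If `r ≤ l` for all `r ∈ R`, then `Same K l t`.  Otherwise let `r` be the least element of
`{r ∈ R | l < r}`; then `r' ≤ l ↔ r' < r` for all `r' ∈ R`, so `g r` satisfies this, and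
`Same K l (g r)`. -/
def S_Rep : Prop := ∀ K : Set (Face T), Cx K → ∃ L : Set T, L.Countable ∧ ∀ l, ∃ l' ∈ L, Same K l l'

/-- SAM (about 60 lines).  The notions depend on `l` only up to `Same`.
PROOF.  For `q ∈ K`: `Low l q ↔ Low l' q` (each atom `a` of `q` has `{a} ∈ K`).  For `p ∈ K`:
`cut p l = cut p l'`.  `Abv K l F ↔ Abv K l' F`: for a stem `α` of `K`: `rk (st α 0 0) = α`, so
`α ≤ l ↔ α ≤ l'`, negate.  Rewrite in `SR` and `IsRed` (in `low`: `u ∈ st y n v ⊆ K` by `nm`; `p ∈ K` is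
assumed for `IsRed`). -/
def S_Sam : Prop := ∀ K : Set (Face T), Cx K → ∀ l l', Same K l l' →
  (∀ p, SR K l p → SR K l' p) ∧ ∀ p ∈ K, ∀ J st, IsRed K l p J st → IsRed K l' p J st

/-- ZBR (about 80 lines).  Branches in a countable set.
PROOF.  For `p ∈ K` and `J`: there is a sequence `q 0 = p ⊆ q 1 ⊆ ...` in `K` such that `q (n+1)`
decides `y n` for all `y ∈ J` (`Nm.pd` for the finitely many `y ∈ J` one after the other), let `z y n` be the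
value decided by `q (n+1)` (for `y ∈ J`).  Choose such a `z = z_{p,J}` for every `p ∈ K` and every finite
`J ⊆ Yn` (countably many pairs), and let `Z` be the set of all `z_{p,J} y`, `y ∈ J`. -/
def S_Zbr : Prop := ∀ K : Set (Face T), Cx K → ∀ Yn : Set (Name T), Yn.Countable →
  (∀ y ∈ Yn, Nm K y) → ∃ Z : Set (ℕ → ℕ), Z.Countable ∧ ∀ p ∈ K, ∀ J : Finset (Name T),
    (∀ y ∈ J, y ∈ Yn) → ∃ z : Name T → ℕ → ℕ, (∀ y ∈ J, z y ∈ Z) ∧
      ∀ n, ∃ q ∈ K, p ⊆ q ∧ ∀ y ∈ J, ∀ i < n, Dec q y i (z y i)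

/-- CLO (about 120 lines, from `S_Red`, `S_Rep`, `S_Sam`).  A countable set of names closed under
reducts.
PROOF.  Take `L` from `S_Rep`.  For `l ∈ L`, `p ∈ K`, finite `J` with `SR K l p` and `∀ y ∈ J, Nm K y` choose
`st₀ l p J` from `S_Red`.  Let `op J` be the countable set of all `st₀ l p J y`, `y ∈ J`,
`l ∈ L`, `p ∈ K`, if all elements of `J` are names over `K`, otherwise `∅`.  Let `A 0 = Y₀`,
`A (n+1) = A n ∪ ⋃ (J ⊆ A n finite), op J`: all countable (finite subsets of a countable set are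
countably many: `Set.Countable.setOf_finite`-like lemmas for `Finset`, e.g. `Countable (Finset A)`), and
consist of names over `K`.  `Yn = ⋃ n, A n`; a finite `J ⊆ Yn` is contained in some `A n`.  For
arbitrary `l` let `l' ∈ L` with `Same K l l'` and `st l p J = st₀ l' p J`; use `S_Sam` (`Same` is
symmetric). -/
def S_Clo : Prop := ∀ K : Set (Face T), Cx K → ∀ Y₀ : Set (Name T), Y₀.Countable →
  (∀ y ∈ Y₀, Nm K y) → ∃ Yn : Set (Name T), Y₀ ⊆ Yn ∧ Yn.Countable ∧ (∀ y ∈ Yn, Nm K y) ∧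
    ∃ st : T → Face T → Finset (Name T) → Name T → Name T, ∀ l p J, SR K l p → (∀ y ∈ J, y ∈ Yn) →
      IsRed K l p J (st l p J) ∧ ∀ y ∈ J, st l p J y ∈ Yn

variable {T}

/-- `z` is a branch (with values in `Z`) of the tree of the possibilities for the names in `Φ`
below `p` -/
def Brn (K : Set (Face T)) (Z : Set (ℕ → ℕ)) (p : Face T) (Φ : Finset (Name T × ℕ))
    (z : Name T → ℕ → ℕ) : Prop :=
  (∀ e ∈ Φ, z e.1 ∈ Z) ∧ ∀ n, ∃ q ∈ K, p ⊆ q ∧ ∀ e ∈ Φ, ∀ i < n, Dec q e.1 i (z e.1 i)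

/-- `m` avoids `z` as promised by `Φ` -/
def Av (m : ℕ → ℕ) (Φ : Finset (Name T × ℕ)) (z : Name T → ℕ → ℕ) : Prop :=
  ∀ e ∈ Φ, ∀ i ≥ e.2, m i ≠ z e.1 i

/-- the promises `Φ` can be kept below `p` -/
def Good (K : Set (Face T)) (Z : Set (ℕ → ℕ)) (m : ℕ → ℕ) (p : Face T)
    (Φ : Finset (Name T × ℕ)) : Prop := ∃ z, Brn K Z p Φ z ∧ Av m Φ z

/-- all names of `Φ` are in `Yn` -/
def Nms (Yn : Set (Name T)) (Φ : Finset (Name T × ℕ)) : Prop := ∀ e ∈ Φ, e.1 ∈ Yn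

/-- `Z` has branches for all finite sets of names in `Yn` -/
def ZB (K : Set (Face T)) (Yn : Set (Name T)) (Z : Set (ℕ → ℕ)) : Prop :=
  ∀ p ∈ K, ∀ J : Finset (Name T), (∀ y ∈ J, y ∈ Yn) → ∃ z : Name T → ℕ → ℕ, (∀ y ∈ J, z y ∈ Z) ∧
    ∀ n, ∃ q ∈ K, p ⊆ q ∧ ∀ y ∈ J, ∀ i < n, Dec q y i (z y i)

/-- genericity for a predense set -/
def GnD (K : Set (Face T)) (Yn : Set (Name T)) (Z : Set (ℕ → ℕ)) (m : ℕ → ℕ)
    (S : Set (Face T)) : Prop :=
  ∀ p ∈ K, ∀ Φ, Nms Yn Φ → Good K Z m p Φ → ∃ d ∈ S, p ∪ d ∈ K ∧ Good K Z m (p ∪ d) Φ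

/-- genericity for large faces -/
def GnL (K : Set (Face T)) (Yn : Set (Name T)) (Z : Set (ℕ → ℕ)) (m : ℕ → ℕ) : Prop :=
  ∀ (p q : Face T) (F : Finset T) (N v₀ : ℕ) (Φ : Finset (Name T × ℕ)) (z : Name T → ℕ → ℕ),
    (∀ α ∈ F, Stem K α) → Nms Yn Φ → (∀ e ∈ Φ, z e.1 ∈ Z) → Av m Φ z →
    (∀ n, ∃ r ∈ K, p ⊆ r ∧ q ⊆ r ∧ Large p F N v₀ r ∧ ∀ e ∈ Φ, ∀ i < n, Dec r e.1 i (z e.1 i)) →
    ∃ r ∈ K, p ⊆ r ∧ q ⊆ r ∧ Large p F N v₀ r ∧ Good K Z m r Φ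

/-- genericity for a new name -/
def GnY (K : Set (Face T)) (Yn : Set (Name T)) (Z : Set (ℕ → ℕ)) (m : ℕ → ℕ) : Prop :=
  ∀ p ∈ K, ∀ Φ, Nms Yn Φ → Good K Z m p Φ → ∀ y ∈ Yn, ∃ k, Good K Z m p (insert (y, k) Φ)

/-- genericity for reducts -/
def GnR (K : Set (Face T)) (Yn : Set (Name T)) (Z : Set (ℕ → ℕ)) (m : ℕ → ℕ) : Prop :=
  ∀ (l : T), ∀ p ∈ K, ∀ Φ, Nms Yn Φ → Good K Z m p Φ → ∃ p' st, p ⊆ p' ∧ SR K l p' ∧
    IsRed K l p' (Φ.image Prod.fst) st ∧ (∀ e ∈ Φ, st e.1 ∈ Yn) ∧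
    Good K Z m p' (Φ ∪ Φ.image fun e => (st e.1, e.2))

variable (T)

/-- QD (about 100 lines).
PROOF.  For `S ∈ 𝒟`, `p ∈ K`, finite `Ψ ⊆ Yn × ℕ × Z` let `W_{S,p,Ψ}` be the set of all `w` such that for
some `d ∈ S`: `p ∪ d ∈ K` and `Brn K Z (p ∪ d) (Φ_Ψ) w`, where `Φ_Ψ = Ψ.image (fun e => (e.1, e.2.1))`.  `Q`
is the set of all `(∅, Ψ, W_{S,p,Ψ})`; it is countable (image of a countable set: `𝒟`, `K` and the set of
finite subsets of `Yn × ℕ × Z` are countable).  Let `m` be generic, `Good K Z m p Φ` via `z`.  Put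
`Ψ = Φ.image (fun e => (e.1, e.2, z e.1))`; then `Φ_Ψ = Φ`.  First assumption of `GenFor`: let `n` be
given; `q ∈ K`, `p ⊆ q` decides `Φ` below `n` as `z`; `d ∈ S` with `q ∪ d ∈ K`; `ZB` for `q ∪ d` gives
`w` with `Brn K Z (q ∪ d) Φ w`, hence `Brn K Z (p ∪ d) Φ w` (`p ∪ d ∈ K` by `down`); `w e.1 i = z e.1 i`
for `i < n` by `Nm.inc`: some `r ∈ K`, `r ⊇ q ∪ d`, decides `e.1` at `i` as `w e.1 i`, and `q ⊆ r`
decides it as `z e.1 i`.  Second assumption: `Av m Φ z`.  The `w` obtained shows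
`Good K Z m (p ∪ d) Φ`. -/
def S_QD : Prop := ∀ K : Set (Face T), Cx K → ∀ Yn : Set (Name T), Yn.Countable →
  (∀ y ∈ Yn, Nm K y) → ∀ Z : Set (ℕ → ℕ), Z.Countable → ZB K Yn Z →
  ∀ 𝒟 : Set (Set (Face T)), 𝒟.Countable → (∀ S ∈ 𝒟, Pd K S) →
  ∃ Q : Set (Finset (Name T) × Finset (Name T × ℕ × (ℕ → ℕ)) × Set (Name T → ℕ → ℕ)),
    Q.Countable ∧ ∀ m, GenFor Q m → ∀ S ∈ 𝒟, GnD K Yn Z m S

/-- QL (about 90 lines).
PROOF.  As for `QD`: index: `p, q ∈ K`, `F` a finite set of stems of `K` (countably many), `N`, `v₀`,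
`Ψ ⊆ Yn × ℕ × Z` finite; `W` = the set of all `w` such that for some `r ∈ K` with `p ⊆ r`, `q ⊆ r`,
`Large p F N v₀ r`: `Brn K Z r Φ_Ψ w`.  (`p, q ∈ K` in `GnL` follows from the last assumption.)  First
assumption of `GenFor`: `r` for `n`, `ZB` for this `r`, and `Nm.inc`.  Second: `Av m Φ z`.  Here
`Ψ = Φ.image (fun e => (e.1, e.2, z e.1))`. -/
def S_QL : Prop := ∀ K : Set (Face T), Cx K → ∀ Yn : Set (Name T), Yn.Countable →
  (∀ y ∈ Yn, Nm K y) → ∀ Z : Set (ℕ → ℕ), Z.Countable → ZB K Yn Z →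
  ∃ Q : Set (Finset (Name T) × Finset (Name T × ℕ × (ℕ → ℕ)) × Set (Name T → ℕ → ℕ)),
    Q.Countable ∧ ∀ m, GenFor Q m → GnL K Yn Z m

/-- QY (about 80 lines).
PROOF.  As for `QD`: index: `p ∈ K`, `y ∈ Yn`, `Ψ`; `W` = the set of all `w` with
`Brn K Z p (insert (y, 0) Φ_Ψ) w`, and `J = {y}`.  First assumption of `GenFor`: `q ⊇ p` deciding `Φ`
below `n` as `z`, `ZB` for `q` and the names of `Φ` and `y`, `Nm.inc`.  The `w`, `k` obtained show
`Good K Z m p (insert (y, k) Φ)`. -/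
def S_QY : Prop := ∀ K : Set (Face T), Cx K → ∀ Yn : Set (Name T), Yn.Countable →
  (∀ y ∈ Yn, Nm K y) → ∀ Z : Set (ℕ → ℕ), Z.Countable → ZB K Yn Z →
  ∃ Q : Set (Finset (Name T) × Finset (Name T × ℕ × (ℕ → ℕ)) × Set (Name T → ℕ → ℕ)),
    Q.Countable ∧ ∀ m, GenFor Q m → GnY K Yn Z m

/-- QR (about 180 lines, from `S_Rep`, `S_Sam`).
PROOF.  Let `L` be as in `S_Rep`.  For `l ∈ L`, `p ∈ K`, finite `Ψ ⊆ Yn × ℕ × Z` let `J = Ψ.image Prod.fst`
and let `W` be the set of all `w` such that `w y ∈ Z` for `y ∈ J` and for some `p' ⊇ p` with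
`SR K l p'`: for all `n` there is `q ∈ K`, `Low l q`, `cut p' l ⊆ q` with `Dec q (st l p' J y) i (w y i)` for
all `y ∈ J`, `i < n`.  `Q` = the set of all `(∅, Ψ, W)`.  Let `Good K Z m p Φ` via `z`,
`Ψ = Φ.image (fun e => (e.1, e.2, z e.1))`, `J = Φ.image Prod.fst`, and first let `l ∈ L`.
First assumption of `GenFor` for `n`: `q ⊇ p` decides `Φ` below `n` as `z`; `p' ⊇ q` with `SR K l p'`
(`sr_ext`); by `IsRed.dn`, `cut p' l` decides `st l p' J y` below `n` as `z y` (`y ∈ J`).  `ZB` for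
`cut p' l` and the finite set `J.image (st l p' J)` gives `z'`; put `w y = z' (st l p' J y)`.
The faces `q' ⊇ cut p' l` deciding these names can be replaced by `cut q' l` (the faces of the
names are low, `IsRed.low`), so `w ∈ W`; `w y i = z y i` for `i < n` by `Nm.inc`.
The `w ∈ W` obtained from `GenFor` (with its `p'`) satisfies `Av m Φ w`.  Write `s y = st l p' J y`.
Let `z'' y' = w y'` if `y' ∈ J`; otherwise, if `y' = s y` for some `y ∈ J`, `z'' y' = w y` for a chosen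
such `y`; otherwise arbitrary.  For each `n` there is `q` as in the definition of `W`, and by
`IsRed.up` (with `F = ∅`) some `r ∈ K`, `p' ⊆ r`, `q ⊆ r` with `Dec r y i (w y i)` for `y ∈ J`, `i < n`; also
`Dec r (s y) i (w y i)`.  So `r` decides all names of `Φ ∪ Φ*` below `n` as `z''`; by `Nm.inc`
`z'' (s y) i = w y i` for all `y ∈ J`, `i < n`, and as `n` is arbitrary `z'' (s y) = w y`.  Hence
`Brn K Z p' (Φ ∪ Φ*) z''` and `Av m (Φ ∪ Φ*) z''`.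
For arbitrary `l` let `l' ∈ L`, `Same K l l'`, apply the above to `l'`, and use `S_Sam` for `SR` and
`IsRed` (`Same` is symmetric). -/
def S_QR : Prop := ∀ K : Set (Face T), Cx K → ∀ Yn : Set (Name T), Yn.Countable →
  (∀ y ∈ Yn, Nm K y) → ∀ Z : Set (ℕ → ℕ), Z.Countable → ZB K Yn Z →
  ∀ st : T → Face T → Finset (Name T) → Name T → Name T,
    (∀ l p J, SR K l p → (∀ y ∈ J, y ∈ Yn) →
      IsRed K l p J (st l p J) ∧ ∀ y ∈ J, st l p J y ∈ Yn) →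
  ∃ Q : Set (Finset (Name T) × Finset (Name T × ℕ × (ℕ → ℕ)) × Set (Name T → ℕ → ℕ)),
    Q.Countable ∧ ∀ m, GenFor Q m → GnR K Yn Z m

variable {T}

/-- the promise atoms: `a (y, k)` is the promise that the new function is different from `y`
from `k` on -/
structure IsAt (K : Set (Face T)) (Yn : Set (Name T)) (a : Name T × ℕ → Atom T) : Prop where
  inj : ∀ e e', e.1 ∈ Yn → e'.1 ∈ Yn → a e = a e' → e = e'
  pm : ∀ e, ∃ ρ i, a e = Atom.pm ρ i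
  new : ∀ e, e.1 ∈ Yn → ({a e} : Face T) ∉ K
  rk : ∀ e, e.1 ∈ Yn → ∀ l, rk (a e) ≤ l ↔ ∀ n v, ∀ u ∈ e.1 n v, Low l u

/-- the data of the generic level -/
structure Lv (K : Set (Face T)) (𝒟 : Set (Set (Face T))) (Yn : Set (Name T)) (Z : Set (ℕ → ℕ))
    (m : ℕ → ℕ) (a : Name T × ℕ → Atom T) : Prop where
  cx : Cx K
  cnt : Yn.Countable
  nm : ∀ y ∈ Yn, Nm K y
  mb : ∀ n, m n < bb n
  zb : ZB K Yn Z
  at_ : IsAt K Yn a
  gnD : ∀ S ∈ 𝒟, GnD K Yn Z m S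
  gnL : GnL K Yn Z m
  gnY : GnY K Yn Z m
  gnR : GnR K Yn Z m

variable (T)

/-- ATM (about 80 lines).
PROOF.  For `y ∈ Yn` the set `R_y` of the ranks of the atoms of the faces in the sets `y n v` is
countable (they are atoms of `K`), so it has an upper bound (`bdd_of_countable`); let `ρ y` be the least
upper bound (`WellFounded.min` of the set of upper bounds, `WellFoundedLT T`).  Then `ρ y ≤ l` iff all
these faces are low for `l`.  The set of all `i : ℕ → Bool` with `{pm ρ i} ∈ K` for some `ρ` is countable,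
and `ℕ → Bool` is uncountable, so there is an injection `j : ℕ → (ℕ → Bool)` which avoids it (the
complement of a countable set is uncountable, hence infinite: `Set.Infinite.natEmbedding`).  Let
`f : Yn × ℕ → ℕ` be injective (countable) and `a (y, k) = pm (ρ y) (j (f (y, k)))` for `y ∈ Yn`
(anything of the form `pm ..` otherwise). -/
def S_Atm : Prop := ∀ K : Set (Face T), Cx K → ∀ Yn : Set (Name T), Yn.Countable →
  (∀ y ∈ Yn, Nm K y) → ∃ a, IsAt K Yn a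

/-- LVE (about 40 lines, from `S_Clo`, `S_Zbr`, `S_Gen`, `S_QD`, `S_QL`, `S_QY`, `S_QR`, `S_Atm`).
PROOF.  Take `Yn`, `st` from `S_Clo`, `Z` from `S_Zbr`, `Q = Q_D ∪ Q_L ∪ Q_Y ∪ Q_R`, `m` from `S_Gen`
(`GenFor` of a union implies `GenFor` of the parts), `a` from `S_Atm`. -/
def S_LvE : Prop := ∀ (K : Set (Face T)) (𝒟 : Set (Set (Face T))) (Y₀ : Set (Name T)), Cx K →
  𝒟.Countable → (∀ S ∈ 𝒟, Pd K S) → Y₀.Countable → (∀ y ∈ Y₀, Nm K y) →
  ∃ Yn Z m a, Y₀ ⊆ Yn ∧ Lv K 𝒟 Yn Z m a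

variable {T}

/-- the complex of the new level -/
def LK (K : Set (Face T)) (Yn : Set (Name T)) (Z : Set (ℕ → ℕ)) (m : ℕ → ℕ)
    (a : Name T × ℕ → Atom T) : Set (Face T) :=
  {P | ∃ p ∈ K, ∃ Φ : Finset (Name T × ℕ), Nms Yn Φ ∧ Good K Z m p Φ ∧ P = p ∪ Φ.image a}

variable (T)

/-- LKB (about 130 lines).  Basic properties of the new complex.
PROOF.  `Good` is antitone in `p` and in `Φ`, and `Good K Z m p ∅` for `p ∈ K`.  (1) `∅`.  (2) `down`: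
`Q ⊆ p ∪ Φ.image a`: `Q = (Q ∩ p) ∪ (Φ.filter (a · ∈ Q)).image a`.  (3) countable: image of a
subset of `K × Finset (Yn × ℕ)`.  (4) `Φ = ∅`.  (5) if `p ∪ Φ.image a` has only atoms of `K` then `Φ = ∅`
by `IsAt.new`.  (6) uniqueness: if `p ∪ Φ.image a = p' ∪ Φ'.image a` with `p, p' ∈ K` and names in
`Yn`, then `p = p'` and `Φ = Φ'`; more generally `⊆` implies `p ⊆ p'` and `Φ ⊆ Φ'` (an atom `a e` is not an
atom of `p'`, `IsAt.new` and `Cx.sing`; `IsAt.inj`).  (7) the new atoms are not stem atoms. -/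
def S_Lkb : Prop := ∀ (K : Set (Face T)) (𝒟 : Set (Set (Face T))) (Yn : Set (Name T))
  (Z : Set (ℕ → ℕ)) (m : ℕ → ℕ) (a : Name T × ℕ → Atom T), Lv K 𝒟 Yn Z m a →
  (∅ : Face T) ∈ LK K Yn Z m a ∧
  (∀ P ∈ LK K Yn Z m a, ∀ Q ⊆ P, Q ∈ LK K Yn Z m a) ∧
  (LK K Yn Z m a).Countable ∧ K ⊆ LK K Yn Z m a ∧
  (∀ P ∈ LK K Yn Z m a, (∀ b ∈ P, ({b} : Face T) ∈ K) → P ∈ K) ∧
  (∀ p ∈ K, ∀ p' ∈ K, ∀ Φ Φ', Nms Yn Φ → Nms Yn Φ' → p ∪ Φ.image a ⊆ p' ∪ Φ'.image a →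
    p ⊆ p' ∧ Φ ⊆ Φ') ∧
  (∀ P ∈ LK K Yn Z m a, ∀ α n v, Atom.st α n v ∈ P → ∃ p ∈ K, p ⊆ P ∧ ∀ n' v',
    Atom.st α n' v' ∈ P → Atom.st α n' v' ∈ p)

/-- LKD (about 30 lines).
PROOF.  `S ⊆ K ⊆ LK`.  `P = p ∪ Φ.image a ∈ LK`: `GnD` gives `d ∈ S`, `p ∪ d ∈ K`,
`Good K Z m (p ∪ d) Φ`, so `P ∪ d = (p ∪ d) ∪ Φ.image a ∈ LK`. -/
def S_Lkd : Prop := ∀ (K : Set (Face T)) (𝒟 : Set (Set (Face T))) (Yn : Set (Name T))
  (Z : Set (ℕ → ℕ)) (m : ℕ → ℕ) (a : Name T × ℕ → Atom T), Lv K 𝒟 Yn Z m a →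
  K ⊆ LK K Yn Z m a → ∀ S ∈ 𝒟, Pd K S → Pd (LK K Yn Z m a) S

/-- LKS (about 120 lines, from `S_Lkb`).
PROOF.  Write `K' = LK K Yn Z m a`.  (1) `SR K l p → SR K' l p`: let `Q = q ∪ Φ.image a ∈ K'` be low,
`cut p l ⊆ Q`, so `cut p l ⊆ q` (new atoms are not atoms of `K`), `Low l q`, and all faces of the names in
`Φ` are low (`IsAt.rk`); `z` with `Brn K Z q Φ z`, `Av m Φ z`.  Let `F` with `Abv K' l F`; then
`Abv K l F` (stems of `K'` are stems of `K`: `Stem K' α` means `{st α 0 0} ∈ K'`, use `S_Lkb`).  For each `n`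
there is `q_n ∈ K`, `q ⊆ q_n`, deciding `Φ` below `n` as `z`; `cut q_n l` does the same (the faces of the
names are low) and contains `q`; by `SR K l p` there is `r ∈ K`, `p ⊆ r`, `cut q_n l ⊆ r`,
`Large p F N v₀ r`.  Now `GnL` with `(p, q)` gives `r ∈ K`, `p ⊆ r`, `q ⊆ r`, large, with
`Good K Z m r Φ`; `R = r ∪ Φ.image a`.
(2) `sr_low`: `P = p ∪ Φ.image a` low, let `Q = q ∪ Ψ.image a ∈ K'` be low with
`cut P l = P ⊆ Q`; `Abv K' l F`.  By `sr_low` for `K`, `SR K l q`.  By (1), `SR K' l q`, applied to `Q` itself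
(`cut q l ⊆ q ⊆ Q`): `R ∈ K'`, `Q ⊆ R`, `Large q F N v₀ R`; as `q` is low and `F` is above `l`, `DecSt q α n` is
impossible for `α ∈ F`, so `Large P F N v₀ R`. -/
def S_Lks : Prop := ∀ (K : Set (Face T)) (𝒟 : Set (Set (Face T))) (Yn : Set (Name T))
  (Z : Set (ℕ → ℕ)) (m : ℕ → ℕ) (a : Name T × ℕ → Atom T), Lv K 𝒟 Yn Z m a →
  (∀ l p, SR K l p → SR (LK K Yn Z m a) l p) ∧
  (∀ l, ∀ P ∈ LK K Yn Z m a, Low l P → SR (LK K Yn Z m a) l P)

/-- LKR (about 150 lines, from `S_Lkb`).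
PROOF.  Write `K' = LK K Yn Z m a`, `P = p ∪ Φ.image a ∈ K'`.  `GnR` gives `p' ⊇ p`, `st` with `SR K l p'`,
`IsRed K l p' (Φ.image Prod.fst) st`, `st e.1 ∈ Yn`, `Good K Z m p' (Φ ∪ Φ*)` with
`Φ* = Φ.image (fun e => (st e.1, e.2))`.  Let `P' = p' ∪ (Φ ∪ Φ*).image a ∈ K'`; `P ⊆ P'`.  `SR K' l P'`: let
`Q = q ∪ Ψ.image a ∈ K'` be low, `cut P' l ⊆ Q`, so `cut p' l ⊆ q`, and `Φ* ⊆ Ψ`: the atoms
`a (st e.1, e.2)` have rank `≤ l` (`IsAt.rk`, `IsRed.low`), so they are in `cut P' l` (use `S_Lkb` (6)).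
`zΨ` with `Brn K Z q Ψ zΨ`, `Av m Ψ zΨ`.  Let `Abv K' l F` (so `Abv K l F`).
For `n`: `q_n ∈ K`, `q ⊆ q_n` decides `Ψ` below `n` as `zΨ`; `cut q_n l` does the same and contains `q`
(all faces of the names in `Ψ` are low by `IsAt.rk` as `Q` is low).  By `IsRed.up` with
`z y = zΨ (st y)`: `r ∈ K`, `p' ⊆ r`, `cut q_n l ⊆ r`, `Large p' F N v₀ r`, `Dec r e.1 i (zΨ (st e.1) i)`
for `e ∈ Φ`, `i < n`; and `r` decides `Ψ` below `n` as `zΨ`.  Let `z y = zΨ y` if `y` is a name of `Ψ`, and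
`z y = zΨ (st y)` otherwise.  If `y` is a name of `Φ` and of `Ψ` then `zΨ y i = zΨ (st y) i` by `Nm.inc` for
`i < n`, for all `n`.  So `r` decides `Φ ∪ Ψ` below `n` as `z`, and `Av m (Φ ∪ Ψ) z` (for `e ∈ Φ`:
`z e.1 = zΨ (st e.1)` and `(st e.1, e.2) ∈ Φ* ⊆ Ψ`).  `GnL` with `(p', q)`, `Φ ∪ Ψ`, `z` gives `r` with
`Good K Z m r (Φ ∪ Ψ)`; `R = r ∪ (Φ ∪ Ψ).image a ∈ K'` contains `P'` (`Φ* ⊆ Ψ`) and `Q`; and
`Large P' F N v₀ R` from `Large p' F N v₀ r`. -/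
def S_Lkr : Prop := ∀ (K : Set (Face T)) (𝒟 : Set (Set (Face T))) (Yn : Set (Name T))
  (Z : Set (ℕ → ℕ)) (m : ℕ → ℕ) (a : Name T × ℕ → Atom T), Lv K 𝒟 Yn Z m a →
  ∀ l, ∀ P ∈ LK K Yn Z m a, ∃ P', P ⊆ P' ∧ SR (LK K Yn Z m a) l P'

/-- LKY (about 70 lines, from `S_Lkb`).
PROOF.  Write `K' = LK K Yn Z m a` and `E = {s | ∃ k, s = {a (y, k)} ∧ s ∈ K'}`.  `Pd K' E`:
`P = p ∪ Φ.image a`; `GnY` gives `k` with `Good K Z m p (insert (y, k) Φ)`, so
`P ∪ {a (y, k)} = p ∪ (insert (y, k) Φ).image a ∈ K'`, and `{a (y, k)} ∈ K'` by `down`.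
`Avd K' E y m`: let `s = {a (y, k)}`, `n ≥ k`, `u ∈ y n (m n)`, and suppose `s ∪ u ∈ K'`,
`s ∪ u = p ∪ Φ.image a`; then (`u ∈ K`, `a (y, k)` not an atom of `K`, `IsAt.inj`) `u ⊆ p` and
`(y, k) ∈ Φ`; `z` with `Brn K Z p Φ z`, `Av m Φ z`; `q ⊇ p` in `K` with `Dec q y n (z y n)`; also
`Dec q y n (m n)`, so `m n = z y n` by `Nm.inc`, contradiction to `Av` (`n ≥ k`). -/
def S_Lky : Prop := ∀ (K : Set (Face T)) (𝒟 : Set (Set (Face T))) (Yn : Set (Name T))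
  (Z : Set (ℕ → ℕ)) (m : ℕ → ℕ) (a : Name T × ℕ → Atom T), Lv K 𝒟 Yn Z m a →
  ∀ y ∈ Yn, ∃ E, Pd (LK K Yn Z m a) E ∧ Avd (LK K Yn Z m a) E y m

/-- LKX (about 90 lines).  A Cohen real over countably many names of dense open sets.
PROOF.  For `P ∈ K'`, `o ∈ 𝒪` call `t` good for `(P, o)` if some `u ∈ o t` has `P ∪ u ∈ K'`.  By
`Pd K' (oD o s)`: every `s` has an extension `t` which is good for `(P, o)`.  For `x' ∈ X₀` (countable): every
`s` has an extension which is not an initial segment of `x'` (append `!(x' s.length)`).  Enumerate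
these countably many requirements (if there are none: take `X₀ ∪ {0}`, so that there is one) and
build `t 0 <+: t 1 <+: ...` meeting them; also append one element in each step, so that the lengths
tend to infinity.  `x` = the limit (`x n` = the `n`-th element of `t k` for large `k`).  Then
`IsPre (t k) x`, so `x ∉ X₀` and for all `P`, `o`: some `t` with `IsPre t x` is good for `(P, o)`:
`u ∈ o t`, `u ∈ oX o x`, `P ∪ u ∈ K'`.  `oX o x ⊆ K'` as `o t ⊆ K'`. -/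
def S_Lkx : Prop := ∀ K' : Set (Face T), Cx K' → ∀ 𝒪 : Set (ONm T), 𝒪.Countable →
  (∀ o ∈ 𝒪, ∀ t, o t ⊆ K') → (∀ o ∈ 𝒪, ∀ s, Pd K' (oD o s)) → ∀ X₀ : Set (ℕ → Bool), X₀.Countable →
  ∃ x, x ∉ X₀ ∧ ∀ o ∈ 𝒪, Pd K' (oX o x)

/-- LEV (about 90 lines, from `S_Mk`, `S_LvE`, `S_Lkb`, `S_Lkd`, `S_Lks`, `S_Lkr`, `S_Lky`, `S_Lkx`).
PROOF.  `𝒟 = c.D`, `Y₀ = c.Y`, `Yn, Z, m, a` from `S_LvE` for `K = c.K`, `K' = LK c.K Yn Z m a`.  `Cx K'`:
`empty`, `down`, `cnt` from `S_Lkb`; `st_all`: `{st α n v} ∈ K'` is a face with atoms of `K` only (last part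
of `S_Lkb`: `st α n v ∈ p ∈ K`), use `Cx.st_all` for `K`; `st_fun`: both atoms are in one `p ∈ K`;
`st_pd`: `Cn.stD` and `S_Lkd`; `sr_ext`: `S_Lkr`, `sr_low`: `S_Lks`.  `Ext c.K K'`: `S_Lkb`, `S_Lks`.  For
each `y ∈ c.Y` choose `E y` from `S_Lky`.  `x` from `S_Lkx` with `𝒪 = c.O` (`Pd K' (oD o s)` from `Cn.OD` and
`S_Lkd`), `X₀ =` the first components of `c.X`.  `S_Mk` with `X' = {(x, m)}`,
`D' = {E y : y ∈ c.Y} ∪ {oX o x : o ∈ c.O}`, `Y' = O' = ∅`. -/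
def S_Lev : Prop := ∀ c : Cn T, ∃ d : Cn T, LeC d c ∧ ∃ e ∈ d.X, ∀ m, (e.1, m) ∉ c.X

end Pool.Agent.LZ
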