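import Pool.Agent.Lib.MP_10f401_gt.LZ.Base

/-!
# Statements of the modules, part B: amalgamation, reflection, capture

Every `S_Xyz` is proved in its own file `LZ/Xyz.lean` as `theorem tXyz : (... →) S_Xyz T`.
-/

set_option autoImplicit false
set_option linter.unusedSectionVars false
set_option linter.unusedVariables false

open Set Cardinal

namespace Pool.Agent.LZ

open Classical

variable (T : Type) [Big T]

/-! ### amalgamation -/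

/-- FDC (about 50 lines).  Deciding a name of a function at finitely many places by a low face.
PROOF.  Induction on `M` (`Finset.induction_on`): let `s'` be given for `M`; by `NmF.pd` (with
`s' ∈ K`) there is `u ∈ f n v` with `s' ∪ u ∈ K`; it is low. -/
def S_Fdc : Prop := ∀ (K : Set (Face T)) (f : Name T) (l : T), Cx K → NmF K f →
  (∀ n v, ∀ u ∈ f n v, Low l u) → ∀ s ∈ K, Low l s → ∀ M : Finset ℕ,
    ∃ s' ∈ K, Low l s' ∧ s ⊆ s' ∧ ∀ n ∈ M, ∃ v, Dec s' f n v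

/-- DL (about 90 lines, from `S_Fdc`).  Domination: the second function is decided only where the first is.
PROOF.  Let `M` be the finite set of all `n` with `DecSt q η n` or `DecSt p ξ n` (finite: the second
components of the stem atoms of the faces).  `S_Fdc` for `K₁`, `s = cut p l`: `s'` low,
`cut p l ⊆ s' ∈ K₁`, deciding `f` on `M`; values `w n`.  `p₁ = p ∪ s'`, `q₁ = q ∪ s'`: `SR.up`
(`cut q l = cut p l ⊆ s'`, `s' ∈ K₂` by `com`), `cut p₁ l = s' = cut q₁ l`.  By `SR K₁ l p₁` with the low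
face `s'`, `F = {ξ}`, `N` larger than all elements of `M`, `v₀` at least all `w n`, `n ∈ M`: `r ∈ K₁`,
`p₁ ⊆ r`, `Large p₁ {ξ} N v₀ r`.  `p₂ ⊇ r` with `SR K₁ l p₂` (`sr_ext`), `s₂ = cut p₂ l ⊇ s'`,
`q₂ = q₁ ∪ s₂` (`SR.up`).  `SB p₂ q₂`.  The stem atoms of `η` in `q₂` are those of `q` (`s'`, `s₂` are low,
`l < η`).  Domination: `DecSt q₂ η n` implies `n ∈ M`, `n < N`, so `DecSt p₁ ξ n` or `st ξ n v ∈ r`; both are
in `p₂`.  `CC`: let `st ξ n a ∈ p₂`, `st η n b ∈ q₂`, `n ≥ k`; `n < N`.  If `DecSt p₁ ξ n` then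
`st ξ n a' ∈ p` for some `a'` (`s'` is low), `a' = a` (`st_fun`), `st η n b ∈ q`, and `CC p q` gives
`v ≤ max a b` with `Dec (cut p l) f n v`, `cut p l ⊆ cut p₂ l`.  Otherwise `st ξ n v ∈ r`, `v₀ ≤ v`, so `v = a`,
and `Dec s' f n (w n)`, `w n ≤ v₀ ≤ a`, `s' ⊆ cut p₂ l`. -/
def S_Dl : Prop := ∀ (K₁ K₂ : Set (Face T)) (l ξ η : T) (f : Name T) (k : ℕ) (e : Prop),
  Tw K₁ K₂ l ξ η f → ∀ p q, SB K₁ K₂ l p q → (e → CC l ξ η f k p q) →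
  ∃ p' q', p ⊆ p' ∧ q ⊆ q' ∧ SB K₁ K₂ l p' q' ∧ (e → CC l ξ η f k p' q') ∧
    ∀ n, DecSt q' η n → DecSt p' ξ n

/-- ED (about 100 lines, from `S_Fdc`).  Extension of the first face.
PROOF.  `p₁ ⊇ p'` with `SR K₁ l p₁` (`sr_ext`).  `M` = the finite set of all `n` with `DecSt p₁ ξ n`.
`S_Fdc` for `K₁`, `s = cut p₁ l`: `s'` low, `cut p₁ l ⊆ s' ∈ K₁`, deciding `f` on `M`, values `w n`.
`p₂ = p₁ ∪ s'`, `SR K₁ l p₂`, `cut p₂ l = s'` (`SR.up`).  `cut q l = cut p l ⊆ s'`, `s' ∈ K₂`.  By `SR K₂ l q`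
with the low face `s'`, `insert η F`, `N' ≥ N` larger than all elements of `M`, `v₀' ≥ v₀` at least all
`w n`, `n ∈ M`: `r ∈ K₂`, `q ⊆ r`, `s' ⊆ r`, `Large q (insert η F) N' v₀' r` (`Abv K₂ l (insert η F)`:
`lt₂`, `st₂`).  `q'' ⊇ r` with `SR K₂ l q''`, `s'' = cut q'' l ⊇ s'`, `p'' = p₂ ∪ s''` (`SR.up`, `s'' ∈ K₁`).
`SB p'' q''`.  `Large q F N v₀ q''` (`Large.mono`).
`CC p'' q''` if `e`: let `st ξ n a ∈ p''`, `st η n b ∈ q''`, `n ≥ k`.  `st ξ n a ∈ p₁` as `s'`, `s''` are low and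
`l < ξ`; so `n ∈ M`, `n < N'`.  If `DecSt q η n`, then by assumption `DecSt p ξ n`; the values are `a`
and `b` by `st_fun` (`q ⊆ q''`, `p ⊆ p''`), and `CC p q` gives `v`, `Dec (cut p l) f n v`,
`cut p l ⊆ cut p'' l`.  Otherwise `st η n v ∈ r` with `v₀' ≤ v`, `v = b`, and `Dec s' f n (w n)`,
`w n ≤ v₀' ≤ b`. -/
def S_Ed : Prop := ∀ (K₁ K₂ : Set (Face T)) (l ξ η : T) (f : Name T) (k : ℕ) (e : Prop),
  Tw K₁ K₂ l ξ η f → ∀ p q, SB K₁ K₂ l p q → (e → CC l ξ η f k p q) →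
  (e → ∀ n, DecSt q η n → DecSt p ξ n) → ∀ p' ∈ K₁, p ⊆ p' → ∀ F, Abv K₂ l F → ∀ N v₀,
  ∃ p'' q'', p' ⊆ p'' ∧ q ⊆ q'' ∧ SB K₁ K₂ l p'' q'' ∧ (e → CC l ξ η f k p'' q'') ∧
    Large q F N v₀ q''

/-- AMB (about 160 lines).  Basic properties of the amalgam.  Write `A = AK K₁ K₂ l ξ η f k star`.
PROOF.  (0) An atom `a` with `{a} ∈ K₁` and `{a} ∈ K₂` has `rk a ≤ l` (`r₁`, `r₂`).  So if `SB p q`, `a ∈ q`
and `{a} ∈ K₁` then `a ∈ cut q l = cut p l ⊆ p`; symmetric.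
(2) `down` clear.  (3) countable: `A` is contained in the union over `p ∈ K₁`, `q ∈ K₂` of the finite
sets of the subsets of `insert star (p ∪ q)`.  (4) `K₁ ⊆ A`: `p' ⊇ p` with `SR K₁ l p'`, and
`q = cut p' l ∈ K₂` (`com`), `SR K₂ l q` by `sr_low`; `star ∉ p` by `s₁`.  Then (1) `∅ ∈ A`.  (5) the same
for `K₂`.  (6) `ind`: `t ∈ A` with all atoms in `K₁`: `star ∉ t`, so `t ⊆ p ∪ q`, by (0) `t ⊆ p`.  (7) the
same for `K₂`.  (8) if `st α n v ∈ t` then it is not `star` (`spm`).  (9) two atoms `st α n v`,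
`st α n v'` of `t ⊆ insert star (p ∪ q)`: if both are in `p` or both in `q`: `st_fun`.  If
`st α n v ∈ p`, `st α n v' ∈ q`: `{st α n v'} ∈ K₁` by `st_all`, so by (0) it is in `p`.
(10) `SB p q`: `a ∈ p ∪ q`, `{a} ∈ K₂` implies `a ∈ q`, etc.: this is (0). -/
def S_Amb : Prop := ∀ (K₁ K₂ : Set (Face T)) (l β ξ η : T) (f : Name T) (k : ℕ) (star : Atom T),
  Am K₁ K₂ l β ξ η f star →
  (∅ : Face T) ∈ AK K₁ K₂ l ξ η f k star ∧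
  (∀ t ∈ AK K₁ K₂ l ξ η f k star, ∀ t' ⊆ t, t' ∈ AK K₁ K₂ l ξ η f k star) ∧
  (AK K₁ K₂ l ξ η f k star).Countable ∧
  K₁ ⊆ AK K₁ K₂ l ξ η f k star ∧ K₂ ⊆ AK K₁ K₂ l ξ η f k star ∧
  (∀ t ∈ AK K₁ K₂ l ξ η f k star, (∀ a ∈ t, ({a} : Face T) ∈ K₁) → t ∈ K₁) ∧
  (∀ t ∈ AK K₁ K₂ l ξ η f k star, (∀ a ∈ t, ({a} : Face T) ∈ K₂) → t ∈ K₂) ∧
  (∀ t ∈ AK K₁ K₂ l ξ η f k star, ∀ α n v, Atom.st α n v ∈ t → Stem K₁ α ∨ Stem K₂ α) ∧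
  (∀ t ∈ AK K₁ K₂ l ξ η f k star, ∀ α n v v', Atom.st α n v ∈ t → Atom.st α n v' ∈ t → v = v') ∧
  (∀ p q, SB K₁ K₂ l p q → (∀ a ∈ q, ({a} : Face T) ∈ K₁ → a ∈ p) ∧
    ∀ a ∈ p, ({a} : Face T) ∈ K₂ → a ∈ q)

/-- AMP (about 80 lines, from `S_Dl`, `S_Ed`, `S_Amb`).
PROOF.  Let `Pd K₁ S`, `t ∈ A`, `t ⊆ insert star (p ∪ q)`, `e = (star ∈ t)`.  By `S_Dl` we may assume the
domination `DecSt q η n → DecSt p ξ n`.  `d ∈ S` with `p ∪ d ∈ K₁`.  `S_Ed` with `p' = p ∪ d` and `F = ∅`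
gives `(p'', q'')`; `t ∪ d ⊆ insert star (p'' ∪ q'')`, and `star ∈ t ∪ d` implies `star ∈ t` (`star ∉ d`,
`s₁`).  `S ⊆ K₁ ⊆ A`.  For `K₂`: the same with the roles of `K₁`, `K₂` interchanged (`Tw.symm`,
`SB.symm`, `CC.symm`). -/
def S_Amp : Prop := ∀ (K₁ K₂ : Set (Face T)) (l β ξ η : T) (f : Name T) (k : ℕ) (star : Atom T),
  Am K₁ K₂ l β ξ η f star → ∀ S, (Pd K₁ S → Pd (AK K₁ K₂ l ξ η f k star) S) ∧
    (Pd K₂ S → Pd (AK K₁ K₂ l ξ η f k star) S)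

/-- AMQ (about 120 lines, from `S_Dl`, `S_Ed`, `S_Amb`).  Normal form of low faces of the amalgam.
PROOF.  (i) `Q ⊆ insert star (p ∪ q)`, `Low λ Q`, `λ < β`: `star ∉ Q` as `rk star = η ≥ β`; an atom
`a ∈ Q`, `a ∈ q` has `rk a ≤ l` by `r₂`, so `a ∈ cut q l = cut p l ⊆ p`.  So `Q ⊆ p ∈ K₁`.
(ii) `β ≤ λ`.  Let `Q ⊆ insert star (p ∪ q)` with `SB p q` and `star ∈ Q → CC p q`.  If `star ∈ Q` then
`η ≤ λ`, and by `S_Dl` (roles interchanged) we may assume `DecSt p ξ n → DecSt q η n`.  Replace `q`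
by `q₁ = cut q λ`: `SR K₂ l q₁` by `SR.cut` (`l < β ≤ λ`), `cut q₁ l = cut q l` (`cut_cut`); `CC p q₁` as
`q₁ ⊆ q`; `DecSt q η n → DecSt q₁ η n` if `η ≤ λ`; `Q ⊆ insert star (p ∪ q₁)` as `Q` is low for `λ`.
(iii) the extension: from `(p, q)` as in (ii) and `q' ∈ K₂`, `q ⊆ q'`: `S_Ed` with interchanged roles
and `e = (star ∈ Q)`, `F = ∅`. -/
def S_Amq : Prop := ∀ (K₁ K₂ : Set (Face T)) (l β ξ η : T) (f : Name T) (k : ℕ) (star : Atom T),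
  Am K₁ K₂ l β ξ η f star → ∀ (lam : T), ∀ Q ∈ AK K₁ K₂ l ξ η f k star, Low lam Q →
  (lam < β → Q ∈ K₁) ∧
  (β ≤ lam → ∃ p q, SB K₁ K₂ l p q ∧ (star ∈ Q → CC l ξ η f k p q) ∧
    Q ⊆ insert star (p ∪ q) ∧ Low lam q ∧
    ∀ q' ∈ K₂, q ⊆ q' → ∃ p'' q'', p ⊆ p'' ∧ q' ⊆ q'' ∧ SB K₁ K₂ l p'' q'' ∧
      (star ∈ Q → CC l ξ η f k p'' q''))

/-- AML (about 110 lines, from `S_Ed`, `S_Amb`, `S_Amq`).  Low faces are strong reductions.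
PROOF.  Let `t ∈ A` be low for `λ`, `Q ∈ A` low, `cut t λ = t ⊆ Q`, `Abv A λ F`.
Case `λ < β`: `Q ∈ K₁` (`S_Amq`).  Let `F₁` be the set of the `α ∈ F` with `Stem K₁ α`, `F₂ = F \ F₁`; all
`α ∈ F₂` are stems of `K₂` (`S_Amb`: `{st α 0 0} ∈ A`), and `l < α` (otherwise `{st α 0 0}` is low for
`l`, so in `K₁` by `com`).  By `sr_low` of `K₁`: `r ∈ K₁`, `Q ⊆ r`, `Large Q F₁ N v₀ r`, where
`DecSt Q α n` is impossible as `Q` is low.  `p₁ ⊇ r` with `SR K₁ l p₁`; `(p₁, cut p₁ l)` is `SB`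
(`sr_low` of `K₂`, `com`).  `S_Ed` with `e = False`, `p = p' = p₁`, `F₂`: `(p'', q'')` with
`Large (cut p₁ l) F₂ N v₀ q''` (no `DecSt`, as `l < α`).  `R = p'' ∪ q'' ∈ A` (`star ∉ R` by `s₁`, `s₂`).
Case `β ≤ λ`: all `α ∈ F` are stems of `K₂` (stems of `K₁` are `< β` by `r₁`).  `(p, q)` from `S_Amq` for
`Q`; `q` is low, so by `sr_low` of `K₂` there is `q' ⊇ q` with `Large q F N v₀ q'` (no `DecSt`);
`(p'', q'')` from `S_Amq`; `R = p'' ∪ q'' ∪ Q ∈ A`: `star ∈ R` implies `star ∈ Q`. -/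
def S_Aml : Prop := ∀ (K₁ K₂ : Set (Face T)) (l β ξ η : T) (f : Name T) (k : ℕ) (star : Atom T),
  Am K₁ K₂ l β ξ η f star → ∀ lam, ∀ t ∈ AK K₁ K₂ l ξ η f k star, Low lam t →
    SR (AK K₁ K₂ l ξ η f k star) lam t

/-- AMS (about 90 lines, from `S_Ed`, `S_Amb`, `S_Amq`, `S_Aml`).  Strong reductions of `K₁`.
PROOF.  Let `SR K₁ λ p`.  If `β ≤ λ` then `p` is low for `λ` (`r₁`), use `S_Aml` (`p ∈ A` by `S_Amb`).
If `λ < β`: `Q ∈ A` low, `cut p λ ⊆ Q`; `Q ∈ K₁` (`S_Amq`).  `F = F₁ ∪ F₂` as in `S_Aml`.  `SR K₁ λ p`: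
`r ∈ K₁`, `p ∪ Q ⊆ r`, `Large p F₁ N v₀ r`.  `p₁ ⊇ r` with `SR K₁ l p₁`, `(p₁, cut p₁ l)` is `SB`, `S_Ed` with
`e = False`, `p = p' = p₁`, `F₂`: `(p'', q'')`, `Large (cut p₁ l) F₂ N v₀ q''`, no `DecSt`.
`R = p'' ∪ q''`. -/
def S_Ams : Prop := ∀ (K₁ K₂ : Set (Face T)) (l β ξ η : T) (f : Name T) (k : ℕ) (star : Atom T),
  Am K₁ K₂ l β ξ η f star → ∀ lam p, SR K₁ lam p → SR (AK K₁ K₂ l ξ η f k star) lam p

/-- AMT (about 150 lines, from `S_Ed`, `S_Amb`, `S_Amq`).  Strong reductions of `K₂`.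
PROOF.  Let `SR K₂ λ q₀`, `Q ∈ A` low, `cut q₀ λ ⊆ Q`, `Abv A λ F`.
Case `β ≤ λ`: all `α ∈ F` are stems of `K₂` (`r₁`).  `(p, q)` from `S_Amq` for `Q`.  `cut q₀ λ ⊆ q`: its
atoms are in `Q ⊆ insert star (p ∪ q)`, are not `star` (`s₂`), and if they are in `p` then in `q`
(last part of `S_Amb`).  `SR K₂ λ q₀` with `q`: `r ∈ K₂`, `q₀ ∪ q ⊆ r`, `Large q₀ F N v₀ r`.  `(p'', q'')` from
`S_Amq` with `q' = r`; `R = p'' ∪ q'' ∪ Q`.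
Case `λ < β`: `Q ∈ K₁`.  Let `F₂` be the set of the `α ∈ F` with `Stem K₂ α`, `F₁ = F \ F₂` (stems of `K₁`).
Sub-case `λ ≤ l`: `Q` is low for `l`, so `Q ∈ K₂`; `SR K₂ λ q₀`: `r ∈ K₂`, `q₀ ∪ Q ⊆ r`,
`Large q₀ F₂ N v₀ r`; `q₁ ⊇ r` with `SR K₂ l q₁`, `(cut q₁ l, q₁)` is `SB`; elements of `F₁` are `> l`
(otherwise stems of `K₂` by `com`); `S_Ed` with interchanged roles, `e = False`: `(p'', q'')`,
`q₁ ⊆ q''`, `Large (cut q₁ l) F₁ N v₀ p''` (no `DecSt`).  `R = p'' ∪ q''`.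
Sub-case `l < λ < β`: `cut q₀ λ = cut q₀ l` (`r₂`), and `SR K₂ l q₀`: `Q'` low for `l` is low for `λ`, and
the stems of `K₂` above `l` are `≥ β > λ`.  Let `F₁'` = the stems of `K₁` in `F`, `F₂' = F \ F₁'` (stems of
`K₂`, `> l`).  `sr_low` of `K₁` for `Q`: `r ∈ K₁`, `Q ⊆ r`, `Large Q F₁' N v₀ r` (no `DecSt`).  `p₁ ⊇ r` with
`SR K₁ l p₁`, `s = cut p₁ l`; `cut q₀ l ⊆ Q ⊆ p₁`, so `cut q₀ l ⊆ s`; `q₁ = q₀ ∪ s` (`SR.up`), `SB p₁ q₁`.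
`S_Ed` with `e = False`, `p' = p₁`, `F₂'`: `(p'', q'')`, `Large q₁ F₂' N v₀ q''`, hence
`Large q₀ F₂' N v₀ q''` (`s` is low for `l`).  An `α ∈ F₁'`: `st α n v ∈ r ⊆ p''`.  `R = p'' ∪ q''`. -/
def S_Amt : Prop := ∀ (K₁ K₂ : Set (Face T)) (l β ξ η : T) (f : Name T) (k : ℕ) (star : Atom T),
  Am K₁ K₂ l β ξ η f star → ∀ lam q, SR K₂ lam q → SR (AK K₁ K₂ l ξ η f k star) lam q

/-- AMU (about 120 lines, from `S_Dl`, `S_Ed`, `S_Amb`, `S_Amq`).  `sr_ext` for `λ < β`.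
PROOF.  `P ⊆ insert star (p ∪ q)`, `SB p q`, `e = (star ∈ P)`, `e → CC p q`.  By `S_Dl` assume
`DecSt q η n → DecSt p ξ n`.  `p₁ ⊇ p` with `SR K₁ λ p₁`.  `P' = p₁ ∪ q ∪ P ∈ A`: `S_Ed` with `p' = p₁`,
`F = ∅`; `star ∈ P'` implies `star ∈ P`.  `SR A λ P'`: `Q ∈ A` low, `cut P' λ ⊆ Q`, `Abv A λ F`;
`Q ∈ K₁` (`S_Amq`), `cut p₁ λ ⊆ Q`.  `F₁` = the stems of `K₁` in `F`, `F₂` the others (stems of `K₂`, `> l` by
`com`).  `SR K₁ λ p₁`: `r ∈ K₁`, `p₁ ∪ Q ⊆ r`, `Large p₁ F₁ N v₀ r`.  `S_Ed` for `(p, q)` with `p' = r`, `F₂`: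
`(p'', q'')`, `Large q F₂ N v₀ q''`.  `R = p'' ∪ q'' ∪ P' ∈ A` (`R ⊆ insert star (p'' ∪ q'')` and
`star ∈ R` implies `star ∈ P`). -/
def S_Amu : Prop := ∀ (K₁ K₂ : Set (Face T)) (l β ξ η : T) (f : Name T) (k : ℕ) (star : Atom T),
  Am K₁ K₂ l β ξ η f star → ∀ lam < β, ∀ P ∈ AK K₁ K₂ l ξ η f k star,
    ∃ P', P ⊆ P' ∧ SR (AK K₁ K₂ l ξ η f k star) lam P'

/-- AMV (about 120 lines, from `S_Dl`, `S_Ed`, `S_Amb`, `S_Amq`).  `sr_ext` for `β ≤ λ` if `star ∉ P` or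
`η ≤ λ`.
PROOF.  `P ⊆ insert star (p ∪ q)`, `SB p q`, `e = (star ∈ P)`, `e → CC p q`.  By `S_Dl` (interchanged
roles) assume `DecSt p ξ n → DecSt q η n`.  `q₁ ⊇ q` with `SR K₂ λ q₁`.  `P' = P ∪ p ∪ q₁ ∈ A`: `S_Ed`
(interchanged) with `q' = q₁`, `F = ∅`; `star ∈ P'` implies `star ∈ P`.  `SR A λ P'`: let `Q ∈ A` be low,
`cut P' λ ⊆ Q`, `Abv A λ F`: all `α ∈ F` are stems of `K₂` (`r₁`).  `star ∈ P` implies `star ∈ Q` (as `η ≤ λ`).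
`(p₄, q₄)` from `S_Amq` for `Q`.  `p ⊆ p₄`: the atoms of `p` have rank `< β ≤ λ`, so `p ⊆ Q`, they are
not `star` (`s₁`), and if they are in `q₄`, then in `p₄` (last part of `S_Amb`).  `cut q₁ λ ⊆ q₄` the
same way.  `SR K₂ λ q₁` with `q₄`: `r ∈ K₂`, `q₁ ∪ q₄ ⊆ r`, `Large q₁ F N v₀ r`.  `(p'', q'')` from `S_Amq`
with `q' = r`.  `R = Q ∪ P' ∪ p'' ∪ q'' ∈ A`: `star ∈ R` implies `star ∈ Q`;
`P ⊆ insert star (p ∪ q) ⊆ insert star (p'' ∪ q'')`. -/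
def S_Amv : Prop := ∀ (K₁ K₂ : Set (Face T)) (l β ξ η : T) (f : Name T) (k : ℕ) (star : Atom T),
  Am K₁ K₂ l β ξ η f star → ∀ lam, β ≤ lam → ∀ P ∈ AK K₁ K₂ l ξ η f k star,
    (star ∈ P → η ≤ lam) → ∃ P', P ⊆ P' ∧ SR (AK K₁ K₂ l ξ η f k star) lam P'

/-- AMW (about 180 lines, from `S_Fdc`, `S_Dl`, `S_Ed`, `S_Amb`, `S_Amq`).  `sr_ext` for `β ≤ λ < η`, `star ∈ P`.
PROOF.  `P ⊆ insert star (p ∪ q)`, `SB p q`, `CC p q`.  By `S_Dl` (interchanged) assume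
`DecSt p ξ n → DecSt q η n`.  `q₁ ⊇ q` with `SR K₂ λ q₁`.  `S_Ed` (interchanged, `e = True`) with `q' = q₁`:
`(p', q')` with `p ⊆ p'`, `q₁ ⊆ q'`; `S_Dl`: `(p₂, q₂) ⊇ (p', q')` with `SB`, `CC` and
`DecSt q₂ η n → DecSt p₂ ξ n`.  `P' = insert star (p₂ ∪ q₁) ∪ P ∈ A` (contained in
`insert star (p₂ ∪ q₂)`).  `SR A λ P'`: let `Q ∈ A` be low, `cut P' λ ⊆ Q`, `Abv A λ F`; all `α ∈ F` are
stems of `K₂`; `star ∉ Q` (`η > λ`).  `(p₃, q₃)` from `S_Amq` for `Q`, `Q ⊆ p₃ ∪ q₃`, `q₃` low for `λ`.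
`p₂ ⊆ p₃` and `cut q₁ λ ⊆ q₃` (as in `S_Amv`).  `M` = the finite set of the `n` with `DecSt p₃ ξ n`; `S_Fdc` for
`K₁`, `s = cut p₃ l`: `s'` low for `l`, deciding `f` on `M`, values `w n`.  `p₃' = p₃ ∪ s'`,
`q₃' = q₃ ∪ s'`: `SR.up`, `cut p₃' l = s' = cut q₃' l`; `q₃'` is low for `λ` (`l < β ≤ λ`).
`SR K₂ λ q₁` with `q₃'`, `insert η F`, `N' ≥ N` larger than all elements of `M`, `v₀' ≥ v₀` at least all
`w n`: `r ∈ K₂`, `q₁ ∪ q₃' ⊆ r`, `Large q₁ (insert η F) N' v₀' r`.  `q₄ ⊇ r` with `SR K₂ l q₄`,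
`s₄ = cut q₄ l ⊇ s'`, `p₄ = p₃' ∪ s₄` (`SR.up`).  `SB p₄ q₄`.  `CC p₄ q₄`: let `n ≥ k`, `st ξ n a ∈ p₄`,
`st η n b ∈ q₄`.  `st ξ n a ∈ p₃` (`s'`, `s₄` low for `l < ξ`), `n ∈ M`, `n < N'`.  If `DecSt q₁ η n` then
`st η n b ∈ q₁ ⊆ q₂` (`st_fun`), so `DecSt p₂ ξ n`, `st ξ n a ∈ p₂` (`st_fun`, `p₂ ⊆ p₄`), and `CC p₂ q₂` gives
`v ≤ max a b`, `Dec (cut p₂ l) f n v`, `cut p₂ l ⊆ cut p₄ l`.  Otherwise `st η n v ∈ r`, `v₀' ≤ v`, `v = b` and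
`Dec s' f n (w n)`, `w n ≤ b`.  `R = P' ∪ Q ∪ p₄ ∪ q₄ ⊆ insert star (p₄ ∪ q₄)`. -/
def S_Amw : Prop := ∀ (K₁ K₂ : Set (Face T)) (l β ξ η : T) (f : Name T) (k : ℕ) (star : Atom T),
  Am K₁ K₂ l β ξ η f star → ∀ lam, β ≤ lam → lam < η → ∀ P ∈ AK K₁ K₂ l ξ η f k star, star ∈ P →
    ∃ P', P ⊆ P' ∧ SR (AK K₁ K₂ l ξ η f k star) lam P'

/-- AMX (about 70 lines, from `S_Amb`, `S_Amp`, `S_Aml`, `S_Ams`, `S_Amt`, `S_Amu`, `S_Amv`, `S_Amw`).  Summary.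
PROOF.  `Cx A`: `st_all`: if `{st α n v} ∈ A` then `α` is a stem of `K₁` or `K₂` (`S_Amb`), so
`{st α n' v'} ∈ K₁` or `K₂`; `st_pd`: `Stem A α` implies `Stem K₁ α` or `Stem K₂ α`, `Cx.st_pd` there and
`S_Amp`; `sr_ext`: cases.  `Ext K_i A`: `S_Amb`, `S_Ams`, `S_Amt`.  Last claim: `t ⊆ insert star (p ∪ q)`,
`CC p q`.  `st ξ n a ∈ p`: it is not `star` (`spm`); if it is in `q`, it is in `p` by `S_Amb`
(`{st ξ n a} ∈ K₁` by `st₁`).  `st η n b ∈ q` in the same way.  `u ⊆ t`, `u` low for `l`, `u ∈ K₁`, `u ∈ K₂`: `star ∉ u`,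
`u ⊆ p ∪ q`, so `u ⊆ cut p l` (`cut p l = cut q l`).  `CC`: `v' ≤ max a b`, `u' ∈ f n v'`,
`u' ⊆ cut p l`; `u ∪ u' ⊆ p ∈ K₁`, so `v = v'` by `NmF.inc`. -/
def S_Amx : Prop := ∀ (K₁ K₂ : Set (Face T)) (l β ξ η : T) (f : Name T) (k : ℕ) (star : Atom T),
  Am K₁ K₂ l β ξ η f star → Cx (AK K₁ K₂ l ξ η f k star) ∧ Ext K₁ (AK K₁ K₂ l ξ η f k star) ∧
    Ext K₂ (AK K₁ K₂ l ξ η f k star) ∧
    (∀ S, (Pd K₁ S → Pd (AK K₁ K₂ l ξ η f k star) S) ∧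
      (Pd K₂ S → Pd (AK K₁ K₂ l ξ η f k star) S)) ∧
    ∀ t ∈ AK K₁ K₂ l ξ η f k star, star ∈ t → ∀ n ≥ k, ∀ a b v, ∀ u ∈ f n v, Atom.st ξ n a ∈ t →
      Atom.st η n b ∈ t → u ⊆ t → v ≤ max a b

/-! ### reflection -/

/-- CTY (about 100 lines).  The number of types.
PROOF.  (1) `#{a : Atom T | rk a ≤ l} ≤ 𝔠`: injection into
`(Iic l × ℕ × ℕ) ⊕ (Iic l × (ℕ → Bool))`, `Big.small`, `#(ℕ → Bool) = 𝔠`.  (2)
`#{p : Face T | Low l p} ≤ 𝔠`: `Finset` of a set of cardinality `≤ 𝔠` (e.g. lists: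
`Cardinal.mk_list_le_max`).  (3) the set of the countable subsets of a set `A` of cardinality `≤ 𝔠`
has cardinality `≤ 𝔠`: each nonempty one is the range of a function from `ℕ` to `A`, and
`𝔠 ^ ℵ₀ = 𝔠` (`Cardinal.continuum_power_aleph0`).  (4) products. -/
def S_Cty : Prop := ∀ l : T,
  #{x : Set ((ℕ → Bool) × (ℕ → ℕ)) × Set (Face T) × Face T | x.1.Countable ∧ x.2.1.Countable ∧
    (∀ p ∈ x.2.1, Low l p) ∧ Low l x.2.2} ≤ 𝔠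

variable {T}

/-- the condition `c` has the type `x` for the bound `l` -/
def Tp (l : T) (c : Cd T) (x : Set ((ℕ → Bool) × (ℕ → ℕ)) × Set (Face T) × Face T) : Prop :=
  x.1 = c.c.X ∧ x.2.1 = {p | p ∈ c.c.K ∧ Low l p} ∧
    ∃ p', c.p ⊆ p' ∧ SR c.c.K l p' ∧ cut p' l = x.2.2

variable (T)

/-- CLG (about 80 lines, from `S_Cty`).  The closing function.
PROOF.  Fix `l`.  For each `x` which is a type for `l` of some `c i`, `i ∈ S`, `l < i`, choose such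
an `i(x)`.  These `x` are in the set of `S_Cty` (`Cn.Xc`, `Cx.cnt`), so there are at most `𝔠` of them.  The
set which consists of `l`, the `i(x)`, the `ζ i(x)` and the ranks of the atoms `a` with
`{a} ∈ (c i(x)).c.K` (countably many for each `x`) has at most `𝔠` elements
(`Cardinal.mk_iUnion_le`-like), `g l` is a strict upper bound (`Big.bdd`). -/
def S_Clg : Prop := ∀ (S : Set T) (c : T → Cd T) (ζ : T → T), ∃ g : T → T, ∀ l, l < g l ∧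
  ∀ j ∈ S, l < j → ∀ x, Tp l (c j) x → ∃ i ∈ S, l < i ∧ Tp l (c i) x ∧ i < g l ∧ ζ i < g l ∧
    ∀ a, ({a} : Face T) ∈ (c i).c.K → rk a < g l

/-- CHN (about 90 lines).  A chain of length `ω₁`.
PROOF.  Let `W` be the type `Pool.Agent.Lib.MP_e6371f_lc.W` (import `Pool.Agent.Lib.MP_e6371f_lc.W`;
`W_cnt`, `W_bdd`).  Define
`b : W → T` by well-founded recursion (`WellFounded.fix`): `b v` is a strict upper bound of the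
countable set `{t₀} ∪ {g (b w) : w < v}` (`bdd_of_countable`).  `B` = the least element of the set of
all `t` with `∀ w, b w < t` (not empty: `W` has cardinality `ℵ₁ ≤ 𝔠`, `Big.bdd`).  (1) `b w < B` for all
`w`.  (2) if `x < B` then `g`-closed: there is `w` with `x ≤ b w`.  Let `R` be a countable subset of
`T`.  For `r ∈ R` with `r < B` choose `w_r` with `r ≤ b w_r`; `v` with `w_r < v` for all these `r`
(`W_bdd`).  Then `r ≤ b w_r < g (b w_r) < b v` (`t < g t`).  So `l = b v` has `t₀ < l`, `l < B`, `r ≤ l` for all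
`r ∈ R` with `r < B`, and `g l < b v' < B` for some `v' > v`. -/
def S_Chn : Prop := ∀ (g : T → T), (∀ t, t < g t) → ∀ t₀ : T, ∃ B : T, ∀ R : Set T, R.Countable →
  ∃ l, t₀ < l ∧ l < B ∧ g l < B ∧ ∀ r ∈ R, r < B → r ≤ l

/-- TWN (about 80 lines, from `S_Clg`, `S_Chn`).  Twins.
PROOF.  `g` from `S_Clg`, `B` from `S_Chn`.  Take `j ∈ S` with `B < j`.  `R` = the set of the ranks of the
atoms `a` with `{a} ∈ (c j).c.K` (countable); `l` from `S_Chn`.  By `sr_ext` there is `p' ⊇ (c j).p` with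
`SR (c j).c.K l p'`; `x = ((c j).c.X, {p ∈ (c j).c.K | Low l p}, cut p' l)`, `Tp l (c j) x`.  `i` from
`S_Clg`.  `β = B`: `rk a < g l < B` for the atoms of `(c i).c.K`; for the atoms of `(c j).c.K`:
`rk a < B` implies `rk a ≤ l`. -/
def S_Twn : Prop := ∀ (S : Set T), (∀ t, ∃ i ∈ S, t < i) → ∀ (c : T → Cd T) (ζ : T → T) (t₀ : T),
  ∃ i ∈ S, ∃ j ∈ S, ∃ l β, t₀ < l ∧ l < i ∧ i < β ∧ β ≤ j ∧ ζ i < j ∧ (c i).c.X = (c j).c.X ∧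
    (∀ p, Low l p → (p ∈ (c i).c.K ↔ p ∈ (c j).c.K)) ∧
    (∀ a, ({a} : Face T) ∈ (c i).c.K → rk a < β) ∧
    (∀ a, ({a} : Face T) ∈ (c j).c.K → rk a ≤ l ∨ β ≤ rk a) ∧
    ∃ p q, (c i).p ⊆ p ∧ (c j).p ⊆ q ∧ SB (c i).c.K (c j).c.K l p q

/-- COR (about 120 lines, from `S_Twn`, `S_Amx`, and `S_Mk` of `SpecA`).  The core of the proof.
PROOF.  `S_Twn` with `t₀` gives `i, j, l, β, p, q`.  Put `K₁ = (c i).c.K`, `K₂ = (c j).c.K`, `ξ = i`, `η = j`;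
`star = pm j id` with `id` such that `{pm j id}` is not in `K₁`, `K₂` (`ℕ → Bool` is uncountable, the
complexes are countable).  `Am K₁ K₂ l β i j f star`: `nf` is `hN i`, `flow`: `Low t₀ u`, `t₀ < l`.  Let `k` be
larger than all `n` with `DecSt p i n` or `DecSt q j n`; `A = AK ...`; `CC p q` holds trivially, so
`t = insert star (p ∪ q) ∈ A`.  `S_Amx`.  `S_Mk` (`h : S_Mk T`) for `(c i).c` with `K' = A`,
`D' = (c j).c.D`, `Y' = (c j).c.Y` (`Nm A y`: `pd` from `YD` and `S_Amx`, `inc` by `Ext.union`),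
`O' = (c j).c.O`, `X' = ∅`: `d` with `LeC d (c i).c`, `d.K = A`, `d.X = (c i).c.X`.
`LeC d (c j).c`: `X` equal, `K`: `Ext K₂ A`, `newY`, `newO`: no new elements.  `r = (d, t)`.  The last
claim is the last claim of `S_Amx` (`star ∈ t`). -/
def S_Cor : Prop := ∀ (f : Name T) (t₀ : T), (∀ n v, ∀ u ∈ f n v, Low t₀ u) →
  ∀ (S : Set T), (∀ t, ∃ i ∈ S, t < i) → ∀ (c : T → Cd T) (ζ : T → T),
    (∀ i ∈ S, Stem (c i).c.K i ∧ NmF (c i).c.K f) →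
    ∃ i ∈ S, ∃ j ∈ S, i < j ∧ ζ i < j ∧ ∃ r : Cd T, r ≤ c i ∧ r ≤ c j ∧ ∃ k, ∀ n ≥ k, ∀ a b v,
      ∀ u ∈ f n v, ∀ t ∈ r.c.K, r.p ⊆ t → Atom.st i n a ∈ t → Atom.st j n b ∈ t → u ⊆ t →
        v ≤ max a b

/-- RCH (about 60 lines, from `S_Cor`, and `S_Stm` of `SpecA`).  A condition all of whose extensions are
compatible with many conditions of a family.
PROOF.  Suppose not: for each `i ∈ S` there are `d i ≤ c i` and `ζ i` such that for all `j ∈ S` with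
`ζ i < j` there is no `r` with `r ≤ d i`, `r ≤ c j`.  By `S_Stm` extend the first component of `d i` to one with
stem `i` (the face stays the same: `Ext.sub`), `d' i ≤ d i`.  `S_Cor` for `f n v = if v = 0 then {∅} else ∅`
(`NmF` for all complexes, all faces `∅` are low), the family `d'`: `i, j ∈ S`, `ζ i < j`, `r ≤ d' i`,
`r ≤ d' j ≤ c j`, contradiction. -/
def S_Rch : Prop := ∀ (S : Set T), (∀ t, ∃ i ∈ S, t < i) → ∀ c : T → Cd T,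
  ∃ i ∈ S, ∀ d ≤ c i, ∀ t, ∃ j ∈ S, t < j ∧ ∃ r : Cd T, r ≤ d ∧ r ≤ c j

/-- FUS (about 150 lines, from `S_Mk`, `S_Lim` of `SpecA`).  Capture: countably many dense open sets of
conditions.
PROOF.  (1) For `c` there is `d ≤ c` such that for all `p ∈ c.K` and all `n` there is `q ∈ d.K` with
`p ⊆ q` and `(d, q) ∈ Q n`.  Enumerate `c.K × ℕ` (countable, nonempty) as `(p_i, n_i)`, `i ∈ ℕ`; let
`c_0 = c`; given `c_i ≤ c`, `p_i ∈ c.K ⊆ c_i.K`, by density there is a condition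
`(c_{i+1}, q) ≤ (c_i, p_i)` in `Q n_i`.  `d` from `S_Lim`; `(d, q) ≤ (c_{i+1}, q)` is in `Q n_i`.
(2) Iterate (1): `d_0 = c`, `d_{i+1}` from (1) for `d_i`; `e` from `S_Lim`.  For `p ∈ e.K = ⋃ d_i.K` and `n` there
is `q ⊇ p`, `q ∈ e.K` with `(e, q) ∈ Q n`.  So `D_n = {q | ∃ h : q ∈ e.K, (e, q) ∈ Q n}` is predense in `e.K`
(`p ∪ q = q`).  (3) `S_Mk` for `e` with `K' = e.K` and `D' = {D_n : n}`, the other sets empty. -/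
def S_Fus : Prop := ∀ Q : ℕ → Set (Cd T), (∀ n, ∀ x ∈ Q n, ∀ y ≤ x, y ∈ Q n) →
  (∀ n x, ∃ y ≤ x, y ∈ Q n) → ∀ c : Cn T, ∃ d : Cn T, LeC d c ∧
    ∀ n, ∃ S ∈ d.D, ∀ q ∈ S, ∃ h : q ∈ d.K, (⟨d, q, h⟩ : Cd T) ∈ Q n

end Pool.Agent.LZ
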