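import Pool.Agent.Lib.MP_10f401_gt.LZ.SpecA
import Pool.Agent.Lib.MP_10f401_gt.LZ.SpecB
import Pool.Agent.Lib.MP_10f401_gt.LZ.Core

/-!
# Statements of the modules, part C: the set of conditions provides the interface

Every `S_Xyz` is proved in its own file `LZ/Xyz.lean` as `theorem tXyz : (... →) S_Xyz T`.
-/

set_option autoImplicit false
set_option linter.unusedSectionVars false
set_option linter.unusedVariables false

open Set Cardinal

namespace Pool.Agent.LZ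

open Classical Pool.Agent.SymExt

section

variable {T : Type} [Big T]

/-- regularization -/
def reg (S : Cd T → Prop) (hS : ∀ p q, q ≤ p → S p → S q) : RO (Cd T) where
  ok p := ∀ q ≤ p, ∃ r ≤ q, S r
  mono h h1 q hq := h1 q (hq.trans h)
  dense h q hq := by
    obtain ⟨r, hr, h1⟩ := h q hq
    obtain ⟨s, hs, h2⟩ := h1 r le_rfl
    exact ⟨s, hs.trans hr, h2⟩

/-- truth value of `x ∈ X` -/
def XR (x : ℕ → Bool) : RO (Cd T) := reg (fun p => ∃ m, (x, m) ∈ p.c.X)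
  fun p q h h1 => by
    obtain ⟨m, hm⟩ := h1
    exact ⟨m, h.1.X hm⟩

/-- truth value of: the value of the function number `t` at `n` is `v` -/
def hR (t : T) (n v : ℕ) : RO (Cd T) := reg (fun p => Atom.st t n v ∈ p.p)
  fun p q h h1 => h.2 h1

/-- `p` forces that the block number `n` of `y` (its values at `Nat.pair n i`, `i ≤ n`) is given by
the binary digits of `v` -/
def Blk (y : ℕ → RO (Cd T)) (n v : ℕ) (p : Cd T) : Prop :=
  ∀ i ≤ n, (v.testBit i = true → y (Nat.pair n i) p) ∧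
    (v.testBit i = false → ∀ q ≤ p, ¬ y (Nat.pair n i) q)

/-- truth value of: all blocks number `n ≥ k` of `y` are different from `m n`, where `m` is the
function assigned to `x` -/
def AR (x : ℕ → Bool) (k : ℕ) (y : ℕ → RO (Cd T)) : RO (Cd T) :=
  reg (fun p => ∃ m, (x, m) ∈ p.c.X ∧ ∀ n ≥ k, ∀ q ≤ p, ¬ Blk y n (m n) q)
    fun p q h h1 => by
      obtain ⟨m, hm, h2⟩ := h1
      exact ⟨m, h.1.X hm, fun n hn r hr => h2 n hn r (hr.trans h)⟩

end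

variable (T : Type) [Big T]

/-- ANW (about 90 lines).  The sets are nowhere dense.
PROOF.  Let `XR x p`, `s`.  There is `q ≤ p` with `(x, m) ∈ q.c.X`.  Let `n ≥ k` with
`n ≥ s.length`; then `Nat.pair n i ≥ n ≥ s.length` (`Nat.left_le_pair`).  Let `t` be a list with
`s <+: t`, longer than all `Nat.pair n i`, `i ≤ n`, with `t[Nat.pair n i] = (m n).testBit i` for `i ≤ n`
(e.g. `t = s ++ (List.range L).map g`, or `(List.range L').map g'` where `g'` is `s` on the first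
places; `Nat.pair` is injective).  Let `r ≤ q`, `Ini t y r`; then `Blk y n (m n) r`.  If `AR x k y r`, there
is `r' ≤ r` with `(x, m') ∈ r'.c.X` and `¬ Blk y n (m' n) r'`; `(x, m) ∈ r'.c.X`, `m = m'` (`Cn.Xi`),
and `Blk y n (m n) r'` (monotone), contradiction. -/
def S_Anw : Prop := ∀ (x : ℕ → Bool) (k : ℕ) (p : Cd T), XR x p → ∀ s : List Bool, ∃ q ≤ p, ∃ t,
  s <+: t ∧ ∀ y : ℕ → RO (Cd T), ∀ r ≤ q, Ini t y r → ¬ AR x k y r

/-- ACV (about 150 lines, from `S_Mk`, `S_Lev`, `S_Fus`).  The sets cover.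
PROOF.  Let `Q n` be the set of all `z` such that `Blk y n v z` for some `v < bb n`.  It is open, and
dense (decide the finitely many `y (Nat.pair n i)`, `i ≤ n`: for `z` and `i` there is `z' ≤ z` with
`y j z'` or with `∀ q ≤ z', ¬ y j q`; the number `v` with the given binary digits,
e.g. by induction on the number of digits; `v < 2 ^ (n+1)`).  `S_Fus` for `p.c`: `d`, `S_n ∈ d.D`.
Name: `y' n v = {q | q ∈ S_n ∧ v < bb n ∧ ∃ h : q ∈ d.K, Blk y n v ⟨d, q, h⟩}`.  `Nm d.K y'`: `pd`: the union is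
`S_n`; `inc`: if `u ∪ u' ∈ d.K` then `(d, u ∪ u')` forces both blocks, so the digits `i ≤ n` of `v` and `v'` are
equal, and `v, v' < 2 ^ (n+1)`, so `v = v'` (`Nat.eq_of_testBit_eq`, `Nat.testBit_lt_two_pow`).  `S_Mk` with
`Y' = {y'}`, `K' = d.K` (other sets empty): `d₁`.  `S_Lev`: `d₂`, `e ∈ d₂.X` new.  `LeC.newY`: `E ∈ d₂.D`,
`Avd d₂.K E y' e.2`.  `p.p ∈ d₂.K`; `q ∈ E` with `p.p ∪ q ∈ d₂.K`; `k` from `Avd` for `q`;
`r = (d₂, p.p ∪ q) ≤ p`.  `XR e.1 r` clear.  `AR e.1 k y r` with `m = e.2`: suppose `n ≥ k`, `r' ≤ r`,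
`Blk y n (e.2 n) r'`.  `S_n ∈ r'.c.D`: `u ∈ S_n` with `r'.p ∪ u ∈ r'.c.K`; `u ∈ y' n v` for some `v`; the
condition `(r'.c, r'.p ∪ u)` forces `Blk y n v` and `Blk y n (e.2 n)`; `e.2 n < bb n` (`Cn.Xb`), so
`v = e.2 n` as above.  `q ∪ u ⊆ r'.p ∪ u`, so `q ∪ u ∈ r'.c.K`, hence `∈ d₂.K` (`Ext.union`),
contradiction to `Avd`. -/
def S_Acv : Prop := ∀ (y : ℕ → RO (Cd T)) (p : Cd T), ∃ q ≤ p, ∃ x k, XR x q ∧ AR x k y q

/-- LUZ (about 140 lines, from `S_Mk`, `S_Lev`, `S_Fus`).  The Luzin property.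
PROOF.  (0) if `LeC d p.c` and `u ∈ d.K`: if `u ∪ p.p ∉ d.K` then no condition is `≤ (d, u)` and `≤ p`
(`Ext.union`); (`r ≤ (d, u)`, `r ≤ p`).  Let `(n_j, s_j)`, `j ∈ ℕ`, be an enumeration of
`ℕ × List Bool`, and let `Q j` be the set of all `z` such that `O n_j t z` for some `t` with
`s_j <+: t`, or no condition is `≤ z` and `≤ p`.  Open and dense.  `S_Fus` for `p.c`: `d`.
`o n t = {u | ∃ h : u ∈ d.K, O n t ⟨d, u, h⟩ ∨ u ∪ p.p ∉ d.K}`.  Then `Pd d.K (oD (o n) s)`: it contains the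
set `S_j ∈ d.D` with `(n_j, s_j) = (n, s)` and is contained in `d.K`.  `S_Mk` with `O' = {o n : n}`:
`d₁`.  `S_Lev`: `d₂`, `e`.  `q = (d₂, p.p)`, `C` = the set of the first components of `d₁.X`.
`e.1 ∉ C`, `XR e.1 q`.  Let `x ∉ C`, `r ≤ q`, `XR x r`, `n`, `r' ≤ r`: there is `r₁ ≤ r'` with `(x, m) ∈ r₁.c.X`;
`(x, m) ∉ d₁.X`; `LeC r₁.c d₁`, so `newO`: `oX (o n) x ∈ r₁.c.D`; so there are `t` with `IsPre t x`
and `u ∈ o n t` with `r₁.p ∪ u ∈ r₁.c.K`; `r'' = (r₁.c, r₁.p ∪ u)`.  `u ∪ p.p ⊆ r₁.p ∪ u`, so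
`u ∪ p.p ∈ d.K` (`Ext.union`), so `O n t ⟨d, u, h⟩`, and `r'' ≤ (d, u)`.  (`IsPre` and `Seg` are the
same.) -/
def S_Luz : Prop := ∀ (p : Cd T) (O : ℕ → List Bool → RO (Cd T)),
  (∀ n s, ∀ q ≤ p, ∃ r ≤ q, ∃ t, s <+: t ∧ O n t r) →
  ∃ q ≤ p, ∃ C : Set (ℕ → Bool), C.Countable ∧
    (∀ x, x ∉ C → ∀ r ≤ q, XR x r → ∀ n, ∀ r' ≤ r, ∃ r'' ≤ r', ∃ t, Seg t x ∧ O n t r'') ∧
    ∃ x, x ∉ C ∧ XR x q

/-- HTU (about 50 lines, from `S_Stm`).  The functions are total and unique.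
PROOF.  Total: `S_Stm` for `p.c`: `d` with `Stem d.K t`; `st_pd`: `v` with
`p.p ∪ {st t n v} ∈ d.K`.  Unique: `hR t n v p`, `hR t n v' p`: `r ≤ p` with `st t n v ∈ r.p`, `r' ≤ r` with
`st t n v' ∈ r'.p`, `Cx.st_fun`. -/
def S_Htu : Prop := (∀ (t : T) (n : ℕ) (p : Cd T), ∃ q ≤ p, ∃ v, hR t n v q) ∧
  ∀ (t : T) (n v v' : ℕ) (p : Cd T), hR t n v p → hR t n v' p → v = v'

/-- PIG (about 40 lines).  Pigeonhole.
PROOF.  Suppose for each `x` there is `b x` with `t ≤ b x` for all `t` with `f t = x`.  The set of the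
`b x` has at most `𝔠` elements (`Cardinal.mk_range_le`, `#(ℕ → Bool) = 𝔠`), so there is `t₀` with `b x < t₀` for
all `x` (`Big.bdd`).  `t₀ ≤ b (f t₀) < t₀`, contradiction. -/
def S_Pig : Prop := ∀ f : T → (ℕ → Bool), ∃ x, ∀ t, ∃ i, f i = x ∧ t < i

/-- STA (about 200 lines, from `S_Pig`, `S_Mk`, `S_Stm`, `S_Rch`, `S_Fus`, `S_Cor`).  The main property.
PROOF.  For `t ∈ T` choose `c t ≤ p` and `g t` with `J t (g t) (c t)`.  `S_Pig`: `x` such that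
`S = {t | g t = x}` is unbounded.  `S_Rch`: `i₀ ∈ S` such that every `d ≤ c i₀` is compatible with `c j` for
arbitrarily large `j ∈ S`.  Put `q₀ = c i₀`.  `Q n` = the set of all `z` such that `z ≤ q₀` and
`G x n v z` for some `v`, or no condition is `≤ z` and `≤ q₀`: open, dense (second assumption with
`J i₀ x`).  `S_Fus` for `q₀.c`: `d`.  For `u ∈ d.K`: `(d, u)` is compatible with `q₀` iff
`u ∪ q₀.p ∈ d.K` (`Ext.union`).  Let `f n v` be the set of all `u` with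
`∃ h : u ∈ d.K, q₀.p ⊆ u ∧ G x n v ⟨d, u, h⟩`, together with (if `v = 0`) all `u ∈ d.K` with
`u ∪ q₀.p ∉ d.K`.  `NmF d.K f`: `pd`: the union contains the set `S_n ∈ d.D` of `S_Fus` (an element of
the first kind is `≤ q₀`, so it contains `q₀.p`).  `inc`: `u ∪ u' ∈ d.K`: both of the first kind: `(d, u ∪ u')`
is `≤ p` and forces both values; mixed: `u' ∪ q₀.p ⊆ u ∪ u'` would be in `d.K`.
`S_Mk` with `D' = {yD f n : n}`, `K' = d.K`: `d₁`.  Let `t₀` be a bound for the ranks of the atoms of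
`d.K` (`bdd_of_countable`).  `z₀ = (d₁, q₀.p) ≤ q₀`.  `S'` = the set of all `j ∈ S` such that some
condition is `≤ z₀` and `≤ c j`: unbounded.  For `j ∈ S'` choose such a condition `r j` with
`Stem (r j).c.K j` (`S_Stm`, same face).  `NmF (r j).c.K f`: `sub` by `Ext.sub`, `pd` as `yD f n ∈ d₁.D`,
`inc` by `Ext.union`.  `S_Cor`: `i < j` in `S'`, `r ≤ r i`, `r ≤ r j`, `k`.  Then `r ≤ c i ≤ p`,
`J i x r`, `J j x r`.  Claim: let `n ≥ k`, `r' ≤ r`, `hR i n a r'`, `hR j n b r'`, `G x n v r'`.  There is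
`r₂ ≤ r'` whose face contains `st i n a` and `st j n b`; `yD f n ∈ r₂.c.D`: `u ∈ f n v''` with
`r₂.p ∪ u ∈ r₂.c.K`; `u` is of the first kind, as `q₀.p ⊆ r₂.p` (otherwise `u ∪ q₀.p ∈ r₂.c.K`, so
`∈ d.K`); the condition `(r₂.c, r₂.p ∪ u) ≤ (d, u)` forces `G x n v''` and `G x n v`, so `v'' = v`.  Put
`t = r.p ∪ {st i n a, st j n b} ∪ u`: a subset of `r₂.p ∪ u`, so in `r₂.c.K`, and all its atoms are
atoms of `r.c.K` (`Stem r.c.K i`, `Stem r.c.K j`, `u ∈ d.K ⊆ r.c.K`), so `t ∈ r.c.K` (`Ext.ind`).  The last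
claim of `S_Cor` gives `v ≤ max a b`. -/
def S_Sta : Prop := ∀ (p : Cd T) (J : T → (ℕ → Bool) → RO (Cd T))
  (G : (ℕ → Bool) → ℕ → ℕ → RO (Cd T)),
  (∀ t, ∀ q ≤ p, ∃ r ≤ q, ∃ x, J t x r) →
  (∀ t x, ∀ q ≤ p, J t x q → ∀ n, ∃ r ≤ q, ∃ v, G x n v r) →
  (∀ x n v v', ∀ q ≤ p, G x n v q → G x n v' q → v = v') →
  ∃ q ≤ p, ∃ t t' x, t ≠ t' ∧ J t x q ∧ J t' x q ∧ ∃ k, ∀ n ≥ k, ∀ r ≤ q, ∀ a b v,
    hR t n a r → hR t' n b r → G x n v r → v ≤ max a b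

/-- ITF (about 30 lines, from `S_Anw`, `S_Acv`, `S_Luz`, `S_Htu`, `S_Sta`).  The interface.
PROOF.  `X = XR`, `A = AR`, `h = hR`.  `A_congr`: `Blk y n v q ↔ Blk y' n v q` for `q ≤ p`. -/
def S_Itf : Prop := Nonempty (Core (Cd T) T)

/-- BIG (about 50 lines).  The index set exists.
PROOF.  `T = (Order.succ 𝔠).ord.ToType` (a type in `Type`); `LinearOrder`, `WellFoundedLT` are
instances.  `small`: `#(Iic t) ≤ 𝔠`: `mk_Iio_toType_ord_lt` (as in
`Pool/Agent/Lib/MP_e6371f_lc/W.lean`: `mk_Iio_toType_ord_lt`, `Order.lt_succ_iff`), plus one element.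
`bdd`: otherwise `T` is the union of the `Iic s`, `s ∈ S`, which has cardinality `≤ 𝔠 * 𝔠 = 𝔠`
(`Cardinal.mk_biUnion_le`), but `#T = Order.succ 𝔠`. -/
def S_Big : Prop := ∃ T : Type, Nonempty (Big T)

end Pool.Agent.LZ
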