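import Pool.Agent.Lib.MP_820b44_gt.Statement

/-!
# Definitions for the statement: Luzin sets and products of Menger sets in a model of `ZFC`

All notions are written out in terms of the membership relation `E` of the model.  Ordered pairs,
functions and natural numbers are those of `Pool.Agent.Lib.MP_1929a6_lc.Statement`; the axioms of
`ZFC`, subsets, the set of natural numbers and products are those of
`Pool.Agent.Lib.MP_1ab623_gt.Statement`; finite sets and open subsets (of a set of reals and of the
product of two sets of reals) are those of `Pool.Agent.Lib.MP_820b44_gt.Statement`.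

In all definitions `w` is the set of natural numbers of the model; the natural numbers are von
Neumann numbers, so the elements of the natural number `n` are the smaller natural numbers.  A real
is a subset of `w`; a set of reals is a set of subsets of `w`, with the subspace topology of the
Cantor space of all subsets of `w`.
-/

universe u

namespace Pool.Agent.Lib.MP_10f401_gt.Mdl

open Pool.Agent.ZF Pool.Agent.Lib.MP_1929a6_lc Pool.Agent.Lib.MP_1ab623_gt
open Pool.Agent.Lib.MP_820b44_gt

variable {M : Type u} (E : M → M → Prop)

/-- `C` is an open cover of the space `X`; here `op U` says that `U` is an open subset of `X`. -/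
structure IsCover (op : M → Prop) (X C : M) : Prop where
  isOpen : ∀ U, E U C → op U
  covers : ∀ x, E x X → ∃ U, E U C ∧ E x U

/-- `X` is a Menger space: for every sequence `u 0, u 1, ...` of open covers of `X` there are finite
sets `s n ⊆ u n` such that the elements of the sets `s 0, s 1, ...` cover `X`. -/
def IsMenger (w : M) (op : M → Prop) (X : M) : Prop :=
  ∀ u B, IsFunction E u w B → (∀ n C, Maps E u n C → IsCover E op X C) →
    ∃ s T, IsFunction E s w T ∧
      (∀ n C F, Maps E u n C → Maps E s n F → Sub E F C ∧ FiniteSet E w F) ∧
      ∀ x, E x X → ∃ n F U, Maps E s n F ∧ E U F ∧ E x U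

/-- `X` is a Rothberger space: for every sequence `u 0, u 1, ...` of open covers of `X` there are
`s n ∈ u n` such that `s 0, s 1, ...` cover `X`. -/
def IsRothberger (w : M) (op : M → Prop) (X : M) : Prop :=
  ∀ u B, IsFunction E u w B → (∀ n C, Maps E u n C → IsCover E op X C) →
    ∃ s T, IsFunction E s w T ∧ (∀ n C U, Maps E u n C → Maps E s n U → E U C) ∧
      ∀ x, E x X → ∃ n U, Maps E s n U ∧ E x U

/-- The set of reals `S` is nowhere dense in the Cantor space: every basic open set (the set of the
reals that agree with `y` below `n`) contains a basic open set which contains no element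
of `S`. -/
def NowhereDense (w S : M) : Prop :=
  ∀ y n, Sub E y w → E n w → ∃ y' n', Sub E y' w ∧ E n' w ∧ Sub E n n' ∧
    AgreeBelow E n y y' ∧ ∀ z, E z S → ¬ AgreeBelow E n' y' z

/-- The set of reals `S` is meager in the Cantor space: it is covered by nowhere dense sets
`N 0, N 1, ...`. -/
def Meager (w S : M) : Prop :=
  (∀ z, E z S → Sub E z w) ∧ ∃ N B, IsFunction E N w B ∧
    (∀ k R, Maps E N k R → NowhereDense E w R) ∧ ∀ z, E z S → ∃ k R, Maps E N k R ∧ E z R

/-- The cardinality of `A` is smaller than `cov(M)`: if `F` is a function on `A` whose values are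
meager sets of reals, then some real is in none of them. -/
def LessThanCov (w A : M) : Prop :=
  ∀ F B, IsFunction E F A B → (∀ a S, Maps E F a S → Meager E w S) →
    ∃ y, Sub E y w ∧ ∀ a S, Maps E F a S → ¬ E y S

/-- `X` is a `cov(M)`-Luzin set: a set of reals of cardinality at least `cov(M)` whose intersection
with every meager set has cardinality smaller than `cov(M)`. -/
structure IsCovLuzin (w X : M) : Prop where
  reals : ∀ x, E x X → Sub E x w
  large : ¬ LessThanCov E w X
  small : ∀ S Z, Meager E w S → (∀ z, E z Z ↔ E z X ∧ E z S) → LessThanCov E w Z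

/-- The product of the sets of reals `X` and `Y` is a Menger space. -/
def MengerProduct (w X Y : M) : Prop :=
  ∀ D, IsProd E D X Y → IsMenger E w (IsOpenSubsetOfProduct E w X Y D) D

/-- The product of the sets of reals `X` and `Y` is a Rothberger space. -/
def RothbergerProduct (w X Y : M) : Prop :=
  ∀ D, IsProd E D X Y → IsRothberger E w (IsOpenSubsetOfProduct E w X Y D) D

/-- The final statement: some model of `ZFC` has a `cov(M)`-Luzin set `X` such that `X × Y` is Menger
for every set of reals `Y` for which `Y × Y` is Menger or Rothberger. -/
def Goal : Prop := ∃ (M : Type) (E : M → M → Prop), IsZFC E ∧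
  ∃ w X : M, IsOmega E w ∧ IsCovLuzin E w X ∧
    ∀ Y, (∀ y, E y Y → Sub E y w) → (MengerProduct E w Y Y ∨ RothbergerProduct E w Y Y) →
      MengerProduct E w X Y

end Pool.Agent.Lib.MP_10f401_gt.Mdl
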