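import Pool.Agent.Lib.MP_10f401_gt.LZ.Nam
import Pool.Agent.Lib.MP_10f401_gt.LZ.Statement
import Pool.Agent.Lib.MP_820b44_gt.Br.ConvA

/-!
# Statements of the modules, part D: the model of `ZFC`

Part D1: sentences forced by the interface `Core` (names, `RO P`).  Part D2: arguments inside a model
`M` of `ZF` with choice.  Every `S_Xyz` is proved in its own file `LZ/Xyz.lean` as
`theorem tXyz : (... →) S_Xyz`.
-/

set_option autoImplicit false
set_option linter.unusedSectionVars false
set_option linter.unusedVariables false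

universe u

namespace Pool.Agent.LZ

/-! ### D1: the forced sentences -/

section

open Pool.Agent.SymExt SN

/-- FRL (about 20 lines).  PROOF.  As `forced_rls` in `Pool/Agent/Lib/MP_820b44_gt/Br/Base.lean`:
`m_XN`, `rn_sub_om` (`cr x` is of the form `rn ..`). -/
def S_Frl : Prop := ∀ (P T : Type) [PartialOrder P] [OrderTop P] (K : Core P T) (p : P),
  (lg : Lg (RO P) (VN P)).rls (om P) (XN K) p

/-- FBS (about 120 lines).
PROOF.  (0) `m (op j z) (BN P) p` iff for all `q ≤ p` there are `r ≤ q`, `j' : ℕ`, `y : ℕ → RO P` with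
`e j (on j') r`, `e z (rn y) r`, `Ini (lst j') y r` (`m_nn`, `op_inj`, `op_congr`).  If `e z (rn y) r` then
the truth values `m (on i) z` and `y i` agree below `r` (`on_rn`, `m_right`), so
`m (op (on j) z) (BN P) p` iff `z` is (forced to be) a subset of `om P` and `Ini (lst j) (rl z) p`
(`e_rl`; `rig_on`; `Ini.dense`).
(1) Let `y` be a subset of `om`, `n` in `om`; below `r` we have `e n (on n')` (`m_om`), and by deciding
`m (on i) y` for `i < n'` one after the other some `s ≤ r` and a list `t` of length `n'` with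
`Ini t (rl y) s`.  `j` with `lst j = t` (`lst_surj`); `on j` is as desired: if `Ini t (rl z) s'`,
`s' ≤ s`, then `sbl (on n') y z` by `sbl_on`; use `sbl_congr` for `n`.
(2) if `Ini (lst j') (rl z) r` and `sbl (on k) z z'` with `k = (lst j').length`, then
`Ini (lst j') (rl z')` (`sbl_on`); take `on k`. -/
def S_Fbs : Prop := ∀ (P : Type) [PartialOrder P] [OrderTop P] (p : P),
  (lg : Lg (RO P) (VN P)).lzBas (om P) (BN P) p

/-- FCV (about 150 lines).
PROOF.  (0) `m (op (op a k) y) (NN K) p` iff for all `q ≤ p` there are `r ≤ q`, `x`, `k'`, `y'` with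
`K.X x r`, `K.A x k' y' r`, `e a (cr x) r`, `e k (on k') r`, `e y (rn y') r` (`m_nn`, `op_inj`, `op_congr`);
and for `a = cr x`, `k = on k'`, `y` a subset of `om P`: iff `K.X x p ∧ K.A x k' (rl y) p`
(`rig_cr`, `rig_on`, `K.A_congr`: if `e y (rn y') r` then `rl y n` and `y' n` agree below `r`).
(1) `lzNwd` for `a` in `XN K`, `k` in `om`: work below `q` with `e a (cr x) q`, `K.X x q`, `e k (on k') q`;
given `y` a subset of `om` and `n` in `om`: below some `r` we have `e n (on n') r` and a list `s` of length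
`n'` with `Ini s (rl y) r` (decide `m (on i) y` for `i < n'`).  `K.A_nwd x k' r _ s`: `q' ≤ r`, `t` with
`s <+: t`.  Take `y' = cr (fun i => t.getD i false)`, `n'' = on t.length`: `sub`: `m_on_on` and
`s.length ≤ t.length` (for `n` use `e n (on n')`); `sbl (on n') y y'`: both are given by `s` below `n'`
(`sbl_on`, `on_cr`); if `((a, k), z)` is in `NN K` below some `u ≤ q'` and `sbl (on t.length) y' z`, then
`Ini t (rl z) u`, contradiction to `K.A x k' (rl z) u` (after extending `u` so that (0) applies).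
(2) covering: `y` a subset of `om`: `K.A_cov (rl y) q` gives `q' ≤ q`, `x`, `k` with `K.X x q'`,
`K.A x k (rl y) q'`: `cr x`, `on k`; `e y (rn (rl y))` by `e_rl`. -/
def S_Fcv : Prop := ∀ (P T : Type) [PartialOrder P] [OrderTop P] (K : Core P T) (p : P),
  (lg : Lg (RO P) (VN P)).lzCov (om P) (XN K) (NN K) p

/-- FLZ (about 180 lines).
PROOF.  Let `R` be a name and `q` a condition which forces that the sections are nowhere dense.  Let
`f : ℕ → ℕ × ℕ` be a bijection (`Nat.unpair`), and let `O n t` be the truth value of: no `z` with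
`sbl (on t.length) (cr (fun i => t.getD i false)) z` is in the section `((on k, on i), z) ∈ R`,
`(k, i) = f n`; for example `O n t = RO.all fun z : VN P => RO.imp (a) RO.bot` with `a` = the truth
value of the conjunction (`roA`; or write the predicate with `mono` and `dense` directly).  Assumption
of `K.luz`: let `s`, `q' ≤ q`: use `lzNwd` for `(on k, on i)`, `y = cr (fun i => s.getD i false)`,
`n = on s.length`: `r ≤ q'`, `y'`, `n'`; extend `r` so that `e n' (on n'')` and `m (on i) y'` is decided for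
`i < n''`, given by a list `t` of length `n''`; `s <+: t` as `s.length ≤ n''` (`sub`) and
`sbl (on s.length) y y'`.  Then `O n t r`.
`K.luz q O`: `q' ≤ q`, `C` countable, `x₀ ∉ C`, `K.X x₀ q'`.  If `C` is empty let the name `CN` be the
empty name (`nn` over `Empty`, or `on 0`), otherwise `C` is the range of some `c : ℕ → (ℕ → Bool)` and
`CN = fnm on (fun k => cr (c k))` (`isFun_fnm`, `m_op_fnm`).  (a) `m (op k z) CN` implies that `k` is in
`om` and `z` is (densely) equal to some `cr (c k')`, unique by `rig_on`.  (b) `x = cr x₀` is in `XN K` and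
is not a value: `rig_cr`.  (c) let `z` be in `XN K` below `r ≤ q'`, not a value of `CN`; densely
`e z (cr x)`, `K.X x r'`; `x ∉ C` (otherwise `x = c k`, and `(on k, z)` would be in `CN`).  Let `k, i` in `om`,
densely `on k'`, `on i'`, `f n = (k', i')`.  If `((k, i), z) ∈ R` below `r''`: `K.luz` gives `r₃ ≤ r''` and
`t` with `Seg t x`, `O n t r₃`; `sbl (on t.length) (cr ..) (cr x)` holds (`Seg`), so
`((on k', on i'), cr x) ∉ R` below `r₃`, contradiction. -/
def S_Flz : Prop := ∀ (P T : Type) [PartialOrder P] [OrderTop P] (K : Core P T) (p : P),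
  (lg : Lg (RO P) (VN P)).lzLuz (om P) (XN K) p

/-- FST (about 150 lines).
PROOF.  First clause: an element of `HN K` is densely equal to some `fN (K.h t)`, `isFun_fN` with
`K.h_uni`, `K.h_tot`; transfer of `isFun` along `e` by `isFun_iff` and `m_right`, `m_left`.
Second clause: let `J`, `G` be names, `q` a condition forcing the assumptions.  Put
`J' t x` = truth value of `m (op (fN (K.h t)) (cr x)) J` (this is an `RO P`), `G' x n v` =
truth value of `m (op (op (cr x) (on n)) (on v)) G` together with `K.X x` (`roA`).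
Assumptions of `K.star q J' G'`: total: `fN (K.h t)` is in `HN K` (`HN_self`), `isFun J (HN K) (XN K)`
(`isFun_iff`) gives densely a value, which is densely equal to some `cr x` with `K.X x`.  `G' x`
total: if `J' t x r` then `cr x` is in `XN K` below `r` (`isFun_iff` first and third clause:
the pair is densely `(a, b)` with `b` in `XN K`), so by the assumption on `G` densely a value in `om`,
which is densely `on v`.  Unique: the second assumption on `G`, `rig_on`.
`K.star` gives `q' ≤ q`, `t`, `t'`, `x`, `k`.  Take `h = fN (K.h t)`, `h' = fN (K.h t')`, `x = cr x`,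
`k = on k`.  Let `r ≤ q'` and `n, a, b, v` with `n` in `om`, `k ≤ n`, `(n, a) ∈ h`, `(n, b) ∈ h'`,
`((x, n), v) ∈ G`.  Densely `n = on n'`, `a = on a'`, `b = on b'` (`m_fN`), and `v = on v'`
(by totality of `G` there is a value in `om`, equal to `v` by uniqueness), with `K.h t n' a'`,
`K.h t' n' b'`, `G' x n' v'`, `k ≤ n'` (`m_on_on`, `rig_on`).  So `v' ≤ max a' b'`, i.e.
`v' < a'` or `v' = a'` or `v' < b'` or `v' = b'`; `m_on_on`. -/
def S_Fst : Prop := ∀ (P T : Type) [PartialOrder P] [OrderTop P] (K : Core P T) (p : P),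
  (lg : Lg (RO P) (VN P)).lzStar (om P) (XN K) (HN K) p

end

/-! ### D2: inside a model -/

section

open Pool.Agent.ZF Pool.Agent.Lib.MP_1929a6_lc Pool.Agent.Lib.MP_1ab623_gt
open Pool.Agent.Lib.MP_820b44_gt Pool.Agent.Lib.MP_10f401_gt.Mdl

variable {M : Type u} [Model M]

/-- the set of reals given by the property `Q` is nowhere dense -/
def NwP (Q : M → Prop) : Prop :=
  ∀ y n : M, y ⊆ om → n ∈ (om : M) → ∃ y' n' : M, y' ⊆ om ∧ n' ∈ (om : M) ∧ n ⊆ n' ∧
    AgreeBelow (Model.E (M := M)) n y y' ∧ ∀ z, Q z → ¬ AgreeBelow (Model.E (M := M)) n' y' z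

/-- the core sentence, in terms of the operations of the model -/
structure MC (X N B H : M) : Prop where
  rls : ∀ x, x ∈ X → x ⊆ om
  nwd : ∀ x k, x ∈ X → k ∈ (om : M) → NwP (fun z => pr (pr x k) z ∈ N)
  cov : ∀ y, y ⊆ om → ∃ x k, x ∈ X ∧ k ∈ (om : M) ∧ pr (pr x k) y ∈ N
  luz : ∀ R : M, (∀ k i, k ∈ (om : M) → i ∈ (om : M) → NwP (fun z => pr (pr k i) z ∈ R)) →
    ∃ C x : M, (∀ k c, pr k c ∈ C → k ∈ (om : M)) ∧
      (∀ k c c', pr k c ∈ C → pr k c' ∈ C → c = c') ∧ x ∈ X ∧ (∀ k, pr k x ∉ C) ∧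
      ∀ z, z ∈ X → (∀ k, pr k z ∉ C) → ∀ k i, k ∈ (om : M) → i ∈ (om : M) → pr (pr k i) z ∉ R
  bas₁ : ∀ y n, y ⊆ om → n ∈ (om : M) → ∃ j, j ∈ (om : M) ∧ pr j y ∈ B ∧
    ∀ z, pr j z ∈ B → AgreeBelow (Model.E (M := M)) n y z
  bas₂ : ∀ j z, pr j z ∈ B → j ∈ (om : M) ∧ ∃ k, k ∈ (om : M) ∧ ∀ z', z' ⊆ om →
    AgreeBelow (Model.E (M := M)) k z z' → pr j z' ∈ B
  hfn : ∀ h, h ∈ H → IsFn h ∧ dom h = om ∧ ∀ n, n ∈ (om : M) → app h n ∈ (om : M)
  star : ∀ J G : M, IsFn J → dom J = H → (∀ h, h ∈ H → app J h ∈ X) →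
    (∀ x n, x ∈ X → n ∈ (om : M) → ∃ v, v ∈ (om : M) ∧ pr (pr x n) v ∈ G) →
    (∀ x n v v', pr (pr x n) v ∈ G → pr (pr x n) v' ∈ G → v = v') →
    ∃ h h', h ∈ H ∧ h' ∈ H ∧ app J h = app J h' ∧ ∃ k, k ∈ (om : M) ∧ ∀ n, n ∈ (om : M) →
      (k ∈ n ∨ k = n) → ∀ v, pr (pr (app J h) n) v ∈ G →
        (v ∈ app h n ∨ v = app h n) ∨ (v ∈ app h' n ∨ v = app h' n)

variable (M) in
/-- the axiom of choice, as in `IsZFC` -/
def Ch : Prop := ∀ F : M, (∀ x, x ∈ F → ∃ t, t ∈ x) →
  (∀ x y t, x ∈ F → y ∈ F → t ∈ x → t ∈ y → x = y) → ∃ C : M, ∀ x, x ∈ F → ∃! t, t ∈ C ∧ t ∈ x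

end

open Pool.Agent.ZF Pool.Agent.Lib.MP_1929a6_lc Pool.Agent.Lib.MP_1ab623_gt
open Pool.Agent.Lib.MP_820b44_gt Pool.Agent.Lib.MP_10f401_gt.Mdl

/-- MAC (about 60 lines).  Choice functions.
PROOF.  `F = img (fun a => sep R (fun z => fst z = a ∧ snd z ∈ B)) A`, or
`img (fun a => sep (prod A B) (fun z => fst z = a ∧ z ∈ R)) A`: its elements are nonempty and pairwise
disjoint.  `C` from `Ch`; `f = sep (prod A B) (fun z => z ∈ C ∧ z ∈ R)`. -/
def S_Mac : Prop := ∀ (M : Type) [Model M], Ch M → ∀ A B R : M,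
  (∀ a, a ∈ A → ∃ b, b ∈ B ∧ pr a b ∈ R) →
  ∃ f : M, IsFn f ∧ dom f = A ∧ ∀ a, a ∈ A → app f a ∈ B ∧ pr a (app f a) ∈ R

/-- MLG (about 80 lines).  `|X| ≥ cov(M)`.
PROOF.  Suppose `LessThanCov E om X`.  `F = gr (fun x => sep (pow om) (fun y => ∃ k, k ∈ om ∧
pr (pr x k) y ∈ N)) X`, `B' = pow (pow om)`.  Values are meager: the function
`gr (fun k => sep (pow om) (fun y => pr (pr x k) y ∈ N)) om` and `MC.nwd`.  By `MC.cov` every real is in
a value, contradiction.  (`isFunction_iff`, `maps_iff`, `pr_mem_gr`.) -/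
def S_Mlg : Prop := ∀ (M : Type) [Model M] (X N B H : M), MC X N B H →
  ¬ LessThanCov (Model.E (M := M)) om X

/-- MSM (about 180 lines, from `S_Mac`).  `|X ∩ S| < cov(M)` for meager `S`.
PROOF.  Let `S` be meager via `N₁` (function on `om`), `Z = X ∩ S`, `F` a function on `Z` with meager
values.  `MC.luz` for `R₁ = sep (prod (prod om om) (pow om)) (fun z => snd z ∈ app N₁ (fst (fst z)))`
(sections nowhere dense) gives `C`: every `z ∈ Z` is a value of `C`: otherwise `z ∈ X` is in no
`N₁ k`, but `z ∈ S`.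
For `c ∈ Z` the set `F c` is meager, so by `S_Mac` there is a function `g` on `Z` such that for `c ∈ Z`,
`app g c` is a function on `om` with nowhere dense values (sets of reals: elements of
`pow (pow om)`; intersect with `pow om` first), which cover `app F c`
(`B` = the set of the functions from `om` to `pow (pow om)`, a subset of
`pow (prod om (pow (pow om)))`).  `R₂` = the set of all `((k, i), z)` with `k, i ∈ om`,
`z ⊆ om` such that for some `c ∈ Z`: `pr k c ∈ C` and `z ∈ app (app g c) i`.  The sections are nowhere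
dense: for given `k` there is at most one such `c` (if there is none the section is empty, and
`NwP` of the empty set is clear: `y' = y`, `n' = n`).  `MC.luz` for `R₂`: `x ∈ X` which is in no section.
`y = x`: if `x ∈ F c`, `c ∈ Z`, then `x ∈ app (app g c) i` for some `i`, and `pr k c ∈ C` for some
`k`, contradiction. -/
def S_Msm : Prop := S_Mac → ∀ (M : Type) [Model M], Ch M → ∀ (X N B H : M), MC X N B H →
  ∀ S Z : M, Meager (Model.E (M := M)) om S → (∀ z, z ∈ Z ↔ z ∈ X ∧ z ∈ S) →
    LessThanCov (Model.E (M := M)) om Z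

/-- MRO (about 60 lines).  Rothberger spaces are Menger spaces.
PROOF.  `s' = gr (fun n => {app s n}) om`; `{U}` is finite (`finiteSet_iff`, `KFin.sing`). -/
def S_Mro : Prop := ∀ (M : Type) [Model M] (op : M → Prop) (X : M),
  IsRothberger (Model.E (M := M)) om op X → IsMenger (Model.E (M := M)) om op X

/-- MTL (about 250 lines, from `S_Mac`).  The Menger property for increasing covers, with infinitely
many hits.  `U` is the set of the triples `((i, m), p)` such that `p` is in the open set number `m` of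
the cover number `i`.
PROOF.  Write `U i m = sep Q (fun p => pr (pr i m) p ∈ U)`.  (1) For `k ∈ om`: the sequence of covers
`n ↦ {U (n ∪ k) m : m ∈ om}` (`gr (fun n => img (fun m => ...) om) om`; `n ∪ k ∈ om`: it is the maximum).
Menger: `s`.  For `n ∈ om` the set `app s n` is a finite set of sets `U (n ∪ k) m`; by induction over
finite sets (`KFin` induction, or `KFin.bdd'` in `Br/ConvA.lean` applied to
`R k' V : V = U (n ∪ k) m' → ...`) there is `m ∈ om` with `V ⊆ U (n ∪ k) m` for all `V ∈ app s n`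
(monotone).  `a n` = the least such `m` (`least`).  So for each `k ∈ om` there is a function `a` from `om`
to `om` such that every `p ∈ Q` is in `U (n ∪ k) (a n)` for some `n ∈ om`.
(2) `S_Mac` with `A = om`, `B` = the set of the functions from `om` to `om` (subset of `pow (prod om om)`),
`R` = this relation (`sep`): `k ↦ a_k`.
(3) For `i ∈ om` let `g i` be the least `m ∈ om` such that `a_k n ⊆ m` for all `k, n ∈ succ i`
(it exists: induction on `i`, or the union of finitely many natural numbers).  Let `p ∈ Q`, `k ∈ om`: `n`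
with `p ∈ U (n ∪ k) (a_k n)`; `i = n ∪ k`; `k, n ∈ succ i`, so `a_k n ⊆ g i`, and `p ∈ U i (g i)` by
monotonicity (for natural numbers `m ⊆ m'` means `m ∈ m'` or `m = m'`). -/
def S_Mtl : Prop := S_Mac → ∀ (M : Type) [Model M], Ch M → ∀ (op : M → Prop) (Q U : M),
  IsMenger (Model.E (M := M)) om op Q →
  (∀ i m, i ∈ (om : M) → m ∈ (om : M) → op (sep Q (fun p => pr (pr i m) p ∈ U))) →
  (∀ i p, i ∈ (om : M) → p ∈ Q → ∃ m, m ∈ (om : M) ∧ pr (pr i m) p ∈ U) →
  (∀ i m m' p, i ∈ (om : M) → m ∈ (om : M) → m' ∈ (om : M) → m ⊆ m' → pr (pr i m) p ∈ U →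
    pr (pr i m') p ∈ U) →
  ∃ g : M, IsFn g ∧ dom g = om ∧ (∀ i, i ∈ (om : M) → app g i ∈ (om : M)) ∧
    ∀ p, p ∈ Q → ∀ k, k ∈ (om : M) → ∃ i, i ∈ (om : M) ∧ (k ∈ i ∨ k = i) ∧
      pr (pr i (app g i)) p ∈ U

/-- MNF (about 200 lines, from `S_Mac`).  Reduction of the Menger property of `D = X × Y` to
increasing covers: it is enough to find, for every relation `O`, a function `h ∈ H`.
PROOF.  Let `u` be a sequence of open covers of `D`.  `O` = the set of all `((n, m), p)`, `n, m ∈ om`,
`p = (x, y) ∈ D`, such that there are `j, j' ∈ m` (elements of the natural number `m`) with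
`pr j x ∈ B`, `pr j' y ∈ B` and some `V ∈ app u n` which contains all `(x', y') ∈ D` with
`pr j x' ∈ B`, `pr j' y' ∈ B`.
(1) For `n ∈ om`, `p = (x, y) ∈ D` there is `m`: `p ∈ V ∈ app u n`, `V` is open: some `k ∈ om` such that `V`
contains all `(x', y') ∈ D` which agree with `(x, y)` below `k`; `MC.bas₁` for `(x, k)` and `(y, k)`:
`j`, `j'`; `m` = the maximum of `succ j`, `succ j'` (`succ j ∪ succ j'`).
(2) monotone in `m`: clear.
(3) open sets: if `((n, m), (x, y)) ∈ O`, then by `MC.bas₂` for `(j, x)`, `(j', y)` there is `k ∈ om` such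
that `((n, m), (x', y')) ∈ O` for all `(x', y') ∈ D` which agree with `(x, y)` below `k`.
(4) if `h` is a function from `om` to `om` such that every `p ∈ D` has some `n ∈ om` with
`((n, h n), p) ∈ O`, then there is a selection: by `S_Mac` (for `A` = the set of the `((n, j), j')`, `n`,
`j`, `j' ∈ om`, for which such a `V` exists, `B` = the union of the range of `u`) choose
`Φ (n, j, j') = V`; `s n = ` the image under `Φ` of the set of the `(j, j')`, `j, j' ∈ h n`, with
`((n, j), j') ∈ A`: it is finite (`KFin`: the product of two natural numbers is finite: union over `j` of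
images; `KFin.img`, `KFin.subset`, union of finitely many finite sets), contained in `app u n`, and
covers. -/
def S_Mnf : Prop := S_Mac → ∀ (M : Type) [Model M], Ch M → ∀ (X N B H Y D : M), MC X N B H →
  (∀ y, y ∈ Y → y ⊆ om) → (∀ p, p ∈ D ↔ ∃ x y, x ∈ X ∧ y ∈ Y ∧ p = pr x y) →
  (∀ O : M,
    (∀ n x y, n ∈ (om : M) → x ∈ X → y ∈ Y → ∃ m, m ∈ (om : M) ∧ pr (pr n m) (pr x y) ∈ O) →
    (∀ n m m' x y, n ∈ (om : M) → m ∈ (om : M) → m' ∈ (om : M) → m ⊆ m' → x ∈ X → y ∈ Y →
      pr (pr n m) (pr x y) ∈ O → pr (pr n m') (pr x y) ∈ O) →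
    (∀ n m x y, n ∈ (om : M) → m ∈ (om : M) → x ∈ X → y ∈ Y → pr (pr n m) (pr x y) ∈ O →
      ∃ k, k ∈ (om : M) ∧ ∀ x' y', x' ∈ X → y' ∈ Y → AgreeBelow (Model.E (M := M)) k x x' →
        AgreeBelow (Model.E (M := M)) k y y' → pr (pr n m) (pr x' y') ∈ O) →
    ∃ h : M, IsFn h ∧ dom h = om ∧ (∀ n, n ∈ (om : M) → app h n ∈ (om : M)) ∧
      ∀ x y, x ∈ X → y ∈ Y → ∃ n, n ∈ (om : M) ∧ pr (pr n (app h n)) (pr x y) ∈ O) →
  IsMenger (Model.E (M := M)) om (IsOpenSubsetOfProduct (Model.E (M := M)) om X Y D) D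

/-- MPR (about 200 lines, from `S_Mac`, `S_Mtl`, `S_Mnf`).  The product theorem.
PROOF.  Let `D` be the product; use `S_Mnf`; let `O` be given.  Suppose no `h` as desired exists; so for
every `h ∈ H` (`MC.hfn`) there are `x ∈ X`, `y ∈ Y` with `((n, h n), (x, y)) ∉ O` for all `n ∈ om`.  By
`S_Mac` (`A = H`, `B = prod X Y`) choose `h ↦ (x_h, y_h)`; `J = gr (fun h => fst (app f h)) H`.
For `x ∈ X` let `U_x` be the set of all `((i, m), (y, y'))` with `i, m ∈ om`, `y, y' ∈ Y` and
`((i, m), (x, y)) ∈ O`, `((i, m), (x, y')) ∈ O`.  The assumptions of `S_Mtl` for `Q = prod Y Y` hold: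
open: the third property of `O` for `(x, y)` and `(x, y')` and the maximum of the two numbers `k`; cover:
the maximum of the two numbers `m` (monotone).  So there is a function `g` from `om` to `om` with: for all
`y, y' ∈ Y`, `k ∈ om` there is `i ∈ om`, `k ≤ i` with `((i, g i), (x, y)) ∈ O`, `((i, g i), (x, y')) ∈ O`.  By
`S_Mac` (`A = X`, `B` = functions from `om` to `om`) choose `x ↦ g_x`; `G` = the set of all
`((x, n), app g_x n)`.  `MC.star`: `h, h' ∈ H`, `x = J h = J h'`, `k`.  Take `i` for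
`y_h`, `y_{h'}`, `k`.  `g_x i ≤ h i` or `g_x i ≤ h' i`; so by monotonicity
`((i, h i), (x, y_h)) ∈ O` or `((i, h' i), (x, y_{h'})) ∈ O`, contradiction.
(For natural numbers: `v ∈ a` or `v = a` implies `v ⊆ a`.)  The product `Y × Y`: the set `Q = prod Y Y`
satisfies `IsProd E Q Y Y`. -/
def S_Mpr : Prop := S_Mac → S_Mtl → S_Mnf → ∀ (M : Type) [Model M], Ch M → ∀ (X N B H : M),
  MC X N B H → ∀ Y : M, (∀ y, y ∈ Y → y ⊆ om) → MengerProduct (Model.E (M := M)) om Y Y →
    MengerProduct (Model.E (M := M)) om X Y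

end Pool.Agent.LZ
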